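import Mathlib
import Pool.Agent.Helper233.CI.Holo

/-!
Gleason decomposition (after Leibenson) for bounded holomorphic functions on the unit ball,
at an arbitrary point of the ball.
-/

set_option autoImplicit false

open Metric Set Filter Topology
open Pool.Agent.Helper233.CI

namespace Pool.Agent.H326R3.CB

/-- the space -/
abbrev V (m : ℕ) := EuclideanSpace ℂ (Fin m)

variable {m : ℕ}

/-- the segment from `p` to `z` -/
noncomputable def sg (p z : V m) (t : ℝ) : V m := p + (t : ℂ) • (z - p)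

lemma sg_eq (p z : V m) (t : ℝ) : sg p z t = ((1 - t : ℝ) : ℂ) • p + (t:ℂ) • z := by
  unfold sg
  push_cast; rw [sub_smul, one_smul, smul_sub]; abel

lemma sg_norm (p z : V m) {t : ℝ} (h0 : 0 ≤ t) (h1 : t ≤ 1) :
    ‖sg p z t‖ ≤ (1 - t) * ‖p‖ + t * ‖z‖ := by
  rw [sg_eq]
  refine (norm_add_le _ _).trans ?_
  rw [norm_smul, norm_smul, Complex.norm_real, Complex.norm_real, Real.norm_of_nonneg (by linarith),
    Real.norm_of_nonneg h0]

lemma sg_lt {p z : V m} {r : ℝ} (hp : ‖p‖ < r) (hz : ‖z‖ < r) {t : ℝ} (h0 : 0 ≤ t) (h1 : t ≤ 1) :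
    ‖sg p z t‖ < r := by
  refine (sg_norm p z h0 h1).trans_lt ?_
  rcases eq_or_lt_of_le h1 with h | h
  · subst h; simpa using hz
  · have h2 : (1 - t) * ‖p‖ < (1 - t) * r := by
      have : 0 < 1 - t := by linarith
      gcongr
    have h3 : t * ‖z‖ ≤ t * r := by gcongr
    linarith

lemma sg_cont (p z : V m) : Continuous (sg p z) := by
  unfold sg; fun_prop

lemma cauchy_dir {F : V m → ℂ} (hF : DifferentiableOn ℂ F (ball 0 1)) {M : ℝ}
    (hM : ∀ z ∈ ball (0:V m) 1, ‖F z‖ ≤ M) (y v : V m) {ρ : ℝ} (hρ : 0 < ρ)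
    (hmem : ∀ η : ℂ, ‖η‖ ≤ ρ → ‖y + η • v‖ < 1) : ‖fderiv ℂ F y v‖ ≤ M / ρ := by
  have hd : ∀ η : ℂ, ‖η‖ ≤ ρ → HasDerivAt (fun η : ℂ => F (y + η • v))
      (fderiv ℂ F (y + η • v) v) η := by
    intro η hη
    have h1 : HasFDerivAt F (fderiv ℂ F (y + η • v)) (y + η • v) :=
      (hF.differentiableAt (isOpen_ball.mem_nhds (by simpa using hmem η hη))).hasFDerivAt
    have h2 : HasDerivAt (fun η : ℂ => y + η • v) v η := by
      simpa using ((hasDerivAt_id η).smul_const v).const_add y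
    exact h1.comp_hasDerivAt η h2
  have h0 := (hd 0 (by simpa using hρ.le)).deriv
  have hdc : DiffContOnCl ℂ (fun η : ℂ => F (y + η • v)) (ball 0 ρ) := by
    apply DifferentiableOn.diffContOnCl
    rw [closure_ball _ hρ.ne']
    intro η hη
    rw [mem_closedBall_zero_iff] at hη
    exact (hd η hη).differentiableAt.differentiableWithinAt
  have := Complex.norm_deriv_le_of_forall_mem_sphere_norm_le (c := (0:ℂ)) hρ hdc (C := M) (by
    intro η hη
    rw [mem_sphere_zero_iff_norm] at hη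
    exact hM _ (by simpa using hmem η hη.le))
  rw [h0] at this
  simpa using this

lemma fd_cont {F : V m → ℂ} (hF : DifferentiableOn ℂ F (ball 0 1)) {p z : V m} (hp : ‖p‖ < 1)
    (hz : ‖z‖ < 1) (v : V m) : ContinuousOn (fun t : ℝ => fderiv ℂ F (sg p z t) v) (Icc 0 1) := by
  refine (Holo.differentiableOn_fderiv_apply isOpen_ball hF v).continuousOn.comp
    (sg_cont p z).continuousOn ?_
  intro t ht
  simpa using sg_lt hp hz ht.1 ht.2

lemma fd_int {F : V m → ℂ} (hF : DifferentiableOn ℂ F (ball 0 1)) {p z : V m} (hp : ‖p‖ < 1)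
    (hz : ‖z‖ < 1) (v : V m) :
    IntervalIntegrable (fun t : ℝ => fderiv ℂ F (sg p z t) v) MeasureTheory.volume 0 1 := by
  apply ContinuousOn.intervalIntegrable
  rw [uIcc_of_le zero_le_one]
  exact fd_cont hF hp hz v

lemma ftc {F : V m → ℂ} (hF : DifferentiableOn ℂ F (ball 0 1)) {p z : V m} (hp : ‖p‖ < 1)
    (hz : ‖z‖ < 1) : ∫ t in (0:ℝ)..1, fderiv ℂ F (sg p z t) (z - p) = F z - F p := by
  have h1 : ∀ t ∈ uIcc (0:ℝ) 1, HasDerivAt (fun t : ℝ => F (sg p z t))
      (fderiv ℂ F (sg p z t) (z - p)) t := by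
    intro t ht
    rw [uIcc_of_le zero_le_one] at ht
    have h1 : HasFDerivAt F (fderiv ℂ F (sg p z t)) (sg p z t) :=
      (hF.differentiableAt (isOpen_ball.mem_nhds (by simpa using sg_lt hp hz ht.1 ht.2))).hasFDerivAt
    have h2 : HasDerivAt (fun η : ℂ => p + η • (z - p)) (z - p) (t : ℂ) := by
      simpa using ((hasDerivAt_id (t:ℂ)).smul_const (z - p)).const_add p
    exact (HasFDerivAt.comp_hasDerivAt (t:ℂ) h1 h2).comp_ofReal
  rw [intervalIntegral.integral_eq_sub_of_hasDerivAt h1 (fd_int hF hp hz _)]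
  simp [sg]

/-- the Leibenson operator -/
noncomputable def gam (F : V m → ℂ) (p e z : V m) : ℂ := ∫ t in (0:ℝ)..1, fderiv ℂ F (sg p z t) e

lemma int_rsqrt : ∫ t in (0:ℝ)..1, (1 - t) ^ (-(1/2) : ℝ) = 2 := by
  rw [intervalIntegral.integral_comp_sub_left (fun x : ℝ => x ^ (-(1/2) : ℝ)) 1]
  rw [sub_self, sub_zero, integral_rpow (Or.inl (by norm_num))]
  norm_num

lemma int_rsqrt' : IntervalIntegrable (fun t : ℝ => (1 - t) ^ (-(1/2) : ℝ)) MeasureTheory.volume 0 1 := by
  have := (intervalIntegral.intervalIntegrable_rpow' (a := 1) (b := 0) (r := -(1/2)) (by norm_num)).comp_sub_left 1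
  simpa using this

/-- boundedness -/
theorem gam_bd {F : V m → ℂ} (hF : DifferentiableOn ℂ F (ball 0 1)) {M : ℝ}
    (hM : ∀ z ∈ ball (0:V m) 1, ‖F z‖ ≤ M) {e : V m} (hen : ‖e‖ = 1) {z p : V m}
    (hz : ‖z‖ < 1) (hp : ‖p‖ < 1) :
    ‖gam F p e z‖ ≤ 44 * M / (1 - ‖p‖) ^ 2 := by
  unfold gam
  have hM0 : 0 ≤ M := (norm_nonneg _).trans (hM 0 (by simp))
  set δ : ℝ := 1 - ‖p‖ with hδ
  have hδ0 : 0 < δ := by rw [hδ]; linarith
  have hδ1 : δ ≤ 1 := by rw [hδ]; linarith [norm_nonneg p]
  by_cases hcase : ‖z‖ ≤ (1 + ‖p‖) / 2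
  · -- interior case
    have hb : ∀ t ∈ uIoc (0:ℝ) 1, ‖fderiv ℂ F (sg p z t) e‖ ≤ 4 * M / δ := by
      intro t ht
      rw [uIoc_of_le zero_le_one] at ht
      have := cauchy_dir hF hM (sg p z t) e (ρ := δ / 4) (by positivity) (by
        intro η hη
        refine (norm_add_le _ _).trans_lt ?_
        rw [norm_smul, hen]
        have h1 := sg_norm p z ht.1.le ht.2
        have h2 : (1 - t) * ‖p‖ ≤ (1 - t) * ((1 + ‖p‖) / 2) := mul_le_mul_of_nonneg_left (by linarith) (by linarith [ht.2])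
        have h3 : t * ‖z‖ ≤ t * ((1 + ‖p‖) / 2) := mul_le_mul_of_nonneg_left hcase ht.1.le
        linarith)
      refine this.trans (le_of_eq ?_)
      field_simp
    have := intervalIntegral.norm_integral_le_of_norm_le_const hb
    refine this.trans ?_
    rw [sub_zero, abs_one, mul_one]
    rw [div_le_div_iff₀ hδ0 (by positivity)]
    nlinarith [mul_nonneg hM0 hδ0.le, mul_nonneg (mul_nonneg hM0 hδ0.le) (sub_nonneg.2 hδ1)]
  · push Not at hcase
    have hz0 : 0 < ‖z‖ := by linarith [norm_nonneg p]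
    set s : ℂ := inner ℂ z (z - p) with hs
    have hs1 : ‖z‖ * δ / 2 ≤ ‖s‖ := by
      have h1 : s = inner ℂ z z - inner ℂ z p := by rw [hs, inner_sub_right]
      have h2 : (‖z‖:ℝ)^2 - ‖z‖ * ‖p‖ ≤ ‖s‖ := by
        have h3 : ‖(inner ℂ z z : ℂ)‖ = ‖z‖ ^ 2 := by
          rw [inner_self_eq_norm_sq_to_K]; simp
        have h4 : ‖(inner ℂ z p : ℂ)‖ ≤ ‖z‖ * ‖p‖ := norm_inner_le_norm z p
        have h5 := norm_sub_norm_le (inner ℂ z z : ℂ) (inner ℂ z p)
        rw [← h1] at h5
        linarith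
      have : ‖z‖ * δ / 2 ≤ (‖z‖:ℝ)^2 - ‖z‖ * ‖p‖ := by
        rw [hδ]; nlinarith
      linarith
    have hs0 : s ≠ 0 := by
      intro h
      rw [h, norm_zero] at hs1
      have : 0 < ‖z‖ * δ / 2 := by positivity
      linarith
    set a : ℂ := inner ℂ z e / s with ha
    have ha1 : ‖a‖ ≤ 2 / δ := by
      rw [ha, norm_div]
      have h4 : ‖(inner ℂ z e : ℂ)‖ ≤ ‖z‖ := by
        have := norm_inner_le_norm (𝕜 := ℂ) z e
        rwa [hen, mul_one] at this
      rw [div_le_div_iff₀ (norm_pos_iff.2 hs0) hδ0]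
      nlinarith
    set τ : V m := e - a • (z - p) with hτ
    have hτ0 : (inner ℂ z τ : ℂ) = 0 := by
      rw [hτ, inner_sub_right, inner_smul_right, ← hs, ha]
      field_simp; ring
    have hτn : ‖τ‖ ≤ 5 / δ := by
      have h1 : ‖z - p‖ ≤ 2 := (norm_sub_le _ _).trans (by linarith)
      calc ‖τ‖ ≤ ‖e‖ + ‖a • (z - p)‖ := norm_sub_le _ _
        _ ≤ 1 + 2 / δ * 2 := by rw [hen, norm_smul]; gcongr
        _ ≤ 5 / δ := by
            have : 1 ≤ 1 / δ := by rw [le_div_iff₀ hδ0]; linarith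
            have h2 : 5 / δ = 1 / δ + 2 / δ * 2 := by ring
            linarith
    have hdec : ∀ t : ℝ, fderiv ℂ F (sg p z t) e =
        a * fderiv ℂ F (sg p z t) (z - p) + fderiv ℂ F (sg p z t) τ := by
      intro t
      have h1 := (fderiv ℂ F (sg p z t)).map_sub e (a • (z - p))
      have h2 := (fderiv ℂ F (sg p z t)).map_smul a (z - p)
      rw [hτ, h1, h2, smul_eq_mul]
      ring
    have hint1 : IntervalIntegrable (fun t : ℝ => a * fderiv ℂ F (sg p z t) (z - p)) MeasureTheory.volume 0 1 :=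
      (fd_int hF hp hz _).const_mul _
    have hint2 : IntervalIntegrable (fun t : ℝ => fderiv ℂ F (sg p z t) τ) MeasureTheory.volume 0 1 :=
      fd_int hF hp hz _
    simp only [hdec]
    rw [intervalIntegral.integral_add hint1 hint2, intervalIntegral.integral_const_mul, ftc hF hp hz]
    have hA : ‖a * (F z - F p)‖ ≤ 4 * M / δ := by
      rw [norm_mul]
      have h1 : ‖F z - F p‖ ≤ 2 * M := by
        refine (norm_sub_le _ _).trans ?_
        have := hM z (by simpa using hz)
        have := hM p (by simpa using hp)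
        linarith
      calc ‖a‖ * _ ≤ 2 / δ * (2 * M) := by gcongr
        _ = 4 * M / δ := by ring
    have hB : ‖∫ t in (0:ℝ)..1, fderiv ℂ F (sg p z t) τ‖ ≤ 40 * M / δ ^ 2 := by
      have hgi : IntervalIntegrable (fun t : ℝ => 20 * M / δ ^ 2 * (1 - t) ^ (-(1/2) : ℝ)) MeasureTheory.volume 0 1 :=
        int_rsqrt'.const_mul _
      have hle := intervalIntegral.norm_integral_le_of_norm_le (f := fun t : ℝ => fderiv ℂ F (sg p z t) τ)
        (g := fun t : ℝ => 20 * M / δ ^ 2 * (1 - t) ^ (-(1/2) : ℝ)) (μ := MeasureTheory.volume) (a := 0) (b := 1) zero_le_one (by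
        have : ∀ᵐ t : ℝ, t ≠ 1 := by
          simp [MeasureTheory.ae_iff]
        filter_upwards [this] with t ht1 ht
        have ht2 : t < 1 := lt_of_le_of_ne ht.2 ht1
        have h1t : 0 < 1 - t := by linarith
        have hsq : 0 < √(1 - t) := Real.sqrt_pos.2 h1t
        have hsq2 : √(1 - t) ^ 2 = 1 - t := Real.sq_sqrt h1t.le
        have hsq1 : √(1 - t) ≤ 1 := Real.sqrt_le_one.2 (by linarith [ht.1])
        have := cauchy_dir hF hM (sg p z t) τ (ρ := √(1 - t) * δ ^ 2 / 20) (by positivity) (by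
          intro η hη
          set y := sg p z t with hy
          have hyn : ‖y‖ ≤ 1 - (1 - t) * δ := by
            have h1 := sg_norm p z ht.1.le ht.2
            have h3 : t * ‖z‖ ≤ t * 1 := mul_le_mul_of_nonneg_left hz.le ht.1.le
            rw [hδ]; nlinarith
          have hinner : ‖(inner ℂ y (η • τ) : ℂ)‖ ≤ (1 - t) * (√(1 - t) * δ / 4) := by
            rw [hy, sg_eq, inner_add_left, inner_smul_left, inner_smul_left, inner_smul_right, inner_smul_right, hτ0,
              mul_zero, mul_zero, add_zero, norm_mul, norm_mul]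
            simp only [Complex.conj_ofReal, Complex.norm_real]
            rw [Real.norm_of_nonneg h1t.le]
            have h2 : ‖(inner ℂ p τ : ℂ)‖ ≤ 5 / δ := by
              calc ‖(inner ℂ p τ : ℂ)‖ ≤ ‖p‖ * ‖τ‖ := norm_inner_le_norm p τ
                _ ≤ 1 * (5 / δ) := by gcongr
                _ = 5 / δ := one_mul _
            calc (1 - t) * (‖η‖ * ‖(inner ℂ p τ : ℂ)‖) ≤ (1 - t) * (√(1 - t) * δ ^ 2 / 20 * (5 / δ)) := by gcongr
              _ = (1 - t) * (√(1 - t) * δ / 4) := by field_simp; ring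
          have hητ : ‖η • τ‖ ≤ √(1 - t) * δ / 4 := by
            rw [norm_smul]
            calc ‖η‖ * ‖τ‖ ≤ √(1 - t) * δ ^ 2 / 20 * (5 / δ) := by gcongr
              _ = √(1 - t) * δ / 4 := by field_simp; ring
          have hsqn : ‖y + η • τ‖ ^ 2 < 1 := by
            rw [norm_add_sq (𝕜 := ℂ)]
            have hre : RCLike.re (inner ℂ y (η • τ) : ℂ) ≤ (1 - t) * (√(1 - t) * δ / 4) :=
              (RCLike.re_le_norm _).trans hinner
            have h5 : ‖η • τ‖ ^ 2 ≤ (√(1 - t) * δ / 4) ^ 2 := by gcongr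
            have h6 : ‖y‖ ^ 2 ≤ 1 - (1 - t) * δ := by
              have : 0 ≤ 1 - (1 - t) * δ := (norm_nonneg _).trans hyn
              have h7 : 1 - (1 - t) * δ ≤ 1 := by nlinarith
              calc ‖y‖ ^ 2 ≤ (1 - (1 - t) * δ) ^ 2 := by gcongr
                _ ≤ 1 - (1 - t) * δ := by nlinarith
            have h7 : (√(1 - t) * δ / 4) ^ 2 ≤ (1 - t) * δ / 16 := by
              have : (√(1 - t) * δ / 4) ^ 2 = (1 - t) * δ ^ 2 / 16 := by rw [div_pow, mul_pow, hsq2]; norm_num
              rw [this]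
              have : δ ^ 2 ≤ δ := by nlinarith
              have := mul_le_mul_of_nonneg_left this h1t.le
              linarith
            have h8 : (1 - t) * (√(1 - t) * δ / 4) ≤ (1 - t) * (δ / 4) := by
              apply mul_le_mul_of_nonneg_left _ h1t.le
              nlinarith
            nlinarith [mul_pos h1t hδ0]
          nlinarith [norm_nonneg (y + η • τ)])
        refine this.trans (le_of_eq ?_)
        rw [Real.rpow_neg h1t.le, ← Real.sqrt_eq_rpow]
        field_simp)
        hgi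
      refine hle.trans (le_of_eq ?_)
      rw [intervalIntegral.integral_const_mul, int_rsqrt]; ring
    calc _ ≤ 4 * M / δ + 40 * M / δ ^ 2 := (norm_add_le _ _).trans (add_le_add hA hB)
      _ ≤ 44 * M / δ ^ 2 := by
          have : 4 * M / δ ≤ 4 * M / δ ^ 2 := by
            apply div_le_div_of_nonneg_left (by positivity) (by positivity)
            nlinarith
          have h2 : 44 * M / δ ^ 2 = 4 * M / δ ^ 2 + 40 * M / δ ^ 2 := by ring
          linarith

/-- holomorphy -/
theorem gam_diff {F : V m → ℂ} (hF : DifferentiableOn ℂ F (ball 0 1)) (e : V m) {p : V m}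
    (hp : ‖p‖ < 1) : DifferentiableOn ℂ (gam F p e) (ball 0 1) := by
  set K : V m → ℂ := fun y => fderiv ℂ F y e with hK
  have hKd : DifferentiableOn ℂ K (ball 0 1) := Holo.differentiableOn_fderiv_apply isOpen_ball hF e
  have hKc : ContinuousOn (fderiv ℂ K) (ball 0 1) :=
    (Holo.contDiffOn_of_differentiableOn isOpen_ball hKd 1).continuousOn_fderiv_of_isOpen isOpen_ball
      (by norm_num)
  intro x0 hx0
  rw [mem_ball_zero_iff] at hx0
  obtain ⟨r, hr0, hr1⟩ := exists_between (max_lt hp hx0)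
  obtain ⟨hpr, hxr⟩ := max_lt_iff.1 hr0
  have hcomp : IsCompact (closedBall (0:V m) r) := isCompact_closedBall _ _
  obtain ⟨C, hC⟩ := hcomp.exists_bound_of_continuousOn
    (hKc.mono (closedBall_subset_ball hr1))
  refine (HasFDerivAt.differentiableAt (f' := ∫ t in (0:ℝ)..1, (t:ℂ) • fderiv ℂ K (sg p x0 t))
    ?_).differentiableWithinAt
  have hC0 : 0 ≤ C := (norm_nonneg _).trans (hC 0 (by simp; linarith [norm_nonneg p]))
  refine intervalIntegral.hasFDerivAt_integral_of_dominated_of_fderiv_le (s := ball (0:V m) r)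
    (F := fun x t => K (sg p x t)) (F' := fun x t => (t:ℂ) • fderiv ℂ K (sg p x t))
    (bound := fun _ => C) (isOpen_ball.mem_nhds (by simpa using hxr)) ?_ ?_ ?_ ?_ ?_ ?_
  · filter_upwards [isOpen_ball.mem_nhds (show x0 ∈ ball (0:V m) r by simpa using hxr)] with x hx
    rw [mem_ball_zero_iff] at hx
    have h1 := (fd_int hF hp (hx.trans hr1) e)
    exact (intervalIntegrable_iff.1 h1).aestronglyMeasurable
  · exact fd_int hF hp hx0 e
  · have h1 : ContinuousOn (fun t : ℝ => (t:ℂ) • fderiv ℂ K (sg p x0 t)) (Icc 0 1) := by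
      refine Complex.continuous_ofReal.continuousOn.smul ?_
      refine hKc.comp (sg_cont p x0).continuousOn ?_
      intro t ht
      simpa using sg_lt hp hx0 ht.1 ht.2
    have h2 : IntervalIntegrable (fun t : ℝ => (t:ℂ) • fderiv ℂ K (sg p x0 t)) MeasureTheory.volume 0 1 := by
      apply ContinuousOn.intervalIntegrable
      rw [uIcc_of_le zero_le_one]
      exact h1
    exact (intervalIntegrable_iff.1 h2).aestronglyMeasurable
  · refine Eventually.of_forall fun t ht x hx => ?_
    rw [uIoc_of_le zero_le_one] at ht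
    rw [mem_ball_zero_iff] at hx
    rw [norm_smul, Complex.norm_real, Real.norm_of_nonneg ht.1.le]
    have h1 := hC (sg p x t) (by simpa using (sg_lt hpr hx ht.1.le ht.2).le)
    calc t * ‖fderiv ℂ K (sg p x t)‖ ≤ 1 * C := by
          gcongr
          exact ht.2
      _ = C := one_mul C
  · exact intervalIntegrable_const
  · refine Eventually.of_forall fun t ht x hx => ?_
    rw [uIoc_of_le zero_le_one] at ht
    rw [mem_ball_zero_iff] at hx
    have h1 : HasFDerivAt K (fderiv ℂ K (sg p x t)) (sg p x t) :=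
      (hKd.differentiableAt (isOpen_ball.mem_nhds
        (by simpa using sg_lt hp (hx.trans hr1) ht.1.le ht.2))).hasFDerivAt
    have h2 : HasFDerivAt (fun x : V m => sg p x t) ((t:ℂ) • ContinuousLinearMap.id ℂ (V m)) x := by
      unfold sg
      exact (((hasFDerivAt_id x).sub_const p).const_smul (t:ℂ)).const_add p
    have h3 := h1.comp x h2
    refine h3.congr_fderiv ?_
    ext v
    simp

/-- the decomposition -/
theorem gleason {F : V m → ℂ} (hF : DifferentiableOn ℂ F (ball 0 1)) {p z : V m} (hp : ‖p‖ < 1)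
    (hz : ‖z‖ < 1) :
    F z - F p = ∑ i, (z i - p i) * gam F p (EuclideanSpace.single i (1:ℂ)) z := by
  rw [← ftc hF hp hz]
  unfold gam
  have h1 : ∀ t : ℝ, fderiv ℂ F (sg p z t) (z - p) =
      ∑ i, (z i - p i) * fderiv ℂ F (sg p z t) (EuclideanSpace.single i (1:ℂ)) := by
    intro t
    have h2 : z - p = ∑ i, (z i - p i) • EuclideanSpace.single i (1:ℂ) := by
      ext j
      simp [Finset.sum_apply, Pi.single_apply]
    conv_lhs => rw [h2, map_sum]
    simp only [map_smul, smul_eq_mul]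
  simp only [h1]
  rw [intervalIntegral.integral_finsetSum]
  · refine Finset.sum_congr rfl fun i _ => ?_
    rw [intervalIntegral.integral_const_mul]
  · intro i _
    exact (fd_int hF hp hz _).const_mul _

end Pool.Agent.H326R3.CB
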