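import Mathlib
import Pool.Agent.H326R3.CB1
import Pool.Agent.H720R2.Cor.Lim

/-!
The Banach algebra of bounded holomorphic functions on the unit ball.
-/

set_option autoImplicit false

open Metric Set Filter Topology

namespace Pool.Agent.H326R3.CB

variable {m : ℕ}

/-- the open ball as a type -/
abbrev Bt (m : ℕ) : Type := ↥(ball (0 : V m) 1)

instance : Nonempty (Bt m) := ⟨⟨0, by simp⟩⟩

/-- the algebra `H^∞` -/
noncomputable def Hi (m : ℕ) : Subalgebra ℂ (BoundedContinuousFunction (Bt m) ℂ) where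
  carrier := {F | ∃ f : V m → ℂ, DifferentiableOn ℂ f (ball 0 1) ∧ ∀ z : Bt m, F z = f z}
  mul_mem' := by
    rintro F G ⟨f, hf, hF⟩ ⟨g, hg, hG⟩
    refine ⟨fun z => f z * g z, hf.mul hg, fun z => ?_⟩
    rw [BoundedContinuousFunction.mul_apply, hF, hG]
  add_mem' := by
    rintro F G ⟨f, hf, hF⟩ ⟨g, hg, hG⟩
    refine ⟨fun z => f z + g z, hf.add hg, fun z => ?_⟩
    rw [BoundedContinuousFunction.add_apply, hF, hG]
  algebraMap_mem' := by
    intro c
    exact ⟨fun _ => c, differentiableOn_const _, fun z => rfl⟩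

theorem isClosed_Hi : IsClosed ((Hi m : Subalgebra ℂ (BoundedContinuousFunction (Bt m) ℂ)) :
    Set (BoundedContinuousFunction (Bt m) ℂ)) := by
  apply IsSeqClosed.isClosed
  intro F G hF hG
  choose f hf hFf using hF
  have hbd : ∃ C : ℝ, ∀ k, ‖F k‖ ≤ C := by
    obtain ⟨C, hC⟩ := hG.norm.bddAbove_range
    exact ⟨C, fun k => hC ⟨k, rfl⟩⟩
  obtain ⟨C, hC⟩ := hbd
  obtain ⟨g, hg, -, hlim⟩ := Pool.Agent.H720R2.Cor.ultra_lim (isOpen_ball (x := (0 : V m)) (ε := 1))
    (C := C) (Ultrafilter.of (atTop : Filter ℕ)) f hf (fun k z hz => by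
      have := (F k).norm_coe_le_norm ⟨z, hz⟩
      rw [hFf] at this
      exact this.trans (hC k))
  refine ⟨g, hg, fun z => ?_⟩
  have h1 : Tendsto (fun k => f k z) atTop (𝓝 (G z)) := by
    have h2 := ((BoundedContinuousFunction.tendsto_iff_tendstoUniformly.1 hG).tendsto_at z)
    refine h2.congr (fun k => ?_)
    exact hFf k z
  exact tendsto_nhds_unique (h1.mono_left (Ultrafilter.of_le _)) (hlim z z.2)

noncomputable instance : NormedCommRing (Hi m) := inferInstance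
noncomputable instance : NormedAlgebra ℂ (Hi m) := inferInstance
instance : CompleteSpace (Hi m) := isClosed_Hi.completeSpace_coe

/-- elements of `H^∞` -/
noncomputable def mk {f : V m → ℂ} (hf : DifferentiableOn ℂ f (ball 0 1)) {C : ℝ}
    (hC : ∀ z ∈ ball (0 : V m) 1, ‖f z‖ ≤ C) : Hi m :=
  ⟨BoundedContinuousFunction.ofNormedAddCommGroup (fun z : Bt m => f z)
    (continuousOn_iff_continuous_domRestrict.1 hf.continuousOn) C (fun z => hC z z.2),
    f, hf, fun z => rfl⟩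

theorem mk_apply {f : V m → ℂ} (hf : DifferentiableOn ℂ f (ball 0 1)) {C : ℝ}
    (hC : ∀ z ∈ ball (0 : V m) 1, ‖f z‖ ≤ C) (z : Bt m) : (mk hf hC).1 z = f z := rfl

theorem Hi.ext {F G : Hi m} (h : ∀ z : Bt m, F.1 z = G.1 z) : F = G := by
  apply Subtype.ext
  ext z
  exact h z

theorem Hi.norm_le {F : Hi m} {C : ℝ} (hC : 0 ≤ C) (h : ∀ z : Bt m, ‖F.1 z‖ ≤ C) : ‖F‖ ≤ C :=
  (BoundedContinuousFunction.norm_le hC).2 h

theorem Hi.le_norm (F : Hi m) (z : Bt m) : ‖F.1 z‖ ≤ ‖F‖ := F.1.norm_coe_le_norm z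

/-- evaluation as a ring homomorphism -/
theorem Hi.mul_apply (F G : Hi m) (z : Bt m) : (F * G).1 z = F.1 z * G.1 z := rfl

theorem Hi.add_apply (F G : Hi m) (z : Bt m) : (F + G).1 z = F.1 z + G.1 z := rfl

theorem Hi.one_apply (z : Bt m) : (1 : Hi m).1 z = 1 := rfl

theorem Hi.pow_apply (F : Hi m) (k : ℕ) (z : Bt m) : (F ^ k).1 z = F.1 z ^ k := by
  induction k with
  | zero => simp [Hi.one_apply]
  | succ k ih => rw [pow_succ, Hi.mul_apply, ih, pow_succ]

theorem Hi.sum_apply {ι : Type*} (s : Finset ι) (F : ι → Hi m) (z : Bt m) :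
    (∑ i ∈ s, F i).1 z = ∑ i ∈ s, (F i).1 z := by
  classical
  induction s using Finset.induction_on with
  | empty => rfl
  | insert i s hi ih => rw [Finset.sum_insert hi, Finset.sum_insert hi, Hi.add_apply, ih]

open WeakDual in
theorem char_le (χ : characterSpace ℂ (Hi m)) (F : Hi m) : ‖χ F‖ ≤ ‖F‖ := by
  have h := AlgHom.apply_mem_spectrum χ F
  have h2 := spectrum.norm_le_norm_mul_of_mem h
  have h3 : ‖(1 : Hi m)‖ ≤ 1 := Hi.norm_le zero_le_one (fun z => by rw [Hi.one_apply]; simp)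
  calc ‖χ F‖ ≤ ‖F‖ * ‖(1 : Hi m)‖ := h2
    _ ≤ ‖F‖ * 1 := by gcongr
    _ = ‖F‖ := mul_one _

end Pool.Agent.H326R3.CB
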