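import Mathlib
import Pool.Agent.H326R3.CB2

/-!
A kernel on the strip and sums of translates.
-/

set_option autoImplicit false

open Metric Set Filter Topology Complex

namespace Pool.Agent.H326R3.CB

/-- a slope of a bounded holomorphic function decays -/
theorem dsl_bd {U : Set ℂ} (hU : IsOpen U) {F : ℂ → ℂ} (hF : DifferentiableOn ℂ F U) {M : ℝ}
    (hM : ∀ s ∈ U, ‖F s‖ ≤ M) {c : ℂ} (hc : c ∈ U) :
    ∃ C : ℝ, 0 ≤ C ∧ ∀ s ∈ U, (1 + ‖s - c‖) * ‖dslope F c s‖ ≤ C := by
  obtain ⟨ε, hε, hεU⟩ := Metric.isOpen_iff.1 hU c hc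
  obtain ⟨r, hr⟩ : ∃ r : ℝ, r = min (ε / 2) 1 := ⟨_, rfl⟩
  have hr0 : 0 < r := hr ▸ lt_min (by positivity) one_pos
  have hr1 : r ≤ 1 := hr ▸ min_le_right _ _
  have hr2 : r ≤ ε / 2 := hr ▸ min_le_left _ _
  have hrU : closedBall c r ⊆ U := (closedBall_subset_ball (by linarith)).trans hεU
  have hd : DifferentiableOn ℂ (dslope F c) U :=
    (Complex.differentiableOn_dslope (hU.mem_nhds hc)).2 hF
  obtain ⟨C1, hC1⟩ := (isCompact_closedBall c r).exists_bound_of_continuousOn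
    (hd.continuousOn.mono hrU)
  have hM0 : 0 ≤ M := (norm_nonneg _).trans (hM c hc)
  refine ⟨2 * |C1| + 2 * M * (1 / r + 1), by positivity, fun s hs => ?_⟩
  have h5 : 0 ≤ 2 * M * (1 / r + 1) := by positivity
  by_cases h : ‖s - c‖ ≤ r
  · have h1 := hC1 s (by rwa [mem_closedBall, dist_eq_norm])
    have h3 : (1 + ‖s - c‖) * ‖dslope F c s‖ ≤ 2 * |C1| := by
      have h6 := le_abs_self C1
      have h4 := norm_nonneg (dslope F c s)
      exact mul_le_mul (by linarith) (by linarith) h4 (by norm_num)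
    linarith
  · push Not at h
    have h1 : ‖s - c‖ * ‖dslope F c s‖ ≤ 2 * M := by
      rw [← norm_smul, sub_smul_dslope]
      exact (norm_sub_le _ _).trans (by linarith [hM s hs, hM c hc])
    have h2 : ‖dslope F c s‖ ≤ 2 * M / r := by
      rw [le_div_iff₀ hr0]
      nlinarith [norm_nonneg (dslope F c s)]
    have h3 : 2 * M * (1 / r + 1) = 2 * M / r + 2 * M := by ring
    nlinarith [abs_nonneg C1]

/-- the numerator of the kernel -/
noncomputable def Kf (u : ℂ) : ℂ := -I * (exp (I * u) - 1)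

/-- the kernel `(exp (iu) - 1) / (iu)` -/
noncomputable def KK (u : ℂ) : ℂ := dslope Kf 0 u

theorem KK_mul (u : ℂ) : u * KK u = -I * (exp (I * u) - 1) := by
  have := sub_smul_dslope Kf 0 u
  rw [sub_zero, smul_eq_mul] at this
  unfold KK
  rw [this]
  simp [Kf]

theorem KK_zero : KK 0 = 1 := by
  unfold KK
  rw [dslope_same]
  have h : HasDerivAt Kf (-I * (exp (I * 0) * (I * 1))) 0 :=
    (((((hasDerivAt_id (0:ℂ)).const_mul I).cexp).sub_const 1).const_mul (-I))
  rw [h.deriv]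
  simp

theorem KK_diff : Differentiable ℂ KK := by
  rw [← differentiableOn_univ]
  exact (Complex.differentiableOn_dslope univ_mem).2
    (by unfold Kf; fun_prop)

theorem KK_int {j : ℤ} (hj : j ≠ 0) : KK (2 * Real.pi * j) = 0 := by
  have h := KK_mul (2 * Real.pi * j)
  have h1 : exp (I * (2 * Real.pi * j)) = 1 := by
    rw [Complex.exp_eq_one_iff]
    exact ⟨j, by ring⟩
  rw [h1, sub_self, mul_zero] at h
  rcases mul_eq_zero.1 h with h2 | h2
  · exfalso
    have h3 : (2 * (Real.pi:ℂ) * (j:ℂ)) ≠ 0 := by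
      apply mul_ne_zero
      · apply mul_ne_zero two_ne_zero
        exact_mod_cast Real.pi_ne_zero
      · exact_mod_cast hj
    exact h3 h2
  · exact h2

theorem KK_bd : ∃ C : ℝ, 0 ≤ C ∧ ∀ u : ℂ, |u.im| < Real.pi → (1 + ‖u‖) * ‖KK u‖ ≤ C := by
  have hU : IsOpen {u : ℂ | |u.im| < Real.pi} :=
    isOpen_lt (Complex.continuous_im.abs) continuous_const
  obtain ⟨C, h0, hC⟩ := dsl_bd hU (F := Kf) (by unfold Kf; fun_prop) (M := Real.exp Real.pi + 1)
    (by
      intro s hs
      have h1 : ‖exp (I * s)‖ ≤ Real.exp Real.pi := by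
        rw [Complex.norm_exp, Real.exp_le_exp]
        have h2 : |s.im| < Real.pi := hs
        simp only [Complex.mul_re, I_re, I_im, zero_mul, one_mul, zero_sub]
        linarith [neg_abs_le s.im]
      unfold Kf
      rw [norm_mul, norm_neg, norm_I, one_mul]
      exact (norm_sub_le _ _).trans (by rw [norm_one]; linarith)) (c := 0)
    (by simp [Real.pi_pos])
  refine ⟨C, h0, fun u hu => ?_⟩
  have := hC u hu
  rwa [sub_zero] at this

/-- the weights -/
noncomputable def bb (j : ℤ) : ℝ := 1 / (1 + |(j:ℝ)|) ^ 2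

theorem bb_pos (j : ℤ) : 0 ≤ bb j := by unfold bb; positivity

theorem bb_summable : Summable bb := by
  have h1 : Summable (fun n : ℤ => 1 / (n:ℝ) ^ 2) := Real.summable_one_div_int_pow.2 (by norm_num)
  have h2 : Summable (fun n : ℤ => if n = 0 then (1:ℝ) else 0) := by
    refine summable_of_ne_finset_zero (s := {0}) ?_
    intro b hb
    rw [Finset.mem_singleton] at hb
    rw [if_neg hb]
  refine Summable.of_nonneg_of_le bb_pos (fun n => ?_) (h1.add h2)
  unfold bb
  by_cases hn : n = 0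
  · subst hn; simp
  · rw [if_neg hn, add_zero]
    have h3 : 0 < |(n:ℝ)| := abs_pos.2 (by exact_mod_cast hn)
    rw [← sq_abs (n:ℝ)]
    apply one_div_le_one_div_of_le (by positivity)
    gcongr
    linarith

/-- sums of translates -/
theorem sum_op {X : Type*} [NormedAddCommGroup X] [NormedSpace ℂ X] {U : Set X} (hU : IsOpen U)
    (F : ℤ → X → ℂ) (hF : ∀ k, DifferentiableOn ℂ (F k) U) {C : ℝ} (hC0 : 0 ≤ C)
    (hC : ∀ z ∈ U, ∃ k0 : ℤ, ∀ k, ‖F k z‖ ≤ C * bb (k - k0)) :
    ∃ Y : X → ℂ, DifferentiableOn ℂ Y U ∧ (∀ z ∈ U, HasSum (fun k => F k z) (Y z)) ∧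
      ∀ z ∈ U, ‖Y z‖ ≤ C * ∑' j, bb j := by
  have hs : ∀ z ∈ U, Summable (fun k => ‖F k z‖) ∧ ∑' k, ‖F k z‖ ≤ C * ∑' j, bb j := by
    intro z hz
    obtain ⟨k0, hk0⟩ := hC z hz
    have h1 : Summable (fun k : ℤ => C * bb (k - k0)) :=
      (((Equiv.subRight k0).summable_iff).2 bb_summable).mul_left C
    have h2 : Summable (fun k => ‖F k z‖) := Summable.of_nonneg_of_le (fun k => norm_nonneg _) hk0 h1
    refine ⟨h2, (h2.tsum_le_tsum hk0 h1).trans ?_⟩
    rw [tsum_mul_left]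
    apply le_of_eq
    congr 1
    exact (Equiv.subRight k0).tsum_eq bb
  obtain ⟨g, hg, hgb, hlim⟩ := Pool.Agent.H720R2.Cor.ultra_lim hU (C := C * ∑' j, bb j)
    (Ultrafilter.of (atTop : Filter (Finset ℤ))) (fun S z => ∑ k ∈ S, F k z)
    (fun S => DifferentiableOn.fun_sum fun k _ => hF k) (fun S z hz => by
      refine (norm_sum_le _ _).trans ?_
      exact ((hs z hz).1.sum_le_tsum S (fun k _ => norm_nonneg _)).trans (hs z hz).2)
  refine ⟨g, hg, fun z hz => ?_, hgb⟩
  have h1 : HasSum (fun k => F k z) (∑' k, F k z) := ((hs z hz).1.of_norm).hasSum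
  have h1' := h1
  rw [HasSum, SummationFilter.unconditional_filter] at h1'
  have h2 : Tendsto (fun S : Finset ℤ => ∑ k ∈ S, F k z)
      (Ultrafilter.of (atTop : Filter (Finset ℤ)) : Filter (Finset ℤ))
      (𝓝 (∑' k, F k z)) := h1'.mono_left (Ultrafilter.of_le (atTop : Filter (Finset ℤ)))
  rw [← tendsto_nhds_unique h2 (hlim z hz)]
  exact h1

/-- the translates of a function with quadratic decay -/
theorem decay {x : ℂ} : ∃ k0 : ℤ, ∀ k : ℤ, 1 / (1 + ‖x - 2 * Real.pi * k‖) ^ 2 ≤ bb (k - k0) := by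
  refine ⟨round (x.re / (2 * Real.pi)), fun k => ?_⟩
  set k0 := round (x.re / (2 * Real.pi)) with hk0
  have hpi := Real.pi_pos
  have hpi3 := Real.pi_gt_three
  have h1 : |x.re / (2 * Real.pi) - k0| ≤ 1 / 2 := abs_sub_round _
  have h2 : |x.re - 2 * Real.pi * k0| ≤ Real.pi := by
    have h3 : x.re - 2 * Real.pi * k0 = (2 * Real.pi) * (x.re / (2 * Real.pi) - k0) := by
      field_simp
    rw [h3, abs_mul, abs_of_pos (by positivity : (0:ℝ) < 2 * Real.pi)]
    nlinarith
  have h4 : |x.re - 2 * Real.pi * k| ≤ ‖x - 2 * Real.pi * k‖ := by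
    have h5 := Complex.abs_re_le_norm (x - 2 * Real.pi * k)
    have h6 : (x - 2 * Real.pi * k).re = x.re - 2 * Real.pi * k := by
      simp
    rwa [h6] at h5
  unfold bb
  apply one_div_le_one_div_of_le (by positivity)
  have h7 : |((k - k0 : ℤ) : ℝ)| ≤ ‖x - 2 * Real.pi * k‖ := by
    by_cases hkk : k = k0
    · rw [hkk, sub_self]; simp
    · have h8 : (1:ℝ) ≤ |((k - k0 : ℤ) : ℝ)| := by
        have h9 : (1:ℤ) ≤ |k - k0| := Int.one_le_abs (sub_ne_zero.2 hkk)
        exact_mod_cast h9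
      refine le_trans ?_ h4
      have h10 : 2 * Real.pi * |((k - k0 : ℤ) : ℝ)| ≤ |x.re - 2 * Real.pi * k| + |x.re - 2 * Real.pi * k0| := by
        have h11 : 2 * Real.pi * |((k - k0 : ℤ) : ℝ)| = |(x.re - 2 * Real.pi * k0) - (x.re - 2 * Real.pi * k)| := by
          rw [← abs_of_pos (by positivity : (0:ℝ) < 2 * Real.pi), ← abs_mul]
          rw [abs_of_pos (by positivity : (0:ℝ) < 2 * Real.pi)]
          congr 1
          push_cast; ring
        rw [h11]
        exact (abs_sub _ _).trans (by linarith)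
      nlinarith
  gcongr

end Pool.Agent.H326R3.CB
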