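import Mathlib
import Pool.Agent.H326R3.CB7

/-!
The holomorphic partition of unity `∑ K(s - 2πk) K(-(s - 2πk)) = 1`.
-/

set_option autoImplicit false

open Metric Set Filter Topology Complex

namespace Pool.Agent.H326R3.CB

theorem KK_conj (x : ℝ) : starRingEnd ℂ (KK x) = KK (-x) := by
  by_cases hx : x = 0
  · subst hx; simp [KK_zero]
  · have h1 := congrArg (starRingEnd ℂ) (KK_mul x)
    have h2 := KK_mul (-x)
    rw [map_mul, Complex.conj_ofReal] at h1
    have h3 : starRingEnd ℂ (-I * (exp (I * x) - 1)) = I * (exp (I * -x) - 1) := by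
      rw [map_mul, map_sub, ← Complex.exp_conj, map_mul, map_one, map_neg, Complex.conj_I,
        Complex.conj_ofReal]
      simp
    rw [h3] at h1
    have h4 : (x:ℂ) ≠ 0 := by exact_mod_cast hx
    apply mul_left_cancel₀ h4
    rw [h1]
    linear_combination h2

theorem KK_int_exp (u : ℂ) : ∫ t in (0:ℝ)..1, exp (I * u * t) = KK u := by
  by_cases hu : u = 0
  · subst hu; simp [KK_zero]
  · have h1 : I * u ≠ 0 := mul_ne_zero I_ne_zero hu
    rw [integral_exp_mul_complex h1]
    apply mul_left_cancel₀ hu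
    rw [KK_mul]
    simp only [ofReal_one, mul_one, ofReal_zero, mul_zero, Complex.exp_zero]
    field_simp
    rw [I_sq]
    ring

theorem part_real (x : ℝ) :
    HasSum (fun k : ℤ => KK (x - 2 * Real.pi * k) * KK (-(x - 2 * Real.pi * k))) 1 := by
  have h01 : (0:ℝ) < 1 := one_pos
  have hnorm : ∀ t : ℝ, ‖exp (I * x * t)‖ = 1 := by
    intro t
    rw [Complex.norm_exp]
    simp
  have h := hasSum_sq_fourierCoeffOn (a := 0) (b := 1) (f := fun t : ℝ => exp (I * x * t)) h01
    (MeasureTheory.MemLp.of_bound (by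
      apply Continuous.aestronglyMeasurable
      fun_prop) 1 (Eventually.of_forall fun t => (hnorm t).le))
  have h1 : ((1:ℝ) - 0)⁻¹ • ∫ t in (0:ℝ)..1, ‖exp (I * x * t)‖ ^ 2 = 1 := by
    simp [hnorm]
  rw [h1] at h
  have h2 := (Complex.hasSum_ofReal (f := fun i : ℤ => ‖fourierCoeffOn h01 (fun t : ℝ => exp (I * x * t)) i‖ ^ 2) (x := 1)).2 h
  rw [Complex.ofReal_one] at h2
  refine h2.congr_fun ?_
  intro k
  have h3 : fourierCoeffOn h01 (fun t : ℝ => exp (I * x * t)) k = KK (x - 2 * Real.pi * k) := by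
    rw [fourierCoeffOn_eq_integral, ← KK_int_exp]
    simp only [sub_zero, div_one, one_smul]
    apply intervalIntegral.integral_congr
    intro t _
    simp only [smul_eq_mul]
    rw [fourier_coe_apply, ← Complex.exp_add]
    congr 1
    push_cast
    ring
  rw [h3]
  have h4 : KK (-(x - 2 * Real.pi * k)) = starRingEnd ℂ (KK (x - 2 * Real.pi * k)) := by
    have := KK_conj (x - 2 * Real.pi * k)
    push_cast at this
    exact this.symm
  rw [h4, Complex.mul_conj, Complex.normSq_eq_norm_sq]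

/-- the strip `|Im s| < π` -/
def Spi : Set ℂ := {s | |s.im| < Real.pi}

theorem isOpen_Spi : IsOpen Spi := isOpen_lt (Complex.continuous_im.abs) continuous_const

theorem KK2_bd : ∃ C : ℝ, 0 ≤ C ∧ ∀ u : ℂ, |u.im| < Real.pi →
    ‖KK u * KK (-u)‖ ≤ C * (1 / (1 + ‖u‖) ^ 2) := by
  obtain ⟨C, h0, hC⟩ := KK_bd
  refine ⟨C * C, by positivity, fun u hu => ?_⟩
  have h1 := hC u hu
  have h2 := hC (-u) (by rwa [neg_im, abs_neg])
  rw [norm_neg] at h2
  have h3 : 0 < 1 + ‖u‖ := by positivity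
  rw [norm_mul, mul_one_div, le_div_iff₀ (by positivity)]
  calc ‖KK u‖ * ‖KK (-u)‖ * (1 + ‖u‖) ^ 2 = ((1 + ‖u‖) * ‖KK u‖) * ((1 + ‖u‖) * ‖KK (-u)‖) := by ring
    _ ≤ C * C := mul_le_mul h1 h2 (by positivity) h0

theorem part_unity {s : ℂ} (hs : |s.im| < Real.pi) :
    HasSum (fun k : ℤ => KK (s - 2 * Real.pi * k) * KK (-(s - 2 * Real.pi * k))) 1 := by
  obtain ⟨C, h0, hC⟩ := KK2_bd
  have him : ∀ (s : ℂ) (k : ℤ), (s - 2 * Real.pi * k).im = s.im := by
    intro s k; simp
  obtain ⟨Y, hY, hsum, -⟩ := sum_op isOpen_Spi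
    (fun (k : ℤ) (s : ℂ) => KK (s - 2 * Real.pi * k) * KK (-(s - 2 * Real.pi * k)))
    (fun k => by
      have h1 : Differentiable ℂ (fun s : ℂ => KK (s - 2 * Real.pi * k)) :=
        KK_diff.comp (by fun_prop)
      have h2 : Differentiable ℂ (fun s : ℂ => KK (-(s - 2 * Real.pi * k))) :=
        KK_diff.comp (by fun_prop)
      exact (h1.mul h2).differentiableOn) h0
    (fun s hs => by
      obtain ⟨k0, hk0⟩ := decay (x := s)
      refine ⟨k0, fun k => (hC _ (by rw [him]; exact hs)).trans ?_⟩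
      exact mul_le_mul_of_nonneg_left (hk0 k) h0)
  have h1 : EqOn Y (fun _ => 1) Spi := by
    have hA : AnalyticOnNhd ℂ Y Spi := hY.analyticOnNhd isOpen_Spi
    refine hA.eqOn_of_preconnected_of_frequently_eq analyticOnNhd_const ?_ (z₀ := 0) ?_ ?_
    · apply Convex.isPreconnected
      have : Spi = Complex.imLm ⁻¹' (Ioo (-Real.pi) Real.pi) := by
        ext s; simp [Spi, abs_lt]
      rw [this]
      exact (convex_Ioo _ _).linear_preimage _
    · simp [Spi, Real.pi_pos]
    · have h2 : Tendsto (fun n : ℕ => ((1 / ((n:ℝ) + 1) : ℝ) : ℂ)) atTop (𝓝[≠] 0) := by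
        rw [tendsto_nhdsWithin_iff]
        constructor
        · have := tendsto_one_div_add_atTop_nhds_zero_nat (𝕜 := ℝ)
          exact (Complex.continuous_ofReal.tendsto 0).comp this
        · refine Eventually.of_forall fun n => ?_
          simp only [mem_compl_iff, mem_singleton_iff, Complex.ofReal_eq_zero]
          positivity
      refine h2.frequently (Frequently.of_forall fun n => ?_)
      have h3 : ((1 / ((n:ℝ) + 1) : ℝ) : ℂ) ∈ Spi := by
        change |((1 / ((n:ℝ) + 1) : ℝ) : ℂ).im| < Real.pi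
        rw [Complex.ofReal_im, abs_zero]
        exact Real.pi_pos
      exact (hsum _ h3).unique (part_real _)
  have h2 := hsum s hs
  rw [h1 hs] at h2
  exact h2

end Pool.Agent.H326R3.CB
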