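import Mathlib
import Pool.Agent.H326R3.CB8

/-!
The ball in the coordinates `s = log ((1 - z₀) / (1 + z₀))` and `w = z' / √(1 - z₀²)`.
-/

set_option autoImplicit false

open Metric Set Filter Topology Complex

namespace Pool.Agent.H326R3.CB

variable {n : ℕ}

noncomputable def ze (s : ℂ) : ℂ := (1 - exp s) / (1 + exp s)

noncomputable def al (s : ℂ) : ℂ := 2 * exp (s / 2) / (1 + exp s)

noncomputable def PP (s : ℂ) (ω : Fin n → ℂ) : V (n + 1) :=
  WithLp.toLp 2 (Fin.cons (ze s) (fun i => ω i * al s))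

noncomputable def Ls (z : V (n + 1)) : ℂ := log (1 - z 0) - log (1 + z 0)

noncomputable def ww (z : V (n + 1)) (i : Fin n) : ℂ :=
  z i.succ / exp ((log (1 - z 0) + log (1 + z 0)) / 2)

/-- the strip -/
def Sph : Set ℂ := {s | |s.im| < Real.pi / 2}

theorem isOpen_Sph : IsOpen Sph := isOpen_lt (Complex.continuous_im.abs) continuous_const

theorem PP_zero (s : ℂ) (ω : Fin n → ℂ) : PP s ω 0 = ze s := rfl

theorem PP_succ (s : ℂ) (ω : Fin n → ℂ) (i : Fin n) : PP s ω i.succ = ω i * al s := rfl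

theorem exp_re_pos {s : ℂ} (hs : s ∈ Sph) : 0 < (exp s).re := by
  rw [Complex.exp_re]
  exact mul_pos (Real.exp_pos _) (Real.cos_pos_of_mem_Ioo (abs_lt.1 hs))

theorem one_add_ne {s : ℂ} (hs : s ∈ Sph) : 1 + exp s ≠ 0 := by
  intro h
  have h1 := congrArg Complex.re h
  rw [Complex.add_re, Complex.one_re, Complex.zero_re] at h1
  linarith [exp_re_pos hs]

theorem PP_norm {s : ℂ} (hs : s ∈ Sph) (ω : Fin n → ℂ) :
    ‖1 + exp s‖ ^ 2 * (1 - ‖PP s ω‖ ^ 2) =
      4 * Real.exp s.re * (Real.cos s.im - ∑ i, ‖ω i‖ ^ 2) := by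
  have h0 : ‖1 + exp s‖ ≠ 0 := norm_ne_zero_iff.2 (one_add_ne hs)
  have h1 : ‖PP s ω‖ ^ 2 = ‖ze s‖ ^ 2 + (∑ i, ‖ω i‖ ^ 2) * ‖al s‖ ^ 2 := by
    rw [EuclideanSpace.norm_sq_eq, Fin.sum_univ_succ, PP_zero, Finset.sum_mul]
    congr 1
    refine Finset.sum_congr rfl fun i _ => ?_
    rw [PP_succ, norm_mul, mul_pow]
  have h2 : ‖ze s‖ ^ 2 * ‖1 + exp s‖ ^ 2 = ‖1 - exp s‖ ^ 2 := by
    unfold ze; rw [norm_div, div_pow]; field_simp
  have h3 : ‖al s‖ ^ 2 * ‖1 + exp s‖ ^ 2 = 4 * Real.exp s.re := by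
    unfold al
    rw [norm_div, div_pow, div_mul_cancel₀ _ (pow_ne_zero 2 h0), norm_mul, mul_pow, Complex.norm_exp]
    rw [← Real.exp_nat_mul]
    have : (s / 2).re = s.re / 2 := by simp
    rw [this]
    norm_num
    ring
  have h4 : ‖1 + exp s‖ ^ 2 - ‖1 - exp s‖ ^ 2 = 4 * (exp s).re := by
    rw [← Complex.normSq_eq_norm_sq, ← Complex.normSq_eq_norm_sq, Complex.normSq_apply,
      Complex.normSq_apply]
    simp only [add_re, one_re, add_im, one_im, sub_re, sub_im]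
    ring
  rw [Complex.exp_re] at h4
  rw [h1]
  linear_combination (-1) * h2 - (∑ i, ‖ω i‖ ^ 2) * h3 + h4

theorem PP_mem {s : ℂ} (hs : s ∈ Sph) {ω : Fin n → ℂ} (hω : ∑ i, ‖ω i‖ ^ 2 < Real.cos s.im) :
    ‖PP s ω‖ < 1 := by
  have h := PP_norm hs ω
  have h0 : 0 < ‖1 + exp s‖ ^ 2 := by
    have := norm_pos_iff.2 (one_add_ne hs); positivity
  have h1 : 0 < 4 * Real.exp s.re * (Real.cos s.im - ∑ i, ‖ω i‖ ^ 2) :=
    mul_pos (by positivity) (by linarith)
  rw [← h] at h1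
  have h2 := (mul_pos_iff_of_pos_left h0).1 h1
  nlinarith [norm_nonneg (PP s ω)]

theorem z0_lt {z : V (n + 1)} (hz : ‖z‖ < 1) : ‖z 0‖ < 1 :=
  (PiLp.norm_apply_le z 0).trans_lt hz

theorem re_pos {z : V (n + 1)} (hz : ‖z‖ < 1) : 0 < (1 - z 0).re ∧ 0 < (1 + z 0).re := by
  have h1 := z0_lt hz
  have h2 := Complex.abs_re_le_norm (z 0)
  have h3 := abs_le.1 (h2.trans h1.le)
  have h4 := abs_lt.1 (h2.trans_lt h1)
  constructor
  · simp; linarith
  · simp; linarith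

theorem ne_of_re {x : ℂ} (hx : 0 < x.re) : x ≠ 0 := by
  intro h; rw [h] at hx; simp at hx

theorem exp_Ls {z : V (n + 1)} (hz : ‖z‖ < 1) : exp (Ls z) = (1 - z 0) / (1 + z 0) := by
  obtain ⟨h1, h2⟩ := re_pos hz
  unfold Ls
  rw [Complex.exp_sub, Complex.exp_log (ne_of_re h1), Complex.exp_log (ne_of_re h2)]

theorem Ls_mem {z : V (n + 1)} (hz : ‖z‖ < 1) : Ls z ∈ Sph := by
  obtain ⟨h1, h2⟩ := re_pos hz
  have h3 : |(log (1 - z 0)).im| < Real.pi / 2 := by
    rw [Complex.log_im]; exact Complex.abs_arg_lt_pi_div_two_iff.2 (Or.inl h1)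
  have h4 : |(log (1 + z 0)).im| < Real.pi / 2 := by
    rw [Complex.log_im]; exact Complex.abs_arg_lt_pi_div_two_iff.2 (Or.inl h2)
  have h5 : |(Ls z).im| < Real.pi := by
    unfold Ls
    rw [Complex.sub_im]
    exact (abs_sub _ _).trans_lt (by linarith)
  have h6 : 0 < (exp (Ls z)).re := by
    rw [exp_Ls hz, Complex.div_re, ← add_div]
    apply div_pos
    · have h7 := z0_lt hz
      have h8 : ‖z 0‖ ^ 2 < 1 := by nlinarith [norm_nonneg (z 0)]
      rw [← Complex.normSq_eq_norm_sq, Complex.normSq_apply] at h8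
      simp only [sub_re, one_re, add_re, sub_im, one_im, add_im]
      nlinarith
    · exact Complex.normSq_pos.2 (ne_of_re h2)
  rw [Complex.exp_re] at h6
  have h7 : 0 < Real.cos (Ls z).im := (mul_pos_iff_of_pos_left (Real.exp_pos _)).1 h6
  by_contra hcon
  have h8 : Real.pi / 2 ≤ |(Ls z).im| := not_lt.1 hcon
  have h9 := Real.cos_nonpos_of_pi_div_two_le_of_le h8 (by linarith [Real.pi_pos])
  rw [Real.cos_abs] at h9
  linarith

theorem exp_Lp {z : V (n + 1)} (hz : ‖z‖ < 1) :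
    exp ((log (1 - z 0) + log (1 + z 0)) / 2) = (1 + z 0) * exp (Ls z / 2) := by
  obtain ⟨h1, h2⟩ := re_pos hz
  have h3 : (log (1 - z 0) + log (1 + z 0)) / 2 = log (1 + z 0) + Ls z / 2 := by
    unfold Ls; ring
  rw [h3, Complex.exp_add, Complex.exp_log (ne_of_re h2)]

theorem ze_Ls {z : V (n + 1)} (hz : ‖z‖ < 1) : ze (Ls z) = z 0 := by
  have h2 := ne_of_re (re_pos hz).2
  unfold ze
  rw [exp_Ls hz]
  field_simp
  ring

theorem al_Ls {z : V (n + 1)} (hz : ‖z‖ < 1) :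
    al (Ls z) = exp ((log (1 - z 0) + log (1 + z 0)) / 2) := by
  have h2 := ne_of_re (re_pos hz).2
  rw [exp_Lp hz]
  unfold al
  rw [exp_Ls hz]
  field_simp
  ring

theorem PP_Ls {z : V (n + 1)} (hz : ‖z‖ < 1) : PP (Ls z) (ww z) = z := by
  ext i
  refine Fin.cases ?_ (fun j => ?_) i
  · rw [PP_zero, ze_Ls hz]
  · rw [PP_succ, al_Ls hz]
    unfold ww
    rw [div_mul_cancel₀ _ (Complex.exp_ne_zero _)]

theorem ww_lt {z : V (n + 1)} (hz : ‖z‖ < 1) : ∑ i, ‖ww z i‖ ^ 2 < Real.cos (Ls z).im := by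
  have h := PP_norm (Ls_mem hz) (ww z)
  rw [PP_Ls hz] at h
  have h0 : 0 < ‖1 + exp (Ls z)‖ ^ 2 := by
    have := norm_pos_iff.2 (one_add_ne (Ls_mem hz)); positivity
  have h1 : 0 < ‖1 + exp (Ls z)‖ ^ 2 * (1 - ‖z‖ ^ 2) :=
    mul_pos h0 (by nlinarith [norm_nonneg z])
  rw [h] at h1
  have h2 := (mul_pos_iff_of_pos_left (by positivity)).1 h1
  linarith

theorem Ls_PP {s : ℂ} (hs : s ∈ Sph) {ω : Fin n → ℂ} (hω : ∑ i, ‖ω i‖ ^ 2 < Real.cos s.im) :
    Ls (PP s ω) = s := by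
  have hm := PP_mem hs hω
  have h1 : exp (Ls (PP s ω)) = exp s := by
    rw [exp_Ls hm, PP_zero]
    have h2 := one_add_ne hs
    unfold ze
    have h3 : 1 + (1 - exp s) / (1 + exp s) = 2 / (1 + exp s) := by field_simp; ring
    have h4 : 1 - (1 - exp s) / (1 + exp s) = 2 * exp s / (1 + exp s) := by field_simp; ring
    rw [h3, h4]
    field_simp
  have h2 := abs_lt.1 (show |(Ls (PP s ω)).im| < Real.pi / 2 from Ls_mem hm)
  have h3 := abs_lt.1 (show |s.im| < Real.pi / 2 from hs)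
  have hpi := Real.pi_pos
  exact Complex.exp_inj_of_neg_pi_lt_of_le_pi (by linarith) (by linarith) (by linarith)
    (by linarith) h1

theorem ww_PP {s : ℂ} (hs : s ∈ Sph) {ω : Fin n → ℂ} (hω : ∑ i, ‖ω i‖ ^ 2 < Real.cos s.im) :
    ww (PP s ω) = ω := by
  have hm := PP_mem hs hω
  funext i
  unfold ww
  rw [← al_Ls hm, Ls_PP hs hω, PP_succ]
  have h1 : al s ≠ 0 := by
    unfold al
    exact div_ne_zero (mul_ne_zero two_ne_zero (Complex.exp_ne_zero _)) (one_add_ne hs)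
  rw [mul_div_cancel_right₀ _ h1]

/-- the dilations -/
noncomputable def Dl (t : ℝ) (z : V (n + 1)) : V (n + 1) := PP (Ls z + t) (ww z)

theorem im_add (s : ℂ) (t : ℝ) : (s + t).im = s.im := by simp

theorem mem_add {s : ℂ} (hs : s ∈ Sph) (t : ℝ) : s + t ∈ Sph := by
  unfold Sph at *
  change |(s + t).im| < _
  rw [im_add]; exact hs

theorem Dl_mem {z : V (n + 1)} (hz : ‖z‖ < 1) (t : ℝ) : ‖Dl t z‖ < 1 :=
  PP_mem (mem_add (Ls_mem hz) t) (by rw [im_add]; exact ww_lt hz)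

theorem Ls_Dl {z : V (n + 1)} (hz : ‖z‖ < 1) (t : ℝ) : Ls (Dl t z) = Ls z + t :=
  Ls_PP (mem_add (Ls_mem hz) t) (by rw [im_add]; exact ww_lt hz)

theorem ww_Dl {z : V (n + 1)} (hz : ‖z‖ < 1) (t : ℝ) : ww (Dl t z) = ww z :=
  ww_PP (mem_add (Ls_mem hz) t) (by rw [im_add]; exact ww_lt hz)

theorem Dl_Dl {z : V (n + 1)} (hz : ‖z‖ < 1) (t t' : ℝ) : Dl t (Dl t' z) = Dl (t' + t) z := by
  unfold Dl
  have h1 := Ls_Dl hz t'
  have h2 := ww_Dl hz t'
  unfold Dl at h1 h2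
  rw [h1, h2]
  congr 1
  push_cast; ring

theorem Dl_zero {z : V (n + 1)} (hz : ‖z‖ < 1) : Dl 0 z = z := by
  unfold Dl
  rw [Complex.ofReal_zero, add_zero, PP_Ls hz]

/-- holomorphy of the coordinates -/
theorem coord_diff (i : Fin (n + 1)) : Differentiable ℂ (fun z : V (n + 1) => z i) := by
  fun_prop

theorem log1_diff : DifferentiableOn ℂ (fun z : V (n + 1) => log (1 - z 0)) (ball 0 1) := by
  intro z hz
  rw [mem_ball_zero_iff] at hz
  have h1 : (1 - z 0) ∈ Complex.slitPlane := Or.inl (re_pos hz).1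
  have h2 : DifferentiableAt ℂ (fun z : V (n + 1) => 1 - z 0) z := by fun_prop
  exact (h2.clog h1).differentiableWithinAt

theorem log2_diff : DifferentiableOn ℂ (fun z : V (n + 1) => log (1 + z 0)) (ball 0 1) := by
  intro z hz
  rw [mem_ball_zero_iff] at hz
  have h1 : (1 + z 0) ∈ Complex.slitPlane := Or.inl (re_pos hz).2
  have h2 : DifferentiableAt ℂ (fun z : V (n + 1) => 1 + z 0) z := by fun_prop
  exact (h2.clog h1).differentiableWithinAt

theorem Ls_diff : DifferentiableOn ℂ (Ls : V (n + 1) → ℂ) (ball 0 1) :=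
  log1_diff.sub log2_diff

theorem ww_diff (i : Fin n) : DifferentiableOn ℂ (fun z : V (n + 1) => ww z i) (ball 0 1) := by
  have h2 : DifferentiableOn ℂ (fun z : V (n + 1) => z i.succ) (ball 0 1) :=
    (coord_diff i.succ).differentiableOn
  have h : DifferentiableOn ℂ (fun z : V (n + 1) => (log (1 - z 0) + log (1 + z 0)) / 2)
      (ball 0 1) := by
    have h3 := ((log1_diff (n := n)).add log2_diff).mul_const ((2:ℂ)⁻¹)
    simp only [← div_eq_mul_inv] at h3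
    exact h3
  have h4 := h2.mul h.neg.cexp
  refine h4.congr (fun z _ => ?_)
  unfold ww
  rw [div_eq_mul_inv, ← Complex.exp_neg]
  rfl

theorem ze_diff : DifferentiableOn ℂ ze Sph := by
  unfold ze
  exact DifferentiableOn.div (by fun_prop) (by fun_prop) (fun s hs => one_add_ne hs)

theorem al_diff : DifferentiableOn ℂ al Sph := by
  unfold al
  exact DifferentiableOn.div (by fun_prop) (by fun_prop) (fun s hs => one_add_ne hs)

theorem Dl_diff (t : ℝ) : DifferentiableOn ℂ (Dl t : V (n + 1) → V (n + 1)) (ball 0 1) := by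
  have h1 : DifferentiableOn ℂ (fun z : V (n + 1) => Ls z + t) (ball 0 1) := Ls_diff.add_const _
  have h2 : MapsTo (fun z : V (n + 1) => Ls z + t) (ball 0 1) Sph := fun z hz =>
    mem_add (Ls_mem (by simpa using hz)) t
  rw [differentiableOn_euclidean]
  intro i
  refine Fin.cases ?_ (fun j => ?_) i
  · exact ze_diff.comp h1 h2
  · exact (ww_diff j).mul (al_diff.comp h1 h2)

theorem ze_bd {s : ℂ} (hs : s ∈ Sph) : ‖ze s‖ ≤ 1 := by
  have h : ‖PP (n := 0) s ![]‖ < 1 := PP_mem hs (by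
    simp only [Finset.univ_eq_empty, Finset.sum_empty]
    exact Real.cos_pos_of_mem_Ioo (abs_lt.1 hs))
  have h1 := z0_lt h
  rw [PP_zero] at h1
  exact h1.le

theorem al_bd {s : ℂ} (hs : s ∈ Sph) : ‖al s‖ ≤ 2 := by
  have h0 : 0 < ‖1 + exp s‖ := norm_pos_iff.2 (one_add_ne hs)
  unfold al
  rw [norm_div, div_le_iff₀ h0, norm_mul, Complex.norm_exp, Complex.norm_ofNat]
  have h1 : (s / 2).re = s.re / 2 := by simp
  rw [h1]
  have h2 := exp_re_pos hs
  have h3 : 1 + Real.exp s.re ^ 2 ≤ ‖1 + exp s‖ ^ 2 := by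
    rw [← Complex.normSq_eq_norm_sq, Complex.normSq_apply]
    simp only [add_re, one_re, add_im, one_im, zero_add]
    have h4 : (exp s).re ^ 2 + (exp s).im ^ 2 = Real.exp s.re ^ 2 := by
      rw [Complex.exp_re, Complex.exp_im, mul_pow, mul_pow, ← mul_add, Real.cos_sq_add_sin_sq, mul_one]
    nlinarith
  have h4 : Real.exp (s.re / 2) ^ 2 = Real.exp s.re := by
    rw [← Real.exp_nat_mul]; congr 1; push_cast; ring
  have h5 : Real.exp (s.re / 2) ^ 2 ≤ ‖1 + exp s‖ ^ 2 := by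
    rw [h4]; nlinarith [sq_nonneg (Real.exp s.re - 1), Real.exp_pos s.re]
  have h6 : Real.exp (s.re / 2) ≤ ‖1 + exp s‖ :=
    (sq_le_sq₀ (Real.exp_pos _).le h0.le).1 h5
  linarith

end Pool.Agent.H326R3.CB
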