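import Mathlib
import Pool.Agent.H326R3.CB9

/-!
Functions that vanish along the orbit of a point under dilations by `exp (2πk)`.
-/

set_option autoImplicit false

open Metric Set Filter Topology Complex

namespace Pool.Agent.H326R3.CB

variable {n : ℕ}

/-- the shift -/
noncomputable def tk (k : ℤ) : ℝ := -(2 * Real.pi * k)

theorem exp_tk (k : ℤ) : exp (I * (tk k : ℂ)) = 1 := by
  rw [Complex.exp_eq_one_iff]
  refine ⟨-k, ?_⟩
  unfold tk
  push_cast; ring

theorem KK_shift (s a : ℂ) (k : ℤ) :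
    (s + tk k - a) * KK (s + tk k - a) =
      (-I * exp (-(I * a))) * (exp (I * s) - exp (I * a)) := by
  rw [KK_mul]
  have h1 : I * (s + tk k - a) = I * s + I * tk k + -(I * a) := by ring
  rw [h1, Complex.exp_add, Complex.exp_add, exp_tk, mul_one]
  have h2 : exp (I * a) * exp (-(I * a)) = 1 := by rw [← Complex.exp_add]; simp
  linear_combination (-I) * h2

theorem u_im {s a : ℂ} (hs : s ∈ Sph) (ha : a ∈ Sph) (t : ℝ) : |(s + t - a).im| < Real.pi := by
  have h1 : (s + t - a).im = s.im - a.im := by simp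
  rw [h1]
  have h2 : |s.im| < Real.pi / 2 := hs
  have h3 : |a.im| < Real.pi / 2 := ha
  exact (abs_sub _ _).trans_lt (by linarith)

/-- **Functions vanishing along the orbit of `a` are in the ideal generated by the functions
`ww - ww a` and `exp (i Ls) - exp (i Ls a)`.** -/
theorem key {a : V (n + 1)} (ha : ‖a‖ < 1) : ∃ C : ℝ, 0 ≤ C ∧ ∀ (f : V (n + 1) → ℂ) (M : ℝ),
    DifferentiableOn ℂ f (ball 0 1) → (∀ z ∈ ball (0 : V (n + 1)) 1, ‖f z‖ ≤ M) →
    (∀ k : ℤ, f (Dl (2 * Real.pi * k) a) = 0) →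
    ∃ (Y₀ : V (n + 1) → ℂ) (Y : Fin n → V (n + 1) → ℂ),
      DifferentiableOn ℂ Y₀ (ball 0 1) ∧ (∀ i, DifferentiableOn ℂ (Y i) (ball 0 1)) ∧
      (∀ z ∈ ball (0 : V (n + 1)) 1, ‖Y₀ z‖ ≤ C * M) ∧
      (∀ i, ∀ z ∈ ball (0 : V (n + 1)) 1, ‖Y i z‖ ≤ C * M) ∧
      ∀ z ∈ ball (0 : V (n + 1)) 1,
        f z = (exp (I * Ls z) - exp (I * Ls a)) * Y₀ z + ∑ i, (ww z i - ww a i) * Y i z := by
  have hsa : Ls a ∈ Sph := Ls_mem ha
  obtain ⟨C1, hC10, hC1⟩ := KK_bd
  obtain ⟨C2, hC20, hC2⟩ := dsl_bd isOpen_Sph ze_diff (M := 1) (fun s hs => ze_bd hs) hsa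
  obtain ⟨C3, hC30, hC3⟩ := dsl_bd isOpen_Sph al_diff (M := 2) (fun s hs => al_bd hs) hsa
  obtain ⟨A, hA⟩ : ∃ A : ℝ, A = 44 / (1 - ‖a‖) ^ 2 := ⟨_, rfl⟩
  have hA0 : 0 ≤ A := by rw [hA]; positivity
  obtain ⟨c, hc⟩ : ∃ c : ℂ, c = -I * exp (-(I * Ls a)) := ⟨_, rfl⟩
  obtain ⟨B, hB⟩ : ∃ B : ℝ, B = ∑' j, bb j := ⟨_, rfl⟩
  have hB0 : 0 ≤ B := by rw [hB]; exact tsum_nonneg bb_pos
  obtain ⟨D0, hD0⟩ : ∃ D : ℝ, D = ‖c‖ * C1 * (C2 + (∑ i, ‖ww a i‖) * C3) * A := ⟨_, rfl⟩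
  obtain ⟨D1, hD1⟩ : ∃ D : ℝ, D = C1 * C1 * 2 * A := ⟨_, rfl⟩
  have hw0 : 0 ≤ ∑ i, ‖ww a i‖ := Finset.sum_nonneg fun i _ => norm_nonneg _
  have hD00 : 0 ≤ D0 := by rw [hD0]; positivity
  have hD10 : 0 ≤ D1 := by rw [hD1]; positivity
  refine ⟨(D0 + D1) * B, by positivity, fun f M hf hM hv => ?_⟩
  have hM0 : 0 ≤ M := (norm_nonneg _).trans (hM 0 (by simp))
  obtain ⟨F, hF⟩ : ∃ F : ℤ → V (n + 1) → ℂ, F = fun (k : ℤ) z => f (Dl (2 * Real.pi * (k:ℝ)) z) := ⟨_, rfl⟩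
  have hmapD : ∀ t : ℝ, MapsTo (Dl t : V (n + 1) → V (n + 1)) (ball 0 1) (ball 0 1) := by
    intro t z hz
    rw [mem_ball_zero_iff] at hz ⊢
    exact Dl_mem hz t
  have hFd : ∀ k, DifferentiableOn ℂ (F k) (ball 0 1) := by
    intro k; rw [hF]; exact hf.comp (Dl_diff _) (hmapD _)
  have hFb : ∀ k, ∀ z ∈ ball (0 : V (n + 1)) 1, ‖F k z‖ ≤ M := by
    intro k z hz; rw [hF]; exact hM _ (hmapD _ hz)
  obtain ⟨G, hG⟩ : ∃ G : ℤ → Fin (n + 1) → V (n + 1) → ℂ,
      G = fun k i z => gam (F k) a (EuclideanSpace.single i (1:ℂ)) (Dl (tk k) z) := ⟨_, rfl⟩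
  have hGd : ∀ k i, DifferentiableOn ℂ (G k i) (ball 0 1) := by
    intro k i; rw [hG]; exact (gam_diff (hFd k) _ ha).comp (Dl_diff _) (hmapD _)
  have hGb : ∀ k i, ∀ z ∈ ball (0 : V (n + 1)) 1, ‖G k i z‖ ≤ A * M := by
    intro k i z hz
    rw [hG]
    have h1 := gam_bd (hFd k) (hFb k) (e := EuclideanSpace.single i (1:ℂ)) (by simp)
      (mem_ball_zero_iff.1 (hmapD (tk k) hz)) ha
    refine h1.trans (le_of_eq ?_)
    rw [hA]; ring
  -- the decomposition at one scale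
  have hdec : ∀ k, ∀ z ∈ ball (0 : V (n + 1)) 1,
      f z = (ze (Ls z + tk k) - ze (Ls a)) * G k 0 z +
        ∑ i : Fin n, (ww z i * al (Ls z + tk k) - ww a i * al (Ls a)) * G k i.succ z := by
    intro k z hz
    have hz1 : ‖z‖ < 1 := mem_ball_zero_iff.1 hz
    have h1 := gleason (hFd k) ha (mem_ball_zero_iff.1 (hmapD (tk k) hz))
    have h2 : F k (Dl (tk k) z) = f z := by
      rw [hF]
      change f (Dl _ (Dl _ z)) = f z
      rw [Dl_Dl hz1]
      have : tk k + 2 * Real.pi * k = 0 := by unfold tk; ring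
      rw [this, Dl_zero hz1]
    have h3 : F k a = 0 := by rw [hF]; exact hv k
    rw [h2, h3, sub_zero, Fin.sum_univ_succ] at h1
    rw [h1]
    have h4 : (Dl (tk k) z) 0 = ze (Ls z + tk k) := rfl
    have h5 : ∀ i : Fin n, (Dl (tk k) z) i.succ = ww z i * al (Ls z + tk k) := fun i => rfl
    have h6 : a 0 = ze (Ls a) := (ze_Ls ha).symm
    have h7 : ∀ i : Fin n, a i.succ = ww a i * al (Ls a) := by
      intro i
      conv_lhs => rw [← PP_Ls ha]
      exact PP_succ _ _ _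
    rw [h4, h6, hG]
    congr 1
    refine Finset.sum_congr rfl fun i _ => ?_
    rw [h5, h7]
  -- the two kinds of sums
  have hu : ∀ k, DifferentiableOn ℂ (fun z : V (n + 1) => Ls z + tk k - Ls a) (ball 0 1) :=
    fun k => (Ls_diff.add_const _).sub_const _
  have hKu : ∀ k, DifferentiableOn ℂ (fun z : V (n + 1) => KK (Ls z + tk k - Ls a)) (ball 0 1) :=
    fun k => KK_diff.comp_differentiableOn (hu k)
  have hKun : ∀ k, DifferentiableOn ℂ (fun z : V (n + 1) => KK (-(Ls z + tk k - Ls a))) (ball 0 1) :=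
    fun k => KK_diff.comp_differentiableOn (hu k).neg
  have hsk : ∀ k, DifferentiableOn ℂ (fun z : V (n + 1) => Ls z + tk k) (ball 0 1) :=
    fun k => Ls_diff.add_const _
  have hskm : ∀ k, MapsTo (fun z : V (n + 1) => Ls z + tk k) (ball 0 1) Sph :=
    fun k z hz => mem_add (Ls_mem (mem_ball_zero_iff.1 hz)) _
  have hdz : ∀ k, DifferentiableOn ℂ (fun z : V (n + 1) => dslope ze (Ls a) (Ls z + tk k))
      (ball 0 1) := fun k =>
    ((Complex.differentiableOn_dslope (isOpen_Sph.mem_nhds hsa)).2 ze_diff).comp (hsk k) (hskm k)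
  have hda : ∀ k, DifferentiableOn ℂ (fun z : V (n + 1) => dslope al (Ls a) (Ls z + tk k))
      (ball 0 1) := fun k =>
    ((Complex.differentiableOn_dslope (isOpen_Sph.mem_nhds hsa)).2 al_diff).comp (hsk k) (hskm k)
  have hal : ∀ k, DifferentiableOn ℂ (fun z : V (n + 1) => al (Ls z + tk k)) (ball 0 1) :=
    fun k => al_diff.comp (hsk k) (hskm k)
  have hxk : ∀ (z : V (n + 1)) (k : ℤ), Ls z + tk k - Ls a = (Ls z - Ls a) - 2 * Real.pi * k := by
    intro z k; unfold tk; push_cast; ring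
  have hrho : ∀ z ∈ ball (0 : V (n + 1)) 1, ∃ k0 : ℤ, ∀ k, ∃ ρ : ℝ, 0 ≤ ρ ∧ ρ * ρ ≤ bb (k - k0) ∧
      ‖KK (Ls z + tk k - Ls a)‖ ≤ C1 * ρ ∧ ‖KK (-(Ls z + tk k - Ls a))‖ ≤ C1 * ρ ∧
      ‖dslope ze (Ls a) (Ls z + tk k)‖ ≤ C2 * ρ ∧ ‖dslope al (Ls a) (Ls z + tk k)‖ ≤ C3 * ρ := by
    intro z hz
    obtain ⟨k0, hk0⟩ := decay (x := Ls z - Ls a)
    refine ⟨k0, fun k => ⟨1 / (1 + ‖Ls z + tk k - Ls a‖), by positivity, ?_, ?_, ?_, ?_, ?_⟩⟩
    · have h1 := hk0 k
      rw [← hxk] at h1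
      refine le_trans (le_of_eq ?_) h1
      rw [← sq, div_pow, one_pow]
    all_goals have hp : 0 < 1 + ‖Ls z + tk k - Ls a‖ := by positivity
    all_goals rw [mul_one_div, le_div_iff₀ hp, mul_comm]
    · exact hC1 _ (u_im (Ls_mem (mem_ball_zero_iff.1 hz)) hsa _)
    · have := hC1 (-(Ls z + tk k - Ls a)) (by
        rw [neg_im, abs_neg]; exact u_im (Ls_mem (mem_ball_zero_iff.1 hz)) hsa _)
      rwa [norm_neg] at this
    · exact hC2 _ (hskm k hz)
    · exact hC3 _ (hskm k hz)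
  obtain ⟨Y0, hY0d, hY0s, hY0b⟩ := sum_op (isOpen_ball (x := (0 : V (n + 1))) (ε := 1))
    (fun k z => c * KK (-(Ls z + tk k - Ls a)) * (dslope ze (Ls a) (Ls z + tk k) * G k 0 z +
      ∑ i : Fin n, ww a i * dslope al (Ls a) (Ls z + tk k) * G k i.succ z))
    (fun k => by
      refine ((hKun k).const_mul c).mul (((hdz k).mul (hGd k 0)).add ?_)
      refine DifferentiableOn.fun_sum fun i _ => ?_
      exact ((hda k).const_mul _).mul (hGd k i.succ))
    (C := D0 * M) (by positivity)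
    (fun z hz => by
      obtain ⟨k0, hk0⟩ := hrho z hz
      refine ⟨k0, fun k => ?_⟩
      obtain ⟨ρ, hρ0, hρ, h1, h2, h3, h4⟩ := hk0 k
      rw [norm_mul, norm_mul]
      have h5 : ‖dslope ze (Ls a) (Ls z + tk k) * G k 0 z +
          ∑ i : Fin n, ww a i * dslope al (Ls a) (Ls z + tk k) * G k i.succ z‖ ≤
          (C2 + (∑ i, ‖ww a i‖) * C3) * ρ * (A * M) := by
        refine (norm_add_le _ _).trans ?_
        have h6 : ‖dslope ze (Ls a) (Ls z + tk k) * G k 0 z‖ ≤ C2 * ρ * (A * M) := by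
          rw [norm_mul]
          exact mul_le_mul h3 (hGb _ _ z hz) (norm_nonneg _) (by positivity)
        have h7 : ‖∑ i : Fin n, ww a i * dslope al (Ls a) (Ls z + tk k) * G k i.succ z‖ ≤
            (∑ i, ‖ww a i‖) * C3 * ρ * (A * M) := by
          refine (norm_sum_le _ _).trans ?_
          rw [Finset.sum_mul, Finset.sum_mul, Finset.sum_mul]
          refine Finset.sum_le_sum fun i _ => ?_
          rw [norm_mul, norm_mul]
          refine mul_le_mul ?_ (hGb _ _ z hz) (norm_nonneg _) (by positivity)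
          rw [mul_assoc]
          exact mul_le_mul_of_nonneg_left h4 (norm_nonneg _)
        calc _ ≤ C2 * ρ * (A * M) + (∑ i, ‖ww a i‖) * C3 * ρ * (A * M) := add_le_add h6 h7
          _ = _ := by ring
      calc ‖c‖ * ‖KK (-(Ls z + tk k - Ls a))‖ * _
          ≤ ‖c‖ * (C1 * ρ) * ((C2 + (∑ i, ‖ww a i‖) * C3) * ρ * (A * M)) := by
            refine mul_le_mul (mul_le_mul_of_nonneg_left h2 (norm_nonneg _)) h5 (norm_nonneg _)
              (by positivity)
        _ = D0 * M * (ρ * ρ) := by rw [hD0]; ring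
        _ ≤ D0 * M * bb (k - k0) := mul_le_mul_of_nonneg_left hρ (by positivity))
  have hYi : ∀ i : Fin n, ∃ Y : V (n + 1) → ℂ, DifferentiableOn ℂ Y (ball 0 1) ∧
      (∀ z ∈ ball (0 : V (n + 1)) 1, HasSum (fun k => KK (Ls z + tk k - Ls a) *
        KK (-(Ls z + tk k - Ls a)) * al (Ls z + tk k) * G k i.succ z) (Y z)) ∧
      ∀ z ∈ ball (0 : V (n + 1)) 1, ‖Y z‖ ≤ D1 * M * ∑' j, bb j := by
    intro i
    refine sum_op (isOpen_ball (x := (0 : V (n + 1))) (ε := 1)) _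
      (fun k => (((hKu k).mul (hKun k)).mul (hal k)).mul (hGd k i.succ))
      (C := D1 * M) (by positivity) (fun z hz => ?_)
    obtain ⟨k0, hk0⟩ := hrho z hz
    refine ⟨k0, fun k => ?_⟩
    obtain ⟨ρ, hρ0, hρ, h1, h2, h3, h4⟩ := hk0 k
    change ‖KK (Ls z + tk k - Ls a) * KK (-(Ls z + tk k - Ls a)) * al (Ls z + tk k) *
      G k i.succ z‖ ≤ _
    rw [norm_mul, norm_mul, norm_mul]
    calc ‖KK (Ls z + tk k - Ls a)‖ * ‖KK (-(Ls z + tk k - Ls a))‖ * ‖al (Ls z + tk k)‖ *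
          ‖G k i.succ z‖
        ≤ (C1 * ρ) * (C1 * ρ) * 2 * (A * M) := by
          refine mul_le_mul (mul_le_mul (mul_le_mul h1 h2 (norm_nonneg _) (by positivity))
            (al_bd (hskm k hz)) (norm_nonneg _) (by positivity)) (hGb _ _ z hz) (norm_nonneg _)
            (by positivity)
      _ = D1 * M * (ρ * ρ) := by rw [hD1]; ring
      _ ≤ D1 * M * bb (k - k0) := mul_le_mul_of_nonneg_left hρ (by positivity)
  choose Y hYd hYs hYb using hYi
  refine ⟨Y0, Y, hY0d, hYd, fun z hz => (hY0b z hz).trans ?_, fun i z hz => (hYb i z hz).trans ?_,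
    fun z hz => ?_⟩
  · rw [← hB]
    have : 0 ≤ D1 * B * M := by positivity
    linarith
  · rw [← hB]
    have : 0 ≤ D0 * B * M := by positivity
    linarith
  · have h1 : HasSum (fun k : ℤ => KK (Ls z + tk k - Ls a) * KK (-(Ls z + tk k - Ls a)) * f z)
        (1 * f z) := by
      have h2 := (part_unity (s := Ls z - Ls a) (by
        have := u_im (Ls_mem (mem_ball_zero_iff.1 hz)) hsa 0
        simpa using this)).mul_right (f z)
      simp only [← hxk] at h2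
      exact h2
    have h3 : HasSum (fun k : ℤ => (exp (I * Ls z) - exp (I * Ls a)) *
        (c * KK (-(Ls z + tk k - Ls a)) * (dslope ze (Ls a) (Ls z + tk k) * G k 0 z +
          ∑ i : Fin n, ww a i * dslope al (Ls a) (Ls z + tk k) * G k i.succ z)) +
        ∑ i : Fin n, (ww z i - ww a i) * (KK (Ls z + tk k - Ls a) *
          KK (-(Ls z + tk k - Ls a)) * al (Ls z + tk k) * G k i.succ z))
        ((exp (I * Ls z) - exp (I * Ls a)) * Y0 z + ∑ i, (ww z i - ww a i) * Y i z) :=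
      ((hY0s z hz).mul_left _).add (hasSum_sum fun i _ => (hYs i z hz).mul_left _)
    rw [← one_mul (f z)]
    refine h1.unique (h3.congr_fun ?_)
    intro k
    have h4 := hdec k z hz
    have h5 := KK_shift (Ls z) (Ls a) k
    rw [← hc] at h5
    have h6 : (Ls z + tk k - Ls a) * dslope ze (Ls a) (Ls z + tk k) =
        ze (Ls z + tk k) - ze (Ls a) := sub_smul_dslope ze (Ls a) (Ls z + tk k)
    have h7 : (Ls z + tk k - Ls a) * dslope al (Ls a) (Ls z + tk k) =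
        al (Ls z + tk k) - al (Ls a) := sub_smul_dslope al (Ls a) (Ls z + tk k)
    rw [h4, ← h6]
    have h8 : ∀ i : Fin n, (ww z i * al (Ls z + tk k) - ww a i * al (Ls a)) * G k i.succ z =
        (ww z i - ww a i) * al (Ls z + tk k) * G k i.succ z +
        (Ls z + tk k - Ls a) * (ww a i * dslope al (Ls a) (Ls z + tk k) * G k i.succ z) := by
      intro i
      linear_combination (ww a i * G k i.succ z) * (-h7)
    simp only [h8, Finset.sum_add_distrib]
    rw [← Finset.mul_sum]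
    have h9 : ∑ i : Fin n, (ww z i - ww a i) * (KK (Ls z + tk k - Ls a) *
        KK (-(Ls z + tk k - Ls a)) * al (Ls z + tk k) * G k i.succ z) =
        KK (Ls z + tk k - Ls a) * KK (-(Ls z + tk k - Ls a)) *
        ∑ i : Fin n, (ww z i - ww a i) * al (Ls z + tk k) * G k i.succ z := by
      rw [Finset.mul_sum]
      refine Finset.sum_congr rfl fun i _ => ?_
      ring
    rw [h9]
    linear_combination (KK (-(Ls z + tk k - Ls a)) * (dslope ze (Ls a) (Ls z + tk k) * G k 0 z +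
          ∑ i : Fin n, ww a i * dslope al (Ls a) (Ls z + tk k) * G k i.succ z)) * h5

end Pool.Agent.H326R3.CB
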