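import Mathlib
import Pool.Agent.H326R3.CB10

/-!
Corona data are solvable modulo the ideal of `exp (i Ls) - exp (i Ls a)`, `ww - ww a`.
-/

set_option autoImplicit false

open Metric Set Filter Topology Complex

namespace Pool.Agent.H326R3.CB

variable {n : ℕ}

/-- interpolation along the orbit -/
theorem interp {a : V (n + 1)} (ha : ‖a‖ < 1) : ∃ C : ℝ, 0 ≤ C ∧ ∀ (c : ℤ → ℂ) (A : ℝ),
    (∀ k, ‖c k‖ ≤ A) → ∃ q : V (n + 1) → ℂ, DifferentiableOn ℂ q (ball 0 1) ∧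
      (∀ z ∈ ball (0 : V (n + 1)) 1, ‖q z‖ ≤ C * A) ∧ ∀ k : ℤ, q (Dl (2 * Real.pi * k) a) = c k := by
  have hsa : Ls a ∈ Sph := Ls_mem ha
  obtain ⟨C2, hC20, hC2⟩ := KK2_bd
  obtain ⟨B, hB⟩ : ∃ B : ℝ, B = ∑' j, bb j := ⟨_, rfl⟩
  have hB0 : 0 ≤ B := by rw [hB]; exact tsum_nonneg bb_pos
  refine ⟨C2 * B, by positivity, fun c A hc => ?_⟩
  have hA0 : 0 ≤ A := (norm_nonneg _).trans (hc 0)
  have hxk : ∀ (z : V (n + 1)) (k : ℤ), Ls z + tk k - Ls a = (Ls z - Ls a) - 2 * Real.pi * k := by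
    intro z k; unfold tk; push_cast; ring
  have hu : ∀ k, DifferentiableOn ℂ (fun z : V (n + 1) => Ls z + tk k - Ls a) (ball 0 1) :=
    fun k => (Ls_diff.add_const _).sub_const _
  obtain ⟨q, hq, hqs, hqb⟩ := sum_op (isOpen_ball (x := (0 : V (n + 1))) (ε := 1))
    (fun k z => c k * (KK (Ls z + tk k - Ls a) * KK (-(Ls z + tk k - Ls a))))
    (fun k => ((KK_diff.comp_differentiableOn (hu k)).mul
      (KK_diff.comp_differentiableOn (hu k).neg)).const_mul _) (C := C2 * A) (by positivity)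
    (fun z hz => by
      obtain ⟨k0, hk0⟩ := decay (x := Ls z - Ls a)
      refine ⟨k0, fun k => ?_⟩
      rw [norm_mul]
      have h1 := hC2 _ (u_im (Ls_mem (mem_ball_zero_iff.1 hz)) hsa (tk k))
      have h2 := hk0 k
      rw [← hxk] at h2
      calc ‖c k‖ * ‖KK (Ls z + tk k - Ls a) * KK (-(Ls z + tk k - Ls a))‖
          ≤ A * (C2 * (1 / (1 + ‖Ls z + tk k - Ls a‖) ^ 2)) :=
            mul_le_mul (hc k) h1 (norm_nonneg _) hA0
        _ ≤ A * (C2 * bb (k - k0)) := by gcongr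
        _ = C2 * A * bb (k - k0) := by ring)
  refine ⟨q, hq, fun z hz => (hqb z hz).trans (le_of_eq (by rw [hB]; ring)), fun l => ?_⟩
  have hz : Dl (2 * Real.pi * l) a ∈ ball (0 : V (n + 1)) 1 :=
    mem_ball_zero_iff.2 (Dl_mem ha _)
  have h1 := hqs _ hz
  have h2 : ∀ k : ℤ, Ls (Dl (2 * Real.pi * l) a) + tk k - Ls a = 2 * Real.pi * ((l - k : ℤ) : ℂ) := by
    intro k
    rw [Ls_Dl ha]
    unfold tk; push_cast; ring
  simp only [h2] at h1
  have h3 : HasSum (fun k : ℤ => c k * (KK (2 * Real.pi * ((l - k : ℤ) : ℂ)) *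
      KK (-(2 * Real.pi * ((l - k : ℤ) : ℂ))))) (c l * (KK (2 * Real.pi * ((l - l : ℤ) : ℂ)) *
      KK (-(2 * Real.pi * ((l - l : ℤ) : ℂ))))) := by
    refine hasSum_single l (fun k hk => ?_)
    rw [KK_int (sub_ne_zero.2 (Ne.symm hk)), zero_mul, mul_zero]
  rw [h1.unique h3]
  simp [KK_zero]

/-- **Arbitrary corona data become solvable when the functions `exp (i Ls) - exp (i Ls a)` and
`ww - ww a` are added.** -/
theorem bez (n N : ℕ) {δ : ℝ} (hδ : 0 < δ) {a : V (n + 1)} (ha : ‖a‖ < 1) :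
    ∃ C : ℝ, 0 ≤ C ∧ ∀ f : Fin N → V (n + 1) → ℂ, (∀ j, DifferentiableOn ℂ (f j) (ball 0 1)) →
      (∀ j, ∀ z ∈ ball (0 : V (n + 1)) 1, ‖f j z‖ ≤ 1) →
      (∀ z ∈ ball (0 : V (n + 1)) 1, δ ≤ ∑ j, ‖f j z‖) →
      ∃ (g : Fin N → V (n + 1) → ℂ) (u₀ : V (n + 1) → ℂ) (u : Fin n → V (n + 1) → ℂ),
        (∀ j, DifferentiableOn ℂ (g j) (ball 0 1)) ∧ DifferentiableOn ℂ u₀ (ball 0 1) ∧
        (∀ i, DifferentiableOn ℂ (u i) (ball 0 1)) ∧
        (∀ z ∈ ball (0 : V (n + 1)) 1, (∀ j, ‖g j z‖ ≤ C) ∧ ‖u₀ z‖ ≤ C ∧ ∀ i, ‖u i z‖ ≤ C) ∧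
        ∀ z ∈ ball (0 : V (n + 1)) 1, ∑ j, f j z * g j z +
          (exp (I * Ls z) - exp (I * Ls a)) * u₀ z + ∑ i, (ww z i - ww a i) * u i z = 1 := by
  obtain ⟨C1, hC10, hC1⟩ := interp ha
  obtain ⟨C2, hC20, hC2⟩ := key ha
  refine ⟨C1 * (1 / δ) + C2 * (N * (C1 * (1 / δ)) + 1), by positivity, fun f hf hb hc => ?_⟩
  have hP : ∀ k : ℤ, Dl (2 * Real.pi * k) a ∈ ball (0 : V (n + 1)) 1 := fun k =>
    mem_ball_zero_iff.2 (Dl_mem ha _)
  have hS : ∀ k : ℤ, 0 < ∑ l, ‖f l (Dl (2 * Real.pi * k) a)‖ := fun k => hδ.trans_le (hc _ (hP k))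
  have hcb : ∀ j, ∀ k : ℤ, ‖starRingEnd ℂ (f j (Dl (2 * Real.pi * k) a)) /
      ((‖f j (Dl (2 * Real.pi * k) a)‖ * ∑ l, ‖f l (Dl (2 * Real.pi * k) a)‖ : ℝ) : ℂ)‖ ≤ 1 / δ := by
    intro j k
    rw [norm_div, RCLike.norm_conj, Complex.norm_real, Real.norm_of_nonneg
      (mul_nonneg (norm_nonneg _) (hS k).le)]
    by_cases h0 : ‖f j (Dl (2 * Real.pi * k) a)‖ = 0
    · rw [h0, zero_mul, div_zero]; positivity
    · rw [← div_div, div_self h0]
      exact one_div_le_one_div_of_le hδ (hc _ (hP k))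
  choose q hq hqb hqv using fun j => hC1 _ _ (hcb j)
  obtain ⟨Y0, Y, hY0, hY, hY0b, hYb, hrep⟩ := hC2 (fun z => ∑ j, f j z * q j z - 1)
    (N * (C1 * (1 / δ)) + 1)
    ((DifferentiableOn.fun_sum fun j _ => (hf j).mul (hq j)).sub_const 1)
    (fun z hz => by
      refine (norm_sub_le _ _).trans ?_
      rw [norm_one]
      have h1 : ‖∑ j, f j z * q j z‖ ≤ N * (C1 * (1 / δ)) := by
        refine (norm_sum_le _ _).trans ?_
        have h2 : ∀ j ∈ Finset.univ, ‖f j z * q j z‖ ≤ C1 * (1 / δ) := by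
          intro j _
          rw [norm_mul]
          calc ‖f j z‖ * ‖q j z‖ ≤ 1 * (C1 * (1 / δ)) :=
                mul_le_mul (hb j z hz) (hqb j z hz) (norm_nonneg _) zero_le_one
            _ = _ := one_mul _
        refine (Finset.sum_le_card_nsmul _ _ _ h2).trans ?_
        rw [Finset.card_univ, Fintype.card_fin, nsmul_eq_mul]
      linarith)
    (fun k => by
      change ∑ j, f j (Dl (2 * Real.pi * k) a) * q j (Dl (2 * Real.pi * k) a) - 1 = 0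
      simp only [hqv]
      have h1 : ∀ j, f j (Dl (2 * Real.pi * k) a) * (starRingEnd ℂ (f j (Dl (2 * Real.pi * k) a)) /
          ((‖f j (Dl (2 * Real.pi * k) a)‖ * ∑ l, ‖f l (Dl (2 * Real.pi * k) a)‖ : ℝ) : ℂ)) =
          ((‖f j (Dl (2 * Real.pi * k) a)‖ : ℝ) : ℂ) *
            ((∑ l, ‖f l (Dl (2 * Real.pi * k) a)‖ : ℝ) : ℂ)⁻¹ := by
        intro j
        rw [← mul_div_assoc, Complex.mul_conj, Complex.normSq_eq_norm_sq]
        by_cases h0 : ‖f j (Dl (2 * Real.pi * k) a)‖ = 0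
        · rw [h0]; simp
        · push_cast
          have h2 : ((‖f j (Dl (2 * Real.pi * k) a)‖ : ℝ) : ℂ) ≠ 0 := by exact_mod_cast h0
          rw [sq, mul_div_mul_left _ _ h2, div_eq_mul_inv]
      simp only [h1]
      rw [← Finset.sum_mul]
      have h3 : ((∑ l, ‖f l (Dl (2 * Real.pi * k) a)‖ : ℝ) : ℂ) ≠ 0 := by exact_mod_cast (hS k).ne'
      rw [← Complex.ofReal_sum, mul_inv_cancel₀ h3, sub_self])
  refine ⟨q, fun z => -Y0 z, fun i z => -Y i z, hq, hY0.neg, fun i => (hY i).neg,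
    fun z hz => ⟨fun j => (hqb j z hz).trans ?_, ?_, fun i => ?_⟩, fun z hz => ?_⟩
  · have : 0 ≤ C2 * (N * (C1 * (1 / δ)) + 1) := by positivity
    linarith
  · rw [norm_neg]
    refine (hY0b z hz).trans ?_
    have : 0 ≤ C1 * (1 / δ) := by positivity
    linarith
  · rw [norm_neg]
    refine (hYb i z hz).trans ?_
    have : 0 ≤ C1 * (1 / δ) := by positivity
    linarith
  · have h1 := hrep z hz
    have h2 : ∑ i, (ww z i - ww a i) * -Y i z = -∑ i, (ww z i - ww a i) * Y i z := by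
      rw [← Finset.sum_neg_distrib]
      refine Finset.sum_congr rfl fun i _ => ?_
      ring
    rw [h2]
    linear_combination h1

end Pool.Agent.H326R3.CB
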