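import Mathlib
import Pool.Agent.H326R3.CB2

/-!
Characters of the algebra of bounded holomorphic functions on the ball, and the localisation
principle for ideals.
-/

set_option autoImplicit false

open Metric Set Filter Topology WeakDual

namespace Pool.Agent.H326R3.CB

variable {m : ℕ}

theorem exists_char (I : Ideal (Hi m)) (h : I ≠ ⊤) :
    ∃ χ : characterSpace ℂ (Hi m), ∀ F ∈ I, χ F = 0 := by
  obtain ⟨M, hM, hIM⟩ := I.exists_le_maximal h
  exact ⟨M.toCharacterSpace, fun F hF => M.toCharacterSpace_apply_eq_zero_of_mem (hIM hF)⟩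

/-- the linear function `z ↦ ⟨a, z⟩` -/
noncomputable def Lw (a : V m) : Hi m :=
  mk (f := fun z => inner ℂ a z) (C := ‖a‖)
    (by
      have : Differentiable ℂ (fun z : V m => inner ℂ a z) := (innerSL ℂ a).differentiable
      exact this.differentiableOn)
    (by
      intro z hz
      rw [mem_ball_zero_iff] at hz
      calc ‖inner ℂ a z‖ ≤ ‖a‖ * ‖z‖ := norm_inner_le_norm a z
        _ ≤ ‖a‖ * 1 := by gcongr
        _ = ‖a‖ := mul_one _)

theorem Lw_apply (a : V m) (z : Bt m) : (Lw a).1 z = inner ℂ a (z : V m) := rfl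

/-- constants -/
noncomputable def Cc (c : ℂ) : Hi m := algebraMap ℂ (Hi m) c

theorem Cc_apply (c : ℂ) (z : Bt m) : (Cc c : Hi m).1 z = c := rfl

theorem char_Cc (χ : characterSpace ℂ (Hi m)) (c : ℂ) : χ (Cc c) = c := by
  unfold Cc
  have := AlgHomClass.commutes χ c
  simpa using this

/-- the point below a character -/
noncomputable def pt (χ : characterSpace ℂ (Hi m)) : V m :=
  WithLp.toLp 2 (fun i => χ (Lw (EuclideanSpace.single i (1:ℂ))))

theorem pt_apply (χ : characterSpace ℂ (Hi m)) (i : Fin m) :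
    pt χ i = χ (Lw (EuclideanSpace.single i (1:ℂ))) := rfl

theorem Lw_single_apply (i : Fin m) (z : Bt m) :
    (Lw (EuclideanSpace.single i (1:ℂ))).1 z = (z : V m) i := by
  rw [Lw_apply, EuclideanSpace.inner_single_left]
  simp

theorem char_Lw (χ : characterSpace ℂ (Hi m)) (a : V m) : χ (Lw a) = inner ℂ a (pt χ) := by
  have h1 : Lw a = ∑ i, Cc (starRingEnd ℂ (a i)) * Lw (EuclideanSpace.single i (1:ℂ)) := by
    apply Hi.ext
    intro z
    rw [Hi.sum_apply, Lw_apply, PiLp.inner_apply]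
    refine Finset.sum_congr rfl fun i _ => ?_
    rw [Hi.mul_apply, Cc_apply, Lw_single_apply]
    simp [mul_comm]
  rw [h1, map_sum, PiLp.inner_apply]
  refine Finset.sum_congr rfl fun i _ => ?_
  rw [map_mul, char_Cc, pt_apply]
  simp [mul_comm]

theorem pt_norm (χ : characterSpace ℂ (Hi m)) : ‖pt χ‖ ≤ 1 := by
  have h1 := char_le χ (Lw (pt χ))
  rw [char_Lw] at h1
  have h2 : ‖Lw (pt χ)‖ ≤ ‖pt χ‖ := by
    refine Hi.norm_le (norm_nonneg _) (fun z => ?_)
    rw [Lw_apply]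
    have hz := z.2
    rw [mem_ball_zero_iff] at hz
    calc ‖inner ℂ (pt χ) (z : V m)‖ ≤ ‖pt χ‖ * ‖(z : V m)‖ := norm_inner_le_norm _ _
      _ ≤ ‖pt χ‖ * 1 := by gcongr
      _ = ‖pt χ‖ := mul_one _
  have h3 : ‖(inner ℂ (pt χ) (pt χ) : ℂ)‖ = ‖pt χ‖ ^ 2 := by
    rw [inner_self_eq_norm_sq_to_K]; simp
  rw [h3] at h1
  by_contra hcon
  push Not at hcon
  nlinarith

/-- characters over interior points are evaluations -/
theorem char_interior (χ : characterSpace ℂ (Hi m)) (hp : ‖pt χ‖ < 1) (F : Hi m) :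
    χ F = F.1 ⟨pt χ, by simpa using hp⟩ := by
  obtain ⟨f, hf, hfF⟩ := F.2
  set p := pt χ with hpdef
  have hfb : ∀ z ∈ ball (0 : V m) 1, ‖f z‖ ≤ ‖F‖ := by
    intro z hz
    have := Hi.le_norm F ⟨z, hz⟩
    rw [hfF] at this
    exact this
  set Γ : Fin m → Hi m := fun i => mk (gam_diff hf (EuclideanSpace.single i (1:ℂ)) hp)
    (C := 44 * ‖F‖ / (1 - ‖p‖) ^ 2) (fun z hz => gam_bd hf hfb (by simp) (by simpa using hz) hp)
    with hΓ
  have h1 : F = Cc (f p) + ∑ i, (Lw (EuclideanSpace.single i (1:ℂ)) - Cc (p i)) * Γ i := by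
    apply Hi.ext
    intro z
    have hz := z.2
    rw [mem_ball_zero_iff] at hz
    have hg := gleason hf hp hz
    rw [Hi.add_apply, Cc_apply, Hi.sum_apply, hfF]
    have h2 : ∀ i, ((Lw (EuclideanSpace.single i (1:ℂ)) - Cc (p i)) * Γ i).1 z =
        ((z : V m) i - p i) * gam f p (EuclideanSpace.single i (1:ℂ)) z := by
      intro i
      rw [Hi.mul_apply]
      have h3 : (Lw (EuclideanSpace.single i (1:ℂ)) - Cc (p i) : Hi m).1 z = (z : V m) i - p i := by
        have h4 : (Lw (EuclideanSpace.single i (1:ℂ)) - Cc (p i) : Hi m).1 z =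
          (Lw (EuclideanSpace.single i (1:ℂ)) : Hi m).1 z - (Cc (p i) : Hi m).1 z := rfl
        rw [h4, Lw_single_apply, Cc_apply]
      rw [h3]
      rfl
    rw [Finset.sum_congr rfl (fun i _ => h2 i), ← hg]
    ring
  have h2 : F.1 ⟨p, by simpa using hp⟩ = f p := hfF _
  rw [h2]
  conv_lhs => rw [h1]
  rw [map_add, char_Cc, map_sum]
  have h3 : ∀ i, χ ((Lw (EuclideanSpace.single i (1:ℂ)) - Cc (p i)) * Γ i) = 0 := by
    intro i
    rw [map_mul, map_sub, char_Cc, hpdef, pt_apply, sub_self, zero_mul]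
  simp [h3]

/-- a function that tends to zero at `p` is killed by all characters over the boundary point `p` -/
theorem char_boundary (χ : characterSpace ℂ (Hi m)) (hp : ‖pt χ‖ = 1) (r : Hi m)
    (hr : Tendsto (fun z : Bt m => r.1 z) (comap Subtype.val (𝓝 (pt χ))) (𝓝 0)) : χ r = 0 := by
  set p := pt χ with hpdef
  set P : Hi m := Cc (1/2) * (1 + Lw p) with hP
  have hPχ : χ P = 1 := by
    rw [hP, map_mul, char_Cc, map_add, map_one, char_Lw, ← hpdef, inner_self_eq_norm_sq_to_K, hp]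
    norm_num
  have hPz : ∀ z : Bt m, P.1 z = 1/2 * (1 + inner ℂ p (z : V m)) := fun z => rfl
  rw [← norm_le_zero_iff]
  refine le_of_forall_pos_le_add fun ε hε => ?_
  rw [zero_add]
  -- radius
  have h1 : ∀ᶠ z : Bt m in comap Subtype.val (𝓝 p), ‖r.1 z‖ < ε := by
    have := hr.norm
    rw [norm_zero] at this
    exact this.eventually_lt_const hε
  rw [eventually_comap] at h1
  obtain ⟨ρ₀, hρ₀, h2⟩ := Metric.eventually_nhds_iff.1 h1
  set ρ := min ρ₀ 1 with hρdef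
  have hρ : 0 < ρ := lt_min hρ₀ one_pos
  have hρ1 : ρ ≤ 1 := min_le_right _ _
  set s : ℝ := 1 - ρ ^ 2 / 4 with hs
  have hs0 : 0 ≤ s := by rw [hs]; nlinarith
  have hs1 : s < 1 := by rw [hs]; nlinarith [sq_pos_of_pos hρ]
  have hlim : Tendsto (fun k : ℕ => ‖r‖ * s ^ k) atTop (𝓝 0) := by
    have := (tendsto_pow_atTop_nhds_zero_of_lt_one hs0 hs1).const_mul ‖r‖
    simpa using this
  obtain ⟨k, hk⟩ := (hlim.eventually_lt_const hε).exists
  have hw : ∀ z : Bt m, ‖(inner ℂ p (z : V m) : ℂ)‖ ≤ 1 := by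
    intro z
    have hz := z.2
    rw [mem_ball_zero_iff] at hz
    calc ‖(inner ℂ p (z : V m) : ℂ)‖ ≤ ‖p‖ * ‖(z : V m)‖ := norm_inner_le_norm _ _
      _ ≤ 1 * 1 := by rw [hp]; gcongr
      _ = 1 := one_mul _
  have hP1 : ∀ z : Bt m, ‖P.1 z‖ ≤ 1 := by
    intro z
    rw [hPz, norm_mul]
    have := norm_add_le (1:ℂ) (inner ℂ p (z : V m))
    have h3 := hw z
    rw [norm_one] at this
    have h4 : ‖(1/2 : ℂ)‖ = 1/2 := by norm_num
    rw [h4]; linarith
  have hP2 : ∀ z : Bt m, ρ ≤ ‖(z : V m) - p‖ → ‖P.1 z‖ ^ 2 ≤ s := by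
    intro z hzp
    have hz := z.2
    rw [mem_ball_zero_iff] at hz
    have h3 : ‖(z : V m) - p‖ ^ 2 = ‖(z : V m)‖ ^ 2 - 2 * (inner ℂ p (z : V m) : ℂ).re + 1 := by
      rw [norm_sub_sq (𝕜 := ℂ), hp]
      have : RCLike.re (inner ℂ (z : V m) p : ℂ) = (inner ℂ p (z : V m) : ℂ).re :=
        inner_re_symm (𝕜 := ℂ) _ _
      rw [this]; ring
    have h4 : ρ ^ 2 ≤ ‖(z : V m) - p‖ ^ 2 := by gcongr
    have h5 : ‖(z : V m)‖ ^ 2 ≤ 1 := by nlinarith [norm_nonneg (z : V m)]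
    have h6 : ‖P.1 z‖ ^ 2 = 1/4 * ‖1 + (inner ℂ p (z : V m) : ℂ)‖ ^ 2 := by
      rw [hPz, norm_mul, mul_pow]; norm_num
    have h7 : ‖1 + (inner ℂ p (z : V m) : ℂ)‖ ^ 2 = 1 + 2 * (inner ℂ p (z : V m) : ℂ).re +
        ‖(inner ℂ p (z : V m) : ℂ)‖ ^ 2 := by
      rw [← Complex.normSq_eq_norm_sq, ← Complex.normSq_eq_norm_sq, Complex.normSq_apply,
        Complex.normSq_apply]
      simp; ring
    have h8 : ‖(inner ℂ p (z : V m) : ℂ)‖ ^ 2 ≤ 1 := by
      nlinarith [hw z, norm_nonneg (inner ℂ p (z : V m) : ℂ)]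
    rw [h6, h7, hs]
    nlinarith
  have hbound : ‖r * P ^ (2 * k)‖ ≤ ε := by
    refine Hi.norm_le hε.le (fun z => ?_)
    rw [Hi.mul_apply, Hi.pow_apply, norm_mul, norm_pow, pow_mul]
    by_cases hzp : ‖(z : V m) - p‖ < ρ
    · have h3 : ‖r.1 z‖ < ε := by
        refine h2 (y := (z : V m)) ?_ z rfl
        rw [dist_eq_norm]
        exact hzp.trans_le (min_le_left _ _)
      have h4 : (‖P.1 z‖ ^ 2) ^ k ≤ 1 := by
        apply pow_le_one₀ (by positivity)
        exact pow_le_one₀ (norm_nonneg _) (hP1 z)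
      calc ‖r.1 z‖ * (‖P.1 z‖ ^ 2) ^ k ≤ ε * 1 := by gcongr
        _ = ε := mul_one _
    · push Not at hzp
      calc ‖r.1 z‖ * (‖P.1 z‖ ^ 2) ^ k ≤ ‖r‖ * s ^ k := by
            gcongr
            · exact Hi.le_norm r z
            · exact hP2 z hzp
        _ ≤ ε := hk.le
  calc ‖χ r‖ = ‖χ (r * P ^ (2 * k))‖ := by rw [map_mul, map_pow, hPχ, one_pow, mul_one]
    _ ≤ ‖r * P ^ (2 * k)‖ := char_le _ _
    _ ≤ ε := hbound

/-- **Localisation principle.** -/
theorem core (I : Ideal (Hi m)) (hint : ∀ z : Bt m, ∃ F ∈ I, F.1 z ≠ 0)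
    (hbd : ∀ p : V m, ‖p‖ = 1 → ∃ (ι : Type) (_ : Fintype ι) (a b : ι → Hi m),
      ∑ i, a i * b i = 1 ∧ ∀ i, ∃ c ∈ I, Tendsto (fun z : Bt m => (a i).1 z - c.1 z)
        (comap Subtype.val (𝓝 p)) (𝓝 0)) : I = ⊤ := by
  by_contra hI
  obtain ⟨χ, hχ⟩ := exists_char I hI
  rcases lt_or_eq_of_le (pt_norm χ) with hp | hp
  · obtain ⟨F, hF, hne⟩ := hint ⟨pt χ, by simpa using hp⟩
    exact hne ((char_interior χ hp F).symm.trans (hχ F hF))
  · obtain ⟨ι, _, a, b, hab, hc⟩ := hbd (pt χ) hp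
    have h1 : ∀ i, χ (a i) = 0 := by
      intro i
      obtain ⟨c, hcI, hlim⟩ := hc i
      have h2 := char_boundary χ hp (a i - c) hlim
      rw [map_sub, hχ c hcI, sub_zero] at h2
      exact h2
    have h2 : χ (∑ i, a i * b i) = 0 := by
      rw [map_sum]
      refine Finset.sum_eq_zero fun i _ => ?_
      rw [map_mul, h1 i, zero_mul]
    rw [hab, map_one] at h2
    exact one_ne_zero h2

end Pool.Agent.H326R3.CB
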