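import Mathlib
import Pool.Agent.H326R3.CB3
import Pool.Agent.H326R3.CB11

/-!
Characters dominated by a Koranyi region do not annihilate corona data.
-/

set_option autoImplicit false

open Metric Set Filter Topology Complex

namespace Pool.Agent.H326R3.CB

section General

variable {m : ℕ}

open WeakDual in
theorem exists_char' {A : Type*} [NormedCommRing A] [NormedAlgebra ℂ A] [CompleteSpace A]
    (I : Ideal A) (h : I ≠ ⊤) : ∃ χ : characterSpace ℂ A, ∀ F ∈ I, χ F = 0 := by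
  obtain ⟨M, hM, hIM⟩ := I.exists_le_maximal h
  exact ⟨M.toCharacterSpace, fun F hF => M.toCharacterSpace_apply_eq_zero_of_mem (hIM hF)⟩

/-- restriction to a subset of the ball -/
noncomputable def resX (X : Set (Bt m)) : Hi m →ₐ[ℂ] BoundedContinuousFunction X ℂ where
  toFun F := F.1.compContinuous ⟨Subtype.val, continuous_subtype_val⟩
  map_one' := rfl
  map_mul' := fun _ _ => rfl
  map_zero' := rfl
  map_add' := fun _ _ => rfl
  commutes' := fun _ => rfl

theorem resX_apply (X : Set (Bt m)) (F : Hi m) (z : X) : resX X F z = F.1 z := rfl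

/-- the uniform closure of the restrictions -/
noncomputable def AX (X : Set (Bt m)) : Subalgebra ℂ (BoundedContinuousFunction X ℂ) :=
  (resX X).range.topologicalClosure

noncomputable instance (X : Set (Bt m)) : NormedCommRing (AX X) := inferInstance
noncomputable instance (X : Set (Bt m)) : NormedAlgebra ℂ (AX X) := inferInstance
instance (X : Set (Bt m)) : CompleteSpace (AX X) :=
  (Subalgebra.isClosed_topologicalClosure _).completeSpace_coe

/-- restriction as a map into the closure -/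
noncomputable def rX (X : Set (Bt m)) : Hi m →ₐ[ℂ] AX X :=
  (resX X).codRestrict (AX X) (fun F => Subalgebra.le_topologicalClosure _ ⟨F, rfl⟩)

theorem rX_apply (X : Set (Bt m)) (F : Hi m) (z : X) : (rX X F).1 z = F.1 z := rfl

theorem approx_or {X : Set (Bt m)} (hXn : X.Nonempty) {N : ℕ} (F : Fin N → Hi m)
    (h : ∀ χ : Hi m →ₐ[ℂ] ℂ, (∀ (G : Hi m) (C : ℝ), (∀ z ∈ X, ‖G.1 z‖ ≤ C) → ‖χ G‖ ≤ C) →
      ∃ j, χ (F j) ≠ 0) {ε : ℝ} (hε : 0 < ε) :
    ∃ G : Fin N → Hi m, ∀ z ∈ X, ‖∑ j, (F j).1 z * (G j).1 z - 1‖ ≤ ε := by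
  haveI : Nonempty X := hXn.to_subtype
  by_cases hJ : Ideal.span (Set.range fun j => rX X (F j)) = ⊤
  · have h1 : (1 : AX X) ∈ Ideal.span (Set.range fun j => rX X (F j)) := by rw [hJ]; trivial
    obtain ⟨c, hc⟩ := Ideal.mem_span_range_iff_exists_fun.1 h1
    obtain ⟨ε', hε'⟩ : ∃ e : ℝ, e = ε / (1 + ∑ j, ‖F j‖) := ⟨_, rfl⟩
    have hs : 0 < 1 + ∑ j, ‖F j‖ := by
      have : 0 ≤ ∑ j, ‖F j‖ := Finset.sum_nonneg fun j _ => norm_nonneg _
      linarith
    have hε'0 : 0 < ε' := by rw [hε']; positivity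
    have h2 : ∀ j, ∃ G : Hi m, ‖(c j).1 - resX X G‖ < ε' := by
      intro j
      have h3 : (c j).1 ∈ closure ((resX X).range : Set (BoundedContinuousFunction X ℂ)) := (c j).2
      obtain ⟨b, ⟨G, rfl⟩, hb⟩ := Metric.mem_closure_iff.1 h3 ε' hε'0
      exact ⟨G, by rw [← dist_eq_norm]; exact hb⟩
    choose G hG using h2
    refine ⟨G, fun z hz => ?_⟩
    have h4 : ∑ j, (c j).1 ⟨z, hz⟩ * (F j).1 z = 1 := by
      have h5 := congrArg (fun a : AX X => a.1 ⟨z, hz⟩) hc
      have h6 : (∑ j, c j * rX X (F j) : AX X).1 ⟨z, hz⟩ = ∑ j, (c j).1 ⟨z, hz⟩ * (F j).1 z := by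
        rw [AddSubmonoidClass.coe_finset_sum]
        rw [BoundedContinuousFunction.sum_apply]
        rfl
      rw [h6] at h5
      exact h5
    have h7 : ∑ j, (F j).1 z * (G j).1 z - 1 =
        -∑ j, ((c j).1 ⟨z, hz⟩ - (G j).1 z) * (F j).1 z := by
      rw [← h4, ← Finset.sum_sub_distrib, ← Finset.sum_neg_distrib]
      refine Finset.sum_congr rfl fun j _ => ?_
      ring
    rw [h7, norm_neg]
    refine (norm_sum_le _ _).trans ?_
    have h8 : ∀ j, ‖((c j).1 ⟨z, hz⟩ - (G j).1 z) * (F j).1 z‖ ≤ ε' * ‖F j‖ := by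
      intro j
      rw [norm_mul]
      refine mul_le_mul ?_ (Hi.le_norm _ _) (norm_nonneg _) hε'0.le
      have h9 := ((c j).1 - resX X (G j)).norm_coe_le_norm ⟨z, hz⟩
      exact h9.trans (hG j).le
    refine (Finset.sum_le_sum fun j _ => h8 j).trans ?_
    rw [← Finset.mul_sum, hε', div_mul_eq_mul_div, div_le_iff₀ hs]
    nlinarith
  · exfalso
    obtain ⟨χ', hχ'⟩ := exists_char' _ hJ
    obtain ⟨j, hj⟩ := h ((WeakDual.CharacterSpace.toAlgHom χ').comp (rX X)) (by
      intro G C hG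
      have hC0 : 0 ≤ C := by
        obtain ⟨z, hz⟩ := hXn
        exact (norm_nonneg _).trans (hG z hz)
      have h1 : ‖χ' (rX X G)‖ ≤ ‖rX X G‖ * ‖(1 : AX X)‖ :=
        spectrum.norm_le_norm_mul_of_mem (AlgHom.apply_mem_spectrum χ' (rX X G))
      have h2 : ‖rX X G‖ ≤ C :=
        (BoundedContinuousFunction.norm_le hC0).2 (fun z => hG z.1 z.2)
      have h3 : ‖(1 : AX X)‖ ≤ 1 :=
        (BoundedContinuousFunction.norm_le zero_le_one).2 (fun z => by
          change ‖(1:ℂ)‖ ≤ 1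
          simp)
      change ‖χ' (rX X G)‖ ≤ C
      calc ‖χ' (rX X G)‖ ≤ ‖rX X G‖ * ‖(1 : AX X)‖ := h1
        _ ≤ C * 1 := mul_le_mul h2 h3 (norm_nonneg _) hC0
        _ = C := mul_one C)
    exact hj (hχ' _ (Ideal.subset_span ⟨j, rfl⟩))

end General

/-- the tangent line to `log cos` -/
theorem cos_tangent {θ θ₀ : ℝ} (h : |θ| < Real.pi / 2) (h₀ : |θ₀| < Real.pi / 2) :
    Real.cos θ * Real.exp (Real.tan θ₀ * θ) ≤ Real.cos θ₀ * Real.exp (Real.tan θ₀ * θ₀) := by
  have hc0 : 0 < Real.cos θ₀ := Real.cos_pos_of_mem_Ioo (abs_lt.1 h₀)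
  obtain ⟨h1, h2⟩ := abs_lt.1 h
  obtain ⟨h3, h4⟩ := abs_lt.1 h₀
  set F : ℝ → ℝ := fun x => Real.cos x * Real.exp (Real.tan θ₀ * x) with hF
  have hder : ∀ x, HasDerivAt F (Real.exp (Real.tan θ₀ * x) * (Real.sin (θ₀ - x) / Real.cos θ₀)) x := by
    intro x
    have h5 : HasDerivAt F (-Real.sin x * Real.exp (Real.tan θ₀ * x) +
        Real.cos x * (Real.exp (Real.tan θ₀ * x) * (Real.tan θ₀ * 1))) x :=
      (Real.hasDerivAt_cos x).mul (((hasDerivAt_id x).const_mul _).exp)
    convert h5 using 1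
    rw [Real.sin_sub, Real.tan_eq_sin_div_cos]
    field_simp
    ring
  have hcont : Continuous F := by rw [hF]; fun_prop
  change F θ ≤ F θ₀
  rcases le_total θ₀ θ with hle | hle
  · have hanti : AntitoneOn F (Icc θ₀ θ) := by
      refine antitoneOn_of_deriv_nonpos (convex_Icc _ _) hcont.continuousOn
        (fun x _ => (hder x).differentiableAt.differentiableWithinAt) ?_
      intro x hx
      rw [interior_Icc] at hx
      rw [(hder x).deriv]
      have h6 : Real.sin (θ₀ - x) ≤ 0 :=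
        Real.sin_nonpos_of_nonpos_of_neg_pi_le (by linarith [hx.1]) (by linarith [hx.2])
      exact mul_nonpos_of_nonneg_of_nonpos (Real.exp_pos _).le
        (div_nonpos_of_nonpos_of_nonneg h6 hc0.le)
    exact hanti (left_mem_Icc.2 hle) (right_mem_Icc.2 hle) hle
  · have hmono : MonotoneOn F (Icc θ θ₀) := by
      refine monotoneOn_of_deriv_nonneg (convex_Icc _ _) hcont.continuousOn
        (fun x _ => (hder x).differentiableAt.differentiableWithinAt) ?_
      intro x hx
      rw [interior_Icc] at hx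
      rw [(hder x).deriv]
      have h6 : 0 ≤ Real.sin (θ₀ - x) :=
        Real.sin_nonneg_of_nonneg_of_le_pi (by linarith [hx.2]) (by linarith [hx.1])
      exact mul_nonneg (Real.exp_pos _).le (div_nonneg h6 hc0.le)
    exact hmono (left_mem_Icc.2 hle) (right_mem_Icc.2 hle) hle

end Pool.Agent.H326R3.CB
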