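import Mathlib
import Pool.Agent.H326R3.CB12

/-!
Characters dominated by a Koranyi region do not annihilate corona data.
-/

set_option autoImplicit false

open Metric Set Filter Topology Complex

namespace Pool.Agent.H326R3.CB

variable {n : ℕ}

theorem mapsU (U : V (n + 1) ≃ₗᵢ[ℂ] V (n + 1)) : MapsTo U (ball 0 1) (ball 0 1) := by
  intro z hz
  rw [mem_ball_zero_iff] at hz ⊢
  rw [U.norm_map]; exact hz

theorem diffU (U : V (n + 1) ≃ₗᵢ[ℂ] V (n + 1)) {f : V (n + 1) → ℂ}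
    (hf : DifferentiableOn ℂ f (ball 0 1)) :
    DifferentiableOn ℂ (fun z => f (U z)) (ball 0 1) :=
  hf.comp (U.toContinuousLinearEquiv.differentiable.differentiableOn) (mapsU U)

/-- composition of `H^∞` functions with a unitary map -/
noncomputable def mkU (U : V (n + 1) ≃ₗᵢ[ℂ] V (n + 1)) {f : V (n + 1) → ℂ}
    (hf : DifferentiableOn ℂ f (ball 0 1)) {C : ℝ}
    (hC : ∀ z ∈ ball (0 : V (n + 1)) 1, ‖f z‖ ≤ C) : Hi (n + 1) :=
  mk (f := fun z => f (U z)) (diffU U hf) (C := C) (fun z hz => hC _ (mapsU U hz))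

theorem mkU_apply (U : V (n + 1) ≃ₗᵢ[ℂ] V (n + 1)) {f : V (n + 1) → ℂ}
    (hf : DifferentiableOn ℂ f (ball 0 1)) {C : ℝ}
    (hC : ∀ z ∈ ball (0 : V (n + 1)) 1, ‖f z‖ ≤ C) (z : Bt (n + 1)) :
    (mkU U hf hC).1 z = f (U z) := rfl

theorem ea_diff (x : ℝ) : DifferentiableOn ℂ (fun z : V (n + 1) => exp (I * x * Ls z)) (ball 0 1) :=
  (Ls_diff.const_mul _).cexp

theorem ea_norm (x : ℝ) (z : V (n + 1)) : ‖exp (I * x * Ls z)‖ = Real.exp (-x * (Ls z).im) := by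
  rw [Complex.norm_exp]
  congr 1
  simp [Complex.mul_re]

theorem ea_bd (x : ℝ) : ∀ z ∈ ball (0 : V (n + 1)) 1,
    ‖exp (I * x * Ls z)‖ ≤ Real.exp (|x| * Real.pi) := by
  intro z hz
  rw [ea_norm, Real.exp_le_exp]
  have h1 : |(Ls z).im| < Real.pi / 2 := Ls_mem (mem_ball_zero_iff.1 hz)
  calc -x * (Ls z).im ≤ |-x * (Ls z).im| := le_abs_self _
    _ = |x| * |(Ls z).im| := by rw [abs_mul, abs_neg]
    _ ≤ |x| * Real.pi := by
      gcongr
      linarith [Real.pi_pos]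

/-- the functions `exp (i x Ls)` -/
noncomputable def ea (U : V (n + 1) ≃ₗᵢ[ℂ] V (n + 1)) (x : ℝ) : Hi (n + 1) :=
  mkU U (ea_diff x) (ea_bd x)

theorem ww_bd (i : Fin n) : ∀ z ∈ ball (0 : V (n + 1)) 1, ‖ww z i‖ ≤ 1 := by
  intro z hz
  have h1 := ww_lt (mem_ball_zero_iff.1 hz)
  have h2 : ‖ww z i‖ ^ 2 ≤ ∑ i, ‖ww z i‖ ^ 2 :=
    Finset.single_le_sum (f := fun i => ‖ww z i‖ ^ 2) (fun i _ => by positivity) (Finset.mem_univ i)
  have h3 := Real.cos_le_one (Ls z).im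
  nlinarith [norm_nonneg (ww z i)]

/-- the functions `ww` -/
noncomputable def wU (U : V (n + 1) ≃ₗᵢ[ℂ] V (n + 1)) (i : Fin n) : Hi (n + 1) :=
  mkU U (ww_diff i) (ww_bd i)

theorem ea_add (U : V (n + 1) ≃ₗᵢ[ℂ] V (n + 1)) (x y : ℝ) : ea U (x + y) = ea U x * ea U y := by
  apply Hi.ext
  intro z
  rw [Hi.mul_apply]
  unfold ea
  rw [mkU_apply, mkU_apply, mkU_apply, ← Complex.exp_add]
  congr 1
  push_cast; ring

theorem ea_zero (U : V (n + 1) ≃ₗᵢ[ℂ] V (n + 1)) : ea U 0 = 1 := by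
  apply Hi.ext
  intro z
  rw [Hi.one_apply]
  unfold ea
  rw [mkU_apply]
  simp

theorem char_ea_ne (U : V (n + 1) ≃ₗᵢ[ℂ] V (n + 1)) (χ : Hi (n + 1) →ₐ[ℂ] ℂ) (x : ℝ) :
    χ (ea U x) ≠ 0 := by
  intro h
  have h1 : χ (ea U x) * χ (ea U (-x)) = 1 := by
    rw [← map_mul, ← ea_add, add_neg_cancel, ea_zero, map_one]
  rw [h, zero_mul] at h1
  exact zero_ne_one h1

/-- `log |χ (exp (i x Ls))|` is linear in `x` -/
theorem char_ea (U : V (n + 1) ≃ₗᵢ[ℂ] V (n + 1)) (χ : Hi (n + 1) →ₐ[ℂ] ℂ) {K : ℝ}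
    (hK : ∀ x : ℝ, ‖χ (ea U x)‖ ≤ Real.exp (|x| * K)) (x : ℝ) :
    Real.log ‖χ (ea U x)‖ = x * Real.log ‖χ (ea U 1)‖ := by
  let φ : ℝ →+ ℝ :=
    { toFun := fun x => Real.log ‖χ (ea U x)‖
      map_zero' := by rw [ea_zero, map_one, norm_one, Real.log_one]
      map_add' := fun x y => by
        rw [ea_add, map_mul, norm_mul, Real.log_mul (norm_ne_zero_iff.2 (char_ea_ne U χ x))
          (norm_ne_zero_iff.2 (char_ea_ne U χ y))] }
  have hle : ∀ x, φ x ≤ |x| * K := by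
    intro x
    have h1 := Real.log_le_log (norm_pos_iff.2 (char_ea_ne U χ x)) (hK x)
    rwa [Real.log_exp] at h1
  have hbd : ∀ x, ‖φ x‖ ≤ K * ‖x‖ := by
    intro x
    rw [Real.norm_eq_abs, Real.norm_eq_abs, mul_comm K, abs_le]
    refine ⟨?_, hle x⟩
    have h2 := hle (-x)
    rw [map_neg, abs_neg] at h2
    linarith
  have hcont : Continuous φ := AddMonoidHomClass.continuous_of_bound φ K hbd
  have h3 := map_real_smul φ hcont x 1
  rw [smul_eq_mul, mul_one, smul_eq_mul] at h3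
  exact h3

theorem no_char {N : ℕ} (F : Fin N → Hi (n + 1)) {δ : ℝ} (hδ : 0 < δ)
    (hc : ∀ z : Bt (n + 1), δ ≤ ∑ j, ‖(F j).1 z‖) (U : V (n + 1) ≃ₗᵢ[ℂ] V (n + 1)) {η : ℝ}
    (hη : 0 < η) (X : Set (Bt (n + 1)))
    (hX : ∀ z ∈ X, η ≤ Real.cos (Ls (U z)).im - ∑ i, ‖ww (U z) i‖ ^ 2)
    (χ : Hi (n + 1) →ₐ[ℂ] ℂ)
    (hχ : ∀ (G : Hi (n + 1)) (C : ℝ), (∀ z ∈ X, ‖G.1 z‖ ≤ C) → ‖χ G‖ ≤ C) :
    ∃ j, χ (F j) ≠ 0 := by
  by_contra hcon
  push Not at hcon
  obtain ⟨K, hK⟩ : ∃ K : ℝ, K = Real.arccos η := ⟨_, rfl⟩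
  have hK2 : K < Real.pi / 2 := by rw [hK]; exact Real.arccos_lt_pi_div_two.2 hη
  have hXm : ∀ z : Bt (n + 1), |(Ls (U z)).im| < Real.pi / 2 := fun z =>
    Ls_mem (mem_ball_zero_iff.1 (mapsU U z.2))
  have hXK : ∀ z ∈ X, |(Ls (U z)).im| ≤ K := by
    intro z hz
    have h1 := hX z hz
    have h2 : 0 ≤ ∑ i, ‖ww (U z) i‖ ^ 2 := Finset.sum_nonneg fun i _ => by positivity
    have h3 : η ≤ Real.cos |(Ls (U z)).im| := by rw [Real.cos_abs]; linarith
    rw [hK, ← Real.arccos_cos (abs_nonneg (Ls (U z)).im) (by linarith [hXm z, Real.pi_pos])]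
    exact Real.arccos_le_arccos h3
  have hea : ∀ x : ℝ, ‖χ (ea U x)‖ ≤ Real.exp (|x| * K) := by
    intro x
    refine hχ _ _ (fun z hz => ?_)
    unfold ea
    rw [mkU_apply, ea_norm, Real.exp_le_exp]
    calc -x * (Ls (U z)).im ≤ |-x * (Ls (U z)).im| := le_abs_self _
      _ = |x| * |(Ls (U z)).im| := by rw [abs_mul, abs_neg]
      _ ≤ |x| * K := mul_le_mul_of_nonneg_left (hXK z hz) (abs_nonneg _)
  have hlin := char_ea U χ hea
  obtain ⟨E, hE⟩ : ∃ E : ℂ, E = χ (ea U 1) := ⟨_, rfl⟩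
  have hE0 : E ≠ 0 := hE ▸ char_ea_ne U χ 1
  obtain ⟨θ, hθ⟩ : ∃ θ : ℝ, θ = -Real.log ‖E‖ := ⟨_, rfl⟩
  have hlin' : ∀ x : ℝ, ‖χ (ea U x)‖ = Real.exp (-x * θ) := by
    intro x
    have h1 := hlin x
    rw [← hE] at h1
    rw [← Real.exp_log (norm_pos_iff.2 (char_ea_ne U χ x)), h1, hθ]
    congr 1; ring
  have hθK : |θ| ≤ K := by
    have h1 := hea 1
    have h2 := hea (-1)
    rw [hlin', Real.exp_le_exp] at h1 h2
    simp only [abs_one, abs_neg, one_mul] at h1 h2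
    rw [abs_le]
    constructor <;> linarith
  have hθ2 : |θ| < Real.pi / 2 := lt_of_le_of_lt hθK hK2
  have hcosθ : 0 < Real.cos θ := Real.cos_pos_of_mem_Ioo (abs_lt.1 hθ2)
  obtain ⟨ω, hω⟩ : ∃ ω : Fin n → ℂ, ω = fun i => χ (wU U i) := ⟨_, rfl⟩
  obtain ⟨S, hS⟩ : ∃ S : ℝ, S = ∑ i, ‖ω i‖ ^ 2 := ⟨_, rfl⟩
  have hS0 : 0 ≤ S := by rw [hS]; exact Finset.sum_nonneg fun i _ => by positivity
  -- the norm of `ω`
  have hlt : S < Real.cos θ := by
    obtain ⟨L, hL⟩ : ∃ L : Hi (n + 1), L = ∑ i, Cc (starRingEnd ℂ (ω i)) * wU U i := ⟨_, rfl⟩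
    have hLz : ∀ z : Bt (n + 1), L.1 z = ∑ i, starRingEnd ℂ (ω i) * ww (U z) i := by
      intro z
      rw [hL, Hi.sum_apply]
      rfl
    have hχL : χ L = (S : ℂ) := by
      rw [hL, map_sum, hS]
      push_cast
      refine Finset.sum_congr rfl fun i _ => ?_
      rw [map_mul]
      have h1 : χ (Cc (starRingEnd ℂ (ω i))) = starRingEnd ℂ (ω i) := χ.commutes _
      have h2 : χ (wU U i) = ω i := by rw [hω]
      rw [h1, h2, mul_comm, Complex.mul_conj, Complex.normSq_eq_norm_sq]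
      push_cast; ring
    have hLn : ∀ z : Bt (n + 1), ‖L.1 z‖ ^ 2 ≤ S * ∑ i, ‖ww (U z) i‖ ^ 2 := by
      intro z
      have h1 : ‖L.1 z‖ ≤ ∑ i, ‖ω i‖ * ‖ww (U z) i‖ := by
        rw [hLz]
        refine (norm_sum_le _ _).trans (Finset.sum_le_sum fun i _ => ?_)
        rw [norm_mul, RCLike.norm_conj]
      have h2 := Finset.sum_mul_sq_le_sq_mul_sq Finset.univ (fun i => ‖ω i‖) (fun i => ‖ww (U z) i‖)
      rw [hS]
      refine le_trans ?_ h2
      exact pow_le_pow_left₀ (norm_nonneg _) h1 2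
    have hmain : ‖χ (L * L * ea U (-Real.tan θ))‖ ≤
        S * (1 - η) * (Real.cos θ * Real.exp (Real.tan θ * θ)) := by
      refine hχ _ _ (fun z hz => ?_)
      have h1 : (L * L * ea U (-Real.tan θ)).1 z = L.1 z * L.1 z *
          exp (I * ((-Real.tan θ : ℝ) : ℂ) * Ls (U z)) := rfl
      rw [h1, norm_mul, norm_mul, ea_norm, neg_neg]
      have h2 := hLn z
      have h3 := hX z hz
      have h4 := cos_tangent (hXm z) hθ2
      have h5 := Real.cos_le_one (Ls (U z)).im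
      have h6 : 0 < Real.cos (Ls (U z)).im := Real.cos_pos_of_mem_Ioo (abs_lt.1 (hXm z))
      have h7 : ∑ i, ‖ww (U z) i‖ ^ 2 ≤ (1 - η) * Real.cos (Ls (U z)).im := by nlinarith
      have h8 : 0 ≤ ∑ i, ‖ww (U z) i‖ ^ 2 := Finset.sum_nonneg fun i _ => by positivity
      have h9 : 0 ≤ 1 - η := by nlinarith
      calc ‖L.1 z‖ * ‖L.1 z‖ * Real.exp (Real.tan θ * (Ls (U z)).im)
          = ‖L.1 z‖ ^ 2 * Real.exp (Real.tan θ * (Ls (U z)).im) := by ring
        _ ≤ (S * ((1 - η) * Real.cos (Ls (U z)).im)) * Real.exp (Real.tan θ * (Ls (U z)).im) := by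
            gcongr
            exact h2.trans (mul_le_mul_of_nonneg_left h7 hS0)
        _ = S * (1 - η) * (Real.cos (Ls (U z)).im * Real.exp (Real.tan θ * (Ls (U z)).im)) := by ring
        _ ≤ S * (1 - η) * (Real.cos θ * Real.exp (Real.tan θ * θ)) := by gcongr
    rw [map_mul, map_mul, hχL, norm_mul, norm_mul, Complex.norm_real, Real.norm_of_nonneg hS0,
      hlin', neg_neg] at hmain
    have hpos : 0 < Real.exp (Real.tan θ * θ) := Real.exp_pos _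
    have h1 : S * S ≤ S * ((1 - η) * Real.cos θ) := by
      refine le_of_mul_le_mul_right ?_ hpos
      calc S * S * Real.exp (Real.tan θ * θ) ≤ _ := hmain
        _ = _ := by ring
    rcases hS0.eq_or_lt with h2 | h2
    · rw [← h2]; exact hcosθ
    · have h3 := le_of_mul_le_mul_left h1 h2
      nlinarith
  -- the point
  obtain ⟨s₀, hs₀⟩ : ∃ s : ℂ, s = -I * log E := ⟨_, rfl⟩
  have him : s₀.im = θ := by
    rw [hs₀, hθ]
    simp [Complex.mul_im, Complex.log_re]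
  have hs₀m : s₀ ∈ Sph := by
    change |s₀.im| < _
    rw [him]; exact hθ2
  have hωc : ∑ i, ‖ω i‖ ^ 2 < Real.cos s₀.im := by rw [him, ← hS]; exact hlt
  have ha : ‖PP s₀ ω‖ < 1 := PP_mem hs₀m hωc
  have hLa : exp (I * Ls (PP s₀ ω)) = E := by
    rw [Ls_PP hs₀m hωc, hs₀]
    have : I * (-I * log E) = log E := by
      rw [← mul_assoc, mul_neg, I_mul_I, neg_neg, one_mul]
    rw [this, Complex.exp_log hE0]
  have hwa : ww (PP s₀ ω) = ω := ww_PP hs₀m hωc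
  -- the data
  choose f hf hFf using fun j => (F j).2
  obtain ⟨M, hM⟩ : ∃ M : ℝ, M = 1 + ∑ j, ‖F j‖ := ⟨_, rfl⟩
  have hM1 : 0 < M := by
    have : 0 ≤ ∑ j, ‖F j‖ := Finset.sum_nonneg fun j _ => norm_nonneg _
    rw [hM]; linarith
  have hFM : ∀ j, ‖F j‖ ≤ M := by
    intro j
    have := Finset.single_le_sum (f := fun j => ‖F j‖) (fun j _ => norm_nonneg _) (Finset.mem_univ j)
    rw [hM]
    linarith
  have hMn : ‖(M : ℂ)‖ = M := by rw [Complex.norm_real, Real.norm_of_nonneg hM1.le]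
  obtain ⟨C, hC0, hC⟩ := bez n N (δ := δ / M) (by positivity) ha
  have hUs : ∀ z ∈ ball (0 : V (n + 1)) 1, U.symm z ∈ ball (0 : V (n + 1)) 1 := fun z hz =>
    mapsU U.symm hz
  obtain ⟨g, u₀, u, hg, hu₀, hu, hbd, hid⟩ := hC (fun j z => f j (U.symm z) * (1 / M : ℂ))
    (fun j => (diffU U.symm (hf j)).mul_const _)
    (fun j z hz => by
      rw [norm_mul, norm_div, norm_one, hMn, mul_one_div, div_le_one hM1]
      have h1 := hFf j ⟨_, hUs z hz⟩
      have h2 := Hi.le_norm (F j) ⟨_, hUs z hz⟩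
      rw [show (F j).1 ⟨_, hUs z hz⟩ = f j (U.symm z) from h1] at h2
      exact h2.trans (hFM j))
    (fun z hz => by
      have h1 := hc ⟨_, hUs z hz⟩
      rw [div_le_iff₀ hM1, Finset.sum_mul]
      refine h1.trans (Finset.sum_le_sum fun j _ => ?_)
      rw [show (F j).1 ⟨_, hUs z hz⟩ = f j (U.symm z) from hFf j ⟨_, hUs z hz⟩]
      rw [norm_mul, norm_div, norm_one, hMn]
      apply le_of_eq
      field_simp)
  rw [hLa, hwa] at hid
  have hone : (∑ j, F j * (Cc (1 / M) * mkU U (hg j) (C := C) (fun z hz => (hbd z hz).1 j))) +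
      (ea U 1 - Cc E) * mkU U hu₀ (C := C) (fun z hz => (hbd z hz).2.1) +
      ∑ i, (wU U i - Cc (ω i)) * mkU U (hu i) (C := C) (fun z hz => (hbd z hz).2.2 i) = 1 := by
    apply Hi.ext
    intro z
    rw [Hi.one_apply]
    refine Eq.trans ?_ (hid (U z) (mapsU U z.2))
    rw [Hi.add_apply, Hi.add_apply, Hi.sum_apply, Hi.sum_apply]
    refine congrArg₂ (· + ·) (congrArg₂ (· + ·) ?_ ?_) ?_
    · refine Finset.sum_congr rfl fun j _ => ?_
      rw [Hi.mul_apply, Hi.mul_apply, Cc_apply, mkU_apply, LinearIsometryEquiv.symm_apply_apply,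
        show (F j).1 z = f j z from hFf j z]
      ring
    · have h2 : (ea U 1).1 z = exp (I * Ls (U z)) := by
        unfold ea
        rw [mkU_apply]
        simp
      change ((ea U 1).1 z - (Cc E : Hi (n + 1)).1 z) * _ = _
      rw [h2]
      rfl
    · rfl
  have h1 := congrArg χ hone
  have hCc : ∀ c : ℂ, χ (Cc c) = c := fun c => χ.commutes c
  rw [map_one, map_add, map_add, map_sum, map_sum, map_mul, map_sub, ← hE, hCc, sub_self,
    zero_mul] at h1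
  have h2 : ∀ j, χ (F j * (Cc (1 / M) * mkU U (hg j) (C := C) (fun z hz => (hbd z hz).1 j))) = 0 := by
    intro j; rw [map_mul, hcon j, zero_mul]
  have h3 : ∀ i, χ ((wU U i - Cc (ω i)) *
      mkU U (hu i) (C := C) (fun z hz => (hbd z hz).2.2 i)) = 0 := by
    intro i
    have h4 : χ (wU U i) = ω i := by rw [hω]
    rw [map_mul, map_sub, h4, hCc, sub_self, zero_mul]
  simp only [h2, h3, Finset.sum_const_zero, add_zero] at h1
  exact zero_ne_one h1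

end Pool.Agent.H326R3.CB
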