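import Mathlib
import Pool.Agent.H326R3.CB3
import Pool.Agent.H720R2.HP.Final

/-!
The corona theorem on the ball for data which at every boundary point, with at most one
exception depending on the point, are asymptotic to functions of one variable.
-/

set_option autoImplicit false

open Metric Set Filter Topology
open Pool.Agent.H720R2.Cor (Ball IsAutomorphism)

namespace Pool.Agent.H326R3.CB

/-- coordinates -/
noncomputable abbrev ee (m : ℕ) : V m ≃L[ℂ] (Fin m → ℂ) := EuclideanSpace.equiv (Fin m) ℂ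

theorem mem_Ball_iff {m : ℕ} (z : Fin m → ℂ) : z ∈ Ball m ↔ ‖(ee m).symm z‖ < 1 := by
  have h : ‖(ee m).symm z‖ ^ 2 = ∑ i, ‖z i‖ ^ 2 := EuclideanSpace.norm_sq_eq _
  change ∑ i, ‖z i‖ ^ 2 < 1 ↔ _
  rw [← h]
  have h0 := norm_nonneg ((ee m).symm z)
  constructor
  · intro h1; by_contra h2; push Not at h2; nlinarith
  · intro h1; nlinarith

theorem unitary {n : ℕ} (p : V (n + 1)) (hp : ‖p‖ = 1) :
    ∃ ψ : (Fin (n + 1) → ℂ) → (Fin (n + 1) → ℂ), IsAutomorphism ψ ∧
      ∀ z, ψ z 0 = inner ℂ p ((ee (n + 1)).symm z) := by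
  obtain ⟨b, hb⟩ := Orthonormal.exists_orthonormalBasis_extension_of_card_eq (𝕜 := ℂ)
    (E := V (n + 1)) (ι := Fin (n + 1)) (by simp) (v := fun _ => p) (s := {0}) (by
      constructor
      · intro i; exact hp
      · intro i j hij
        exact absurd (Subsingleton.elim i j) hij)
  have hb0 : b 0 = p := hb 0 rfl
  refine ⟨fun z => ee (n + 1) (b.repr ((ee (n + 1)).symm z)), ⟨?_, ?_, fun z => ee (n + 1)
    (b.repr.symm ((ee (n + 1)).symm z)), ?_, ?_, ?_, ?_⟩, ?_⟩
  · have : Differentiable ℂ (fun z => ee (n + 1) (b.repr ((ee (n + 1)).symm z))) :=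
      (ee (n + 1)).differentiable.comp
        (b.repr.toContinuousLinearEquiv.differentiable.comp (ee (n + 1)).symm.differentiable)
    exact this.differentiableOn
  · intro z hz
    rw [mem_Ball_iff] at hz ⊢
    rw [ContinuousLinearEquiv.symm_apply_apply, LinearIsometryEquiv.norm_map]
    exact hz
  · have : Differentiable ℂ (fun z => ee (n + 1) (b.repr.symm ((ee (n + 1)).symm z))) :=
      (ee (n + 1)).differentiable.comp
        (b.repr.symm.toContinuousLinearEquiv.differentiable.comp (ee (n + 1)).symm.differentiable)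
    exact this.differentiableOn
  · intro z hz
    rw [mem_Ball_iff] at hz ⊢
    rw [ContinuousLinearEquiv.symm_apply_apply, LinearIsometryEquiv.norm_map]
    exact hz
  · intro z _
    change ee (n + 1) (b.repr.symm ((ee (n + 1)).symm (ee (n + 1) (b.repr ((ee (n + 1)).symm z))))) = z
    rw [ContinuousLinearEquiv.symm_apply_apply, LinearIsometryEquiv.symm_apply_apply,
      ContinuousLinearEquiv.apply_symm_apply]
  · intro z _
    change ee (n + 1) (b.repr ((ee (n + 1)).symm (ee (n + 1) (b.repr.symm ((ee (n + 1)).symm z))))) = z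
    rw [ContinuousLinearEquiv.symm_apply_apply, LinearIsometryEquiv.apply_symm_apply,
      ContinuousLinearEquiv.apply_symm_apply]
  · intro z
    exact (OrthonormalBasis.repr_apply_apply b _ 0).trans (by rw [hb0])

/-- the local corona theorem at a boundary point -/
theorem local_corona {n N : ℕ} (F : Fin N → Hi (n + 1)) {δ : ℝ} (hδ : 0 < δ)
    (hc : ∀ z : Bt (n + 1), δ ≤ ∑ j, ‖(F j).1 z‖) (p : V (n + 1)) (hp : ‖p‖ = 1) (k : Fin N)
    (h : Fin N → ℂ → ℂ) (hd : ∀ j, DifferentiableOn ℂ (h j) (ball 0 1))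
    (hb : ∀ j, ∃ M : ℝ, ∀ w ∈ ball (0:ℂ) 1, ‖h j w‖ ≤ M) (hk : ∀ w, h k w = 0)
    (ht : ∀ j, j ≠ k → Tendsto (fun z : Bt (n + 1) => (F j).1 z - h j (inner ℂ p (z : V (n + 1))))
      (comap Subtype.val (𝓝 p)) (𝓝 0)) :
    ∃ (ι : Type) (_ : Fintype ι) (a b : ι → Hi (n + 1)), ∑ i, a i * b i = 1 ∧
      ∀ i, ∃ c ∈ Ideal.span (Set.range F), Tendsto (fun z : Bt (n + 1) => (a i).1 z - c.1 z)
        (comap Subtype.val (𝓝 p)) (𝓝 0) := by
  choose Mh hMh using hb
  obtain ⟨fk, hfk, hFk⟩ := (F k).2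
  -- a common bound
  obtain ⟨M, hM2, hMj, hMk⟩ : ∃ M : ℝ, 2 ≤ M ∧ (∀ j, ∀ w ∈ ball (0:ℂ) 1, ‖h j w‖ ≤ M) ∧
      ‖F k‖ ≤ M := by
    refine ⟨2 + ∑ j, |Mh j| + ‖F k‖, ?_, ?_, ?_⟩
    · have : 0 ≤ ∑ j, |Mh j| := Finset.sum_nonneg fun j _ => abs_nonneg _
      linarith [norm_nonneg (F k)]
    · intro j w hw
      have h1 : |Mh j| ≤ ∑ j, |Mh j| :=
        Finset.single_le_sum (f := fun j => |Mh j|) (fun j _ => abs_nonneg _) (Finset.mem_univ j)
      linarith [hMh j w hw, le_abs_self (Mh j), norm_nonneg (F k)]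
    · have : 0 ≤ ∑ j, |Mh j| := Finset.sum_nonneg fun j _ => abs_nonneg _
      linarith
  have hM0 : 0 < M := by linarith
  have hMn : ‖(M : ℂ)‖ = M := by rw [Complex.norm_real, Real.norm_of_nonneg hM0.le]
  have hMc : (M : ℂ) ≠ 0 := by exact_mod_cast hM0.ne'
  -- radius
  set η : ℝ := δ / (4 * (N + 1)) with hη
  have hN1 : (0:ℝ) < N + 1 := by positivity
  have hη0 : 0 < η := by positivity
  have hNη : N * η ≤ δ / 4 := by
    rw [hη]
    have : (N : ℝ) * (δ / (4 * (N + 1))) = (N / (N + 1)) * (δ / 4) := by field_simp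
    rw [this]
    have h1 : (N : ℝ) / (N + 1) ≤ 1 := by rw [div_le_one hN1]; linarith
    calc (N : ℝ) / (N + 1) * (δ / 4) ≤ 1 * (δ / 4) := by gcongr
      _ = δ / 4 := one_mul _
  obtain ⟨ρ, hρ, hρ2⟩ : ∃ ρ > 0, ∀ z : Bt (n + 1), ‖(z : V (n + 1)) - p‖ < ρ → ∀ j, j ≠ k →
      ‖(F j).1 z - h j (inner ℂ p (z : V (n + 1)))‖ ≤ η := by
    have h1 : ∀ᶠ z : Bt (n + 1) in comap Subtype.val (𝓝 p), ∀ j, j ≠ k →
        ‖(F j).1 z - h j (inner ℂ p (z : V (n + 1)))‖ < η := by
      rw [eventually_all]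
      intro j
      by_cases hj : j = k
      · exact Eventually.of_forall fun z hz => absurd hj hz
      · have h2 := (ht j hj).norm
        rw [norm_zero] at h2
        filter_upwards [h2.eventually_lt_const hη0] with z hz _
        exact hz
    rw [eventually_comap] at h1
    obtain ⟨ρ, hρ, h2⟩ := Metric.eventually_nhds_iff.1 h1
    refine ⟨ρ, hρ, fun z hz j hj => (h2 (y := (z : V (n + 1))) ?_ z rfl j hj).le⟩
    rwa [dist_eq_norm]
  set κ : ℝ := min (ρ ^ 2 / 2) η with hκ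
  have hκ0 : 0 < κ := lt_min (by positivity) hη0
  obtain ⟨ψ, hψ, hψ0⟩ := unitary p hp
  obtain ⟨C, hC0, hC⟩ := Pool.Agent.H720R2.HP.oneCoord (N + 1) (δ := κ / M) (by positivity)
  -- the functions of one variable
  set fm : Fin (N + 1) → ℂ → ℂ := Fin.cases (fun x : ℂ => (1 - x) / (M : ℂ))
    (fun j (x : ℂ) => h j x / (M : ℂ)) with hfm
  have hfm0 : fm 0 = fun x : ℂ => (1 - x) / (M : ℂ) := rfl
  have hfms : ∀ j : Fin N, fm j.succ = fun x : ℂ => h j x / (M : ℂ) := fun j => rfl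
  have hfmd : ∀ i, DifferentiableOn ℂ (fm i) (ball 0 1) := by
    intro i
    refine Fin.cases ?_ (fun j => ?_) i
    · rw [hfm0]
      exact (by fun_prop : Differentiable ℂ fun x : ℂ => (1 - x) / (M:ℂ)).differentiableOn
    · rw [hfms]
      exact (hd j).div_const _
  have hfmb : ∀ i, ∀ x ∈ ball (0:ℂ) 1, ‖fm i x‖ ≤ 1 := by
    intro i
    refine Fin.cases ?_ (fun j => ?_) i
    · intro x hx
      rw [mem_ball_zero_iff] at hx
      rw [hfm0]
      simp only [norm_div, hMn]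
      rw [div_le_one hM0]
      calc ‖1 - x‖ ≤ ‖(1:ℂ)‖ + ‖x‖ := norm_sub_le _ _
        _ ≤ M := by rw [norm_one]; linarith
    · intro x hx
      rw [hfms]
      simp only [norm_div, hMn]
      rw [div_le_one hM0]
      exact hMj j x hx
  have hw1 : ∀ v : V (n + 1), ‖v‖ < 1 → (inner ℂ p v : ℂ) ∈ ball (0:ℂ) 1 := by
    intro v hv
    rw [mem_ball_zero_iff]
    calc ‖(inner ℂ p v : ℂ)‖ ≤ ‖p‖ * ‖v‖ := norm_inner_le_norm _ _
      _ < 1 := by rw [hp, one_mul]; exact hv
  set G : (Fin (n + 1) → ℂ) → ℂ := fun z => fk ((ee (n + 1)).symm z) / M with hG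
  have hmaps : MapsTo (ee (n + 1)).symm (Ball (n + 1)) (ball 0 1) := by
    intro z hz
    rw [mem_ball_zero_iff]
    exact (mem_Ball_iff z).1 hz
  have hGd : DifferentiableOn ℂ G (Ball (n + 1)) := by
    have h1 : DifferentiableOn ℂ (fun z => fk ((ee (n + 1)).symm z)) (Ball (n + 1)) :=
      hfk.comp (ee (n + 1)).symm.differentiable.differentiableOn hmaps
    have h2 := h1.mul_const ((M : ℂ)⁻¹)
    simp only [← div_eq_mul_inv] at h2
    exact h2
  have hfkF : ∀ v : V (n + 1), ∀ hv : v ∈ ball (0 : V (n + 1)) 1, fk v = (F k).1 ⟨v, hv⟩ :=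
    fun v hv => (hFk ⟨v, hv⟩).symm
  have hGb : ∀ z ∈ Ball (n + 1), ‖G z‖ ≤ 1 := by
    intro z hz
    rw [hG]
    simp only [norm_div, hMn]
    rw [div_le_one hM0, hfkF _ (hmaps hz)]
    exact (Hi.le_norm (F k) _).trans hMk
  obtain ⟨g, g₀, hg, hg₀, hgb, hg₀b, hbez⟩ := hC n ψ hψ fm hfmd hfmb G hGd hGb (by
    intro z hz hsmall
    set v : V (n + 1) := (ee (n + 1)).symm z with hv
    have hvb : v ∈ ball (0 : V (n + 1)) 1 := hmaps hz
    have hv1 : ‖v‖ < 1 := by simpa using hvb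
    have hψv : ψ z 0 = inner ℂ p v := hψ0 z
    have h1 := hsmall 0
    rw [hfm0, hψv] at h1
    simp only [norm_div, hMn] at h1
    rw [div_lt_div_iff_of_pos_right hM0] at h1
    have h2 : ‖v - p‖ < ρ := by
      have h3 : ‖v - p‖ ^ 2 = ‖v‖ ^ 2 - 2 * (inner ℂ p v : ℂ).re + 1 := by
        rw [norm_sub_sq (𝕜 := ℂ), hp]
        have : RCLike.re (inner ℂ v p : ℂ) = (inner ℂ p v : ℂ).re := inner_re_symm (𝕜 := ℂ) _ _
        rw [this]; ring
      have h4 : 1 - (inner ℂ p v : ℂ).re ≤ ‖1 - (inner ℂ p v : ℂ)‖ := by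
        have := Complex.re_le_norm (1 - (inner ℂ p v : ℂ))
        simpa using this
      have h5 : κ ≤ ρ ^ 2 / 2 := min_le_left _ _
      have h6 : ‖v‖ ^ 2 ≤ 1 := by nlinarith [norm_nonneg v]
      have h7 : ‖v - p‖ ^ 2 < ρ ^ 2 := by linarith
      exact lt_of_pow_lt_pow_left₀ 2 hρ.le h7
    have h8 := hρ2 ⟨v, hvb⟩ h2
    have h9 := hc ⟨v, hvb⟩
    have h10 : ∑ j, ‖(F j).1 ⟨v, hvb⟩‖ ≤ ‖(F k).1 ⟨v, hvb⟩‖ + N * (2 * η) := by
      rw [← Finset.add_sum_erase _ _ (Finset.mem_univ k)]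
      gcongr
      have h11 : ∀ j ∈ Finset.univ.erase k, ‖(F j).1 ⟨v, hvb⟩‖ ≤ 2 * η := by
        intro j hj
        have hjk := Finset.ne_of_mem_erase hj
        have h12 := h8 j hjk
        have h13 := hsmall j.succ
        rw [hfms, hψv] at h13
        simp only [norm_div, hMn] at h13
        rw [div_lt_div_iff_of_pos_right hM0] at h13
        have h14 : κ ≤ η := min_le_right _ _
        have h15 := norm_add_le ((F j).1 ⟨v, hvb⟩ - h j (inner ℂ p v)) (h j (inner ℂ p v))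
        rw [sub_add_cancel] at h15
        linarith
      refine (Finset.sum_le_card_nsmul _ _ _ h11).trans ?_
      rw [nsmul_eq_mul]
      have : ((Finset.univ.erase k : Finset (Fin N)).card : ℝ) ≤ N := by
        have := Finset.card_le_univ (Finset.univ.erase k)
        rw [Fintype.card_fin] at this
        exact_mod_cast this
      gcongr
    have h16 : δ / 2 ≤ ‖(F k).1 ⟨v, hvb⟩‖ := by linarith
    rw [hG]
    simp only [norm_div, hMn]
    rw [div_le_div_iff_of_pos_right hM0, hfkF _ hvb]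
    have h17 : κ ≤ η := min_le_right _ _
    have h18 : η ≤ δ / 2 := by
      rw [hη, div_le_div_iff₀ (by positivity) (by positivity)]
      nlinarith
    linarith)
  -- transfer to the algebra
  have hmaps2 : MapsTo (ee (n + 1)) (ball 0 1) (Ball (n + 1)) := by
    intro v hv
    rw [mem_Ball_iff, ContinuousLinearEquiv.symm_apply_apply]
    simpa using hv
  have tr_d : ∀ {f : (Fin (n + 1) → ℂ) → ℂ}, DifferentiableOn ℂ f (Ball (n + 1)) →
      DifferentiableOn ℂ (fun v : V (n + 1) => f (ee (n + 1) v)) (ball 0 1) := fun hf =>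
    hf.comp (ee (n + 1)).differentiable.differentiableOn hmaps2
  have hLd : DifferentiableOn ℂ (fun v : V (n + 1) => (inner ℂ p v : ℂ)) (ball 0 1) :=
    (innerSL ℂ p).differentiable.differentiableOn
  have hLm : MapsTo (fun v : V (n + 1) => (inner ℂ p v : ℂ)) (ball 0 1) (ball 0 1) := by
    intro v hv
    exact hw1 v (by simpa using hv)
  refine ⟨Option (Fin (N + 1)), inferInstance,
    fun o => o.elim (F k * Cc (1 / M)) (fun i => mk (f := fun v => fm i (inner ℂ p v))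
      ((hfmd i).comp hLd hLm) (C := 1) (fun v hv => hfmb i _ (hLm hv))),
    fun o => o.elim (mk (tr_d hg₀) (C := C) (fun v hv => hg₀b _ (hmaps2 hv)))
      (fun i => mk (tr_d (hg i)) (C := C) (fun v hv => hgb i _ (hmaps2 hv))), ?_, ?_⟩
  · apply Hi.ext
    intro z
    rw [Hi.sum_apply, Hi.one_apply, Fintype.sum_option]
    have h1 := hbez (ee (n + 1) z) (hmaps2 z.2)
    rw [add_comm] at h1
    refine Eq.trans ?_ h1
    simp only [Option.elim]
    congr 1
    · rw [Hi.mul_apply, Hi.mul_apply, Cc_apply, mk_apply]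
      rw [hG]
      simp only [ContinuousLinearEquiv.symm_apply_apply]
      rw [hFk]
      ring
    · refine Finset.sum_congr rfl fun i _ => ?_
      rw [Hi.mul_apply, mk_apply, mk_apply, hψ0, ContinuousLinearEquiv.symm_apply_apply]
  · intro o
    rcases o with _ | i
    · refine ⟨F k * Cc (1 / M), Ideal.mul_mem_right _ _ (Ideal.subset_span ⟨k, rfl⟩), ?_⟩
      simp only [Option.elim, sub_self]
      exact tendsto_const_nhds
    · refine Fin.cases ?_ (fun j => ?_) i
      · refine ⟨0, Ideal.zero_mem _, ?_⟩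
        simp only [Option.elim, mk_apply, hfm0]
        have h1 : Continuous (fun v : V (n + 1) => (1 - (inner ℂ p v : ℂ)) / (M:ℂ)) := by fun_prop
        have h2 := (h1.tendsto p).comp (tendsto_comap (f := (Subtype.val : Bt (n + 1) → V (n + 1))) (x := 𝓝 p))
        have h3 : (1 - (inner ℂ p p : ℂ)) / (M:ℂ) = 0 := by
          rw [inner_self_eq_norm_sq_to_K, hp]; simp
        rw [h3] at h2
        refine h2.congr (fun z => ?_)
        have h4 : (0 : Hi (n + 1)).1 z = 0 := rfl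
        rw [h4, sub_zero]; rfl
      · by_cases hj : j = k
        · refine ⟨0, Ideal.zero_mem _, ?_⟩
          simp only [Option.elim, mk_apply, hfms]
          refine tendsto_const_nhds.congr (fun z => ?_)
          have h4 : (0 : Hi (n + 1)).1 z = 0 := rfl
          rw [h4, sub_zero, hj, hk, zero_div]
        · refine ⟨F j * Cc (1 / M), Ideal.mul_mem_right _ _ (Ideal.subset_span ⟨j, rfl⟩), ?_⟩
          simp only [Option.elim, mk_apply, hfms]
          have h1 := ((ht j hj).neg).div_const (M:ℂ)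
          rw [neg_zero, zero_div] at h1
          refine h1.congr (fun z => ?_)
          rw [Hi.mul_apply, Cc_apply]
          ring

/-- **Corona theorem for data with at most one bad function at each boundary point.** -/
theorem corona (n N : ℕ) (f : Fin N → (Fin (n + 1) → ℂ) → ℂ)
    (hd : ∀ j, DifferentiableOn ℂ (f j) (Ball (n + 1)))
    (hb : ∀ j, ∃ M : ℝ, ∀ z ∈ Ball (n + 1), ‖f j z‖ ≤ M)
    (δ : ℝ) (hδ : 0 < δ) (hc : ∀ z ∈ Ball (n + 1), δ ≤ ∑ j, ‖f j z‖)
    (hp : ∀ p : Fin (n + 1) → ℂ, ∑ i, ‖p i‖ ^ 2 = 1 → ∃ k : Fin N, ∀ j, j ≠ k →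
      ∃ h : ℂ → ℂ, DifferentiableOn ℂ h (ball 0 1) ∧ (∃ M : ℝ, ∀ w ∈ ball (0 : ℂ) 1, ‖h w‖ ≤ M) ∧
        Tendsto (fun z => f j z - h (∑ i, z i * starRingEnd ℂ (p i))) (𝓝[Ball (n + 1)] p) (𝓝 0)) :
    ∃ g : Fin N → (Fin (n + 1) → ℂ) → ℂ,
      (∀ j, DifferentiableOn ℂ (g j) (Ball (n + 1))) ∧
      (∃ C : ℝ, ∀ j, ∀ z ∈ Ball (n + 1), ‖g j z‖ ≤ C) ∧
      ∀ z ∈ Ball (n + 1), ∑ j, f j z * g j z = 1 := by
  choose M hM using hb
  have hmaps : MapsTo (ee (n + 1)).symm (Ball (n + 1)) (ball 0 1) := by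
    intro z hz
    rw [mem_ball_zero_iff]
    exact (mem_Ball_iff z).1 hz
  have hmaps2 : MapsTo (ee (n + 1)) (ball 0 1) (Ball (n + 1)) := by
    intro v hv
    rw [mem_Ball_iff, ContinuousLinearEquiv.symm_apply_apply]
    simpa using hv
  set F : Fin N → Hi (n + 1) := fun j => mk (f := fun v => f j (ee (n + 1) v))
    ((hd j).comp (ee (n + 1)).differentiable.differentiableOn hmaps2) (C := M j)
    (fun v hv => hM j _ (hmaps2 hv)) with hF
  have hFz : ∀ j, ∀ z : Bt (n + 1), (F j).1 z = f j (ee (n + 1) z) := fun j z => rfl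
  have hcF : ∀ z : Bt (n + 1), δ ≤ ∑ j, ‖(F j).1 z‖ := fun z => hc _ (hmaps2 z.2)
  have htop : Ideal.span (Set.range F) = ⊤ := by
    refine core _ (fun z => ?_) (fun p hp1 => ?_)
    · by_contra hcon
      push Not at hcon
      have h1 : ∑ j, ‖(F j).1 z‖ = 0 := by
        refine Finset.sum_eq_zero fun j _ => ?_
        rw [hcon (F j) (Ideal.subset_span ⟨j, rfl⟩), norm_zero]
      linarith [hcF z]
    · have h1 : ∑ i, ‖(ee (n + 1) p) i‖ ^ 2 = 1 := by
        have : ‖p‖ ^ 2 = ∑ i, ‖(ee (n + 1) p) i‖ ^ 2 := EuclideanSpace.norm_sq_eq _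
        rw [← this, hp1, one_pow]
      obtain ⟨k, hk⟩ := hp _ h1
      have hk2 : ∀ j, ∃ h : ℂ → ℂ, DifferentiableOn ℂ h (ball 0 1) ∧
          (∃ M : ℝ, ∀ w ∈ ball (0 : ℂ) 1, ‖h w‖ ≤ M) ∧ (j = k → ∀ w, h w = 0) ∧
          (j ≠ k → Tendsto (fun z => f j z - h (∑ i, z i * starRingEnd ℂ ((ee (n + 1) p) i)))
            (𝓝[Ball (n + 1)] (ee (n + 1) p)) (𝓝 0)) := by
        intro j
        by_cases hj : j = k
        · exact ⟨fun _ => 0, differentiableOn_const _, ⟨0, fun w _ => by simp⟩, fun _ _ => rfl,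
            fun h => absurd hj h⟩
        · obtain ⟨h, h1, h2, h3⟩ := hk j hj
          exact ⟨h, h1, h2, fun h4 => absurd h4 hj, fun _ => h3⟩
      choose h hh1 hh2 hh3 hh4 using hk2
      refine local_corona F hδ hcF p hp1 k h hh1 hh2 (hh3 k rfl) (fun j hj => ?_)
      have ht : Tendsto (fun z : Bt (n + 1) => ee (n + 1) (z : V (n + 1)))
          (comap Subtype.val (𝓝 p)) (𝓝[Ball (n + 1)] (ee (n + 1) p)) := by
        rw [tendsto_nhdsWithin_iff]
        refine ⟨((ee (n + 1)).continuous.tendsto p).comp tendsto_comap,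
          Eventually.of_forall fun z => hmaps2 z.2⟩
      refine ((hh4 j hj).comp ht).congr (fun z => ?_)
      simp only [Function.comp]
      rw [hFz]
      congr 2
  have h1 : (1 : Hi (n + 1)) ∈ Ideal.span (Set.range F) := by rw [htop]; trivial
  obtain ⟨c, hcs⟩ := Ideal.mem_span_range_iff_exists_fun.1 h1
  choose g hg hgc using fun j => (c j).2
  refine ⟨fun j z => g j ((ee (n + 1)).symm z), fun j =>
    (hg j).comp (ee (n + 1)).symm.differentiable.differentiableOn hmaps, ?_, ?_⟩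
  · refine ⟨∑ j, ‖c j‖, fun j z hz => ?_⟩
    have h2 := hgc j ⟨_, hmaps hz⟩
    have h3 := Hi.le_norm (c j) ⟨_, hmaps hz⟩
    rw [h2] at h3
    exact h3.trans (Finset.single_le_sum (f := fun j => ‖c j‖) (fun j _ => norm_nonneg _)
      (Finset.mem_univ j))
  · intro z hz
    have h2 : (∑ j, c j * F j).1 ⟨_, hmaps hz⟩ = 1 := by rw [hcs]; rfl
    rw [Hi.sum_apply] at h2
    rw [← h2]
    refine Finset.sum_congr rfl fun j _ => ?_
    rw [Hi.mul_apply, hFz, hgc j]
    simp only [ContinuousLinearEquiv.apply_symm_apply]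
    ring

end Pool.Agent.H326R3.CB
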