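import Mathlib
import Pool.Agent.H326R3.CB4
import Pool.Agent.H326R3.CB13

/-!
Corona data are approximately solvable on sets that approach the sphere within Koranyi regions.
-/

set_option autoImplicit false

open Metric Set Filter Topology

namespace Pool.Agent.H326R3.CB

section Local

variable {m : ℕ}

theorem inner_re_le (q z : V m) (hq : ‖q‖ = 1) (hz : ‖z‖ < 1) :
    ‖z - q‖ ^ 2 ≤ 2 - 2 * (inner ℂ q z : ℂ).re := by
  have h3 : ‖z - q‖ ^ 2 = ‖z‖ ^ 2 - 2 * (inner ℂ q z : ℂ).re + 1 := by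
    rw [norm_sub_sq (𝕜 := ℂ), hq]
    have : RCLike.re (inner ℂ z q : ℂ) = (inner ℂ q z : ℂ).re := inner_re_symm (𝕜 := ℂ) _ _
    rw [this]; ring
  rw [h3]
  nlinarith [norm_nonneg z]

/-- domination localises -/
theorem dom_local (q : V m) (hq : ‖q‖ = 1) (χ : Hi m →ₐ[ℂ] ℂ) (hχq : χ (Lw q) = 1)
    {X : Set (Bt m)}
    (hχ : ∀ (G : Hi m) (C : ℝ), (∀ z ∈ X, ‖G.1 z‖ ≤ C) → ‖χ G‖ ≤ C) {r : ℝ} (hr : 0 < r)
    (G : Hi m) (C : ℝ) (hG : ∀ z ∈ X, ‖(z : V m) - q‖ < r → ‖G.1 z‖ ≤ C) : ‖χ G‖ ≤ C := by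
  obtain ⟨P, hP⟩ : ∃ P : Hi m, P = (1 + Lw q) * Cc (1 / 2) := ⟨_, rfl⟩
  have hPχ : χ P = 1 := by
    have h1 : χ (Cc (1 / 2) : Hi m) = 1 / 2 := χ.commutes _
    rw [hP, map_mul, map_add, map_one, hχq, h1]
    norm_num
  have hPz : ∀ z : Bt m, P.1 z = (1 + inner ℂ q (z : V m)) * (1 / 2) := by
    intro z; rw [hP]; rfl
  have hin : ∀ z : Bt m, ‖(inner ℂ q (z : V m) : ℂ)‖ ≤ 1 := by
    intro z
    have h1 : ‖(z : V m)‖ < 1 := mem_ball_zero_iff.1 z.2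
    calc ‖(inner ℂ q (z : V m) : ℂ)‖ ≤ ‖q‖ * ‖(z : V m)‖ := norm_inner_le_norm _ _
      _ ≤ 1 := by rw [hq, one_mul]; exact h1.le
  have hP1 : ∀ z : Bt m, ‖P.1 z‖ ^ 2 ≤ (2 + 2 * (inner ℂ q (z : V m) : ℂ).re) / 4 := by
    intro z
    rw [hPz, norm_mul, mul_pow]
    have h1 : ‖1 + (inner ℂ q (z : V m) : ℂ)‖ ^ 2 = 1 + 2 * (inner ℂ q (z : V m) : ℂ).re +
        ‖(inner ℂ q (z : V m) : ℂ)‖ ^ 2 := by
      rw [← Complex.normSq_eq_norm_sq, ← Complex.normSq_eq_norm_sq, Complex.normSq_apply,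
        Complex.normSq_apply]
      simp only [Complex.add_re, Complex.one_re, Complex.add_im, Complex.one_im]
      ring
    rw [h1]
    have h2 := hin z
    have h3 : ‖(1 / 2 : ℂ)‖ = 1 / 2 := by norm_num
    rw [h3]
    nlinarith [norm_nonneg (inner ℂ q (z : V m) : ℂ)]
  have hPle : ∀ z : Bt m, ‖P.1 z‖ ≤ 1 := by
    intro z
    have h1 := hP1 z
    have h2 := (Complex.re_le_norm (inner ℂ q (z : V m) : ℂ)).trans (hin z)
    nlinarith [norm_nonneg (P.1 z)]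
  obtain ⟨ρ, hρ⟩ : ∃ ρ : ℝ, ρ = max (1 / 2) (1 - r ^ 2 / 8) := ⟨_, rfl⟩
  have hρ0 : 0 < ρ := by rw [hρ]; exact lt_max_of_lt_left (by norm_num)
  have hρ1 : ρ < 1 := by
    rw [hρ]; exact max_lt (by norm_num) (by nlinarith [pow_pos hr 2])
  have hPfar : ∀ z : Bt m, r ≤ ‖(z : V m) - q‖ → ‖P.1 z‖ ≤ ρ := by
    intro z hz
    have h1 := hP1 z
    have h2 := inner_re_le q z hq (mem_ball_zero_iff.1 z.2)
    have h3 : r ^ 2 ≤ ‖(z : V m) - q‖ ^ 2 := pow_le_pow_left₀ hr.le hz 2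
    have h4 : ‖P.1 z‖ ^ 2 ≤ 1 - r ^ 2 / 4 := by linarith
    have h5 : 1 - r ^ 2 / 8 ≤ ρ := by rw [hρ]; exact le_max_right _ _
    by_contra hcon
    push Not at hcon
    have h6 : 1 - r ^ 2 / 4 ≤ (1 - r ^ 2 / 8) ^ 2 := by nlinarith [sq_nonneg (r ^ 2)]
    have h7 : ρ ^ 2 < ‖P.1 z‖ ^ 2 := by nlinarith
    rcases le_or_gt 0 (1 - r ^ 2 / 8) with h8 | h8
    · have h9 : (1 - r ^ 2 / 8) ^ 2 ≤ ρ ^ 2 := pow_le_pow_left₀ h8 h5 2
      linarith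
    · nlinarith [sq_nonneg (‖P.1 z‖)]
  -- the estimate with an error
  have hest : ∀ (G : Hi m) (C : ℝ), 0 ≤ C →
      (∀ z ∈ X, ‖(z : V m) - q‖ < r → ‖G.1 z‖ ≤ C) → ‖χ G‖ ≤ C := by
    intro G C hC0 hG
    refine le_of_forall_pos_le_add (fun ε hε => ?_)
    obtain ⟨k, hk⟩ : ∃ k : ℕ, ‖G‖ * ρ ^ k < ε := by
      have h1 : Tendsto (fun k : ℕ => ‖G‖ * ρ ^ k) atTop (𝓝 (‖G‖ * 0)) :=
        (tendsto_pow_atTop_nhds_zero_of_lt_one hρ0.le hρ1).const_mul _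
      rw [mul_zero] at h1
      exact (h1.eventually_lt_const hε).exists
    have h1 : χ G = χ (G * P ^ k) := by rw [map_mul, map_pow, hPχ, one_pow, mul_one]
    rw [h1]
    refine hχ _ _ (fun z hz => ?_)
    rw [Hi.mul_apply, Hi.pow_apply, norm_mul, norm_pow]
    rcases lt_or_ge ‖(z : V m) - q‖ r with h2 | h2
    · calc ‖G.1 z‖ * ‖P.1 z‖ ^ k ≤ C * 1 :=
            mul_le_mul (hG z hz h2) (pow_le_one₀ (norm_nonneg _) (hPle z)) (by positivity) hC0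
        _ ≤ C + ε := by linarith
    · calc ‖G.1 z‖ * ‖P.1 z‖ ^ k ≤ ‖G‖ * ρ ^ k :=
            mul_le_mul (Hi.le_norm _ _) (pow_le_pow_left₀ (norm_nonneg _) (hPfar z h2) k)
              (by positivity) (norm_nonneg _)
        _ ≤ C + ε := by linarith
  rcases le_or_gt 0 C with hC | hC
  · exact hest G C hC hG
  · exfalso
    have h1 := hest 1 0 le_rfl (fun z hz hzr =>
      absurd ((norm_nonneg _).trans (hG z hz hzr)) (not_le.2 hC))
    rw [map_one, norm_one] at h1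
    linarith

end Local

variable {n : ℕ}

/-- a unitary map that sends `p` to the first basis vector -/
theorem unitary3 (p : V (n + 1)) (hp : ‖p‖ = 1) :
    ∃ U : V (n + 1) ≃ₗᵢ[ℂ] V (n + 1), ∀ z, (U z) 0 = inner ℂ p z := by
  obtain ⟨b, hb⟩ := Orthonormal.exists_orthonormalBasis_extension_of_card_eq (𝕜 := ℂ)
    (E := V (n + 1)) (ι := Fin (n + 1)) (by simp) (v := fun _ => p) (s := {0}) (by
      constructor
      · intro i; exact hp
      · intro i j hij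
        exact absurd (Subsingleton.elim i j) hij)
  have hb0 : b 0 = p := hb 0 rfl
  exact ⟨b.repr, fun z => (OrthonormalBasis.repr_apply_apply b z 0).trans (by rw [hb0])⟩

theorem cos_id {z : V (n + 1)} (hz : ‖z‖ < 1) :
    (Real.cos (Ls z).im - ∑ i, ‖ww z i‖ ^ 2) * (‖1 - z 0‖ * ‖1 + z 0‖) = 1 - ‖z‖ ^ 2 := by
  have h := PP_norm (Ls_mem hz) (ww z)
  rw [PP_Ls hz] at h
  obtain ⟨hr1, hr2⟩ := re_pos hz
  have h1 : ‖1 + z 0‖ ≠ 0 := norm_ne_zero_iff.2 (ne_of_re hr2)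
  have h2 : ‖1 + Complex.exp (Ls z)‖ = 2 / ‖1 + z 0‖ := by
    rw [exp_Ls hz]
    have h3 : 1 + (1 - z 0) / (1 + z 0) = 2 / (1 + z 0) := by
      have := ne_of_re hr2
      field_simp
      ring
    rw [h3, norm_div, Complex.norm_ofNat]
  have h3 : Real.exp (Ls z).re = ‖1 - z 0‖ / ‖1 + z 0‖ := by
    rw [← Complex.norm_exp, exp_Ls hz, norm_div]
  rw [h2, h3] at h
  field_simp at h
  linarith

/-- the main theorem in the Banach algebra -/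
theorem main_V {N : ℕ} (F : Fin N → Hi (n + 1)) {δ : ℝ} (hδ : 0 < δ)
    (hc : ∀ z : Bt (n + 1), δ ≤ ∑ j, ‖(F j).1 z‖) (X : Set (Bt (n + 1)))
    (hX : ∀ p : V (n + 1), ‖p‖ = 1 → ∃ (α : ℝ) (r : ℝ), 0 < r ∧ ∀ z ∈ X, ‖(z : V (n + 1)) - p‖ < r →
      ‖1 - (inner ℂ p (z : V (n + 1)) : ℂ)‖ ≤ α * (1 - ‖(z : V (n + 1))‖ ^ 2)) {ε : ℝ} (hε : 0 < ε) :
    ∃ G : Fin N → Hi (n + 1), ∀ z ∈ X, ‖∑ j, (F j).1 z * (G j).1 z - 1‖ ≤ ε := by
  rcases X.eq_empty_or_nonempty with hXe | hXn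
  · exact ⟨fun _ => 0, fun z hz => by rw [hXe] at hz; exact absurd hz (notMem_empty z)⟩
  refine approx_or hXn F (fun χ hχ => ?_) hε
  obtain ⟨χc, hχc⟩ : ∃ χc : WeakDual.characterSpace ℂ (Hi (n + 1)), ∀ G, χc G = χ G :=
    ⟨WeakDual.CharacterSpace.equivAlgHom.symm χ, fun G => rfl⟩
  rcases (pt_norm χc).lt_or_eq with hlt | heq
  · have h1 := hc ⟨pt χc, mem_ball_zero_iff.2 hlt⟩
    by_contra hcon
    push Not at hcon
    have h2 : ∀ j, (F j).1 ⟨pt χc, mem_ball_zero_iff.2 hlt⟩ = 0 := by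
      intro j
      rw [← char_interior χc hlt, hχc]
      exact hcon j
    simp only [h2, norm_zero, Finset.sum_const_zero] at h1
    linarith
  · obtain ⟨α, r, hr, hα⟩ := hX _ heq
    have hχq : χ (Lw (pt χc)) = 1 := by
      rw [← hχc, char_Lw, inner_self_eq_norm_sq_to_K, heq]
      simp
    obtain ⟨U, hU⟩ := unitary3 (pt χc) heq
    refine no_char F hδ hc U (η := 1 / (2 * max α 1)) (by positivity)
      {z | z ∈ X ∧ ‖(z : V (n + 1)) - pt χc‖ < r} ?_ χ ?_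
    · rintro z ⟨hz, hzr⟩
      have hz1 : ‖(z : V (n + 1))‖ < 1 := mem_ball_zero_iff.1 z.2
      have hUz1 : ‖U z‖ < 1 := by rw [U.norm_map]; exact hz1
      have h1 := cos_id hUz1
      rw [U.norm_map, hU] at h1
      have h2 := hα z hz hzr
      have h3 : ‖1 + (inner ℂ (pt χc) (z : V (n + 1)) : ℂ)‖ ≤ 2 := by
        have h4 := z0_lt hUz1
        rw [hU] at h4
        refine (norm_add_le _ _).trans ?_
        rw [norm_one]; linarith
      have h5 : 0 < 1 - ‖(z : V (n + 1))‖ ^ 2 := by nlinarith [norm_nonneg (z : V (n + 1))]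
      have h6 : ‖1 - (inner ℂ (pt χc) (z : V (n + 1)) : ℂ)‖ ≤
          max α 1 * (1 - ‖(z : V (n + 1))‖ ^ 2) :=
        h2.trans (mul_le_mul_of_nonneg_right (le_max_left _ _) h5.le)
      have h7 : 0 < max α 1 := lt_max_of_lt_right one_pos
      have h8 := ww_lt hUz1
      rw [div_le_iff₀ (by positivity)]
      set Q := Real.cos (Ls (U z)).im - ∑ i, ‖ww (U z) i‖ ^ 2 with hQ
      have hQ0 : 0 < Q := by rw [hQ]; linarith
      have h9 : ‖1 - (inner ℂ (pt χc) (z : V (n + 1)) : ℂ)‖ *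
          ‖1 + (inner ℂ (pt χc) (z : V (n + 1)) : ℂ)‖ ≤ max α 1 * (1 - ‖(z : V (n + 1))‖ ^ 2) * 2 :=
        mul_le_mul h6 h3 (norm_nonneg _) (by positivity)
      have h10 : 1 - ‖(z : V (n + 1))‖ ^ 2 ≤ Q * (max α 1 * (1 - ‖(z : V (n + 1))‖ ^ 2) * 2) := by
        calc 1 - ‖(z : V (n + 1))‖ ^ 2 = _ := h1.symm
          _ ≤ _ := mul_le_mul_of_nonneg_left h9 hQ0.le
      have h11 : 1 * (1 - ‖(z : V (n + 1))‖ ^ 2) ≤
          (Q * (2 * max α 1)) * (1 - ‖(z : V (n + 1))‖ ^ 2) := by linarith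
      exact le_of_mul_le_mul_right h11 h5
    · intro G C hG
      exact dom_local (pt χc) heq χ hχq hχ hr G C (fun z hz hzr => hG z ⟨hz, hzr⟩)

end Pool.Agent.H326R3.CB
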