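import Mathlib
import Pool.Agent.H326R3.CB4

/-!
The corona theorem on the ball for data which near every boundary point contain a corona datum with
at most one function that is not asymptotic to a function of one variable.
-/

set_option autoImplicit false

open Metric Set Filter Topology
open Pool.Agent.H720R2.Cor (Ball IsAutomorphism)

namespace Pool.Agent.H326R3.CB

/-- the local corona theorem at a boundary point, general form -/
theorem local_corona2 {n N : ℕ} (F : Fin N → Hi (n + 1)) (p : V (n + 1))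
    (ψ : (Fin (n + 1) → ℂ) → (Fin (n + 1) → ℂ)) (hψ : IsAutomorphism ψ)
    (hnh : comap (fun z : Bt (n + 1) => ψ (ee (n + 1) z) 0) (𝓝 1) ≤ comap Subtype.val (𝓝 p))
    (hnh2 : Tendsto (fun z : Bt (n + 1) => ψ (ee (n + 1) z) 0) (comap Subtype.val (𝓝 p)) (𝓝 1))
    (k : Fin N) (S : Finset (Fin N)) {c : ℝ} (hc : 0 < c)
    (hlow : ∀ᶠ z : Bt (n + 1) in comap Subtype.val (𝓝 p),
      c ≤ ‖(F k).1 z‖ + ∑ j ∈ S, ‖(F j).1 z‖)
    (h : Fin N → ℂ → ℂ) (hd : ∀ j, DifferentiableOn ℂ (h j) (ball 0 1))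
    (hb : ∀ j, ∃ M : ℝ, ∀ w ∈ ball (0:ℂ) 1, ‖h j w‖ ≤ M)
    (ht : ∀ j ∈ S, Tendsto (fun z : Bt (n + 1) => (F j).1 z - h j (ψ (ee (n + 1) z) 0))
      (comap Subtype.val (𝓝 p)) (𝓝 0)) :
    ∃ (ι : Type) (_ : Fintype ι) (a b : ι → Hi (n + 1)), ∑ i, a i * b i = 1 ∧
      ∀ i, ∃ c ∈ Ideal.span (Set.range F), Tendsto (fun z : Bt (n + 1) => (a i).1 z - c.1 z)
        (comap Subtype.val (𝓝 p)) (𝓝 0) := by
  classical
  choose Mh hMh using hb
  obtain ⟨fk, hfk, hFk⟩ := (F k).2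
  -- a common bound
  obtain ⟨M, hM2, hMj, hMk⟩ : ∃ M : ℝ, 2 ≤ M ∧ (∀ j, ∀ w ∈ ball (0:ℂ) 1, ‖h j w‖ ≤ M) ∧
      ‖F k‖ ≤ M := by
    refine ⟨2 + ∑ j, |Mh j| + ‖F k‖, ?_, ?_, ?_⟩
    · have : 0 ≤ ∑ j, |Mh j| := Finset.sum_nonneg fun j _ => abs_nonneg _
      linarith [norm_nonneg (F k)]
    · intro j w hw
      have h1 : |Mh j| ≤ ∑ j, |Mh j| :=
        Finset.single_le_sum (f := fun j => |Mh j|) (fun j _ => abs_nonneg _) (Finset.mem_univ j)
      linarith [hMh j w hw, le_abs_self (Mh j), norm_nonneg (F k)]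
    · have : 0 ≤ ∑ j, |Mh j| := Finset.sum_nonneg fun j _ => abs_nonneg _
      linarith
  have hM0 : 0 < M := by linarith
  have hMn : ‖(M : ℂ)‖ = M := by rw [Complex.norm_real, Real.norm_of_nonneg hM0.le]
  have hMc : (M : ℂ) ≠ 0 := by exact_mod_cast hM0.ne'
  -- radius
  set η : ℝ := c / (4 * (N + 1)) with hη
  have hN1 : (0:ℝ) < N + 1 := by positivity
  have hη0 : 0 < η := by positivity
  have hNη : N * η ≤ c / 4 := by
    rw [hη]
    have : (N : ℝ) * (c / (4 * (N + 1))) = (N / (N + 1)) * (c / 4) := by field_simp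
    rw [this]
    have h1 : (N : ℝ) / (N + 1) ≤ 1 := by rw [div_le_one hN1]; linarith
    calc (N : ℝ) / (N + 1) * (c / 4) ≤ 1 * (c / 4) := by gcongr
      _ = c / 4 := one_mul _
  obtain ⟨ρ, hρ, hρ2⟩ : ∃ ρ > 0, ∀ z : Bt (n + 1), ‖1 - ψ (ee (n + 1) z) 0‖ < ρ →
      (∀ j ∈ S, ‖(F j).1 z - h j (ψ (ee (n + 1) z) 0)‖ ≤ η) ∧
        c ≤ ‖(F k).1 z‖ + ∑ j ∈ S, ‖(F j).1 z‖ := by
    have h1 : ∀ᶠ z : Bt (n + 1) in comap Subtype.val (𝓝 p), ∀ j, j ∈ S →
        ‖(F j).1 z - h j (ψ (ee (n + 1) z) 0)‖ < η := by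
      rw [eventually_all]
      intro j
      by_cases hj : j ∈ S
      · have h2 := (ht j hj).norm
        rw [norm_zero] at h2
        filter_upwards [h2.eventually_lt_const hη0] with z hz _
        exact hz
      · exact Eventually.of_forall fun z hz => absurd hz hj
    have h2 := (h1.and hlow).filter_mono hnh
    rw [eventually_comap] at h2
    obtain ⟨ρ, hρ, h3⟩ := Metric.eventually_nhds_iff.1 h2
    refine ⟨ρ, hρ, fun z hz => ?_⟩
    have h4 := h3 (y := ψ (ee (n + 1) z) 0) (by rw [dist_eq_norm, norm_sub_rev]; exact hz) z rfl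
    exact ⟨fun j hj => (h4.1 j hj).le, h4.2⟩
  set κ : ℝ := min ρ η with hκ
  have hκ0 : 0 < κ := lt_min hρ hη0
  obtain ⟨C, hC0, hC⟩ := Pool.Agent.H720R2.HP.oneCoord (N + 1) (δ := κ / M) (by positivity)
  -- the functions of one variable
  set fm : Fin (N + 1) → ℂ → ℂ := Fin.cases (fun x : ℂ => (1 - x) / (M : ℂ))
    (fun j (x : ℂ) => if j ∈ S then h j x / (M : ℂ) else 0) with hfm
  have hfm0 : fm 0 = fun x : ℂ => (1 - x) / (M : ℂ) := rfl
  have hfms : ∀ j : Fin N, fm j.succ = fun x : ℂ => if j ∈ S then h j x / (M : ℂ) else 0 :=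
    fun j => rfl
  have hfmS : ∀ j : Fin N, j ∈ S → fm j.succ = fun x : ℂ => h j x / (M : ℂ) := by
    intro j hj
    rw [hfms]; funext x; rw [if_pos hj]
  have hfmN : ∀ j : Fin N, j ∉ S → fm j.succ = fun _ : ℂ => 0 := by
    intro j hj
    rw [hfms]; funext x; rw [if_neg hj]
  have hfmd : ∀ i, DifferentiableOn ℂ (fm i) (ball 0 1) := by
    intro i
    refine Fin.cases ?_ (fun j => ?_) i
    · rw [hfm0]
      exact (by fun_prop : Differentiable ℂ fun x : ℂ => (1 - x) / (M:ℂ)).differentiableOn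
    · by_cases hj : j ∈ S
      · rw [hfmS j hj]
        exact (hd j).div_const _
      · rw [hfmN j hj]
        exact differentiableOn_const _
  have hfmb : ∀ i, ∀ x ∈ ball (0:ℂ) 1, ‖fm i x‖ ≤ 1 := by
    intro i
    refine Fin.cases ?_ (fun j => ?_) i
    · intro x hx
      rw [mem_ball_zero_iff] at hx
      rw [hfm0]
      simp only [norm_div, hMn]
      rw [div_le_one hM0]
      calc ‖1 - x‖ ≤ ‖(1:ℂ)‖ + ‖x‖ := norm_sub_le _ _
        _ ≤ M := by rw [norm_one]; linarith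
    · intro x hx
      by_cases hj : j ∈ S
      · rw [hfmS j hj]
        simp only [norm_div, hMn]
        rw [div_le_one hM0]
        exact hMj j x hx
      · rw [hfmN j hj]; simp
  set G : (Fin (n + 1) → ℂ) → ℂ := fun z => fk ((ee (n + 1)).symm z) / M with hG
  have hmaps : MapsTo (ee (n + 1)).symm (Ball (n + 1)) (ball 0 1) := by
    intro z hz
    rw [mem_ball_zero_iff]
    exact (mem_Ball_iff z).1 hz
  have hmaps2 : MapsTo (ee (n + 1)) (ball 0 1) (Ball (n + 1)) := by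
    intro v hv
    rw [mem_Ball_iff, ContinuousLinearEquiv.symm_apply_apply]
    simpa using hv
  have hwb : ∀ z ∈ Ball (n + 1), ψ z 0 ∈ ball (0:ℂ) 1 := by
    intro z hz
    have h1 : ∑ i, ‖ψ z i‖ ^ 2 < 1 := hψ.2.1 hz
    have h2 : ‖ψ z 0‖ ^ 2 ≤ ∑ i, ‖ψ z i‖ ^ 2 :=
      Finset.single_le_sum (f := fun i => ‖ψ z i‖ ^ 2) (fun i _ => by positivity) (Finset.mem_univ 0)
    rw [mem_ball_zero_iff]
    nlinarith [norm_nonneg (ψ z 0)]
  have hGd : DifferentiableOn ℂ G (Ball (n + 1)) := by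
    have h1 : DifferentiableOn ℂ (fun z => fk ((ee (n + 1)).symm z)) (Ball (n + 1)) :=
      hfk.comp (ee (n + 1)).symm.differentiable.differentiableOn hmaps
    have h2 := h1.mul_const ((M : ℂ)⁻¹)
    simp only [← div_eq_mul_inv] at h2
    exact h2
  have hfkF : ∀ v : V (n + 1), ∀ hv : v ∈ ball (0 : V (n + 1)) 1, fk v = (F k).1 ⟨v, hv⟩ :=
    fun v hv => (hFk ⟨v, hv⟩).symm
  have hGb : ∀ z ∈ Ball (n + 1), ‖G z‖ ≤ 1 := by
    intro z hz
    rw [hG]
    simp only [norm_div, hMn]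
    rw [div_le_one hM0, hfkF _ (hmaps hz)]
    exact (Hi.le_norm (F k) _).trans hMk
  obtain ⟨g, g₀, hg, hg₀, hgb, hg₀b, hbez⟩ := hC n ψ hψ fm hfmd hfmb G hGd hGb (by
    intro z hz hsmall
    set v : V (n + 1) := (ee (n + 1)).symm z with hv
    have hvb : v ∈ ball (0 : V (n + 1)) 1 := hmaps hz
    have hev : ee (n + 1) v = z := by rw [hv, ContinuousLinearEquiv.apply_symm_apply]
    have h1 := hsmall 0
    rw [hfm0] at h1
    simp only [norm_div, hMn] at h1
    rw [div_lt_div_iff_of_pos_right hM0] at h1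
    obtain ⟨h8, h9⟩ := hρ2 ⟨v, hvb⟩ (by
      simp only [hev]
      exact h1.trans_le (min_le_left _ _))
    simp only [hev] at h8
    have h10 : ∑ j ∈ S, ‖(F j).1 ⟨v, hvb⟩‖ ≤ N * (2 * η) := by
      have h11 : ∀ j ∈ S, ‖(F j).1 ⟨v, hvb⟩‖ ≤ 2 * η := by
        intro j hj
        have h12 := h8 j hj
        have h13 := hsmall j.succ
        rw [hfmS j hj] at h13
        simp only [norm_div, hMn] at h13
        rw [div_lt_div_iff_of_pos_right hM0] at h13
        have h14 : κ ≤ η := min_le_right _ _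
        have h15 := norm_add_le ((F j).1 ⟨v, hvb⟩ - h j (ψ z 0)) (h j (ψ z 0))
        rw [sub_add_cancel] at h15
        linarith
      refine (Finset.sum_le_card_nsmul _ _ _ h11).trans ?_
      rw [nsmul_eq_mul]
      have : (S.card : ℝ) ≤ N := by
        have := Finset.card_le_univ S
        rw [Fintype.card_fin] at this
        exact_mod_cast this
      gcongr
    have h16 : c / 2 ≤ ‖(F k).1 ⟨v, hvb⟩‖ := by linarith
    rw [hG]
    simp only [norm_div, hMn]
    rw [div_le_div_iff_of_pos_right hM0, hfkF _ hvb]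
    have h17 : κ ≤ η := min_le_right _ _
    have h18 : η ≤ c / 2 := by
      rw [hη, div_le_div_iff₀ (by positivity) (by positivity)]
      nlinarith
    linarith)
  -- transfer to the algebra
  have tr_d : ∀ {f : (Fin (n + 1) → ℂ) → ℂ}, DifferentiableOn ℂ f (Ball (n + 1)) →
      DifferentiableOn ℂ (fun v : V (n + 1) => f (ee (n + 1) v)) (ball 0 1) := fun hf =>
    hf.comp (ee (n + 1)).differentiable.differentiableOn hmaps2
  have hψ0d : DifferentiableOn ℂ (fun z => ψ z 0) (Ball (n + 1)) :=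
    (differentiableOn_pi.1 hψ.1) 0
  have hLd : DifferentiableOn ℂ (fun v : V (n + 1) => ψ (ee (n + 1) v) 0) (ball 0 1) :=
    tr_d hψ0d
  have hLm : MapsTo (fun v : V (n + 1) => ψ (ee (n + 1) v) 0) (ball 0 1) (ball 0 1) := by
    intro v hv
    exact hwb _ (hmaps2 hv)
  refine ⟨Option (Fin (N + 1)), inferInstance,
    fun o => o.elim (F k * Cc (1 / M)) (fun i => mk (f := fun v => fm i (ψ (ee (n + 1) v) 0))
      ((hfmd i).comp hLd hLm) (C := 1) (fun v hv => hfmb i _ (hLm hv))),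
    fun o => o.elim (mk (tr_d hg₀) (C := C) (fun v hv => hg₀b _ (hmaps2 hv)))
      (fun i => mk (tr_d (hg i)) (C := C) (fun v hv => hgb i _ (hmaps2 hv))), ?_, ?_⟩
  · apply Hi.ext
    intro z
    rw [Hi.sum_apply, Hi.one_apply, Fintype.sum_option]
    have h1 := hbez (ee (n + 1) z) (hmaps2 z.2)
    rw [add_comm] at h1
    refine Eq.trans ?_ h1
    simp only [Option.elim]
    congr 1
    · rw [Hi.mul_apply, Hi.mul_apply, Cc_apply, mk_apply]
      rw [hG]
      simp only [ContinuousLinearEquiv.symm_apply_apply]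
      rw [hFk]
      ring
  · intro o
    rcases o with _ | i
    · refine ⟨F k * Cc (1 / M), Ideal.mul_mem_right _ _ (Ideal.subset_span ⟨k, rfl⟩), ?_⟩
      simp only [Option.elim, sub_self]
      exact tendsto_const_nhds
    · refine Fin.cases ?_ (fun j => ?_) i
      · refine ⟨0, Ideal.zero_mem _, ?_⟩
        simp only [Option.elim, mk_apply, hfm0]
        have h1 : Continuous (fun x : ℂ => (1 - x) / (M:ℂ)) := by fun_prop
        have h2 := (h1.tendsto 1).comp hnh2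
        simp only [sub_self, zero_div] at h2
        refine h2.congr (fun z => ?_)
        have h4 : (0 : Hi (n + 1)).1 z = 0 := rfl
        rw [h4, sub_zero]; rfl
      · by_cases hj : j ∈ S
        · refine ⟨F j * Cc (1 / M), Ideal.mul_mem_right _ _ (Ideal.subset_span ⟨j, rfl⟩), ?_⟩
          simp only [Option.elim, mk_apply, hfmS j hj]
          have h1 := ((ht j hj).neg).div_const (M:ℂ)
          rw [neg_zero, zero_div] at h1
          refine h1.congr (fun z => ?_)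
          rw [Hi.mul_apply, Cc_apply]
          ring
        · refine ⟨0, Ideal.zero_mem _, ?_⟩
          simp only [Option.elim, mk_apply, hfmN j hj]
          refine tendsto_const_nhds.congr (fun z => ?_)
          have h4 : (0 : Hi (n + 1)).1 z = 0 := rfl
          rw [h4, sub_zero]

/-- **Corona theorem for data with at most one bad function near each boundary point.** -/
theorem corona2 (n N : ℕ) (f : Fin N → (Fin (n + 1) → ℂ) → ℂ)
    (hd : ∀ j, DifferentiableOn ℂ (f j) (Ball (n + 1)))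
    (hb : ∀ j, ∃ M : ℝ, ∀ z ∈ Ball (n + 1), ‖f j z‖ ≤ M)
    (hz : ∀ z ∈ Ball (n + 1), ∃ j, f j z ≠ 0)
    (hp : ∀ p : Fin (n + 1) → ℂ, ∑ i, ‖p i‖ ^ 2 = 1 →
      ∃ ψ : (Fin (n + 1) → ℂ) → (Fin (n + 1) → ℂ), IsAutomorphism ψ ∧
        𝓝[Ball (n + 1)] p = 𝓟 (Ball (n + 1)) ⊓ comap (fun z => ψ z 0) (𝓝 1) ∧
        ∃ (k : Fin N) (S : Finset (Fin N)) (c : ℝ), 0 < c ∧
          (∀ᶠ z in 𝓝[Ball (n + 1)] p, c ≤ ‖f k z‖ + ∑ j ∈ S, ‖f j z‖) ∧
          ∀ j ∈ S, ∃ h : ℂ → ℂ, DifferentiableOn ℂ h (ball 0 1) ∧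
            (∃ M : ℝ, ∀ w ∈ ball (0 : ℂ) 1, ‖h w‖ ≤ M) ∧
            Tendsto (fun z => f j z - h (ψ z 0)) (𝓝[Ball (n + 1)] p) (𝓝 0)) :
    ∃ g : Fin N → (Fin (n + 1) → ℂ) → ℂ,
      (∀ j, DifferentiableOn ℂ (g j) (Ball (n + 1))) ∧
      (∃ C : ℝ, ∀ j, ∀ z ∈ Ball (n + 1), ‖g j z‖ ≤ C) ∧
      ∀ z ∈ Ball (n + 1), ∑ j, f j z * g j z = 1 := by
  classical
  choose M hM using hb
  have hmaps : MapsTo (ee (n + 1)).symm (Ball (n + 1)) (ball 0 1) := by
    intro z hz
    rw [mem_ball_zero_iff]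
    exact (mem_Ball_iff z).1 hz
  have hmaps2 : MapsTo (ee (n + 1)) (ball 0 1) (Ball (n + 1)) := by
    intro v hv
    rw [mem_Ball_iff, ContinuousLinearEquiv.symm_apply_apply]
    simpa using hv
  set F : Fin N → Hi (n + 1) := fun j => mk (f := fun v => f j (ee (n + 1) v))
    ((hd j).comp (ee (n + 1)).differentiable.differentiableOn hmaps2) (C := M j)
    (fun v hv => hM j _ (hmaps2 hv)) with hF
  have hFz : ∀ j, ∀ z : Bt (n + 1), (F j).1 z = f j (ee (n + 1) z) := fun j z => rfl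
  have htop : Ideal.span (Set.range F) = ⊤ := by
    refine core _ (fun z => ?_) (fun p hp1 => ?_)
    · obtain ⟨j, hj⟩ := hz _ (hmaps2 z.2)
      exact ⟨F j, Ideal.subset_span ⟨j, rfl⟩, hj⟩
    · have h1 : ∑ i, ‖(ee (n + 1) p) i‖ ^ 2 = 1 := by
        have : ‖p‖ ^ 2 = ∑ i, ‖(ee (n + 1) p) i‖ ^ 2 := EuclideanSpace.norm_sq_eq _
        rw [← this, hp1, one_pow]
      obtain ⟨ψ, hψ, hfil, k, S, c, hc, hlow, hS⟩ := hp _ h1
      have ht : Tendsto (fun z : Bt (n + 1) => ee (n + 1) (z : V (n + 1)))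
          (comap Subtype.val (𝓝 p)) (𝓝[Ball (n + 1)] (ee (n + 1) p)) := by
        rw [tendsto_nhdsWithin_iff]
        refine ⟨((ee (n + 1)).continuous.tendsto p).comp tendsto_comap,
          Eventually.of_forall fun z => hmaps2 z.2⟩
      have hk2 : ∀ j, ∃ h : ℂ → ℂ, DifferentiableOn ℂ h (ball 0 1) ∧
          (∃ M : ℝ, ∀ w ∈ ball (0 : ℂ) 1, ‖h w‖ ≤ M) ∧
          (j ∈ S → Tendsto (fun z => f j z - h (ψ z 0))
            (𝓝[Ball (n + 1)] (ee (n + 1) p)) (𝓝 0)) := by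
        intro j
        by_cases hj : j ∈ S
        · obtain ⟨h, h1, h2, h3⟩ := hS j hj
          exact ⟨h, h1, h2, fun _ => h3⟩
        · exact ⟨fun _ => 0, differentiableOn_const _, ⟨0, fun w _ => by simp⟩,
            fun h => absurd h hj⟩
      choose h hh1 hh2 hh4 using hk2
      refine local_corona2 F p ψ hψ ?_ ?_ k S hc ?_ h hh1 hh2 (fun j hj => ?_)
      · -- points with first coordinate near one are near `p`
        have h2 : Tendsto (fun z : Bt (n + 1) => ee (n + 1) (z : V (n + 1)))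
            (comap (fun z : Bt (n + 1) => ψ (ee (n + 1) z) 0) (𝓝 1))
            (𝓝[Ball (n + 1)] (ee (n + 1) p)) := by
          rw [hfil, tendsto_inf, tendsto_principal, tendsto_comap_iff]
          exact ⟨Eventually.of_forall fun z => hmaps2 z.2, tendsto_comap⟩
        rw [← tendsto_iff_comap]
        have h3 : Tendsto (fun z : Bt (n + 1) => ee (n + 1) (z : V (n + 1)))
            (comap (fun z : Bt (n + 1) => ψ (ee (n + 1) z) 0) (𝓝 1))
            (𝓝 (ee (n + 1) p)) := h2.mono_right nhdsWithin_le_nhds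
        have h4 := ((ee (n + 1)).symm.continuous.tendsto (ee (n + 1) p)).comp h3
        rw [ContinuousLinearEquiv.symm_apply_apply] at h4
        refine h4.congr (fun z => ?_)
        simp only [Function.comp, ContinuousLinearEquiv.symm_apply_apply]
      · have h2 : Tendsto (fun z => ψ z 0) (𝓝[Ball (n + 1)] (ee (n + 1) p)) (𝓝 1) := by
          rw [hfil]
          exact tendsto_comap.mono_left inf_le_right
        exact h2.comp ht
      · exact ht.eventually hlow
      · exact (hh4 j hj).comp ht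
  have h1 : (1 : Hi (n + 1)) ∈ Ideal.span (Set.range F) := by rw [htop]; trivial
  obtain ⟨c, hcs⟩ := Ideal.mem_span_range_iff_exists_fun.1 h1
  choose g hg hgc using fun j => (c j).2
  refine ⟨fun j z => g j ((ee (n + 1)).symm z), fun j =>
    (hg j).comp (ee (n + 1)).symm.differentiable.differentiableOn hmaps, ?_, ?_⟩
  · refine ⟨∑ j, ‖c j‖, fun j z hz => ?_⟩
    have h2 := hgc j ⟨_, hmaps hz⟩
    have h3 := Hi.le_norm (c j) ⟨_, hmaps hz⟩
    rw [h2] at h3
    exact h3.trans (Finset.single_le_sum (f := fun j => ‖c j‖) (fun j _ => norm_nonneg _)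
      (Finset.mem_univ j))
  · intro z hz
    have h2 : (∑ j, c j * F j).1 ⟨_, hmaps hz⟩ = 1 := by rw [hcs]; rfl
    rw [Hi.sum_apply] at h2
    rw [← h2]
    refine Finset.sum_congr rfl fun j _ => ?_
    rw [Hi.mul_apply, hFz, hgc j]
    simp only [ContinuousLinearEquiv.apply_symm_apply]
    ring

end Pool.Agent.H326R3.CB
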