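import Mathlib
import Pool.Agent.H326R3.CB5

/-!
Examples for the corona theorem `corona2`: the algebra generated by the ball algebra and all
functions of one variable.
-/

set_option autoImplicit false

open Metric Set Filter Topology
open Pool.Agent.H720R2.Cor (Ball IsAutomorphism)

namespace Pool.Agent.H326R3.CB

variable {n : ℕ}

/-- the pairing `∑ z_i conj (a_i)` -/
noncomputable def dot (a z : Fin (n + 1) → ℂ) : ℂ := ∑ i, z i * starRingEnd ℂ (a i)

theorem dot_inner (a z : Fin (n + 1) → ℂ) :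
    dot a z = inner ℂ ((ee (n + 1)).symm a) ((ee (n + 1)).symm z) := by
  rw [PiLp.inner_apply]
  rfl

theorem norm_one_iff (p : Fin (n + 1) → ℂ) : ∑ i, ‖p i‖ ^ 2 = 1 ↔ ‖(ee (n + 1)).symm p‖ = 1 := by
  have h : ‖(ee (n + 1)).symm p‖ ^ 2 = ∑ i, ‖p i‖ ^ 2 := EuclideanSpace.norm_sq_eq _
  rw [← h]
  have h0 := norm_nonneg ((ee (n + 1)).symm p)
  constructor
  · intro h1
    nlinarith
  · intro h1
    rw [h1, one_pow]

theorem dot_continuous (a : Fin (n + 1) → ℂ) : Continuous (dot a) := by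
  unfold dot; fun_prop

theorem dot_differentiable (a : Fin (n + 1) → ℂ) : Differentiable ℂ (dot a) := by
  unfold dot; fun_prop

theorem dot_mem {a z : Fin (n + 1) → ℂ} (ha : ∑ i, ‖a i‖ ^ 2 = 1) (hz : z ∈ Ball (n + 1)) :
    dot a z ∈ ball (0:ℂ) 1 := by
  rw [norm_one_iff] at ha
  rw [mem_Ball_iff] at hz
  rw [mem_ball_zero_iff, dot_inner]
  calc ‖(inner ℂ ((ee (n + 1)).symm a) ((ee (n + 1)).symm z) : ℂ)‖
      ≤ ‖(ee (n + 1)).symm a‖ * ‖(ee (n + 1)).symm z‖ := norm_inner_le_norm _ _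
    _ < 1 := by rw [ha, one_mul]; exact hz

theorem dot_self {p : Fin (n + 1) → ℂ} (hp : ∑ i, ‖p i‖ ^ 2 = 1) : dot p p = 1 := by
  rw [norm_one_iff] at hp
  rw [dot_inner, inner_self_eq_norm_sq_to_K, hp]
  simp

/-- The unitary automorphism that sends `p` to the first basis vector. -/
theorem peak_unitary (p : Fin (n + 1) → ℂ) (hp : ∑ i, ‖p i‖ ^ 2 = 1) :
    ∃ ψ : (Fin (n + 1) → ℂ) → (Fin (n + 1) → ℂ), IsAutomorphism ψ ∧
      (∀ z, ψ z 0 = ∑ i, z i * starRingEnd ℂ (p i)) ∧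
      𝓝[Ball (n + 1)] p = 𝓟 (Ball (n + 1)) ⊓ comap (fun z => ψ z 0) (𝓝 1) := by
  have hp' := (norm_one_iff p).1 hp
  obtain ⟨ψ, hψ, hψ0⟩ := unitary ((ee (n + 1)).symm p) hp'
  have hψd : ∀ z, ψ z 0 = dot p z := fun z => by rw [hψ0, dot_inner]
  refine ⟨ψ, hψ, hψd, ?_⟩
  simp only [hψd]
  apply le_antisymm
  · refine le_inf inf_le_right ?_
    rw [← tendsto_iff_comap]
    have h1 := ((dot_continuous p).tendsto p)
    rw [dot_self hp] at h1
    exact h1.mono_left nhdsWithin_le_nhds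
  · refine le_inf ?_ inf_le_left
    have h1 : Tendsto (fun z : Fin (n + 1) → ℂ => dot p z) (𝓟 (Ball (n + 1)) ⊓ comap (fun z => dot p z) (𝓝 1))
        (𝓝 1) := tendsto_comap.mono_left inf_le_right
    have h2 : Tendsto (fun z : Fin (n + 1) → ℂ => √(2 * ‖1 - dot p z‖))
        (𝓟 (Ball (n + 1)) ⊓ comap (fun z => dot p z) (𝓝 1)) (𝓝 0) := by
      have h3 : Continuous (fun x : ℂ => √(2 * ‖1 - x‖)) := by fun_prop
      have h4 := (h3.tendsto 1).comp h1
      rw [sub_self, norm_zero, mul_zero, Real.sqrt_zero] at h4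
      exact h4
    have h5 : Tendsto (fun z : Fin (n + 1) → ℂ => (ee (n + 1)).symm z)
        (𝓟 (Ball (n + 1)) ⊓ comap (fun z => dot p z) (𝓝 1)) (𝓝 ((ee (n + 1)).symm p)) := by
      rw [tendsto_iff_norm_sub_tendsto_zero]
      refine squeeze_zero' (Eventually.of_forall fun z => norm_nonneg _) ?_ h2
      have h6 : Ball (n + 1) ∈ 𝓟 (Ball (n + 1)) ⊓ comap (fun z => dot p z) (𝓝 1) :=
        mem_inf_of_left (mem_principal_self _)
      filter_upwards [h6] with z hz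
      rw [mem_Ball_iff] at hz
      apply Real.le_sqrt_of_sq_le
      set v := (ee (n + 1)).symm z
      set q := (ee (n + 1)).symm p
      have h7 : ‖v - q‖ ^ 2 = ‖v‖ ^ 2 - 2 * (inner ℂ q v : ℂ).re + 1 := by
        rw [norm_sub_sq (𝕜 := ℂ), hp']
        have : RCLike.re (inner ℂ v q : ℂ) = (inner ℂ q v : ℂ).re := inner_re_symm (𝕜 := ℂ) _ _
        rw [this]; ring
      have h8 : 1 - (inner ℂ q v : ℂ).re ≤ ‖1 - (inner ℂ q v : ℂ)‖ := by
        have := Complex.re_le_norm (1 - (inner ℂ q v : ℂ))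
        simpa using this
      have h9 : ‖v‖ ^ 2 ≤ 1 := by nlinarith [norm_nonneg v]
      rw [dot_inner]
      linarith
    have h10 := ((ee (n + 1)).continuous.tendsto _).comp h5
    simp only [ContinuousLinearEquiv.apply_symm_apply] at h10
    have h11 : Tendsto (id : (Fin (n + 1) → ℂ) → (Fin (n + 1) → ℂ))
        (𝓟 (Ball (n + 1)) ⊓ comap (fun z => dot p z) (𝓝 1)) (𝓝 p) := by
      refine h10.congr (fun z => ?_)
      exact ContinuousLinearEquiv.apply_symm_apply _ _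
    exact h11

/-- asymptotic to a bounded holomorphic function of `⟨z,p⟩` at each boundary point `p` -/
def Asy (f : (Fin (n + 1) → ℂ) → ℂ) : Prop :=
  DifferentiableOn ℂ f (Ball (n + 1)) ∧ (∃ M : ℝ, ∀ z ∈ Ball (n + 1), ‖f z‖ ≤ M) ∧
    ∀ p : Fin (n + 1) → ℂ, ∑ i, ‖p i‖ ^ 2 = 1 → ∃ h : ℂ → ℂ, DifferentiableOn ℂ h (ball 0 1) ∧
      (∃ M : ℝ, ∀ w ∈ ball (0 : ℂ) 1, ‖h w‖ ≤ M) ∧
      Tendsto (fun z => f z - h (dot p z)) (𝓝[Ball (n + 1)] p) (𝓝 0)

theorem Asy.add {f g : (Fin (n + 1) → ℂ) → ℂ} (hf : Asy f) (hg : Asy g) : Asy (f + g) := by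
  obtain ⟨hf1, ⟨M, hM⟩, hf3⟩ := hf
  obtain ⟨hg1, ⟨M', hM'⟩, hg3⟩ := hg
  refine ⟨hf1.add hg1, ⟨M + M', fun z hz => (norm_add_le _ _).trans (add_le_add (hM z hz) (hM' z hz))⟩,
    fun p hp => ?_⟩
  obtain ⟨h, h1, ⟨A, hA⟩, h3⟩ := hf3 p hp
  obtain ⟨k, k1, ⟨A', hA'⟩, k3⟩ := hg3 p hp
  refine ⟨fun w => h w + k w, h1.add k1, ⟨A + A', fun w hw => (norm_add_le _ _).trans
    (add_le_add (hA w hw) (hA' w hw))⟩, ?_⟩
  have := h3.add k3
  rw [add_zero] at this
  refine this.congr (fun z => ?_)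
  simp only [Pi.add_apply]
  ring

theorem Asy.mul {f g : (Fin (n + 1) → ℂ) → ℂ} (hf : Asy f) (hg : Asy g) : Asy (f * g) := by
  obtain ⟨hf1, ⟨M, hM⟩, hf3⟩ := hf
  obtain ⟨hg1, ⟨M', hM'⟩, hg3⟩ := hg
  have h0 : (0 : Fin (n + 1) → ℂ) ∈ Ball (n + 1) := by
    change ∑ i, ‖(0 : Fin (n + 1) → ℂ) i‖ ^ 2 < 1
    simp
  have hM0 : 0 ≤ M := (norm_nonneg _).trans (hM 0 h0)
  have hM0' : 0 ≤ M' := (norm_nonneg _).trans (hM' 0 h0)
  refine ⟨hf1.mul hg1, ⟨M * M', fun z hz => ?_⟩, fun p hp => ?_⟩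
  · rw [Pi.mul_apply, norm_mul]
    exact mul_le_mul (hM z hz) (hM' z hz) (norm_nonneg _) hM0
  obtain ⟨h, h1, ⟨A, hA⟩, h3⟩ := hf3 p hp
  obtain ⟨k, k1, ⟨A', hA'⟩, k3⟩ := hg3 p hp
  have hA0 : 0 ≤ A := (norm_nonneg _).trans (hA 0 (by simp))
  refine ⟨fun w => h w * k w, h1.mul k1, ⟨A * A', fun w hw => ?_⟩, ?_⟩
  · rw [norm_mul]
    exact mul_le_mul (hA w hw) (hA' w hw) (norm_nonneg _) hA0
  · have h5 : Tendsto (fun z => ‖f z - h (dot p z)‖ * M' + A * ‖g z - k (dot p z)‖)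
        (𝓝[Ball (n + 1)] p) (𝓝 0) := by
      have := (h3.norm.mul_const M').add ((k3.norm).const_mul A)
      simpa using this
    refine squeeze_zero_norm' ?_ h5
    filter_upwards [self_mem_nhdsWithin] with z hz
    have h6 : (f * g) z - h (dot p z) * k (dot p z) =
        (f z - h (dot p z)) * g z + h (dot p z) * (g z - k (dot p z)) := by
      simp only [Pi.mul_apply]; ring
    rw [h6]
    refine (norm_add_le _ _).trans (add_le_add ?_ ?_)
    · rw [norm_mul]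
      exact mul_le_mul_of_nonneg_left (hM' z hz) (norm_nonneg _)
    · rw [norm_mul]
      exact mul_le_mul_of_nonneg_right (hA _ (dot_mem hp hz)) (norm_nonneg _)

theorem Asy.const (c : ℂ) : Asy (fun _ : Fin (n + 1) → ℂ => c) := by
  refine ⟨differentiableOn_const _, ⟨‖c‖, fun z _ => le_rfl⟩, fun p _ => ?_⟩
  refine ⟨fun _ => c, differentiableOn_const _, ⟨‖c‖, fun z _ => le_rfl⟩, ?_⟩
  simp only [sub_self]
  exact tendsto_const_nhds

/-- the closed ball -/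
def CBall (m : ℕ) : Set (Fin m → ℂ) := {z | ∑ i, ‖z i‖ ^ 2 ≤ 1}

theorem isCompact_CBall (m : ℕ) : IsCompact (CBall m) := by
  have h1 : IsClosed (CBall m) := by
    apply isClosed_le _ continuous_const
    fun_prop
  refine (isCompact_closedBall (0 : Fin m → ℂ) 1).of_isClosed_subset h1 ?_
  intro z hz
  rw [mem_closedBall_zero_iff, pi_norm_le_iff_of_nonneg zero_le_one]
  intro i
  have h2 : ‖z i‖ ^ 2 ≤ ∑ i, ‖z i‖ ^ 2 :=
    Finset.single_le_sum (f := fun i => ‖z i‖ ^ 2) (fun i _ => by positivity) (Finset.mem_univ i)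
  have h3 : ∑ i, ‖z i‖ ^ 2 ≤ 1 := hz
  nlinarith [norm_nonneg (z i)]

theorem Ball_subset_CBall (m : ℕ) : Ball m ⊆ CBall m := by
  intro z hz
  have h : ∑ i, ‖z i‖ ^ 2 < 1 := hz
  exact h.le

theorem Asy.ballAlgebra {f : (Fin (n + 1) → ℂ) → ℂ} (hc : ContinuousOn f (CBall (n + 1)))
    (hd : DifferentiableOn ℂ f (Ball (n + 1))) : Asy f := by
  obtain ⟨M, hM⟩ := (isCompact_CBall (n + 1)).exists_bound_of_continuousOn hc
  refine ⟨hd, ⟨M, fun z hz => hM z (Ball_subset_CBall _ hz)⟩, fun p hp => ?_⟩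
  refine ⟨fun _ => f p, differentiableOn_const _, ⟨‖f p‖, fun z _ => le_rfl⟩, ?_⟩
  have h1 : Tendsto f (𝓝[Ball (n + 1)] p) (𝓝 (f p)) :=
    (hc p (le_of_eq hp)).mono_left (nhdsWithin_mono _ (Ball_subset_CBall _))
  have := h1.sub_const (f p)
  rwa [sub_self] at this

theorem Asy.oneVar {a : Fin (n + 1) → ℂ} (ha : ∑ i, ‖a i‖ ^ 2 = 1) {h : ℂ → ℂ}
    (hd : DifferentiableOn ℂ h (ball 0 1)) (hb : ∃ M : ℝ, ∀ w ∈ ball (0 : ℂ) 1, ‖h w‖ ≤ M) :
    Asy (fun z => h (dot a z)) := by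
  obtain ⟨M, hM⟩ := hb
  refine ⟨hd.comp (dot_differentiable a).differentiableOn (fun z hz => dot_mem ha hz),
    ⟨M, fun z hz => hM _ (dot_mem ha hz)⟩, fun p hp => ?_⟩
  by_cases hlt : ‖dot a p‖ < 1
  · refine ⟨fun _ => h (dot a p), differentiableOn_const _, ⟨‖h (dot a p)‖, fun z _ => le_rfl⟩, ?_⟩
    have h1 : ContinuousAt h (dot a p) :=
      (hd.differentiableAt (isOpen_ball.mem_nhds (by simpa using hlt))).continuousAt
    have h2 : Tendsto (fun z => h (dot a z)) (𝓝[Ball (n + 1)] p) (𝓝 (h (dot a p))) :=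
      (h1.tendsto.comp ((dot_continuous a).tendsto p)).mono_left nhdsWithin_le_nhds
    have := h2.sub_const (h (dot a p))
    rwa [sub_self] at this
  · push Not at hlt
    set c := dot a p with hc
    set A := (ee (n + 1)).symm a with hA
    set P := (ee (n + 1)).symm p with hP
    have hA1 : ‖A‖ = 1 := (norm_one_iff a).1 ha
    have hP1 : ‖P‖ = 1 := (norm_one_iff p).1 hp
    have hcin : c = inner ℂ A P := dot_inner a p
    have h1 : ‖P - c • A‖ ^ 2 = 1 - ‖c‖ ^ 2 := by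
      rw [norm_sub_sq (𝕜 := ℂ), norm_smul, hA1, hP1, inner_smul_right]
      have h2 : (inner ℂ P A : ℂ) = starRingEnd ℂ c := by rw [hcin, inner_conj_symm]
      rw [h2, Complex.mul_conj]
      have h3 : RCLike.re ((Complex.normSq c : ℂ)) = ‖c‖ ^ 2 := by
        rw [Complex.normSq_eq_norm_sq]
        exact Complex.ofReal_re _
      rw [h3]; ring
    have h2 : ‖P - c • A‖ ^ 2 = 0 := by
      have : (1:ℝ) ≤ ‖c‖ ^ 2 := by nlinarith
      have h3 := sq_nonneg ‖P - c • A‖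
      linarith
    have h3 : P = c • A := by
      rw [sq_eq_zero_iff, norm_eq_zero, sub_eq_zero] at h2
      exact h2
    have hc1 : ‖c‖ = 1 := by
      have : ‖P‖ = ‖c‖ * ‖A‖ := by rw [h3, norm_smul]
      rw [hP1, hA1, mul_one] at this
      exact this.symm
    have h4 : ∀ z, dot a z = c * dot p z := by
      intro z
      rw [dot_inner, dot_inner, ← hA, ← hP, h3, inner_smul_left, ← mul_assoc, Complex.mul_conj,
        Complex.normSq_eq_norm_sq, hc1]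
      simp
    refine ⟨fun w => h (c * w), ?_, ⟨M, fun w hw => hM _ ?_⟩, ?_⟩
    · refine hd.comp (by fun_prop : Differentiable ℂ fun w : ℂ => c * w).differentiableOn ?_
      intro w hw
      rw [mem_ball_zero_iff] at hw ⊢
      rw [norm_mul, hc1, one_mul]; exact hw
    · rw [mem_ball_zero_iff] at hw ⊢
      rw [norm_mul, hc1, one_mul]; exact hw
    · simp only [h4, sub_self]
      exact tendsto_const_nhds

/-- generators: the ball algebra and the bounded functions of one variable -/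
def Gen (n : ℕ) : Set ((Fin (n + 1) → ℂ) → ℂ) :=
  {f | ContinuousOn f {z | ∑ i, ‖z i‖ ^ 2 ≤ 1} ∧ DifferentiableOn ℂ f (Ball (n + 1))} ∪
  {f | ∃ (a : Fin (n + 1) → ℂ) (h : ℂ → ℂ), ∑ i, ‖a i‖ ^ 2 = 1 ∧
    DifferentiableOn ℂ h (ball 0 1) ∧ (∃ M : ℝ, ∀ w ∈ ball (0 : ℂ) 1, ‖h w‖ ≤ M) ∧
    f = fun z => h (∑ i, z i * starRingEnd ℂ (a i))}

theorem asy_adjoin {f : (Fin (n + 1) → ℂ) → ℂ} (hf : f ∈ Algebra.adjoin ℂ (Gen n)) : Asy f := by
  induction hf using Algebra.adjoin_induction with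
  | mem x hx =>
    rcases hx with ⟨h1, h2⟩ | ⟨a, h, h1, h2, h3, rfl⟩
    · exact Asy.ballAlgebra h1 h2
    · exact Asy.oneVar h1 h2 h3
  | algebraMap r => exact Asy.const r
  | add x y _ _ h1 h2 => exact h1.add h2
  | mul x y _ _ h1 h2 => exact h1.mul h2

/-- **Corona theorem for the algebra generated by the ball algebra and all functions of one
variable, together with one arbitrary function.** -/
theorem corona3 (n N : ℕ) (f : Fin N → (Fin (n + 1) → ℂ) → ℂ) (G : (Fin (n + 1) → ℂ) → ℂ)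
    (hf : ∀ j, f j ∈ Algebra.adjoin ℂ (Gen n)) (hG : DifferentiableOn ℂ G (Ball (n + 1)))
    (hGb : ∃ M : ℝ, ∀ z ∈ Ball (n + 1), ‖G z‖ ≤ M)
    (δ : ℝ) (hδ : 0 < δ) (hc : ∀ z ∈ Ball (n + 1), δ ≤ ∑ j, ‖f j z‖ + ‖G z‖) :
    ∃ (g : Fin N → (Fin (n + 1) → ℂ) → ℂ) (g₀ : (Fin (n + 1) → ℂ) → ℂ),
      (∀ j, DifferentiableOn ℂ (g j) (Ball (n + 1))) ∧ DifferentiableOn ℂ g₀ (Ball (n + 1)) ∧
      (∃ C : ℝ, (∀ j, ∀ z ∈ Ball (n + 1), ‖g j z‖ ≤ C) ∧ ∀ z ∈ Ball (n + 1), ‖g₀ z‖ ≤ C) ∧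
      ∀ z ∈ Ball (n + 1), ∑ j, f j z * g j z + G z * g₀ z = 1 := by
  have hA := fun j => asy_adjoin (hf j)
  set F : Fin (N + 1) → (Fin (n + 1) → ℂ) → ℂ := Fin.cons G f with hF
  obtain ⟨g, hg, ⟨C, hC⟩, hbez⟩ := corona2 n (N + 1) F
    (by
      intro j
      refine Fin.cases ?_ (fun j => ?_) j
      · exact hG
      · exact (hA j).1)
    (by
      intro j
      refine Fin.cases ?_ (fun j => ?_) j
      · exact hGb
      · exact (hA j).2.1)
    (by
      intro z hz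
      by_contra hcon
      push Not at hcon
      have h1 : G z = 0 := hcon 0
      have h2 : ∀ j, f j z = 0 := fun j => hcon j.succ
      have h3 := hc z hz
      simp only [h1, h2, norm_zero, Finset.sum_const_zero, add_zero] at h3
      linarith)
    (by
      intro p hp
      obtain ⟨ψ, hψ, hψ0, hfil⟩ := peak_unitary p hp
      refine ⟨ψ, hψ, hfil, 0, Finset.univ.image Fin.succ, δ, hδ, ?_, ?_⟩
      · filter_upwards [self_mem_nhdsWithin] with z hz
        rw [Finset.sum_image (fun i _ j _ hij => Fin.succ_injective _ hij)]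
        have h3 := hc z hz
        rw [add_comm] at h3
        exact h3
      · intro j hj
        obtain ⟨i, -, rfl⟩ := Finset.mem_image.1 hj
        obtain ⟨h, h1, h2, h3⟩ := (hA i).2.2 p hp
        refine ⟨h, h1, h2, ?_⟩
        simp only [hψ0]
        exact h3)
  refine ⟨fun j => g j.succ, g 0, fun j => hg _, hg 0, ⟨C, fun j z hz => hC _ z hz,
    fun z hz => hC 0 z hz⟩, fun z hz => ?_⟩
  have h1 := hbez z hz
  rw [Fin.sum_univ_succ] at h1
  rw [← h1, add_comm]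
  rfl

end Pool.Agent.H326R3.CB
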