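import Mathlib
import Pool.Agent.H326R3.CB6
import Pool.Agent.H326R3.CB14

/-!
The theorem on Koranyi regions in coordinates.
-/

set_option autoImplicit false

open Metric Set Filter Topology
open Pool.Agent.H720R2.Cor (Ball IsAutomorphism)

namespace Pool.Agent.H326R3.CB

variable {n : ℕ}

theorem mapsE : MapsTo (ee (n + 1)).symm (Ball (n + 1)) (ball 0 1) := by
  intro z hz
  rw [mem_ball_zero_iff]
  exact (mem_Ball_iff z).1 hz

theorem mapsE' : MapsTo (ee (n + 1)) (ball 0 1) (Ball (n + 1)) := by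
  intro v hv
  rw [mem_Ball_iff, ContinuousLinearEquiv.symm_apply_apply]
  simpa using hv

theorem norm_ee (z : V (n + 1)) : ∑ i, ‖(ee (n + 1) z) i‖ ^ 2 = ‖z‖ ^ 2 :=
  (EuclideanSpace.norm_sq_eq z).symm

/-- **Corona data are approximately solvable on sets that approach the sphere inside Koranyi
regions.** -/
theorem koranyi (n N : ℕ) (f : Fin N → (Fin (n + 1) → ℂ) → ℂ)
    (hd : ∀ j, DifferentiableOn ℂ (f j) (Ball (n + 1)))
    (hb : ∀ j, ∃ M : ℝ, ∀ z ∈ Ball (n + 1), ‖f j z‖ ≤ M)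
    (δ : ℝ) (hδ : 0 < δ) (hc : ∀ z ∈ Ball (n + 1), δ ≤ ∑ j, ‖f j z‖)
    (X : Set (Fin (n + 1) → ℂ)) (hXB : X ⊆ Ball (n + 1))
    (hX : ∀ p : Fin (n + 1) → ℂ, ∑ i, ‖p i‖ ^ 2 = 1 → ∃ α : ℝ, ∀ᶠ z in 𝓝 p, z ∈ X →
      ‖1 - ∑ i, z i * starRingEnd ℂ (p i)‖ ≤ α * (1 - ∑ i, ‖z i‖ ^ 2)) (ε : ℝ) (hε : 0 < ε) :
    ∃ g : Fin N → (Fin (n + 1) → ℂ) → ℂ,
      (∀ j, DifferentiableOn ℂ (g j) (Ball (n + 1))) ∧
      (∃ C : ℝ, ∀ j, ∀ z ∈ Ball (n + 1), ‖g j z‖ ≤ C) ∧
      ∀ z ∈ X, ‖∑ j, f j z * g j z - 1‖ ≤ ε := by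
  choose M hM using hb
  obtain ⟨F, hF⟩ : ∃ F : Fin N → Hi (n + 1), F = fun j => mk (f := fun v => f j (ee (n + 1) v))
    ((hd j).comp (ee (n + 1)).differentiable.differentiableOn mapsE') (C := M j)
    (fun v hv => hM j _ (mapsE' hv)) := ⟨_, rfl⟩
  have hFz : ∀ j, ∀ z : Bt (n + 1), (F j).1 z = f j (ee (n + 1) z) := fun j z => by rw [hF]; rfl
  obtain ⟨G, hG⟩ := main_V F hδ (fun z => by
      simp only [hFz]
      exact hc _ (mapsE' z.2)) {z : Bt (n + 1) | ee (n + 1) (z : V (n + 1)) ∈ X} (fun p hp => by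
      have h1 : ∑ i, ‖(ee (n + 1) p) i‖ ^ 2 = 1 := by rw [norm_ee, hp, one_pow]
      obtain ⟨α, hα⟩ := hX _ h1
      have h2 := ((ee (n + 1)).continuous.tendsto p).eventually hα
      obtain ⟨r, hr, h3⟩ := Metric.eventually_nhds_iff.1 h2
      refine ⟨α, r, hr, fun z hz hzr => ?_⟩
      have h4 := h3 (by rw [dist_eq_norm]; exact hzr) hz
      rw [norm_ee] at h4
      have h5 : ∑ i, (ee (n + 1) (z : V (n + 1))) i * starRingEnd ℂ ((ee (n + 1) p) i) =
          inner ℂ p (z : V (n + 1)) := by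
        have := dot_inner (ee (n + 1) p) (ee (n + 1) (z : V (n + 1)))
        rw [ContinuousLinearEquiv.symm_apply_apply, ContinuousLinearEquiv.symm_apply_apply] at this
        exact this
      rw [h5] at h4
      exact h4) hε
  choose g hg hgG using fun j => (G j).2
  refine ⟨fun j z => g j ((ee (n + 1)).symm z), fun j =>
    (hg j).comp (ee (n + 1)).symm.differentiable.differentiableOn mapsE, ?_, ?_⟩
  · refine ⟨∑ j, ‖G j‖, fun j z hz => ?_⟩
    have h2 := hgG j ⟨_, mapsE hz⟩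
    have h3 := Hi.le_norm (G j) ⟨_, mapsE hz⟩
    rw [h2] at h3
    exact h3.trans (Finset.single_le_sum (f := fun j => ‖G j‖) (fun j _ => norm_nonneg _)
      (Finset.mem_univ j))
  · intro z hz
    have hzB := hXB hz
    have h1 := hG ⟨_, mapsE hzB⟩ (by
      change ee (n + 1) ((ee (n + 1)).symm z) ∈ X
      rw [ContinuousLinearEquiv.apply_symm_apply]; exact hz)
    refine le_trans (le_of_eq ?_) h1
    congr 2
    refine Finset.sum_congr rfl fun j _ => ?_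
    rw [hFz, hgG j]
    simp only [ContinuousLinearEquiv.apply_symm_apply]

/-- **Corona data are exactly solvable after the functions `((1-z₀)/(1+z₀))^i - const` and
`z_i/√(1-z₀²) - const` are added**, with a bound that depends only on the constants. -/
theorem special (n N : ℕ) (δ : ℝ) (hδ : 0 < δ) (a : Fin (n + 1) → ℂ) (ha : a ∈ Ball (n + 1)) :
    ∃ C : ℝ, ∀ f : Fin N → (Fin (n + 1) → ℂ) → ℂ,
      (∀ j, DifferentiableOn ℂ (f j) (Ball (n + 1))) →
      (∀ j, ∀ z ∈ Ball (n + 1), ‖f j z‖ ≤ 1) → (∀ z ∈ Ball (n + 1), δ ≤ ∑ j, ‖f j z‖) →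
      ∃ (g : Fin N → (Fin (n + 1) → ℂ) → ℂ) (u₀ : (Fin (n + 1) → ℂ) → ℂ)
        (u : Fin n → (Fin (n + 1) → ℂ) → ℂ),
        (∀ j, DifferentiableOn ℂ (g j) (Ball (n + 1))) ∧ DifferentiableOn ℂ u₀ (Ball (n + 1)) ∧
        (∀ i, DifferentiableOn ℂ (u i) (Ball (n + 1))) ∧
        (∀ z ∈ Ball (n + 1), (∀ j, ‖g j z‖ ≤ C) ∧ ‖u₀ z‖ ≤ C ∧ ∀ i, ‖u i z‖ ≤ C) ∧
        ∀ z ∈ Ball (n + 1), ∑ j, f j z * g j z +
          (Complex.exp (Complex.I * (Complex.log (1 - z 0) - Complex.log (1 + z 0))) -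
            Complex.exp (Complex.I * (Complex.log (1 - a 0) - Complex.log (1 + a 0)))) * u₀ z +
          ∑ i : Fin n, (z i.succ / Complex.exp ((Complex.log (1 - z 0) + Complex.log (1 + z 0)) / 2)
            - a i.succ / Complex.exp ((Complex.log (1 - a 0) + Complex.log (1 + a 0)) / 2)) *
              u i z = 1 := by
  have ha' : ‖(ee (n + 1)).symm a‖ < 1 := (mem_Ball_iff a).1 ha
  obtain ⟨C, -, hC⟩ := bez n N hδ ha'
  refine ⟨C, fun f hf hb hc => ?_⟩
  obtain ⟨g, u₀, u, hg, hu₀, hu, hbd, hid⟩ := hC (fun j v => f j (ee (n + 1) v))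
    (fun j => (hf j).comp (ee (n + 1)).differentiable.differentiableOn mapsE')
    (fun j z hz => hb j _ (mapsE' hz)) (fun z hz => hc _ (mapsE' hz))
  refine ⟨fun j z => g j ((ee (n + 1)).symm z), fun z => u₀ ((ee (n + 1)).symm z),
    fun i z => u i ((ee (n + 1)).symm z), fun j =>
    (hg j).comp (ee (n + 1)).symm.differentiable.differentiableOn mapsE,
    hu₀.comp (ee (n + 1)).symm.differentiable.differentiableOn mapsE,
    fun i => (hu i).comp (ee (n + 1)).symm.differentiable.differentiableOn mapsE,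
    fun z hz => hbd _ (mapsE hz), fun z hz => ?_⟩
  have h1 := hid _ (mapsE hz)
  simp only [ContinuousLinearEquiv.apply_symm_apply] at h1
  exact h1

end Pool.Agent.H326R3.CB
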