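import Mathlib
import Pool.Agent.H326R3.CB14

/-!
Uniform version: sequences of corona data.
-/

set_option autoImplicit false

open Metric Set Filter Topology Complex

namespace Pool.Agent.H326R3.CB

section General

variable {Y : Type*} [TopologicalSpace Y] (H : Subalgebra ℂ (BoundedContinuousFunction Y ℂ))

/-- restriction to a subset -/
noncomputable def resG (X : Set Y) : H →ₐ[ℂ] BoundedContinuousFunction X ℂ where
  toFun F := F.1.compContinuous ⟨Subtype.val, continuous_subtype_val⟩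
  map_one' := rfl
  map_mul' := fun _ _ => rfl
  map_zero' := rfl
  map_add' := fun _ _ => rfl
  commutes' := fun _ => rfl

/-- the uniform closure of the restrictions -/
noncomputable def AG (X : Set Y) : Subalgebra ℂ (BoundedContinuousFunction X ℂ) :=
  (resG H X).range.topologicalClosure

noncomputable instance (X : Set Y) : NormedCommRing (AG H X) := inferInstance
noncomputable instance (X : Set Y) : NormedAlgebra ℂ (AG H X) := inferInstance
instance (X : Set Y) : CompleteSpace (AG H X) :=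
  (Subalgebra.isClosed_topologicalClosure _).completeSpace_coe

/-- restriction as a map into the closure -/
noncomputable def rG (X : Set Y) : H →ₐ[ℂ] AG H X :=
  (resG H X).codRestrict (AG H X) (fun F => Subalgebra.le_topologicalClosure _ ⟨F, rfl⟩)

theorem approx_G {X : Set Y} (hXn : X.Nonempty) {N : ℕ} (F : Fin N → H)
    (h : ∀ χ : H →ₐ[ℂ] ℂ, (∀ (G : H) (C : ℝ), (∀ z ∈ X, ‖G.1 z‖ ≤ C) → ‖χ G‖ ≤ C) →
      ∃ j, χ (F j) ≠ 0) {ε : ℝ} (hε : 0 < ε) :
    ∃ G : Fin N → H, ∀ z ∈ X, ‖∑ j, (F j).1 z * (G j).1 z - 1‖ ≤ ε := by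
  have : Nonempty X := hXn.to_subtype
  by_cases hJ : Ideal.span (Set.range fun j => rG H X (F j)) = ⊤
  · have h1 : (1 : AG H X) ∈ Ideal.span (Set.range fun j => rG H X (F j)) := by rw [hJ]; trivial
    obtain ⟨c, hc⟩ := Ideal.mem_span_range_iff_exists_fun.1 h1
    obtain ⟨ε', hε'⟩ : ∃ e : ℝ, e = ε / (1 + ∑ j, ‖F j‖) := ⟨_, rfl⟩
    have hs : 0 < 1 + ∑ j, ‖F j‖ := by
      have : 0 ≤ ∑ j, ‖F j‖ := Finset.sum_nonneg fun j _ => norm_nonneg _
      linarith
    have hε'0 : 0 < ε' := by rw [hε']; positivity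
    have h2 : ∀ j, ∃ G : H, ‖(c j).1 - resG H X G‖ < ε' := by
      intro j
      have h3 : (c j).1 ∈ closure ((resG H X).range : Set (BoundedContinuousFunction X ℂ)) := (c j).2
      obtain ⟨b, ⟨G, rfl⟩, hb⟩ := Metric.mem_closure_iff.1 h3 ε' hε'0
      exact ⟨G, by rw [← dist_eq_norm]; exact hb⟩
    choose G hG using h2
    refine ⟨G, fun z hz => ?_⟩
    have h4 : ∑ j, (c j).1 ⟨z, hz⟩ * (F j).1 z = 1 := by
      have h5 := congrArg (fun a : AG H X => a.1 ⟨z, hz⟩) hc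
      have h6 : (∑ j, c j * rG H X (F j) : AG H X).1 ⟨z, hz⟩ = ∑ j, (c j).1 ⟨z, hz⟩ * (F j).1 z := by
        rw [AddSubmonoidClass.coe_finsetSum]
        rw [BoundedContinuousFunction.sum_apply]
        rfl
      rw [h6] at h5
      exact h5
    have h7 : ∑ j, (F j).1 z * (G j).1 z - 1 =
        -∑ j, ((c j).1 ⟨z, hz⟩ - (G j).1 z) * (F j).1 z := by
      rw [← h4, ← Finset.sum_sub_distrib, ← Finset.sum_neg_distrib]
      refine Finset.sum_congr rfl fun j _ => ?_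
      ring
    rw [h7, norm_neg]
    refine (norm_sum_le _ _).trans ?_
    have h8 : ∀ j, ‖((c j).1 ⟨z, hz⟩ - (G j).1 z) * (F j).1 z‖ ≤ ε' * ‖F j‖ := by
      intro j
      rw [norm_mul]
      refine mul_le_mul ?_ ((F j).1.norm_coe_le_norm z) (norm_nonneg _) hε'0.le
      have h9 := ((c j).1 - resG H X (G j)).norm_coe_le_norm ⟨z, hz⟩
      exact h9.trans (hG j).le
    refine (Finset.sum_le_sum fun j _ => h8 j).trans ?_
    rw [← Finset.mul_sum, hε', div_mul_eq_mul_div, div_le_iff₀ hs]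
    nlinarith
  · exfalso
    obtain ⟨χ', hχ'⟩ := exists_char' _ hJ
    obtain ⟨j, hj⟩ := h ((WeakDual.CharacterSpace.toAlgHom χ').comp (rG H X)) (by
      intro G C hG
      have hC0 : 0 ≤ C := by
        obtain ⟨z, hz⟩ := hXn
        exact (norm_nonneg _).trans (hG z hz)
      have h1 : ‖χ' (rG H X G)‖ ≤ ‖rG H X G‖ * ‖(1 : AG H X)‖ :=
        spectrum.norm_le_norm_mul_of_mem (AlgHom.apply_mem_spectrum χ' (rG H X G))
      have h2 : ‖rG H X G‖ ≤ C :=
        (BoundedContinuousFunction.norm_le hC0).2 (fun z => hG z.1 z.2)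
      have h3 : ‖(1 : AG H X)‖ ≤ 1 :=
        (BoundedContinuousFunction.norm_le zero_le_one).2 (fun z => by
          change ‖(1:ℂ)‖ ≤ 1
          simp)
      change ‖χ' (rG H X G)‖ ≤ C
      calc ‖χ' (rG H X G)‖ ≤ ‖rG H X G‖ * ‖(1 : AG H X)‖ := h1
        _ ≤ C * 1 := mul_le_mul h2 h3 (norm_nonneg _) hC0
        _ = C := mul_one C)
    exact hj (hχ' _ (Ideal.subset_span ⟨j, rfl⟩))

end General

/-- bounded sequences of bounded holomorphic functions -/
noncomputable def Hs (m : ℕ) : Subalgebra ℂ (BoundedContinuousFunction (ℕ × Bt m) ℂ) where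
  carrier := {F | ∀ k, ∃ f : V m → ℂ, DifferentiableOn ℂ f (ball 0 1) ∧ ∀ z : Bt m, F (k, z) = f z}
  mul_mem' := by
    rintro F G hF hG k
    obtain ⟨f, hf, hF⟩ := hF k
    obtain ⟨g, hg, hG⟩ := hG k
    refine ⟨fun z => f z * g z, hf.mul hg, fun z => ?_⟩
    rw [BoundedContinuousFunction.mul_apply, hF, hG]
  add_mem' := by
    rintro F G hF hG k
    obtain ⟨f, hf, hF⟩ := hF k
    obtain ⟨g, hg, hG⟩ := hG k
    refine ⟨fun z => f z + g z, hf.add hg, fun z => ?_⟩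
    rw [BoundedContinuousFunction.add_apply, hF, hG]
  algebraMap_mem' := by
    intro c k
    exact ⟨fun _ => c, differentiableOn_const _, fun z => rfl⟩

/-- elements of `Hs` -/
noncomputable def mks {m : ℕ} {f : ℕ → V m → ℂ} (hf : ∀ k, DifferentiableOn ℂ (f k) (ball 0 1))
    {C : ℝ} (hC : ∀ k, ∀ z ∈ ball (0 : V m) 1, ‖f k z‖ ≤ C) : Hs m :=
  ⟨BoundedContinuousFunction.ofNormedAddCommGroup (fun x : ℕ × Bt m => f x.1 x.2)
    (continuous_prod_of_discrete_left.2 fun k =>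
      continuousOn_iff_continuous_domRestrict.1 (hf k).continuousOn) C
    (fun x => hC x.1 x.2 x.2.2), fun k => ⟨f k, hf k, fun z => rfl⟩⟩

theorem Hs.ext {m : ℕ} {F G : Hs m} (h : ∀ x, F.1 x = G.1 x) : F = G := by
  apply Subtype.ext
  ext x
  exact h x

theorem Hs.sum_apply {m : ℕ} {ι : Type*} (s : Finset ι) (F : ι → Hs m) (x : ℕ × Bt m) :
    (∑ i ∈ s, F i).1 x = ∑ i ∈ s, (F i).1 x := by
  classical
  induction s using Finset.induction_on with
  | empty => rfl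
  | insert i s hi ih =>
    rw [Finset.sum_insert hi, Finset.sum_insert hi, ← ih]
    rfl

/-- constants -/
noncomputable def Cs {m : ℕ} (c : ℂ) : Hs m := algebraMap ℂ (Hs m) c

variable {n : ℕ}

/-- the functions `exp (i x Ls)` -/
noncomputable def es (x : ℝ) : Hs (n + 1) :=
  mks (f := fun _ z => exp (I * x * Ls z)) (fun _ => ea_diff x) (C := Real.exp (|x| * Real.pi))
    (fun _ => ea_bd x)

/-- the functions `ww` -/
noncomputable def ws (i : Fin n) : Hs (n + 1) :=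
  mks (f := fun _ z => ww z i) (fun _ => ww_diff i) (C := 1) (fun _ => ww_bd i)

theorem es_add (x y : ℝ) : (es (x + y) : Hs (n + 1)) = es x * es y := by
  apply Hs.ext
  intro z
  change exp (I * ((x + y : ℝ) : ℂ) * Ls (z.2 : V (n + 1))) =
    exp (I * x * Ls (z.2 : V (n + 1))) * exp (I * y * Ls (z.2 : V (n + 1)))
  rw [← Complex.exp_add]
  congr 1
  push_cast; ring

theorem es_zero : (es 0 : Hs (n + 1)) = 1 := by
  apply Hs.ext
  intro z
  change exp (I * ((0 : ℝ) : ℂ) * Ls (z.2 : V (n + 1))) = 1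
  simp

theorem chars_es_ne (χ : Hs (n + 1) →ₐ[ℂ] ℂ) (x : ℝ) : χ (es x) ≠ 0 := by
  intro h
  have h1 : χ (es x) * χ (es (-x)) = 1 := by
    rw [← map_mul, ← es_add, add_neg_cancel, es_zero, map_one]
  rw [h, zero_mul] at h1
  exact zero_ne_one h1

theorem chars_es (χ : Hs (n + 1) →ₐ[ℂ] ℂ) {K : ℝ}
    (hK : ∀ x : ℝ, ‖χ (es x)‖ ≤ Real.exp (|x| * K)) (x : ℝ) :
    Real.log ‖χ (es x)‖ = x * Real.log ‖χ (es 1)‖ := by
  let φ : ℝ →+ ℝ :=
    { toFun := fun x => Real.log ‖χ (es x)‖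
      map_zero' := by rw [es_zero, map_one, norm_one, Real.log_one]
      map_add' := fun x y => by
        rw [es_add, map_mul, norm_mul, Real.log_mul (norm_ne_zero_iff.2 (chars_es_ne χ x))
          (norm_ne_zero_iff.2 (chars_es_ne χ y))] }
  have hle : ∀ x, φ x ≤ |x| * K := by
    intro x
    have h1 := Real.log_le_log (norm_pos_iff.2 (chars_es_ne χ x)) (hK x)
    rwa [Real.log_exp] at h1
  have hbd : ∀ x, ‖φ x‖ ≤ K * ‖x‖ := by
    intro x
    rw [Real.norm_eq_abs, Real.norm_eq_abs, mul_comm K, abs_le]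
    refine ⟨?_, hle x⟩
    have h2 := hle (-x)
    rw [map_neg, abs_neg] at h2
    linarith
  have hcont : Continuous φ := AddMonoidHomClass.continuous_of_bound φ K hbd
  have h3 := map_real_smul φ hcont x 1
  rw [smul_eq_mul, mul_one, smul_eq_mul] at h3
  exact h3

theorem no_chars {N : ℕ} (F : Fin N → Hs (n + 1)) {δ : ℝ} (hδ : 0 < δ)
    (hc : ∀ z, δ ≤ ∑ j, ‖(F j).1 z‖) {η : ℝ} (hη : 0 < η) (X : Set (ℕ × Bt (n + 1)))
    (hX : ∀ z ∈ X, η ≤ Real.cos (Ls (z.2 : V (n + 1))).im - ∑ i, ‖ww (z.2 : V (n + 1)) i‖ ^ 2)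
    (χ : Hs (n + 1) →ₐ[ℂ] ℂ)
    (hχ : ∀ (G : Hs (n + 1)) (C : ℝ), (∀ z ∈ X, ‖G.1 z‖ ≤ C) → ‖χ G‖ ≤ C) :
    ∃ j, χ (F j) ≠ 0 := by
  by_contra hcon
  push Not at hcon
  obtain ⟨K, hK⟩ : ∃ K : ℝ, K = Real.arccos η := ⟨_, rfl⟩
  have hK2 : K < Real.pi / 2 := by rw [hK]; exact Real.arccos_lt_pi_div_two.2 hη
  have hXm : ∀ z : ℕ × Bt (n + 1), |(Ls (z.2 : V (n + 1))).im| < Real.pi / 2 := fun z =>
    Ls_mem (mem_ball_zero_iff.1 z.2.2)
  have hXK : ∀ z ∈ X, |(Ls (z.2 : V (n + 1))).im| ≤ K := by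
    intro z hz
    have h1 := hX z hz
    have h2 : 0 ≤ ∑ i, ‖ww (z.2 : V (n + 1)) i‖ ^ 2 := Finset.sum_nonneg fun i _ => by positivity
    have h3 : η ≤ Real.cos |(Ls (z.2 : V (n + 1))).im| := by rw [Real.cos_abs]; linarith
    rw [hK, ← Real.arccos_cos (abs_nonneg (Ls (z.2 : V (n + 1))).im)
      (by linarith [hXm z, Real.pi_pos])]
    exact Real.arccos_le_arccos h3
  have hea : ∀ x : ℝ, ‖χ (es x)‖ ≤ Real.exp (|x| * K) := by
    intro x
    refine hχ _ _ (fun z hz => ?_)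
    change ‖exp (I * x * Ls (z.2 : V (n + 1)))‖ ≤ _
    rw [ea_norm, Real.exp_le_exp]
    calc -x * (Ls (z.2 : V (n + 1))).im ≤ |-x * (Ls (z.2 : V (n + 1))).im| := le_abs_self _
      _ = |x| * |(Ls (z.2 : V (n + 1))).im| := by rw [abs_mul, abs_neg]
      _ ≤ |x| * K := mul_le_mul_of_nonneg_left (hXK z hz) (abs_nonneg _)
  have hlin := chars_es χ hea
  obtain ⟨E, hE⟩ : ∃ E : ℂ, E = χ (es 1) := ⟨_, rfl⟩
  have hE0 : E ≠ 0 := hE ▸ chars_es_ne χ 1
  obtain ⟨θ, hθ⟩ : ∃ θ : ℝ, θ = -Real.log ‖E‖ := ⟨_, rfl⟩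
  have hlin' : ∀ x : ℝ, ‖χ (es x)‖ = Real.exp (-x * θ) := by
    intro x
    have h1 := hlin x
    rw [← hE] at h1
    rw [← Real.exp_log (norm_pos_iff.2 (chars_es_ne χ x)), h1, hθ]
    congr 1; ring
  have hθK : |θ| ≤ K := by
    have h1 := hea 1
    have h2 := hea (-1)
    rw [hlin', Real.exp_le_exp] at h1 h2
    simp only [abs_one, abs_neg, one_mul] at h1 h2
    rw [abs_le]
    constructor <;> linarith
  have hθ2 : |θ| < Real.pi / 2 := lt_of_le_of_lt hθK hK2
  have hcosθ : 0 < Real.cos θ := Real.cos_pos_of_mem_Ioo (abs_lt.1 hθ2)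
  obtain ⟨ω, hω⟩ : ∃ ω : Fin n → ℂ, ω = fun i => χ (ws i) := ⟨_, rfl⟩
  obtain ⟨S, hS⟩ : ∃ S : ℝ, S = ∑ i, ‖ω i‖ ^ 2 := ⟨_, rfl⟩
  have hS0 : 0 ≤ S := by rw [hS]; exact Finset.sum_nonneg fun i _ => by positivity
  -- the norm of `ω`
  have hlt : S < Real.cos θ := by
    obtain ⟨L, hL⟩ : ∃ L : Hs (n + 1), L = ∑ i, Cs (starRingEnd ℂ (ω i)) * ws i := ⟨_, rfl⟩
    have hLz : ∀ z : ℕ × Bt (n + 1), L.1 z = ∑ i, starRingEnd ℂ (ω i) * ww (z.2 : V (n + 1)) i := by
      intro z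
      rw [hL, Hs.sum_apply]
      rfl
    have hχL : χ L = (S : ℂ) := by
      rw [hL, map_sum, hS]
      push_cast
      refine Finset.sum_congr rfl fun i _ => ?_
      rw [map_mul]
      have h1 : χ (Cs (starRingEnd ℂ (ω i))) = starRingEnd ℂ (ω i) := χ.commutes _
      have h2 : χ (ws i) = ω i := by rw [hω]
      rw [h1, h2, mul_comm, Complex.mul_conj, Complex.normSq_eq_norm_sq]
      push_cast; ring
    have hLn : ∀ z : ℕ × Bt (n + 1), ‖L.1 z‖ ^ 2 ≤ S * ∑ i, ‖ww (z.2 : V (n + 1)) i‖ ^ 2 := by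
      intro z
      have h1 : ‖L.1 z‖ ≤ ∑ i, ‖ω i‖ * ‖ww (z.2 : V (n + 1)) i‖ := by
        rw [hLz]
        refine (norm_sum_le _ _).trans (Finset.sum_le_sum fun i _ => ?_)
        rw [norm_mul, RCLike.norm_conj]
      have h2 := Finset.sum_mul_sq_le_sq_mul_sq Finset.univ (fun i => ‖ω i‖)
        (fun i => ‖ww (z.2 : V (n + 1)) i‖)
      rw [hS]
      refine le_trans ?_ h2
      exact pow_le_pow_left₀ (norm_nonneg _) h1 2
    have hmain : ‖χ (L * L * es (-Real.tan θ))‖ ≤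
        S * (1 - η) * (Real.cos θ * Real.exp (Real.tan θ * θ)) := by
      refine hχ _ _ (fun z hz => ?_)
      have h1 : (L * L * es (-Real.tan θ)).1 z = L.1 z * L.1 z *
          exp (I * ((-Real.tan θ : ℝ) : ℂ) * Ls (z.2 : V (n + 1))) := rfl
      rw [h1, norm_mul, norm_mul, ea_norm, neg_neg]
      have h2 := hLn z
      have h3 := hX z hz
      have h4 := cos_tangent (hXm z) hθ2
      have h5 := Real.cos_le_one (Ls (z.2 : V (n + 1))).im
      have h6 : 0 < Real.cos (Ls (z.2 : V (n + 1))).im :=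
        Real.cos_pos_of_mem_Ioo (abs_lt.1 (hXm z))
      have h7 : ∑ i, ‖ww (z.2 : V (n + 1)) i‖ ^ 2 ≤
          (1 - η) * Real.cos (Ls (z.2 : V (n + 1))).im := by nlinarith
      have h8 : 0 ≤ ∑ i, ‖ww (z.2 : V (n + 1)) i‖ ^ 2 := Finset.sum_nonneg fun i _ => by positivity
      have h9 : 0 ≤ 1 - η := by nlinarith
      calc ‖L.1 z‖ * ‖L.1 z‖ * Real.exp (Real.tan θ * (Ls (z.2 : V (n + 1))).im)
          = ‖L.1 z‖ ^ 2 * Real.exp (Real.tan θ * (Ls (z.2 : V (n + 1))).im) := by ring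
        _ ≤ (S * ((1 - η) * Real.cos (Ls (z.2 : V (n + 1))).im)) *
              Real.exp (Real.tan θ * (Ls (z.2 : V (n + 1))).im) := by
            gcongr
            exact h2.trans (mul_le_mul_of_nonneg_left h7 hS0)
        _ = S * (1 - η) * (Real.cos (Ls (z.2 : V (n + 1))).im *
              Real.exp (Real.tan θ * (Ls (z.2 : V (n + 1))).im)) := by ring
        _ ≤ S * (1 - η) * (Real.cos θ * Real.exp (Real.tan θ * θ)) := by gcongr
    rw [map_mul, map_mul, hχL, norm_mul, norm_mul, Complex.norm_real, Real.norm_of_nonneg hS0,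
      hlin', neg_neg] at hmain
    have hpos : 0 < Real.exp (Real.tan θ * θ) := Real.exp_pos _
    have h1 : S * S ≤ S * ((1 - η) * Real.cos θ) := by
      refine le_of_mul_le_mul_right ?_ hpos
      calc S * S * Real.exp (Real.tan θ * θ) ≤ _ := hmain
        _ = _ := by ring
    rcases hS0.eq_or_lt with h2 | h2
    · rw [← h2]; exact hcosθ
    · have h3 := le_of_mul_le_mul_left h1 h2
      nlinarith
  -- the point
  obtain ⟨s₀, hs₀⟩ : ∃ s : ℂ, s = -I * log E := ⟨_, rfl⟩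
  have him : s₀.im = θ := by
    rw [hs₀, hθ]
    simp [Complex.mul_im, Complex.log_re]
  have hs₀m : s₀ ∈ Sph := by
    change |s₀.im| < _
    rw [him]; exact hθ2
  have hωc : ∑ i, ‖ω i‖ ^ 2 < Real.cos s₀.im := by rw [him, ← hS]; exact hlt
  have ha : ‖PP s₀ ω‖ < 1 := PP_mem hs₀m hωc
  have hLa : exp (I * Ls (PP s₀ ω)) = E := by
    rw [Ls_PP hs₀m hωc, hs₀]
    have : I * (-I * log E) = log E := by
      rw [← mul_assoc, mul_neg, I_mul_I, neg_neg, one_mul]
    rw [this, Complex.exp_log hE0]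
  have hwa : ww (PP s₀ ω) = ω := ww_PP hs₀m hωc
  -- the data
  choose f hf hFf using fun j => (F j).2
  obtain ⟨M, hM⟩ : ∃ M : ℝ, M = 1 + ∑ j, ‖F j‖ := ⟨_, rfl⟩
  have hM1 : 0 < M := by
    have : 0 ≤ ∑ j, ‖F j‖ := Finset.sum_nonneg fun j _ => norm_nonneg _
    rw [hM]; linarith
  have hFM : ∀ j, ‖F j‖ ≤ M := by
    intro j
    have := Finset.single_le_sum (f := fun j => ‖F j‖) (fun j _ => norm_nonneg _) (Finset.mem_univ j)
    rw [hM]
    linarith
  have hMn : ‖(M : ℂ)‖ = M := by rw [Complex.norm_real, Real.norm_of_nonneg hM1.le]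
  obtain ⟨C, hC0, hC⟩ := bez n N (δ := δ / M) (by positivity) ha
  have hall : ∀ k : ℕ, _ := fun k => hC (fun j z => f j k z * (1 / M : ℂ))
    (fun j => (hf j k).mul_const _)
    (fun j z hz => by
      rw [norm_mul, norm_div, norm_one, hMn, mul_one_div, div_le_one hM1]
      have h2 := (F j).1.norm_coe_le_norm (k, ⟨z, hz⟩)
      rw [show (F j).1 (k, ⟨z, hz⟩) = f j k z from hFf j k ⟨z, hz⟩] at h2
      exact h2.trans (hFM j))
    (fun z hz => by
      have h1 := hc (k, ⟨z, hz⟩)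
      rw [div_le_iff₀ hM1, Finset.sum_mul]
      refine h1.trans (Finset.sum_le_sum fun j _ => ?_)
      rw [show (F j).1 (k, ⟨z, hz⟩) = f j k z from hFf j k ⟨z, hz⟩]
      rw [norm_mul, norm_div, norm_one, hMn]
      apply le_of_eq
      field_simp)
  choose g u₀ u hg hu₀ hu hbd hid using hall
  rw [hLa, hwa] at hid
  have hone : (∑ j, F j * (Cs (1 / M) * mks (f := fun k => g k j) (fun k => hg k j) (C := C)
        (fun k z hz => (hbd k z hz).1 j))) +
      (es 1 - Cs E) * mks (f := u₀) hu₀ (C := C) (fun k z hz => (hbd k z hz).2.1) +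
      ∑ i, (ws i - Cs (ω i)) * mks (f := fun k => u k i) (fun k => hu k i) (C := C)
        (fun k z hz => (hbd k z hz).2.2 i) = 1 := by
    apply Hs.ext
    rintro ⟨k, z⟩
    refine Eq.trans ?_ (hid k z z.2)
    change (∑ j, F j * (Cs (1 / M) * mks (f := fun k => g k j) (fun k => hg k j) (C := C)
        (fun k z hz => (hbd k z hz).1 j))).1 (k, z) +
      ((es 1 - Cs E) * mks (f := u₀) hu₀ (C := C) (fun k z hz => (hbd k z hz).2.1)).1 (k, z) +
      (∑ i, (ws i - Cs (ω i)) * mks (f := fun k => u k i) (fun k => hu k i) (C := C)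
        (fun k z hz => (hbd k z hz).2.2 i)).1 (k, z) = _
    rw [Hs.sum_apply, Hs.sum_apply]
    refine congrArg₂ (· + ·) (congrArg₂ (· + ·) ?_ ?_) ?_
    · refine Finset.sum_congr rfl fun j _ => ?_
      change (F j).1 (k, z) * ((1 / M : ℂ) * g k j z) = _
      rw [show (F j).1 (k, z) = f j k z from hFf j k z]
      ring
    · change (exp (I * ((1 : ℝ) : ℂ) * Ls (z : V (n + 1))) - E) * u₀ k z = _
      rw [Complex.ofReal_one, mul_one]
    · rfl
  have h1 := congrArg χ hone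
  have hCc : ∀ c : ℂ, χ (Cs c) = c := fun c => χ.commutes c
  rw [map_one, map_add, map_add, map_sum, map_sum, map_mul, map_sub, ← hE, hCc, sub_self,
    zero_mul] at h1
  have h2 : ∀ j, χ (F j * (Cs (1 / M) * mks (f := fun k => g k j) (fun k => hg k j) (C := C)
        (fun k z hz => (hbd k z hz).1 j))) = 0 := by
    intro j; rw [map_mul, hcon j, zero_mul]
  have h3 : ∀ i, χ ((ws i - Cs (ω i)) * mks (f := fun k => u k i) (fun k => hu k i) (C := C)
        (fun k z hz => (hbd k z hz).2.2 i)) = 0 := by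
    intro i
    have h4 : χ (ws i) = ω i := by rw [hω]
    rw [map_mul, map_sub, h4, hCc, sub_self, zero_mul]
  simp only [h2, h3, Finset.sum_const_zero, add_zero] at h1
  exact zero_ne_one h1

end Pool.Agent.H326R3.CB
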