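import Mathlib
import Pool.Agent.H326R3.CB15
import Pool.Agent.H326R3.CB16

/-!
Uniform bounds on the tubes around geodesics.
-/

set_option autoImplicit false

open Metric Set Filter Topology
open Pool.Agent.H720R2.Cor (Ball IsAutomorphism)

namespace Pool.Agent.H326R3.CB

variable {n : ℕ}

theorem uniform_V (n N : ℕ) {δ η ε : ℝ} (hδ : 0 < δ) (hη : 0 < η) (hε : 0 < ε) :
    ∃ C : ℝ, ∀ f : Fin N → V (n + 1) → ℂ, (∀ j, DifferentiableOn ℂ (f j) (ball 0 1)) →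
      (∀ j, ∀ z ∈ ball (0 : V (n + 1)) 1, ‖f j z‖ ≤ 1) →
      (∀ z ∈ ball (0 : V (n + 1)) 1, δ ≤ ∑ j, ‖f j z‖) →
      ∃ g : Fin N → V (n + 1) → ℂ, (∀ j, DifferentiableOn ℂ (g j) (ball 0 1)) ∧
        (∀ j, ∀ z ∈ ball (0 : V (n + 1)) 1, ‖g j z‖ ≤ C) ∧
        ∀ z ∈ ball (0 : V (n + 1)) 1, η ≤ Real.cos (Ls z).im - ∑ i, ‖ww z i‖ ^ 2 →
          ‖∑ j, f j z * g j z - 1‖ ≤ ε := by
  by_contra hcon
  push Not at hcon
  choose f hf hb hc hbad using fun k : ℕ => hcon (k : ℝ)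
  obtain ⟨F, hF⟩ : ∃ F : Fin N → Hs (n + 1), F = fun j => mks (f := fun k => f k j)
    (fun k => hf k j) (C := 1) (fun k z hz => hb k j z hz) := ⟨_, rfl⟩
  have hFz : ∀ j (x : ℕ × Bt (n + 1)), (F j).1 x = f x.1 j x.2 := fun j x => by rw [hF]; rfl
  obtain ⟨X, hX⟩ : ∃ X : Set (ℕ × Bt (n + 1)), X = {x | η ≤ Real.cos (Ls (x.2 : V (n + 1))).im -
    ∑ i, ‖ww (x.2 : V (n + 1)) i‖ ^ 2} := ⟨_, rfl⟩
  rcases X.eq_empty_or_nonempty with hXe | hXn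
  · obtain ⟨z, hz, h1, -⟩ := hbad 0 (fun _ _ => 0) (fun _ => differentiableOn_const _)
      (fun j z _ => by simp)
    have h2 : ((0, ⟨z, hz⟩) : ℕ × Bt (n + 1)) ∈ X := by rw [hX]; exact h1
    rw [hXe] at h2
    exact h2
  · obtain ⟨G, hG⟩ := approx_G (Hs (n + 1)) hXn F (fun χ hχ =>
      no_chars F hδ (fun x => by
        simp only [hFz]
        exact hc x.1 _ x.2.2) hη X (fun x hx => by rw [hX] at hx; exact hx) χ hχ) hε
    choose g hg hgG using fun j => (G j).2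
    obtain ⟨k, hk⟩ := exists_nat_ge (∑ j, ‖G j‖)
    obtain ⟨z, hz, h1, h2⟩ := hbad k (fun j => g j k) (fun j => hg j k) (fun j z hz => by
      have h3 := (G j).1.norm_coe_le_norm (k, ⟨z, hz⟩)
      rw [show (G j).1 (k, ⟨z, hz⟩) = g j k z from hgG j k ⟨z, hz⟩] at h3
      refine h3.trans ?_
      have h4 := Finset.single_le_sum (f := fun j => ‖G j‖) (fun j _ => norm_nonneg _)
        (Finset.mem_univ j)
      exact h4.trans hk)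
    have h3 := hG (k, ⟨z, hz⟩) (by rw [hX]; exact h1)
    have h4 : ∑ j, (F j).1 (k, ⟨z, hz⟩) * (G j).1 (k, ⟨z, hz⟩) = ∑ j, f k j z * g j k z := by
      refine Finset.sum_congr rfl fun j _ => ?_
      rw [hFz, show (G j).1 (k, ⟨z, hz⟩) = g j k z from hgG j k ⟨z, hz⟩]
    rw [h4] at h3
    exact absurd h3 (not_le.2 h2)

/-- **Uniform version on tubes around geodesics.** -/
theorem tubes (n N : ℕ) (δ : ℝ) (hδ : 0 < δ) (α ε : ℝ) (hε : 0 < ε) :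
    ∃ C : ℝ, ∀ ψ : (Fin (n + 1) → ℂ) → (Fin (n + 1) → ℂ), IsAutomorphism ψ →
      ∀ f : Fin N → (Fin (n + 1) → ℂ) → ℂ, (∀ j, DifferentiableOn ℂ (f j) (Ball (n + 1))) →
      (∀ j, ∀ z ∈ Ball (n + 1), ‖f j z‖ ≤ 1) → (∀ z ∈ Ball (n + 1), δ ≤ ∑ j, ‖f j z‖) →
      ∃ g : Fin N → (Fin (n + 1) → ℂ) → ℂ, (∀ j, DifferentiableOn ℂ (g j) (Ball (n + 1))) ∧
        (∀ j, ∀ z ∈ Ball (n + 1), ‖g j z‖ ≤ C) ∧
        ∀ z ∈ Ball (n + 1), ‖1 - ψ z 0 ^ 2‖ ≤ α * (1 - ∑ i, ‖ψ z i‖ ^ 2) →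
          ‖∑ j, f j z * g j z - 1‖ ≤ ε := by
  obtain ⟨C, hC⟩ := uniform_V n N hδ (η := 1 / max α 1) (by positivity) hε
  refine ⟨C, fun ψ hψ f hf hb hc => ?_⟩
  obtain ⟨hψd, hψm, φ, hφd, hφm, hφψ, hψφ⟩ := hψ
  have hm : MapsTo (fun v : V (n + 1) => φ (ee (n + 1) v)) (ball 0 1) (Ball (n + 1)) :=
    fun v hv => hφm (mapsE' hv)
  have hd : DifferentiableOn ℂ (fun v : V (n + 1) => φ (ee (n + 1) v)) (ball 0 1) :=
    hφd.comp (ee (n + 1)).differentiable.differentiableOn mapsE'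
  obtain ⟨g, hg, hgb, hgε⟩ := hC (fun j v => f j (φ (ee (n + 1) v))) (fun j => (hf j).comp hd hm)
    (fun j v hv => hb j _ (hm hv)) (fun v hv => hc _ (hm hv))
  have hm2 : MapsTo (fun z => (ee (n + 1)).symm (ψ z)) (Ball (n + 1)) (ball 0 1) :=
    fun z hz => mapsE (hψm hz)
  have hd2 : DifferentiableOn ℂ (fun z => (ee (n + 1)).symm (ψ z)) (Ball (n + 1)) :=
    (ee (n + 1)).symm.differentiable.comp_differentiableOn hψd
  refine ⟨fun j z => g j ((ee (n + 1)).symm (ψ z)), fun j => (hg j).comp hd2 hm2,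
    fun j z hz => hgb j _ (hm2 hz), fun z hz hzα => ?_⟩
  set v : V (n + 1) := (ee (n + 1)).symm (ψ z) with hv
  have hvb : v ∈ ball (0 : V (n + 1)) 1 := hm2 hz
  have hv1 : ‖v‖ < 1 := mem_ball_zero_iff.1 hvb
  have hev : ee (n + 1) v = ψ z := by rw [hv, ContinuousLinearEquiv.apply_symm_apply]
  have h1 := cos_id hv1
  have hv0 : v 0 = ψ z 0 := by rw [← hev]; rfl
  have hvn : ∑ i, ‖ψ z i‖ ^ 2 = ‖v‖ ^ 2 := by rw [← hev, norm_ee]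
  rw [hvn, ← hv0] at hzα
  have h2 : ‖1 - v 0‖ * ‖1 + v 0‖ = ‖1 - v 0 ^ 2‖ := by
    rw [← norm_mul]; congr 1; ring
  rw [h2] at h1
  have h5 : 0 < 1 - ‖v‖ ^ 2 := by nlinarith [norm_nonneg v]
  have h6 : ‖1 - v 0 ^ 2‖ ≤ max α 1 * (1 - ‖v‖ ^ 2) :=
    hzα.trans (mul_le_mul_of_nonneg_right (le_max_left _ _) h5.le)
  have h7 : 0 < max α 1 := lt_max_of_lt_right one_pos
  have h8 := ww_lt hv1
  have h9 := hgε v hvb (by
    rw [div_le_iff₀ h7]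
    set Q := Real.cos (Ls v).im - ∑ i, ‖ww v i‖ ^ 2 with hQ
    have hQ0 : 0 < Q := by rw [hQ]; linarith
    have h10 : 1 - ‖v‖ ^ 2 ≤ Q * (max α 1 * (1 - ‖v‖ ^ 2)) := by
      calc 1 - ‖v‖ ^ 2 = _ := h1.symm
        _ ≤ _ := mul_le_mul_of_nonneg_left h6 hQ0.le
    have h11 : 1 * (1 - ‖v‖ ^ 2) ≤ (Q * max α 1) * (1 - ‖v‖ ^ 2) := by linarith
    exact le_of_mul_le_mul_right h11 h5)
  rw [hev, hφψ z hz] at h9
  exact h9

end Pool.Agent.H326R3.CB
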