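import Mathlib
import Pool.Agent.H326R3.CB5
import Pool.Agent.H326R3.CB17

/-!
Koranyi regions at some boundary points, data of one variable and one arbitrary function at the
others.
-/

set_option autoImplicit false

open Metric Set Filter Topology
open Pool.Agent.H720R2.Cor (Ball IsAutomorphism)

namespace Pool.Agent.H326R3.CB

variable {n : ℕ}

/-- near `p` the data contain corona data `f_k, f_j (j ∈ S)` such that `f_j`, `j ∈ S`, are
asymptotic to functions of one variable -/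
def TypeI {N : ℕ} (f : Fin N → (Fin (n + 1) → ℂ) → ℂ) (p : Fin (n + 1) → ℂ) : Prop :=
  ∃ ψ : (Fin (n + 1) → ℂ) → (Fin (n + 1) → ℂ), IsAutomorphism ψ ∧
    𝓝[Ball (n + 1)] p = 𝓟 (Ball (n + 1)) ⊓ comap (fun z => ψ z 0) (𝓝 1) ∧
    ∃ (k : Fin N) (S : Finset (Fin N)) (c : ℝ), 0 < c ∧
      (∀ᶠ z in 𝓝[Ball (n + 1)] p, c ≤ ‖f k z‖ + ∑ j ∈ S, ‖f j z‖) ∧
      ∀ j ∈ S, ∃ h : ℂ → ℂ, DifferentiableOn ℂ h (ball 0 1) ∧
        (∃ M : ℝ, ∀ w ∈ ball (0 : ℂ) 1, ‖h w‖ ≤ M) ∧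
        Tendsto (fun z => f j z - h (ψ z 0)) (𝓝[Ball (n + 1)] p) (𝓝 0)

/-- the local statement at a point of type I -/
theorem localI {N : ℕ} (f : Fin N → (Fin (n + 1) → ℂ) → ℂ) (F : Fin N → Hi (n + 1))
    (hFz : ∀ j, ∀ z : Bt (n + 1), (F j).1 z = f j (ee (n + 1) z)) (p : V (n + 1))
    (hI : TypeI f (ee (n + 1) p)) :
    ∃ (ι : Type) (_ : Fintype ι) (a b : ι → Hi (n + 1)), ∑ i, a i * b i = 1 ∧
      ∀ i, ∃ c ∈ Ideal.span (Set.range F), Tendsto (fun z : Bt (n + 1) => (a i).1 z - c.1 z)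
        (comap Subtype.val (𝓝 p)) (𝓝 0) := by
  classical
  obtain ⟨ψ, hψ, hfil, k, S, c, hc, hlow, hS⟩ := hI
  have ht : Tendsto (fun z : Bt (n + 1) => ee (n + 1) (z : V (n + 1)))
      (comap Subtype.val (𝓝 p)) (𝓝[Ball (n + 1)] (ee (n + 1) p)) := by
    rw [tendsto_nhdsWithin_iff]
    refine ⟨((ee (n + 1)).continuous.tendsto p).comp tendsto_comap,
      Eventually.of_forall fun z => mapsE' z.2⟩
  have hk2 : ∀ j, ∃ h : ℂ → ℂ, DifferentiableOn ℂ h (ball 0 1) ∧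
      (∃ M : ℝ, ∀ w ∈ ball (0 : ℂ) 1, ‖h w‖ ≤ M) ∧
      (j ∈ S → Tendsto (fun z => f j z - h (ψ z 0))
        (𝓝[Ball (n + 1)] (ee (n + 1) p)) (𝓝 0)) := by
    intro j
    by_cases hj : j ∈ S
    · obtain ⟨h, h1, h2, h3⟩ := hS j hj
      exact ⟨h, h1, h2, fun _ => h3⟩
    · exact ⟨fun _ => 0, differentiableOn_const _, ⟨0, fun w _ => by simp⟩,
        fun h => absurd h hj⟩
  choose h hh1 hh2 hh4 using hk2
  refine local_corona2 F p ψ hψ ?_ ?_ k S hc ?_ h hh1 hh2 (fun j hj => ?_)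
  · have h2 : Tendsto (fun z : Bt (n + 1) => ee (n + 1) (z : V (n + 1)))
        (comap (fun z : Bt (n + 1) => ψ (ee (n + 1) z) 0) (𝓝 1))
        (𝓝[Ball (n + 1)] (ee (n + 1) p)) := by
      rw [hfil, tendsto_inf, tendsto_principal, tendsto_comap_iff]
      exact ⟨Eventually.of_forall fun z => mapsE' z.2, tendsto_comap⟩
    rw [← tendsto_iff_comap]
    have h3 : Tendsto (fun z : Bt (n + 1) => ee (n + 1) (z : V (n + 1)))
        (comap (fun z : Bt (n + 1) => ψ (ee (n + 1) z) 0) (𝓝 1))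
        (𝓝 (ee (n + 1) p)) := h2.mono_right nhdsWithin_le_nhds
    have h4 := ((ee (n + 1)).symm.continuous.tendsto (ee (n + 1) p)).comp h3
    rw [ContinuousLinearEquiv.symm_apply_apply] at h4
    refine h4.congr (fun z => ?_)
    simp only [Function.comp, ContinuousLinearEquiv.symm_apply_apply]
  · have h2 : Tendsto (fun z => ψ z 0) (𝓝[Ball (n + 1)] (ee (n + 1) p)) (𝓝 1) := by
      rw [hfil]
      exact tendsto_comap.mono_left inf_le_right
    exact h2.comp ht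
  · simp only [hFz]
    exact ht.eventually hlow
  · simp only [hFz]
    exact (hh4 j hj).comp ht

/-- characters over a boundary point that are dominated by a Koranyi region -/
theorem koranyi_char {N : ℕ} (F : Fin N → Hi (n + 1)) {δ : ℝ} (hδ : 0 < δ)
    (hc : ∀ z : Bt (n + 1), δ ≤ ∑ j, ‖(F j).1 z‖) (X : Set (Bt (n + 1)))
    (χ : Hi (n + 1) →ₐ[ℂ] ℂ)
    (hχ : ∀ (G : Hi (n + 1)) (C : ℝ), (∀ z ∈ X, ‖G.1 z‖ ≤ C) → ‖χ G‖ ≤ C) (q : V (n + 1))
    (heq : ‖q‖ = 1) (hχq : χ (Lw q) = 1) {α r : ℝ} (hr : 0 < r)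
    (hα : ∀ z ∈ X, ‖(z : V (n + 1)) - q‖ < r →
      ‖1 - (inner ℂ q (z : V (n + 1)) : ℂ)‖ ≤ α * (1 - ‖(z : V (n + 1))‖ ^ 2)) :
    ∃ j, χ (F j) ≠ 0 := by
  obtain ⟨U, hU⟩ := unitary3 q heq
  refine no_char F hδ hc U (η := 1 / (2 * max α 1)) (by positivity)
    {z | z ∈ X ∧ ‖(z : V (n + 1)) - q‖ < r} ?_ χ ?_
  · rintro z ⟨hz, hzr⟩
    have hz1 : ‖(z : V (n + 1))‖ < 1 := mem_ball_zero_iff.1 z.2
    have hUz1 : ‖U z‖ < 1 := by rw [U.norm_map]; exact hz1
    have h1 := cos_id hUz1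
    rw [U.norm_map, hU] at h1
    have h2 := hα z hz hzr
    have h3 : ‖1 + (inner ℂ q (z : V (n + 1)) : ℂ)‖ ≤ 2 := by
      have h4 := z0_lt hUz1
      rw [hU] at h4
      refine (norm_add_le _ _).trans ?_
      rw [norm_one]; linarith
    have h5 : 0 < 1 - ‖(z : V (n + 1))‖ ^ 2 := by nlinarith [norm_nonneg (z : V (n + 1))]
    have h6 : ‖1 - (inner ℂ q (z : V (n + 1)) : ℂ)‖ ≤
        max α 1 * (1 - ‖(z : V (n + 1))‖ ^ 2) :=
      h2.trans (mul_le_mul_of_nonneg_right (le_max_left _ _) h5.le)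
    have h7 : 0 < max α 1 := lt_max_of_lt_right one_pos
    have h8 := ww_lt hUz1
    rw [div_le_iff₀ (by positivity)]
    set Q := Real.cos (Ls (U z)).im - ∑ i, ‖ww (U z) i‖ ^ 2 with hQ
    have hQ0 : 0 < Q := by rw [hQ]; linarith
    have h9 : ‖1 - (inner ℂ q (z : V (n + 1)) : ℂ)‖ *
        ‖1 + (inner ℂ q (z : V (n + 1)) : ℂ)‖ ≤ max α 1 * (1 - ‖(z : V (n + 1))‖ ^ 2) * 2 :=
      mul_le_mul h6 h3 (norm_nonneg _) (by positivity)
    have h10 : 1 - ‖(z : V (n + 1))‖ ^ 2 ≤ Q * (max α 1 * (1 - ‖(z : V (n + 1))‖ ^ 2) * 2) := by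
      calc 1 - ‖(z : V (n + 1))‖ ^ 2 = _ := h1.symm
        _ ≤ _ := mul_le_mul_of_nonneg_left h9 hQ0.le
    have h11 : 1 * (1 - ‖(z : V (n + 1))‖ ^ 2) ≤
        (Q * (2 * max α 1)) * (1 - ‖(z : V (n + 1))‖ ^ 2) := by linarith
    exact le_of_mul_le_mul_right h11 h5
  · intro G C hG
    exact dom_local q heq χ hχq hχ hr G C (fun z hz hzr => hG z ⟨hz, hzr⟩)

/-- **Corona data are solvable up to `ε` on `X` if at every boundary point either `X` is contained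
in a Koranyi region or the data are of type I.** -/
theorem koranyi2 (n N : ℕ) (f : Fin N → (Fin (n + 1) → ℂ) → ℂ)
    (hd : ∀ j, DifferentiableOn ℂ (f j) (Ball (n + 1)))
    (hb : ∀ j, ∃ M : ℝ, ∀ z ∈ Ball (n + 1), ‖f j z‖ ≤ M)
    (δ : ℝ) (hδ : 0 < δ) (hc : ∀ z ∈ Ball (n + 1), δ ≤ ∑ j, ‖f j z‖)
    (X : Set (Fin (n + 1) → ℂ)) (hXB : X ⊆ Ball (n + 1))
    (hX : ∀ p : Fin (n + 1) → ℂ, ∑ i, ‖p i‖ ^ 2 = 1 → (∃ α : ℝ, ∀ᶠ z in 𝓝 p, z ∈ X →
      ‖1 - ∑ i, z i * starRingEnd ℂ (p i)‖ ≤ α * (1 - ∑ i, ‖z i‖ ^ 2)) ∨ TypeI f p)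
    (ε : ℝ) (hε : 0 < ε) :
    ∃ g : Fin N → (Fin (n + 1) → ℂ) → ℂ,
      (∀ j, DifferentiableOn ℂ (g j) (Ball (n + 1))) ∧
      (∃ C : ℝ, ∀ j, ∀ z ∈ Ball (n + 1), ‖g j z‖ ≤ C) ∧
      ∀ z ∈ X, ‖∑ j, f j z * g j z - 1‖ ≤ ε := by
  rcases X.eq_empty_or_nonempty with hXe | hXn
  · exact ⟨fun _ _ => 0, fun _ => differentiableOn_const _, ⟨0, fun j z _ => by simp⟩,
      fun z hz => by rw [hXe] at hz; exact absurd hz (notMem_empty z)⟩
  choose M hM using hb
  obtain ⟨F, hF⟩ : ∃ F : Fin N → Hi (n + 1), F = fun j => mk (f := fun v => f j (ee (n + 1) v))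
    ((hd j).comp (ee (n + 1)).differentiable.differentiableOn mapsE') (C := M j)
    (fun v hv => hM j _ (mapsE' hv)) := ⟨_, rfl⟩
  have hFz : ∀ j, ∀ z : Bt (n + 1), (F j).1 z = f j (ee (n + 1) z) := fun j z => by rw [hF]; rfl
  have hcF : ∀ z : Bt (n + 1), δ ≤ ∑ j, ‖(F j).1 z‖ := fun z => by
    simp only [hFz]
    exact hc _ (mapsE' z.2)
  obtain ⟨X', hX'⟩ : ∃ X' : Set (Bt (n + 1)),
    X' = {z : Bt (n + 1) | ee (n + 1) (z : V (n + 1)) ∈ X} := ⟨_, rfl⟩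
  have hmemX' : ∀ z (hz : z ∈ X), (⟨_, mapsE (hXB hz)⟩ : Bt (n + 1)) ∈ X' := by
    intro z hz
    rw [hX']
    change ee (n + 1) ((ee (n + 1)).symm z) ∈ X
    rw [ContinuousLinearEquiv.apply_symm_apply]; exact hz
  have hX'n : X'.Nonempty := by
    obtain ⟨z, hz⟩ := hXn
    exact ⟨_, hmemX' z hz⟩
  obtain ⟨G, hG⟩ := approx_or hX'n F (fun χ hχ => by
    obtain ⟨χc, hχc⟩ : ∃ χc : WeakDual.characterSpace ℂ (Hi (n + 1)), ∀ G, χc G = χ G :=
      ⟨WeakDual.CharacterSpace.equivAlgHom.symm χ, fun G => rfl⟩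
    rcases (pt_norm χc).lt_or_eq with hlt | heq
    · have h1 := hcF ⟨pt χc, mem_ball_zero_iff.2 hlt⟩
      by_contra hcon
      push Not at hcon
      have h2 : ∀ j, (F j).1 ⟨pt χc, mem_ball_zero_iff.2 hlt⟩ = 0 := by
        intro j
        rw [← char_interior χc hlt, hχc]
        exact hcon j
      simp only [h2, norm_zero, Finset.sum_const_zero] at h1
      linarith
    · have hnn : ∑ i, ‖(ee (n + 1) (pt χc)) i‖ ^ 2 = 1 := by rw [norm_ee, heq, one_pow]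
      rcases hX _ hnn with ⟨α, hα⟩ | hI
      · have h2 := ((ee (n + 1)).continuous.tendsto (pt χc)).eventually hα
        obtain ⟨r, hr, h3⟩ := Metric.eventually_nhds_iff.1 h2
        have hχq : χ (Lw (pt χc)) = 1 := by
          rw [← hχc, char_Lw, inner_self_eq_norm_sq_to_K, heq]
          simp
        refine koranyi_char F hδ hcF X' χ hχ (pt χc) heq hχq hr (α := α) (fun z hz hzr => ?_)
        rw [hX'] at hz
        have h4 := h3 (by rw [dist_eq_norm]; exact hzr) hz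
        rw [norm_ee] at h4
        have h5 : ∑ i, (ee (n + 1) (z : V (n + 1))) i * starRingEnd ℂ ((ee (n + 1) (pt χc)) i) =
            inner ℂ (pt χc) (z : V (n + 1)) := by
          have := dot_inner (ee (n + 1) (pt χc)) (ee (n + 1) (z : V (n + 1)))
          rw [ContinuousLinearEquiv.symm_apply_apply, ContinuousLinearEquiv.symm_apply_apply] at this
          exact this
        rw [h5] at h4
        exact h4
      · by_contra hcon
        push Not at hcon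
        obtain ⟨ι, _, a, b, hab, hcc⟩ := localI f F hFz (pt χc) hI
        have hspan : ∀ c ∈ Ideal.span (Set.range F), χc c = 0 := by
          intro c hc
          obtain ⟨d, rfl⟩ := Ideal.mem_span_range_iff_exists_fun.1 hc
          rw [map_sum]
          refine Finset.sum_eq_zero fun j _ => ?_
          rw [map_mul, hχc (F j), hcon j, mul_zero]
        have h1 : ∀ i, χc (a i) = 0 := by
          intro i
          obtain ⟨c, hcI, hlim⟩ := hcc i
          have h2 := char_boundary χc heq (a i - c) hlim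
          rw [map_sub, hspan c hcI, sub_zero] at h2
          exact h2
        have h2 : χc (∑ i, a i * b i) = 0 := by
          rw [map_sum]
          refine Finset.sum_eq_zero fun i _ => ?_
          rw [map_mul, h1 i, zero_mul]
        rw [hab, map_one] at h2
        exact one_ne_zero h2) hε
  choose g hg hgG using fun j => (G j).2
  refine ⟨fun j z => g j ((ee (n + 1)).symm z), fun j =>
    (hg j).comp (ee (n + 1)).symm.differentiable.differentiableOn mapsE, ?_, ?_⟩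
  · refine ⟨∑ j, ‖G j‖, fun j z hz => ?_⟩
    have h2 := hgG j ⟨_, mapsE hz⟩
    have h3 := Hi.le_norm (G j) ⟨_, mapsE hz⟩
    rw [h2] at h3
    exact h3.trans (Finset.single_le_sum (f := fun j => ‖G j‖) (fun j _ => norm_nonneg _)
      (Finset.mem_univ j))
  · intro z hz
    have h1 := hG _ (hmemX' z hz)
    refine le_trans (le_of_eq ?_) h1
    congr 2
    refine Finset.sum_congr rfl fun j _ => ?_
    rw [hFz, hgG j]
    simp only [ContinuousLinearEquiv.apply_symm_apply]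

end Pool.Agent.H326R3.CB
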