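import Mathlib
import Pool.Agent.H326R3.CB17

/-!
Uniform version on sets that approach the sphere inside Koranyi regions.
-/

set_option autoImplicit false

open Metric Set Filter Topology Complex

namespace Pool.Agent.H326R3.CB

variable {n : ℕ}

/-- the invariants of a character that is dominated by a Koranyi region -/
theorem inv_of_dom (U : V (n + 1) ≃ₗᵢ[ℂ] V (n + 1)) {η : ℝ}
    (hη : 0 < η) (X : Set (Bt (n + 1)))
    (hX : ∀ z ∈ X, η ≤ Real.cos (Ls (U z)).im - ∑ i, ‖ww (U z) i‖ ^ 2)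
    (χ : Hi (n + 1) →ₐ[ℂ] ℂ)
    (hχ : ∀ (G : Hi (n + 1)) (C : ℝ), (∀ z ∈ X, ‖G.1 z‖ ≤ C) → ‖χ G‖ ≤ C) :
    |-Real.log ‖χ (ea U 1)‖| < Real.pi / 2 ∧
      ∑ i, ‖χ (wU U i)‖ ^ 2 < Real.cos (-Real.log ‖χ (ea U 1)‖) := by
  obtain ⟨K, hK⟩ : ∃ K : ℝ, K = Real.arccos η := ⟨_, rfl⟩
  have hK2 : K < Real.pi / 2 := by rw [hK]; exact Real.arccos_lt_pi_div_two.2 hη
  have hXm : ∀ z : Bt (n + 1), |(Ls (U z)).im| < Real.pi / 2 := fun z =>
    Ls_mem (mem_ball_zero_iff.1 (mapsU U z.2))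
  have hXK : ∀ z ∈ X, |(Ls (U z)).im| ≤ K := by
    intro z hz
    have h1 := hX z hz
    have h2 : 0 ≤ ∑ i, ‖ww (U z) i‖ ^ 2 := Finset.sum_nonneg fun i _ => by positivity
    have h3 : η ≤ Real.cos |(Ls (U z)).im| := by rw [Real.cos_abs]; linarith
    rw [hK, ← Real.arccos_cos (abs_nonneg (Ls (U z)).im) (by linarith [hXm z, Real.pi_pos])]
    exact Real.arccos_le_arccos h3
  have hea : ∀ x : ℝ, ‖χ (ea U x)‖ ≤ Real.exp (|x| * K) := by
    intro x
    refine hχ _ _ (fun z hz => ?_)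
    unfold ea
    rw [mkU_apply, ea_norm, Real.exp_le_exp]
    calc -x * (Ls (U z)).im ≤ |-x * (Ls (U z)).im| := le_abs_self _
      _ = |x| * |(Ls (U z)).im| := by rw [abs_mul, abs_neg]
      _ ≤ |x| * K := mul_le_mul_of_nonneg_left (hXK z hz) (abs_nonneg _)
  have hlin := char_ea U χ hea
  obtain ⟨E, hE⟩ : ∃ E : ℂ, E = χ (ea U 1) := ⟨_, rfl⟩
  have hE0 : E ≠ 0 := hE ▸ char_ea_ne U χ 1
  obtain ⟨θ, hθ⟩ : ∃ θ : ℝ, θ = -Real.log ‖E‖ := ⟨_, rfl⟩
  have hlin' : ∀ x : ℝ, ‖χ (ea U x)‖ = Real.exp (-x * θ) := by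
    intro x
    have h1 := hlin x
    rw [← hE] at h1
    rw [← Real.exp_log (norm_pos_iff.2 (char_ea_ne U χ x)), h1, hθ]
    congr 1; ring
  have hθK : |θ| ≤ K := by
    have h1 := hea 1
    have h2 := hea (-1)
    rw [hlin', Real.exp_le_exp] at h1 h2
    simp only [abs_one, abs_neg, one_mul] at h1 h2
    rw [abs_le]
    constructor <;> linarith
  have hθ2 : |θ| < Real.pi / 2 := lt_of_le_of_lt hθK hK2
  have hcosθ : 0 < Real.cos θ := Real.cos_pos_of_mem_Ioo (abs_lt.1 hθ2)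
  obtain ⟨ω, hω⟩ : ∃ ω : Fin n → ℂ, ω = fun i => χ (wU U i) := ⟨_, rfl⟩
  obtain ⟨S, hS⟩ : ∃ S : ℝ, S = ∑ i, ‖ω i‖ ^ 2 := ⟨_, rfl⟩
  have hS0 : 0 ≤ S := by rw [hS]; exact Finset.sum_nonneg fun i _ => by positivity
  -- the norm of `ω`
  have hlt : S < Real.cos θ := by
    obtain ⟨L, hL⟩ : ∃ L : Hi (n + 1), L = ∑ i, Cc (starRingEnd ℂ (ω i)) * wU U i := ⟨_, rfl⟩
    have hLz : ∀ z : Bt (n + 1), L.1 z = ∑ i, starRingEnd ℂ (ω i) * ww (U z) i := by
      intro z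
      rw [hL, Hi.sum_apply]
      rfl
    have hχL : χ L = (S : ℂ) := by
      rw [hL, map_sum, hS]
      push_cast
      refine Finset.sum_congr rfl fun i _ => ?_
      rw [map_mul]
      have h1 : χ (Cc (starRingEnd ℂ (ω i))) = starRingEnd ℂ (ω i) := χ.commutes _
      have h2 : χ (wU U i) = ω i := by rw [hω]
      rw [h1, h2, mul_comm, Complex.mul_conj, Complex.normSq_eq_norm_sq]
      push_cast; ring
    have hLn : ∀ z : Bt (n + 1), ‖L.1 z‖ ^ 2 ≤ S * ∑ i, ‖ww (U z) i‖ ^ 2 := by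
      intro z
      have h1 : ‖L.1 z‖ ≤ ∑ i, ‖ω i‖ * ‖ww (U z) i‖ := by
        rw [hLz]
        refine (norm_sum_le _ _).trans (Finset.sum_le_sum fun i _ => ?_)
        rw [norm_mul, RCLike.norm_conj]
      have h2 := Finset.sum_mul_sq_le_sq_mul_sq Finset.univ (fun i => ‖ω i‖) (fun i => ‖ww (U z) i‖)
      rw [hS]
      refine le_trans ?_ h2
      exact pow_le_pow_left₀ (norm_nonneg _) h1 2
    have hmain : ‖χ (L * L * ea U (-Real.tan θ))‖ ≤
        S * (1 - η) * (Real.cos θ * Real.exp (Real.tan θ * θ)) := by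
      refine hχ _ _ (fun z hz => ?_)
      have h1 : (L * L * ea U (-Real.tan θ)).1 z = L.1 z * L.1 z *
          exp (I * ((-Real.tan θ : ℝ) : ℂ) * Ls (U z)) := rfl
      rw [h1, norm_mul, norm_mul, ea_norm, neg_neg]
      have h2 := hLn z
      have h3 := hX z hz
      have h4 := cos_tangent (hXm z) hθ2
      have h5 := Real.cos_le_one (Ls (U z)).im
      have h6 : 0 < Real.cos (Ls (U z)).im := Real.cos_pos_of_mem_Ioo (abs_lt.1 (hXm z))
      have h7 : ∑ i, ‖ww (U z) i‖ ^ 2 ≤ (1 - η) * Real.cos (Ls (U z)).im := by nlinarith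
      have h8 : 0 ≤ ∑ i, ‖ww (U z) i‖ ^ 2 := Finset.sum_nonneg fun i _ => by positivity
      have h9 : 0 ≤ 1 - η := by nlinarith
      calc ‖L.1 z‖ * ‖L.1 z‖ * Real.exp (Real.tan θ * (Ls (U z)).im)
          = ‖L.1 z‖ ^ 2 * Real.exp (Real.tan θ * (Ls (U z)).im) := by ring
        _ ≤ (S * ((1 - η) * Real.cos (Ls (U z)).im)) * Real.exp (Real.tan θ * (Ls (U z)).im) := by
            gcongr
            exact h2.trans (mul_le_mul_of_nonneg_left h7 hS0)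
        _ = S * (1 - η) * (Real.cos (Ls (U z)).im * Real.exp (Real.tan θ * (Ls (U z)).im)) := by ring
        _ ≤ S * (1 - η) * (Real.cos θ * Real.exp (Real.tan θ * θ)) := by gcongr
    rw [map_mul, map_mul, hχL, norm_mul, norm_mul, Complex.norm_real, Real.norm_of_nonneg hS0,
      hlin', neg_neg] at hmain
    have hpos : 0 < Real.exp (Real.tan θ * θ) := Real.exp_pos _
    have h1 : S * S ≤ S * ((1 - η) * Real.cos θ) := by
      refine le_of_mul_le_mul_right ?_ hpos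
      calc S * S * Real.exp (Real.tan θ * θ) ≤ _ := hmain
        _ = _ := by ring
    rcases hS0.eq_or_lt with h2 | h2
    · rw [← h2]; exact hcosθ
    · have h3 := le_of_mul_le_mul_left h1 h2
      nlinarith
  have hS' : S = ∑ i, ‖χ (wU U i)‖ ^ 2 := by rw [hS, hω]
  rw [← hE, ← hθ, ← hS']
  exact ⟨hθ2, hlt⟩

/-- constant sequences -/
noncomputable def cs {m : ℕ} : Hi m →ₐ[ℂ] Hs m where
  toFun F := ⟨F.1.compContinuous ⟨Prod.snd, continuous_snd⟩, fun _ => by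
    obtain ⟨f, hf, hF⟩ := F.2
    exact ⟨f, hf, fun z => hF z⟩⟩
  map_one' := rfl
  map_mul' := fun _ _ => rfl
  map_zero' := rfl
  map_add' := fun _ _ => rfl
  commutes' := fun _ => rfl

theorem core_s {N : ℕ} (F : Fin N → Hs (n + 1)) {δ : ℝ} (hδ : 0 < δ)
    (hc : ∀ z, δ ≤ ∑ j, ‖(F j).1 z‖) (U : V (n + 1) ≃ₗᵢ[ℂ] V (n + 1))
    (χ : Hs (n + 1) →ₐ[ℂ] ℂ) (h1 : |-Real.log ‖χ (cs (ea U 1))‖| < Real.pi / 2)
    (h2 : ∑ i, ‖χ (cs (wU U i))‖ ^ 2 < Real.cos (-Real.log ‖χ (cs (ea U 1))‖)) :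
    ∃ j, χ (F j) ≠ 0 := by
  by_contra hcon
  push Not at hcon
  obtain ⟨E, hE⟩ : ∃ E : ℂ, E = χ (cs (ea U 1)) := ⟨_, rfl⟩
  have hE0 : E ≠ 0 := hE ▸ char_ea_ne U (χ.comp cs) 1
  obtain ⟨θ, hθ⟩ : ∃ θ : ℝ, θ = -Real.log ‖E‖ := ⟨_, rfl⟩
  obtain ⟨ω, hω⟩ : ∃ ω : Fin n → ℂ, ω = fun i => χ (cs (wU U i)) := ⟨_, rfl⟩
  obtain ⟨S, hS⟩ : ∃ S : ℝ, S = ∑ i, ‖ω i‖ ^ 2 := ⟨_, rfl⟩
  rw [← hE, ← hθ] at h1 h2
  have hθ2 : |θ| < Real.pi / 2 := h1
  have hlt : S < Real.cos θ := by rw [hS, hω]; exact h2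
  clear h1 h2
  -- the point
  obtain ⟨s₀, hs₀⟩ : ∃ s : ℂ, s = -I * log E := ⟨_, rfl⟩
  have him : s₀.im = θ := by
    rw [hs₀, hθ]
    simp [Complex.mul_im, Complex.log_re]
  have hs₀m : s₀ ∈ Sph := by
    change |s₀.im| < _
    rw [him]; exact hθ2
  have hωc : ∑ i, ‖ω i‖ ^ 2 < Real.cos s₀.im := by rw [him, ← hS]; exact hlt
  have ha : ‖PP s₀ ω‖ < 1 := PP_mem hs₀m hωc
  have hLa : exp (I * Ls (PP s₀ ω)) = E := by
    rw [Ls_PP hs₀m hωc, hs₀]
    have : I * (-I * log E) = log E := by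
      rw [← mul_assoc, mul_neg, I_mul_I, neg_neg, one_mul]
    rw [this, Complex.exp_log hE0]
  have hwa : ww (PP s₀ ω) = ω := ww_PP hs₀m hωc
  -- the data
  choose f hf hFf using fun j => (F j).2
  obtain ⟨M, hM⟩ : ∃ M : ℝ, M = 1 + ∑ j, ‖F j‖ := ⟨_, rfl⟩
  have hM1 : 0 < M := by
    have : 0 ≤ ∑ j, ‖F j‖ := Finset.sum_nonneg fun j _ => norm_nonneg _
    rw [hM]; linarith
  have hFM : ∀ j, ‖F j‖ ≤ M := by
    intro j
    have := Finset.single_le_sum (f := fun j => ‖F j‖) (fun j _ => norm_nonneg _) (Finset.mem_univ j)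
    rw [hM]
    linarith
  have hMn : ‖(M : ℂ)‖ = M := by rw [Complex.norm_real, Real.norm_of_nonneg hM1.le]
  obtain ⟨C, hC0, hC⟩ := bez n N (δ := δ / M) (by positivity) ha
  have hUs : ∀ z ∈ ball (0 : V (n + 1)) 1, U.symm z ∈ ball (0 : V (n + 1)) 1 := fun z hz =>
    mapsU U.symm hz
  have hall : ∀ k : ℕ, _ := fun k => hC (fun j z => f j k (U.symm z) * (1 / M : ℂ))
    (fun j => (diffU U.symm (hf j k)).mul_const _)
    (fun j z hz => by
      rw [norm_mul, norm_div, norm_one, hMn, mul_one_div, div_le_one hM1]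
      have h2 := (F j).1.norm_coe_le_norm (k, ⟨_, hUs z hz⟩)
      rw [show (F j).1 (k, ⟨_, hUs z hz⟩) = f j k (U.symm z) from hFf j k ⟨_, hUs z hz⟩] at h2
      exact h2.trans (hFM j))
    (fun z hz => by
      have h1 := hc (k, ⟨_, hUs z hz⟩)
      rw [div_le_iff₀ hM1, Finset.sum_mul]
      refine h1.trans (Finset.sum_le_sum fun j _ => ?_)
      rw [show (F j).1 (k, ⟨_, hUs z hz⟩) = f j k (U.symm z) from hFf j k ⟨_, hUs z hz⟩]
      rw [norm_mul, norm_div, norm_one, hMn]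
      apply le_of_eq
      field_simp)
  choose g u₀ u hg hu₀ hu hbd hid using hall
  rw [hLa, hwa] at hid
  have hone : (∑ j, F j * (Cs (1 / M) * mks (f := fun k z => g k j (U z)) (fun k => diffU U (hg k j)) (C := C)
        (fun k z hz => (hbd k _ (mapsU U hz)).1 j))) +
      (cs (ea U 1) - Cs E) * mks (f := fun k z => u₀ k (U z)) (fun k => diffU U (hu₀ k)) (C := C)
        (fun k z hz => (hbd k _ (mapsU U hz)).2.1) +
      ∑ i, (cs (wU U i) - Cs (ω i)) * mks (f := fun k z => u k i (U z)) (fun k => diffU U (hu k i)) (C := C)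
        (fun k z hz => (hbd k _ (mapsU U hz)).2.2 i) = 1 := by
    apply Hs.ext
    rintro ⟨k, z⟩
    refine Eq.trans ?_ (hid k (U z) (mapsU U z.2))
    change (∑ j, F j * (Cs (1 / M) * mks (f := fun k z => g k j (U z)) (fun k => diffU U (hg k j)) (C := C)
        (fun k z hz => (hbd k _ (mapsU U hz)).1 j))).1 (k, z) +
      ((cs (ea U 1) - Cs E) * mks (f := fun k z => u₀ k (U z)) (fun k => diffU U (hu₀ k)) (C := C)
        (fun k z hz => (hbd k _ (mapsU U hz)).2.1)).1 (k, z) +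
      (∑ i, (cs (wU U i) - Cs (ω i)) * mks (f := fun k z => u k i (U z)) (fun k => diffU U (hu k i)) (C := C)
        (fun k z hz => (hbd k _ (mapsU U hz)).2.2 i)).1 (k, z) = _
    rw [Hs.sum_apply, Hs.sum_apply]
    refine congrArg₂ (· + ·) (congrArg₂ (· + ·) ?_ ?_) ?_
    · refine Finset.sum_congr rfl fun j _ => ?_
      change (F j).1 (k, z) * ((1 / M : ℂ) * g k j (U z)) = _
      rw [show (F j).1 (k, z) = f j k z from hFf j k z, LinearIsometryEquiv.symm_apply_apply]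
      ring
    · change (exp (I * ((1 : ℝ) : ℂ) * Ls (U (z : V (n + 1)))) - E) * u₀ k (U z) = _
      rw [Complex.ofReal_one, mul_one]
    · rfl
  have h1 := congrArg χ hone
  have hCc : ∀ c : ℂ, χ (Cs c) = c := fun c => χ.commutes c
  rw [map_one, map_add, map_add, map_sum, map_sum, map_mul, map_sub, ← hE, hCc, sub_self,
    zero_mul] at h1
  have h2 : ∀ j, χ (F j * (Cs (1 / M) * mks (f := fun k z => g k j (U z)) (fun k => diffU U (hg k j)) (C := C)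
        (fun k z hz => (hbd k _ (mapsU U hz)).1 j))) = 0 := by
    intro j; rw [map_mul, hcon j, zero_mul]
  have h3 : ∀ i, χ ((cs (wU U i) - Cs (ω i)) * mks (f := fun k z => u k i (U z)) (fun k => diffU U (hu k i)) (C := C)
        (fun k z hz => (hbd k _ (mapsU U hz)).2.2 i)) = 0 := by
    intro i
    have h4 : χ (cs (wU U i)) = ω i := by rw [hω]
    rw [map_mul, map_sub, h4, hCc, sub_self, zero_mul]
  simp only [h2, h3, Finset.sum_const_zero, add_zero] at h1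
  exact zero_ne_one h1

end Pool.Agent.H326R3.CB
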