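import Mathlib
import Pool.Agent.H326R3.CB19

/-!
Uniform version on sets that approach the sphere inside Koranyi regions.
-/

set_option autoImplicit false

open Metric Set Filter Topology
open Pool.Agent.H720R2.Cor (Ball IsAutomorphism)

namespace Pool.Agent.H326R3.CB

variable {n : ℕ}

theorem uniform_X (n N : ℕ) {δ ε : ℝ} (hδ : 0 < δ) (hε : 0 < ε) (X : Set (Bt (n + 1)))
    (hX : ∀ p : V (n + 1), ‖p‖ = 1 → ∃ (α : ℝ) (r : ℝ), 0 < r ∧ ∀ z ∈ X, ‖(z : V (n + 1)) - p‖ < r →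
      ‖1 - (inner ℂ p (z : V (n + 1)) : ℂ)‖ ≤ α * (1 - ‖(z : V (n + 1))‖ ^ 2)) :
    ∃ C : ℝ, ∀ f : Fin N → V (n + 1) → ℂ, (∀ j, DifferentiableOn ℂ (f j) (ball 0 1)) →
      (∀ j, ∀ z ∈ ball (0 : V (n + 1)) 1, ‖f j z‖ ≤ 1) →
      (∀ z ∈ ball (0 : V (n + 1)) 1, δ ≤ ∑ j, ‖f j z‖) →
      ∃ g : Fin N → V (n + 1) → ℂ, (∀ j, DifferentiableOn ℂ (g j) (ball 0 1)) ∧
        (∀ j, ∀ z ∈ ball (0 : V (n + 1)) 1, ‖g j z‖ ≤ C) ∧
        ∀ z ∈ X, ‖∑ j, f j z * g j z - 1‖ ≤ ε := by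
  by_contra hcon
  push Not at hcon
  choose f hf hb hc hbad using fun k : ℕ => hcon (k : ℝ)
  obtain ⟨F, hF⟩ : ∃ F : Fin N → Hs (n + 1), F = fun j => mks (f := fun k => f k j)
    (fun k => hf k j) (C := 1) (fun k z hz => hb k j z hz) := ⟨_, rfl⟩
  have hFz : ∀ j (x : ℕ × Bt (n + 1)), (F j).1 x = f x.1 j x.2 := fun j x => by rw [hF]; rfl
  have hcF : ∀ x, δ ≤ ∑ j, ‖(F j).1 x‖ := fun x => by
    simp only [hFz]
    exact hc x.1 _ x.2.2
  obtain ⟨X', hX'⟩ : ∃ X' : Set (ℕ × Bt (n + 1)), X' = {x | x.2 ∈ X} := ⟨_, rfl⟩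
  rcases X'.eq_empty_or_nonempty with hXe | hXn
  · obtain ⟨z, hz, -⟩ := hbad 0 (fun _ _ => 0) (fun _ => differentiableOn_const _)
      (fun j z _ => by simp)
    have h2 : ((0, z) : ℕ × Bt (n + 1)) ∈ X' := by rw [hX']; exact hz
    rw [hXe] at h2
    exact h2
  · obtain ⟨G, hG⟩ := approx_G (Hs (n + 1)) hXn F (fun χ hχ => by
      have hχ' : ∀ (G : Hi (n + 1)) (C : ℝ), (∀ z ∈ X, ‖G.1 z‖ ≤ C) → ‖(χ.comp cs) G‖ ≤ C :=
        fun G C h => hχ (cs G) C (fun x hx => by rw [hX'] at hx; exact h x.2 hx)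
      obtain ⟨χc, hχc⟩ : ∃ χc : WeakDual.characterSpace ℂ (Hi (n + 1)),
          ∀ G, χc G = (χ.comp cs) G :=
        ⟨WeakDual.CharacterSpace.equivAlgHom.symm (χ.comp cs), fun G => rfl⟩
      rcases (pt_norm χc).lt_or_eq with hlt | heq
      · have h1 : χ (cs (ea (LinearIsometryEquiv.refl ℂ (V (n + 1))) 1)) =
            Complex.exp (Complex.I * ((1 : ℝ) : ℂ) * Ls (pt χc)) :=
          (hχc _).symm.trans (char_interior χc hlt _)
        have h2 : ∀ i, χ (cs (wU (LinearIsometryEquiv.refl ℂ (V (n + 1))) i)) = ww (pt χc) i :=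
          fun i => (hχc _).symm.trans (char_interior χc hlt _)
        have h3 : -Real.log ‖χ (cs (ea (LinearIsometryEquiv.refl ℂ (V (n + 1))) 1))‖ =
            (Ls (pt χc)).im := by
          rw [h1, ea_norm, Real.log_exp]
          ring
        refine core_s F hδ hcF (LinearIsometryEquiv.refl ℂ (V (n + 1))) χ ?_ ?_
        · rw [h3]; exact Ls_mem hlt
        · rw [h3]; simp only [h2]; exact ww_lt hlt
      · obtain ⟨α, r, hr, hα⟩ := hX _ heq
        have hχq : (χ.comp cs) (Lw (pt χc)) = 1 := by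
          rw [← hχc, char_Lw, inner_self_eq_norm_sq_to_K, heq]
          simp
        obtain ⟨U, hU⟩ := unitary3 (pt χc) heq
        have hinv := inv_of_dom U (η := 1 / (2 * max α 1)) (by positivity)
          {z | z ∈ X ∧ ‖(z : V (n + 1)) - pt χc‖ < r} (by
            rintro z ⟨hz, hzr⟩
            have hz1 : ‖(z : V (n + 1))‖ < 1 := mem_ball_zero_iff.1 z.2
            have hUz1 : ‖U z‖ < 1 := by rw [U.norm_map]; exact hz1
            have h1 := cos_id hUz1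
            rw [U.norm_map, hU] at h1
            have h2 := hα z hz hzr
            have h3 : ‖1 + (inner ℂ (pt χc) (z : V (n + 1)) : ℂ)‖ ≤ 2 := by
              have h4 := z0_lt hUz1
              rw [hU] at h4
              refine (norm_add_le _ _).trans ?_
              rw [norm_one]; linarith
            have h5 : 0 < 1 - ‖(z : V (n + 1))‖ ^ 2 := by nlinarith [norm_nonneg (z : V (n + 1))]
            have h6 : ‖1 - (inner ℂ (pt χc) (z : V (n + 1)) : ℂ)‖ ≤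
                max α 1 * (1 - ‖(z : V (n + 1))‖ ^ 2) :=
              h2.trans (mul_le_mul_of_nonneg_right (le_max_left _ _) h5.le)
            have h7 : 0 < max α 1 := lt_max_of_lt_right one_pos
            have h8 := ww_lt hUz1
            rw [div_le_iff₀ (by positivity)]
            set Q := Real.cos (Ls (U z)).im - ∑ i, ‖ww (U z) i‖ ^ 2 with hQ
            have hQ0 : 0 < Q := by rw [hQ]; linarith
            have h9 : ‖1 - (inner ℂ (pt χc) (z : V (n + 1)) : ℂ)‖ *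
                ‖1 + (inner ℂ (pt χc) (z : V (n + 1)) : ℂ)‖ ≤
                  max α 1 * (1 - ‖(z : V (n + 1))‖ ^ 2) * 2 :=
              mul_le_mul h6 h3 (norm_nonneg _) (by positivity)
            have h10 : 1 - ‖(z : V (n + 1))‖ ^ 2 ≤
                Q * (max α 1 * (1 - ‖(z : V (n + 1))‖ ^ 2) * 2) := by
              calc 1 - ‖(z : V (n + 1))‖ ^ 2 = _ := h1.symm
                _ ≤ _ := mul_le_mul_of_nonneg_left h9 hQ0.le
            have h11 : 1 * (1 - ‖(z : V (n + 1))‖ ^ 2) ≤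
                (Q * (2 * max α 1)) * (1 - ‖(z : V (n + 1))‖ ^ 2) := by linarith
            exact le_of_mul_le_mul_right h11 h5) (χ.comp cs)
          (fun G C hG => dom_local (pt χc) heq (χ.comp cs) hχq hχ' hr G C
            (fun z hz hzr => hG z ⟨hz, hzr⟩))
        exact core_s F hδ hcF U χ hinv.1 hinv.2) hε
    choose g hg hgG using fun j => (G j).2
    obtain ⟨k, hk⟩ := exists_nat_ge (∑ j, ‖G j‖)
    obtain ⟨z, hz, h2⟩ := hbad k (fun j => g j k) (fun j => hg j k) (fun j z hz => by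
      have h3 := (G j).1.norm_coe_le_norm (k, ⟨z, hz⟩)
      rw [show (G j).1 (k, ⟨z, hz⟩) = g j k z from hgG j k ⟨z, hz⟩] at h3
      refine h3.trans ?_
      have h4 := Finset.single_le_sum (f := fun j => ‖G j‖) (fun j _ => norm_nonneg _)
        (Finset.mem_univ j)
      exact h4.trans hk)
    have h3 := hG (k, z) (by rw [hX']; exact hz)
    have h4 : ∑ j, (F j).1 (k, z) * (G j).1 (k, z) = ∑ j, f k j z * g j k z := by
      refine Finset.sum_congr rfl fun j _ => ?_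
      rw [hFz, show (G j).1 (k, z) = g j k z from hgG j k z]
    rw [h4] at h3
    exact absurd h3 (not_le.2 h2)

/-- **Uniform solution up to `ε` of arbitrary corona data on sets that approach the sphere inside
Koranyi regions.** -/
theorem final (n N : ℕ) (δ : ℝ) (hδ : 0 < δ) (ε : ℝ) (hε : 0 < ε)
    (X : Set (Fin (n + 1) → ℂ))
    (hX : ∀ p : Fin (n + 1) → ℂ, ∑ i, ‖p i‖ ^ 2 = 1 → ∃ α : ℝ, ∀ᶠ z in 𝓝 p, z ∈ X →
      ‖1 - ∑ i, z i * starRingEnd ℂ (p i)‖ ≤ α * (1 - ∑ i, ‖z i‖ ^ 2)) :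
    ∃ C : ℝ, ∀ ψ : (Fin (n + 1) → ℂ) → (Fin (n + 1) → ℂ), IsAutomorphism ψ →
      ∀ f : Fin N → (Fin (n + 1) → ℂ) → ℂ, (∀ j, DifferentiableOn ℂ (f j) (Ball (n + 1))) →
      (∀ j, ∀ z ∈ Ball (n + 1), ‖f j z‖ ≤ 1) → (∀ z ∈ Ball (n + 1), δ ≤ ∑ j, ‖f j z‖) →
      ∃ g : Fin N → (Fin (n + 1) → ℂ) → ℂ, (∀ j, DifferentiableOn ℂ (g j) (Ball (n + 1))) ∧
        (∀ j, ∀ z ∈ Ball (n + 1), ‖g j z‖ ≤ C) ∧
        ∀ z ∈ Ball (n + 1), ψ z ∈ X → ‖∑ j, f j z * g j z - 1‖ ≤ ε := by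
  obtain ⟨C, hC⟩ := uniform_X n N hδ hε {z : Bt (n + 1) | ee (n + 1) (z : V (n + 1)) ∈ X}
    (fun p hp => by
      have h1 : ∑ i, ‖(ee (n + 1) p) i‖ ^ 2 = 1 := by rw [norm_ee, hp, one_pow]
      obtain ⟨α, hα⟩ := hX _ h1
      have h2 := ((ee (n + 1)).continuous.tendsto p).eventually hα
      obtain ⟨r, hr, h3⟩ := Metric.eventually_nhds_iff.1 h2
      refine ⟨α, r, hr, fun z hz hzr => ?_⟩
      have h4 := h3 (by rw [dist_eq_norm]; exact hzr) hz
      rw [norm_ee] at h4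
      have h5 : ∑ i, (ee (n + 1) (z : V (n + 1))) i * starRingEnd ℂ ((ee (n + 1) p) i) =
          inner ℂ p (z : V (n + 1)) := by
        have := dot_inner (ee (n + 1) p) (ee (n + 1) (z : V (n + 1)))
        rw [ContinuousLinearEquiv.symm_apply_apply, ContinuousLinearEquiv.symm_apply_apply] at this
        exact this
      rw [h5] at h4
      exact h4)
  refine ⟨C, fun ψ hψ f hf hb hc => ?_⟩
  obtain ⟨hψd, hψm, φ, hφd, hφm, hφψ, hψφ⟩ := hψ
  have hm : MapsTo (fun v : V (n + 1) => φ (ee (n + 1) v)) (ball 0 1) (Ball (n + 1)) :=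
    fun v hv => hφm (mapsE' hv)
  have hd : DifferentiableOn ℂ (fun v : V (n + 1) => φ (ee (n + 1) v)) (ball 0 1) :=
    hφd.comp (ee (n + 1)).differentiable.differentiableOn mapsE'
  obtain ⟨g, hg, hgb, hgε⟩ := hC (fun j v => f j (φ (ee (n + 1) v))) (fun j => (hf j).comp hd hm)
    (fun j v hv => hb j _ (hm hv)) (fun v hv => hc _ (hm hv))
  have hm2 : MapsTo (fun z => (ee (n + 1)).symm (ψ z)) (Ball (n + 1)) (ball 0 1) :=
    fun z hz => mapsE (hψm hz)
  have hd2 : DifferentiableOn ℂ (fun z => (ee (n + 1)).symm (ψ z)) (Ball (n + 1)) :=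
    (ee (n + 1)).symm.differentiable.comp_differentiableOn hψd
  refine ⟨fun j z => g j ((ee (n + 1)).symm (ψ z)), fun j => (hg j).comp hd2 hm2,
    fun j z hz => hgb j _ (hm2 hz), fun z hz hzX => ?_⟩
  have h9 := hgε ⟨(ee (n + 1)).symm (ψ z), hm2 hz⟩ (by
    change ee (n + 1) ((ee (n + 1)).symm (ψ z)) ∈ X
    rw [ContinuousLinearEquiv.apply_symm_apply]; exact hzX)
  simp only [ContinuousLinearEquiv.apply_symm_apply, hφψ z hz] at h9
  exact h9

end Pool.Agent.H326R3.CB
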