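import Mathlib
set_option autoImplicit false

/-! The Krull dimension of the coordinate ring of a hypersurface in `ℂ^n`. -/

open MvPolynomial

namespace Pool.Agent.H326R3.Dim

lemma dim_pol (n : ℕ) : ringKrullDim (MvPolynomial (Fin n) ℂ) = n := by
  rw [MvPolynomial.ringKrullDim_of_isNoetherianRing, ringKrullDim_eq_zero_of_field]
  simp

lemma height_point {n : ℕ} (a : Fin n → ℂ) :
    ((RingHom.ker (eval a : MvPolynomial (Fin n) ℂ →+* ℂ)).height : WithBot ℕ∞) = n := by
  have hfin : FiniteRingKrullDim (MvPolynomial (Fin n) ℂ) := by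
    rw [finiteRingKrullDim_iff_ne_bot_and_top, dim_pol]
    constructor
    · exact WithBot.coe_ne_bot
    · intro h
      have h2 : ((n : ℕ∞) : WithBot ℕ∞) = ((⊤ : ℕ∞) : WithBot ℕ∞) := h
      rw [WithBot.coe_inj] at h2
      exact ENat.natCast_ne_top n h2
  obtain ⟨M, hM, hh⟩ := Ideal.exists_isMaximal_height (R := MvPolynomial (Fin n) ℂ)
  obtain ⟨b, hb⟩ := (isMaximal_iff_eq_vanishingIdeal_singleton).1 hM
  let t : MvPolynomial (Fin n) ℂ ≃ₐ[ℂ] MvPolynomial (Fin n) ℂ :=
    AlgEquiv.ofAlgHom (aeval fun i => X i + C (a i - b i)) (aeval fun i => X i + C (b i - a i))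
      (by
        apply MvPolynomial.algHom_ext
        intro i
        simp [add_assoc]) (by
        apply MvPolynomial.algHom_ext
        intro i
        simp [add_assoc])
  have ht : ∀ p : MvPolynomial (Fin n) ℂ, aeval b (t p) = eval a p := by
    intro p
    have h : ((aeval b : MvPolynomial (Fin n) ℂ →ₐ[ℂ] ℂ).comp t.toAlgHom) =
        (aeval a : MvPolynomial (Fin n) ℂ →ₐ[ℂ] ℂ) := by
      apply MvPolynomial.algHom_ext
      intro i
      change aeval b (aeval (fun i => X i + C (a i - b i)) (X i)) = aeval a (X i)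
      simp
    have := congrArg (fun φ => φ p) h
    simpa [coe_aeval_eq_eval] using this
  have hker : RingHom.ker (eval a : MvPolynomial (Fin n) ℂ →+* ℂ) =
      M.comap t.toRingEquiv := by
    ext p
    rw [RingHom.mem_ker, Ideal.mem_comap, hb, mem_vanishingIdeal_singleton_iff]
    change _ ↔ aeval b (t p) = 0
    rw [ht]
  rw [hker, RingEquiv.height_comap, hh, dim_pol]

theorem dim_hyp {n : ℕ} (f : MvPolynomial (Fin n) ℂ) (hf : f ≠ 0) (a : Fin n → ℂ)
    (ha : eval a f = 0) : ringKrullDim (MvPolynomial (Fin n) ℂ ⧸ Ideal.span {f}) + 1 = n := by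
  have hpr : (RingHom.ker (eval a : MvPolynomial (Fin n) ℂ →+* ℂ)).IsPrime :=
    RingHom.ker_isPrime _
  have h := Module.ringKrullDim_quotient_add_one_of_mem_nonZeroDivisors (R := MvPolynomial (Fin n) ℂ)
    (r := f) (mem_nonZeroDivisors_of_ne_zero hf)
    (p := RingHom.ker (eval a : MvPolynomial (Fin n) ℂ →+* ℂ))
    (by rw [height_point, dim_pol]) (by rwa [RingHom.mem_ker])
  rw [h, dim_pol]

theorem dim_hyp' {n : ℕ} (f : MvPolynomial (Fin (n + 1)) ℂ) (hf : f ≠ 0) (a : Fin (n + 1) → ℂ)
    (ha : eval a f = 0) : ringKrullDim (MvPolynomial (Fin (n + 1)) ℂ ⧸ Ideal.span {f}) = n := by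
  have h := dim_hyp f hf a ha
  generalize ringKrullDim (MvPolynomial (Fin (n + 1)) ℂ ⧸ Ideal.span {f}) = D at h
  induction D using WithBot.recBotCoe with
  | bot => 
    exfalso
    rw [WithBot.bot_add] at h
    exact WithBot.bot_ne_coe h
  | coe D =>
    have h2 : D + 1 = ((n + 1 : ℕ) : ℕ∞) := by
      apply WithBot.coe_injective
      exact h
    induction D using ENat.recTopCoe with
    | top =>
      exfalso
      rw [top_add] at h2
      exact ENat.natCast_ne_top _ h2.symm
    | coe D =>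
      have h3 : D + 1 = n + 1 := by exact_mod_cast h2
      have h4 : D = n := by omega
      rw [h4]; rfl

end Pool.Agent.H326R3.Dim
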