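import Mathlib
import Pool.Agent.Helper706.JD.B
import Pool.Agent.Helper706.JD.C

set_option autoImplicit false

/-! Polarisation of real-analytic functions of finite rank (for S04349), part 1. -/

open scoped Topology ComplexConjugate
open Set Filter Metric

namespace Pool.Agent.H326R3.HR

/-- coordinatewise conjugation -/
def cj {ι : Type*} (y : ι → ℂ) : ι → ℂ := fun i => conj (y i)

@[simp] lemma cj_apply {ι : Type*} (y : ι → ℂ) (i : ι) : cj y i = conj (y i) := rfl

@[simp] lemma cj_cj {ι : Type*} (y : ι → ℂ) : cj (cj y) = y := by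
  funext i; simp [cj]

lemma cj_add {ι : Type*} (y z : ι → ℂ) : cj (y + z) = cj y + cj z := by
  funext i; simp [cj]

lemma cj_sub {ι : Type*} (y z : ι → ℂ) : cj (y - z) = cj y - cj z := by
  funext i; simp [cj]

lemma cj_smul {ι : Type*} (c : ℂ) (y : ι → ℂ) : cj (c • y) = conj c • cj y := by
  funext i; simp [cj]

lemma norm_cj {ι : Type*} [Fintype ι] (y : ι → ℂ) : ‖cj y‖ = ‖y‖ := by
  have h : ∀ z : ι → ℂ, ‖cj z‖ ≤ ‖z‖ := by
    intro z
    refine (pi_norm_le_iff_of_nonneg (norm_nonneg z)).2 fun i => ?_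
    simp only [cj, RCLike.norm_conj]
    exact norm_le_pi_norm z i
  refine le_antisymm (h y) ?_
  have := h (cj y)
  rwa [cj_cj] at this

lemma continuous_cj {ι : Type*} : Continuous (cj : (ι → ℂ) → (ι → ℂ)) := by
  unfold cj
  exact continuous_pi fun i => Complex.continuous_conj.comp (continuous_apply i)

lemma cj_zero {ι : Type*} : cj (0 : ι → ℂ) = 0 := by funext i; simp [cj]

/-- One-variable uniqueness of polarisation. -/
lemma polar_zero {T : Set ℂ} (hT : Convex ℝ T) (hTo : IsOpen T) {Q : ℂ × ℂ → ℂ}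
    (hQ : ∀ t ∈ T, ∀ s ∈ T, AnalyticAt ℂ Q (t, conj s)) (h0 : ∀ t ∈ T, Q (t, conj t) = 0) :
    ∀ t ∈ T, ∀ s ∈ T, Q (t, conj s) = 0 := by
  intro t ht s hs
  set U : Set (ℂ × ℂ) := T ×ˢ (conj ⁻¹' T) with hU
  have hUc : Convex ℝ U := hT.prod (hT.linear_preimage (Complex.conjCLE.toLinearEquiv.toLinearMap))
  have hQU : AnalyticOnNhd ℂ Q U := by
    rintro ⟨a, b⟩ ⟨ha, hb⟩
    have := hQ a ha (conj b) hb
    rwa [Complex.conj_conj] at this
  have htU : (t, conj t) ∈ U := ⟨ht, by simpa using ht⟩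
  have hsU : (t, conj s) ∈ U := ⟨ht, by simpa using hs⟩
  -- near the diagonal point
  let A : (Unit → ℂ) × (Unit → ℂ) × (Fin 0 → ℂ) →L[ℂ] ℂ × ℂ :=
    ((ContinuousLinearMap.proj (R := ℂ) (φ := fun _ : Unit => ℂ) ()).comp
      (ContinuousLinearMap.fst ℂ _ _)).prod
    ((ContinuousLinearMap.proj (R := ℂ) (φ := fun _ : Unit => ℂ) ()).comp
      ((ContinuousLinearMap.fst ℂ _ _).comp (ContinuousLinearMap.snd ℂ _ _)))
  let G : (Unit → ℂ) × (Unit → ℂ) × (Fin 0 → ℂ) → ℂ := fun x => Q ((t, conj t) + A x)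
  have hG : AnalyticAt ℂ G 0 := by
    have h1 : AnalyticAt ℂ (fun x => (t, conj t) + A x) 0 := analyticAt_const.add (A.analyticAt 0)
    refine AnalyticAt.comp_of_eq (g := Q) (hQU _ htU) h1 ?_
    rw [map_zero, add_zero]
  have hz : ∀ᶠ y : (Unit → ℂ) × (Fin 0 → ℝ) in 𝓝 0,
      G (y.1, fun i => conj (y.1 i), fun k => (y.2 k : ℂ)) = 0 := by
    have hc : Tendsto (fun y : (Unit → ℂ) × (Fin 0 → ℝ) => t + y.1 ()) (𝓝 0) (𝓝 t) := by
      have : Continuous (fun y : (Unit → ℂ) × (Fin 0 → ℝ) => t + y.1 ()) := by fun_prop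
      simpa using this.tendsto 0
    filter_upwards [hc.eventually (hTo.mem_nhds ht)] with y hy
    have := h0 _ hy
    rw [map_add] at this
    exact this
  have hev := Pool.Agent.Results.MP_51bf1a_an.JetDet.eventually_eq_zero_of_real hG hz
  have hQ0 : Q =ᶠ[𝓝 (t, conj t)] 0 := by
    let B : ℂ × ℂ → (Unit → ℂ) × (Unit → ℂ) × (Fin 0 → ℂ) := fun x =>
      (fun _ => x.1 - t, fun _ => x.2 - conj t, 0)
    have hB : Tendsto B (𝓝 (t, conj t)) (𝓝 0) := by
      have h1 : Continuous B := by fun_prop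
      have h2 := h1.tendsto (t, conj t)
      have h3 : B (t, conj t) = 0 := by
        simp only [B, sub_self]; rfl
      rwa [h3] at h2
    filter_upwards [hB.eventually hev] with x hx
    simp only [G] at hx
    have h4 : (t, conj t) + A (B x) = x := by
      ext
      · simp [A, B]
      · simp [A, B]
    rw [h4] at hx
    exact hx
  exact hQU.eqOn_zero_of_preconnected_of_eventuallyEq_zero hUc.isPreconnected htU hQ0 hsU

/-- Uniqueness of polarisation for finite sums. -/
lemma polar_sum {ι κ : Type*} [Fintype ι] [Fintype κ] {X : Set (ι → ℂ)} (hX : Convex ℝ X)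
    (hXo : IsOpen X) {P : (ι → ℂ) × (ι → ℂ) → ℂ}
    (hP : ∀ x ∈ X, ∀ y ∈ X, AnalyticAt ℂ P (x, cj y))
    {f h : κ → (ι → ℂ) → ℂ} (hf : ∀ l, ∀ x ∈ X, DifferentiableAt ℂ (f l) x)
    (hh : ∀ l, ∀ x ∈ X, DifferentiableAt ℂ (h l) x)
    (heq : ∀ x ∈ X, P (x, cj x) = ∑ l, f l x * conj (h l x)) :
    ∀ x ∈ X, ∀ y ∈ X, P (x, cj y) = ∑ l, f l x * conj (h l y) := by
  intro x hx y hy
  let u : ℂ → (ι → ℂ) := fun t => x + t • (y - x)
  have hud : Differentiable ℂ u := by fun_prop
  set T : Set ℂ := u ⁻¹' X with hT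
  have hTo : IsOpen T := hXo.preimage hud.continuous
  have hTc : Convex ℝ T := by
    intro a ha b hb p q hp hq hpq
    have h1 : u (p • a + q • b) = p • u a + q • u b := by
      funext i
      simp only [u, Pi.add_apply, Pi.smul_apply, smul_eq_mul, Pi.sub_apply, Complex.real_smul]
      have : (p : ℂ) + q = 1 := by exact_mod_cast hpq
      linear_combination (-(x i)) * this
    show u (p • a + q • b) ∈ X
    rw [h1]
    exact hX ha hb hp hq hpq
  have h0T : (0 : ℂ) ∈ T := by show u 0 ∈ X; simpa [u] using hx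
  have h1T : (1 : ℂ) ∈ T := by show u 1 ∈ X; simpa [u] using hy
  let Q : ℂ × ℂ → ℂ := fun p => P (x + p.1 • (y - x), cj x + p.2 • cj (y - x)) -
    ∑ l, f l (u p.1) * conj (h l (u (conj p.2)))
  have hcju : ∀ s : ℂ, cj (u s) = cj x + conj s • cj (y - x) := by
    intro s; simp only [u]; rw [cj_add, cj_smul]
  have hQ : ∀ t ∈ T, ∀ s ∈ T, AnalyticAt ℂ Q (t, conj s) := by
    intro t ht s hs
    refine AnalyticAt.sub ?_ ?_
    · have h1 : AnalyticAt ℂ (fun p : ℂ × ℂ => (x + p.1 • (y - x), cj x + p.2 • cj (y - x)))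
          (t, conj s) := by
        refine AnalyticAt.prod ?_ ?_
        · exact analyticAt_const.add (analyticAt_fst.smul analyticAt_const)
        · exact analyticAt_const.add (analyticAt_snd.smul analyticAt_const)
      refine AnalyticAt.comp_of_eq (g := P) (hP _ ht _ hs) h1 ?_
      rw [hcju]
    · refine Finset.analyticAt_fun_sum _ fun l _ => ?_
      refine AnalyticAt.mul ?_ ?_
      · have h1 : AnalyticAt ℂ (fun t => f l (u t)) t := by
          have : DifferentiableOn ℂ (fun t => f l (u t)) T := by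
            intro a ha
            exact ((hf l _ ha).comp a (hud a)).differentiableWithinAt
          exact this.analyticAt (hTo.mem_nhds ht)
        exact AnalyticAt.comp_of_eq (g := fun t => f l (u t)) h1 analyticAt_fst rfl
      · have h1 : AnalyticAt ℂ (fun s => conj (h l (u (conj s)))) (conj s) := by
          have hopen : IsOpen (conj ⁻¹' T) := hTo.preimage Complex.continuous_conj
          have : DifferentiableOn ℂ (fun s => conj (h l (u (conj s)))) (conj ⁻¹' T) := by
            intro a ha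
            have h2 : DifferentiableAt ℂ (fun t => h l (u t)) (conj a) :=
              DifferentiableAt.comp (g := h l) (conj a) (hh l _ ha) (hud _)
            have h3 := h2.conj_conj
            rw [Complex.conj_conj] at h3
            exact h3.differentiableWithinAt
          refine this.analyticAt (hopen.mem_nhds ?_)
          simpa using hs
        exact AnalyticAt.comp_of_eq (g := fun s => conj (h l (u (conj s)))) h1 analyticAt_snd rfl
  have hQ0 : ∀ t ∈ T, Q (t, conj t) = 0 := by
    intro t ht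
    simp only [Q]
    rw [← hcju, Complex.conj_conj, sub_eq_zero]
    exact heq _ ht
  have := polar_zero hTc hTo hQ hQ0 0 h0T 1 h1T
  simp only [Q, u, map_one, zero_smul, add_zero, one_smul, sub_eq_zero] at this
  rw [← cj_add] at this
  simpa using this

end Pool.Agent.H326R3.HR
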