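import Mathlib

set_option autoImplicit false

/-! Linear algebra for S04349: minors and spans of holomorphic vector functions. -/

open scoped Topology
open Set Filter Metric Module Submodule

namespace Pool.Agent.H326R3.HR

/-- Linearly independent functions have a nonvanishing determinant at suitable points. -/
lemma exists_det_ne_zero {X : Type*} {m : ℕ} (f : Fin m → X → ℂ) (hf : LinearIndependent ℂ f) :
    ∃ x : Fin m → X, (Matrix.of fun i j => f j (x i)).det ≠ 0 := by
  let v : X → (Fin m → ℂ) := fun x j => f j x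
  have hspan : span ℂ (range v) = ⊤ := by
    by_contra hne
    obtain ⟨w, hw⟩ : ∃ w, w ∉ span ℂ (range v) := by
      by_contra h
      push Not at h
      exact hne (eq_top_iff.2 fun w _ => h w)
    obtain ⟨g, hg1, hg2⟩ := Submodule.exists_le_ker_of_notMem hw
    have hg0 : ∀ j, g (fun j' => if j = j' then 1 else 0) = 0 := by
      have h1 : ∑ j, g (fun j' => if j = j' then 1 else 0) • f j = 0 := by
        funext x
        have h2 : g (v x) = 0 := hg2 (subset_span ⟨x, rfl⟩)
        rw [LinearMap.pi_apply_eq_sum_univ g (v x)] at h2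
        simp only [Finset.sum_apply, Pi.smul_apply, smul_eq_mul, Pi.zero_apply]
        refine Eq.trans (Finset.sum_congr rfl fun j _ => ?_) h2
        rw [smul_eq_mul, mul_comm]
      exact fun j => (Fintype.linearIndependent_iff.1 hf) _ h1 j
    apply hg1
    rw [LinearMap.pi_apply_eq_sum_univ g w]
    refine Finset.sum_eq_zero fun j _ => ?_
    rw [hg0 j, smul_zero]
  obtain ⟨g, hg1, -, hg3⟩ := exists_fun_fin_finrank_span_eq ℂ (range v)
  have hfr : finrank ℂ (span ℂ (range v)) = m := by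
    rw [hspan, finrank_top]; simp
  have : ∃ g : Fin m → (Fin m → ℂ), (∀ i, g i ∈ range v) ∧ LinearIndependent ℂ g := by
    exact ⟨fun i => g (Fin.cast hfr.symm i), fun i => hg1 _, hg3.comp _ (Fin.cast_injective _)⟩
  obtain ⟨g, hg1, hg3⟩ := this
  choose x hx using hg1
  refine ⟨x, ?_⟩
  have h1 : LinearIndependent ℂ (Matrix.of fun i j => f j (x i)).row := by
    convert hg3 using 1
    funext i
    rw [← hx i]; rfl
  exact ((Matrix.linearIndependent_rows_iff_isUnit).1 h1 |> (Matrix.isUnit_iff_isUnit_det _).1).ne_zero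

/-- A nonvanishing determinant forces linear independence. -/
lemma linearIndependent_of_det_ne_zero {X : Type*} {m : ℕ} (f : Fin m → X → ℂ) (x : Fin m → X)
    (h : (Matrix.of fun i j => f j (x i)).det ≠ 0) : LinearIndependent ℂ f := by
  rw [Fintype.linearIndependent_iff]
  intro g hg
  have h1 : (Matrix.of fun i j => f j (x i)).mulVec g = 0 := by
    funext i
    have := congrFun hg (x i)
    simp only [Finset.sum_apply, Pi.smul_apply, smul_eq_mul, Pi.zero_apply] at this
    simp only [Matrix.mulVec, dotProduct, Matrix.of_apply, Pi.zero_apply]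
    rw [← this]
    exact Finset.sum_congr rfl fun j _ => mul_comm _ _
  have h2 := Matrix.eq_zero_of_mulVec_eq_zero h h1
  exact fun i => congrFun h2 i

/-- If all `(k+1)`-minors of the kernel `Kr` on `A × {w_j}` vanish then the vectors
`(Kr z w_j)_j`, `z ∈ A`, span a space of dimension at most `k`. -/
lemma finrank_le_of_minors {X : Type*} {N k : ℕ} (Φ : X → (Fin N → ℂ)) (A : Set X)
    (h : ∀ (z : Fin (k + 1) → X) (c : Fin (k + 1) → Fin N), (∀ i, z i ∈ A) →
      (Matrix.of fun i j => Φ (z i) (c j)).det = 0) :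
    finrank ℂ (span ℂ (Φ '' A)) ≤ k := by
  by_contra hlt
  push Not at hlt
  obtain ⟨g, hg1, -, hg3⟩ := exists_fun_fin_finrank_span_eq ℂ (Φ '' A)
  have hle : k + 1 ≤ finrank ℂ (span ℂ (Φ '' A)) := hlt
  let g' : Fin (k + 1) → (Fin N → ℂ) := fun i => g (Fin.castLE hle i)
  have hg' : LinearIndependent ℂ g' := hg3.comp _ (Fin.castLE_injective hle)
  have hg1' : ∀ i, ∃ z ∈ A, Φ z = g' i := fun i => hg1 _
  choose z hz1 hz2 using hg1'
  obtain ⟨c, hc⟩ := exists_det_ne_zero g' hg'
  apply hc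
  have := h z c hz1
  rw [← Matrix.det_transpose] at this
  convert this using 2
  ext i j
  simp [← hz2]

/-- Conversely: if the span has dimension at most `k` then the minors vanish. -/
lemma det_eq_zero_of_finrank {X : Type*} {k : ℕ} (Φ : X → (Fin (k + 1) → ℂ)) (A : Set X)
    (h : finrank ℂ (span ℂ (Φ '' A)) ≤ k) (z : Fin (k + 1) → X) (hz : ∀ i, z i ∈ A) :
    (Matrix.of fun i j => Φ (z i) j).det = 0 := by
  by_contra hne
  have h1 : LinearIndependent ℂ (fun i => Φ (z i)) := by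
    have : IsUnit (Matrix.of fun i j => Φ (z i) j) :=
      (Matrix.isUnit_iff_isUnit_det _).2 (isUnit_iff_ne_zero.2 hne)
    exact (Matrix.linearIndependent_rows_iff_isUnit).2 this
  have h2 : finrank ℂ (span ℂ (range fun i => Φ (z i))) = k + 1 := by
    rw [finrank_span_eq_card h1]; simp
  have h3 : span ℂ (range fun i => Φ (z i)) ≤ span ℂ (Φ '' A) := by
    apply span_mono
    rintro _ ⟨i, rfl⟩
    exact ⟨z i, hz i, rfl⟩
  have h4 := Submodule.finrank_mono h3
  omega

lemma finrank_finset_sup_le {V ι : Type*} [AddCommGroup V] [Module ℂ V] [FiniteDimensional ℂ V]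
    (s : Finset ι) (S : ι → Submodule ℂ V) (k : ℕ) (h : ∀ i ∈ s, finrank ℂ (S i) ≤ k) :
    finrank ℂ (s.sup S : Submodule ℂ V) ≤ s.card * k := by
  classical
  induction s using Finset.induction_on with
  | empty => simp
  | insert i s hi ih =>
    rw [Finset.sup_insert, Finset.card_insert_of_notMem hi]
    have h1 := Submodule.finrank_sup_add_finrank_inf_eq (S i) (s.sup S)
    have h2 := ih fun j hj => h j (Finset.mem_insert_of_mem hj)
    have h3 := h i (Finset.mem_insert_self _ _)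
    have h4 : (s.card + 1) * k = s.card * k + k := by ring
    omega

/-- A holomorphic map into `ℂ^N` whose restrictions to all the sections `z i₀ = t` and
`z i₁ = t` span at most `k` dimensions spans at most `k * k` dimensions. -/
lemma finrank_span_le {n N k : ℕ} {ρ : ℝ} (hρ : 0 < ρ) (i₀ i₁ : Fin n) (h01 : i₁ ≠ i₀)
    (Φ : (Fin n → ℂ) → (Fin N → ℂ)) (hΦ : AnalyticOnNhd ℂ Φ (ball 0 ρ))
    (h0 : ∀ t, finrank ℂ (span ℂ (Φ '' {z | z ∈ ball (0 : Fin n → ℂ) ρ ∧ z i₀ = t})) ≤ k)
    (h1 : ∀ t, finrank ℂ (span ℂ (Φ '' {z | z ∈ ball (0 : Fin n → ℂ) ρ ∧ z i₁ = t})) ≤ k) :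
    finrank ℂ (span ℂ (Φ '' ball (0 : Fin n → ℂ) ρ)) ≤ k * k := by
  classical
  set Sl : ℂ → Submodule ℂ (Fin N → ℂ) :=
    fun t => span ℂ (Φ '' {z | z ∈ ball (0 : Fin n → ℂ) ρ ∧ z i₀ = t}) with hSl
  -- maximal rank
  obtain ⟨t₀, ht₀, hmax⟩ : ∃ t₀ ∈ ball (0 : ℂ) ρ, ∀ t ∈ ball (0 : ℂ) ρ,
      finrank ℂ (Sl t) ≤ finrank ℂ (Sl t₀) := by
    have hfin : ((fun t => finrank ℂ (Sl t)) '' ball (0 : ℂ) ρ).Finite :=
      (Set.finite_Iic k).subset (by rintro _ ⟨t, -, rfl⟩; exact h0 t)
    have hne : ((fun t => finrank ℂ (Sl t)) '' ball (0 : ℂ) ρ).Nonempty :=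
      ⟨_, 0, mem_ball_self hρ, rfl⟩
    obtain ⟨_, ⟨t₀, ht₀, rfl⟩, hm⟩ := hfin.exists_maximal hne |>.imp fun _ h => h
    refine ⟨t₀, ht₀, fun t ht => ?_⟩
    by_contra hlt
    push Not at hlt
    have := hm ⟨t, ht, rfl⟩ hlt.le
    exact absurd this (not_le.2 hlt)
  set r := finrank ℂ (Sl t₀) with hr
  obtain ⟨g, hg1, hg2, hg3⟩ := exists_fun_fin_finrank_span_eq ℂ
    (Φ '' {z | z ∈ ball (0 : Fin n → ℂ) ρ ∧ z i₀ = t₀})
  choose z hz1 hz2 using hg1
  -- moved points
  let zt : ℂ → Fin r → (Fin n → ℂ) := fun t i => Function.update (z i) i₀ t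
  have hztmem : ∀ t ∈ ball (0 : ℂ) ρ, ∀ i, zt t i ∈ ball (0 : Fin n → ℂ) ρ := by
    intro t ht i
    have h2 := (hz1 i).1
    rw [mem_ball_zero_iff, pi_norm_lt_iff hρ] at *
    intro j
    by_cases hj : j = i₀
    · subst hj; simpa [zt] using ht
    · simp only [zt, Function.update_of_ne hj]; exact h2 j
  have hzt0 : ∀ i, zt t₀ i = z i := by
    intro i
    have := (hz1 i).2
    simp only [zt]
    rw [← this, Function.update_eq_self]
  have hcont : ContinuousAt (fun t => fun i => Φ (zt t i)) t₀ := by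
    rw [continuousAt_pi]
    intro i
    have h2 : ContinuousAt Φ (zt t₀ i) := (hΦ _ (hztmem t₀ ht₀ i)).continuousAt
    have h3 : Continuous (fun t => zt t i) := by
      simp only [zt]
      exact continuous_const.update i₀ continuous_id
    exact ContinuousAt.comp (g := Φ) (f := fun t => zt t i) h2 h3.continuousAt
  have hind0 : LinearIndependent ℂ (fun i => Φ (zt t₀ i)) := by
    have : (fun i => Φ (zt t₀ i)) = g := by
      funext i; rw [hzt0, hz2]
    rw [this]; exact hg3
  have hev : ∀ᶠ t in 𝓝 t₀, LinearIndependent ℂ (fun i => Φ (zt t i)) :=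
    hcont.eventually hind0.eventually
  -- the big space
  set S : Submodule ℂ (Fin N → ℂ) := (Finset.univ : Finset (Fin r)).sup
    (fun i => span ℂ (Φ '' {w | w ∈ ball (0 : Fin n → ℂ) ρ ∧ w i₁ = z i i₁})) with hS
  have hSfin : finrank ℂ S ≤ k * k := by
    refine (finrank_finset_sup_le _ _ k fun i _ => h1 _).trans ?_
    rw [Finset.card_univ, Fintype.card_fin]
    exact Nat.mul_le_mul_right _ (h0 t₀)
  have hin : ∀ᶠ t in 𝓝 t₀, ∀ w ∈ ball (0 : Fin n → ℂ) ρ, w i₀ = t → Φ w ∈ S := by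
    filter_upwards [hev, isOpen_ball.mem_nhds ht₀] with t ht htb w hw hwt
    have h2 : span ℂ (range fun i => Φ (zt t i)) ≤ Sl t := by
      apply span_mono
      rintro _ ⟨i, rfl⟩
      exact ⟨zt t i, ⟨hztmem t htb i, by simp [zt]⟩, rfl⟩
    have h3 : finrank ℂ (span ℂ (range fun i => Φ (zt t i))) = r := by
      rw [finrank_span_eq_card ht]; simp
    have h4 : span ℂ (range fun i => Φ (zt t i)) = Sl t :=
      Submodule.eq_of_le_of_finrank_le h2 (by rw [h3]; exact hmax t htb)
    have h5 : Φ w ∈ Sl t := subset_span ⟨w, ⟨hw, hwt⟩, rfl⟩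
    rw [← h4] at h5
    refine (span_le.2 ?_) h5
    rintro _ ⟨i, rfl⟩
    have h6 : Φ (zt t i) ∈ span ℂ (Φ '' {w | w ∈ ball (0 : Fin n → ℂ) ρ ∧ w i₁ = z i i₁}) :=
      subset_span ⟨zt t i, ⟨hztmem t htb i, by simp [zt, Function.update_of_ne h01]⟩, rfl⟩
    exact (Finset.le_sup (f := fun i => span ℂ (Φ '' {w | w ∈ ball (0 : Fin n → ℂ) ρ ∧ w i₁ = z i i₁}))
      (Finset.mem_univ i)) h6
  -- identity theorem
  have hall : ∀ w ∈ ball (0 : Fin n → ℂ) ρ, Φ w ∈ S := by
    intro w hw
    by_contra hnot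
    obtain ⟨l, hl1, hl2⟩ := Submodule.exists_le_ker_of_notMem hnot
    apply hl1
    have han : AnalyticOnNhd ℂ (fun w => l (Φ w)) (ball 0 ρ) := by
      intro x hx
      have := (LinearMap.toContinuousLinearMap l).analyticAt (Φ x)
      exact AnalyticAt.comp_of_eq (g := fun y => l y) this (hΦ x hx) rfl
    let w₀ : Fin n → ℂ := Function.update 0 i₀ t₀
    have hw₀ : w₀ ∈ ball (0 : Fin n → ℂ) ρ := by
      rw [mem_ball_zero_iff, pi_norm_lt_iff hρ]
      intro j
      by_cases hj : j = i₀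
      · subst hj; simpa [w₀] using ht₀
      · simp [w₀, Function.update_of_ne hj, hρ]
    have hev0 : (fun w => l (Φ w)) =ᶠ[𝓝 w₀] 0 := by
      have h2 : Tendsto (fun w : Fin n → ℂ => w i₀) (𝓝 w₀) (𝓝 t₀) := by
        have h3 : Continuous (fun w : Fin n → ℂ => w i₀) := continuous_apply i₀
        have h4 := h3.tendsto w₀
        simpa [w₀] using h4
      filter_upwards [h2.eventually hin, isOpen_ball.mem_nhds hw₀] with x hx hxb
      exact hl2 (hx x hxb rfl)
    exact han.eqOn_zero_of_preconnected_of_eventuallyEq_zero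
      (convex_ball _ _).isPreconnected hw₀ hev0 hw
  have : span ℂ (Φ '' ball (0 : Fin n → ℂ) ρ) ≤ S := by
    rw [span_le]
    rintro _ ⟨w, hw, rfl⟩
    exact hall w hw
  exact (Submodule.finrank_mono this).trans hSfin

end Pool.Agent.H326R3.HR
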