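import Mathlib
import Pool.Agent.H326R3.HR1
import Pool.Agent.H326R3.HR2

set_option autoImplicit false

/-! The complexified family of hyperplanes (for S04349), part 3. -/

open scoped Topology ComplexConjugate
open Set Filter Metric Module Submodule

namespace Pool.Agent.H326R3.HR

/-- all restrictions to affine hyperplanes have rank at most `k` -/
def HypRank (m k : ℕ) (p : (Fin (m + 2) → ℂ) → ℝ) : Prop :=
  ∀ (a : Fin (m + 2) → ℂ) (L : (Fin (m + 1) → ℂ) →ₗ[ℂ] (Fin (m + 2) → ℂ)),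
    Function.Injective L →
    ∃ (ε : Fin k → ℝ) (g : Fin k → (Fin (m + 1) → ℂ) → ℂ),
      (∀ j, ε j = 1 ∨ ε j = -1) ∧ (∀ j, Differentiable ℂ (g j)) ∧
      ∀ x, p (a + L x) = ∑ j, ε j * Complex.normSq (g j x)

/-- conjugated linear map -/
def barL {a b : ℕ} (L : (Fin a → ℂ) →ₗ[ℂ] (Fin b → ℂ)) : (Fin a → ℂ) →ₗ[ℂ] (Fin b → ℂ) where
  toFun y := cj (L (cj y))
  map_add' x y := by rw [cj_add, map_add, cj_add]
  map_smul' c x := by
    rw [cj_smul, map_smul, cj_smul, Complex.conj_conj]; rfl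

lemma barL_apply {a b : ℕ} (L : (Fin a → ℂ) →ₗ[ℂ] (Fin b → ℂ)) (y : Fin a → ℂ) :
    barL L y = cj (L (cj y)) := rfl

/-- the kernel on a hyperplane -/
lemma kernel_on_hyp {a b k : ℕ} {ρ : ℝ} {P : (Fin b → ℂ) × (Fin b → ℂ) → ℂ}
    (hP : ∀ x ∈ ball (0 : Fin b → ℂ) ρ, ∀ y ∈ ball (0 : Fin b → ℂ) ρ, AnalyticAt ℂ P (x, cj y))
    {p : (Fin b → ℂ) → ℝ} (hPp : ∀ x ∈ ball (0 : Fin b → ℂ) ρ, P (x, cj x) = (p x : ℂ))
    (c : Fin b → ℂ) (L : (Fin a → ℂ) →ₗ[ℂ] (Fin b → ℂ)) {ε : Fin k → ℝ}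
    {g : Fin k → (Fin a → ℂ) → ℂ} (hg : ∀ j, Differentiable ℂ (g j))
    (hpg : ∀ x, p (c + L x) = ∑ j, ε j * Complex.normSq (g j x))
    {y y' : Fin a → ℂ} (hy : c + L y ∈ ball (0 : Fin b → ℂ) ρ)
    (hy' : c + L y' ∈ ball (0 : Fin b → ℂ) ρ) :
    P (c + L y, cj (c + L y')) = ∑ l, ((ε l : ℂ) * g l y) * conj (g l y') := by
  set Lc : (Fin a → ℂ) →L[ℂ] (Fin b → ℂ) := LinearMap.toContinuousLinearMap L with hLc
  set Lb : (Fin a → ℂ) →L[ℂ] (Fin b → ℂ) := LinearMap.toContinuousLinearMap (barL L) with hLb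
  have hLcL : ∀ x, Lc x = L x := fun x => rfl
  have hLbL : ∀ x, Lb x = cj (L (cj x)) := fun x => rfl
  set X : Set (Fin a → ℂ) := {x | c + L x ∈ ball (0 : Fin b → ℂ) ρ} with hX
  have hXo : IsOpen X := isOpen_ball.preimage (by
    have : Continuous fun x => c + Lc x := by fun_prop
    exact this)
  have hXc : Convex ℝ X := by
    intro u hu v hv s t hs ht hst
    show c + L (s • u + t • v) ∈ ball (0 : Fin b → ℂ) ρ
    have h1 : c + L (s • u + t • v) = s • (c + L u) + t • (c + L v) := by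
      have e1 : L (s • u + t • v) = s • L u + t • L v := by
        rw [map_add]
        congr 1
        · exact (L.restrictScalars ℝ).map_smul s u
        · exact (L.restrictScalars ℝ).map_smul t v
      rw [e1]
      have e2 : c = s • c + t • c := by rw [← add_smul, hst, one_smul]
      nth_rw 1 [e2]
      simp only [smul_add]; abel
    rw [h1]
    exact convex_ball (0 : Fin b → ℂ) ρ hu hv hs ht hst
  have key := polar_sum (X := X) hXc hXo (P := fun q => P (c + Lc q.1, cj c + Lb q.2))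
    (f := fun l x => (ε l : ℂ) * g l x) (h := g) ?_ ?_ ?_ ?_ y hy y' hy'
  · simp only [hLcL, hLbL, cj_cj] at key
    rw [← cj_add] at key
    exact key
  · intro x hx x' hx'
    have h1 : AnalyticAt ℂ (fun q : (Fin a → ℂ) × (Fin a → ℂ) => (c + Lc q.1, cj c + Lb q.2))
        (x, cj x') := by
      refine AnalyticAt.prod ?_ ?_
      · exact analyticAt_const.add ((Lc.analyticAt _).comp analyticAt_fst)
      · exact analyticAt_const.add ((Lb.analyticAt _).comp analyticAt_snd)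
    refine AnalyticAt.comp_of_eq (g := P) (hP _ hx _ hx') h1 ?_
    simp only [hLcL, hLbL, cj_cj]
    rw [← cj_add]
  · intro l x _
    exact (hg l x).const_mul _
  · intro l x _
    exact hg l x
  · intro x hx
    simp only [hLcL, hLbL, cj_cj]
    rw [← cj_add, hPp _ hx, hpg]
    push_cast
    refine Finset.sum_congr rfl fun l _ => ?_
    rw [mul_assoc, Complex.mul_conj]

lemma det_eq_zero_of_factor {k : ℕ} (M : Matrix (Fin (k + 1)) (Fin (k + 1)) ℂ)
    (A : Fin (k + 1) → Fin k → ℂ) (B : Fin k → Fin (k + 1) → ℂ)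
    (h : ∀ i j, M i j = ∑ l, A i l * B l j) : M.det = 0 := by
  by_contra hne
  have h1 : M = (Matrix.of A) * (Matrix.of B) := by
    ext i j; rw [h, Matrix.mul_apply]; rfl
  have h2 : IsUnit M := (Matrix.isUnit_iff_isUnit_det _).2 (isUnit_iff_ne_zero.2 hne)
  have h3 := Matrix.rank_of_isUnit M h2
  have h4 : M.rank ≤ k := by
    rw [h1]
    exact (Matrix.rank_mul_le_left _ _).trans (Matrix.rank_le_width _)
  rw [h3] at h4
  simp at h4

section param

variable {m k : ℕ}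

/-- the point with parameters `s`, `b`, `x` -/
def pt (s b : Fin 2 → ℂ) (x : Fin (m + 1) → ℂ) : Fin (m + 2) → ℂ :=
  Fin.cons (s 0 + x 0 * b 0) (Fin.cons (s 1 + x 0 * b 1) (fun j : Fin m => x j.succ))

/-- the linear part -/
def Lp (m : ℕ) (b : Fin 2 → ℂ) : (Fin (m + 1) → ℂ) →ₗ[ℂ] (Fin (m + 2) → ℂ) where
  toFun x := Fin.cons (x 0 * b 0) (Fin.cons (x 0 * b 1) (fun j : Fin m => x j.succ))
  map_add' x y := by
    funext j
    refine Fin.cases ?_ (fun j => Fin.cases ?_ (fun j => ?_) j) j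
    · simp; ring
    · simp; ring
    · simp
  map_smul' c x := by
    funext j
    refine Fin.cases ?_ (fun j => Fin.cases ?_ (fun j => ?_) j) j
    · simp; ring
    · simp; ring
    · simp

/-- the base point -/
def bp (m : ℕ) (s : Fin 2 → ℂ) : Fin (m + 2) → ℂ := Fin.cons (s 0) (Fin.cons (s 1) 0)

lemma pt_eq (s b : Fin 2 → ℂ) (x : Fin (m + 1) → ℂ) : pt s b x = bp m s + Lp m b x := by
  funext j
  refine Fin.cases ?_ (fun j => Fin.cases ?_ (fun j => ?_) j) j
  · simp [pt, bp, Lp]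
  · simp [pt, bp, Lp]
  · simp [pt, bp, Lp]

lemma Lp_injective {b : Fin 2 → ℂ} (hb : b ≠ 0) : Function.Injective (Lp m b) := by
  rw [← LinearMap.ker_eq_bot, LinearMap.ker_eq_bot']
  intro x hx
  have h0 : x 0 * b 0 = 0 := congrFun hx 0
  have h1 : x 0 * b 1 = 0 := congrFun hx (Fin.succ 0)
  have h2 : ∀ j : Fin m, x j.succ = 0 := fun j => congrFun hx (Fin.succ (Fin.succ j))
  have hx0 : x 0 = 0 := by
    by_contra hne
    apply hb
    funext i
    fin_cases i
    · exact (mul_eq_zero.1 h0).resolve_left hne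
    · exact (mul_eq_zero.1 h1).resolve_left hne
  funext j
  refine Fin.cases hx0 (fun j => h2 j) j

/-- points with common parameters `s`, `b` lie in a common hyperplane -/
lemma common_hyp (s b : Fin 2 → ℂ) : ∃ (a : Fin (m + 2) → ℂ)
    (L : (Fin (m + 1) → ℂ) →ₗ[ℂ] (Fin (m + 2) → ℂ)), Function.Injective L ∧
    ∀ x : Fin (m + 1) → ℂ, ∃ y, pt s b x = a + L y := by
  by_cases hb : b = 0
  · refine ⟨bp m s, Lp m ![1, 0], Lp_injective ?_, fun x => ⟨Fin.cons 0 (fun j : Fin m => x j.succ), ?_⟩⟩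
    · intro h
      have := congrFun h 0
      simp at this
    · subst hb
      funext j
      refine Fin.cases ?_ (fun j => Fin.cases ?_ (fun j => ?_) j) j
      · simp [pt, bp, Lp]
      · simp [pt, bp, Lp]
      · simp [pt, bp, Lp]
  · exact ⟨bp m s, Lp m b, Lp_injective hb, fun x => ⟨x, pt_eq s b x⟩⟩

/-- index set of the parameters -/
abbrev PI (m k : ℕ) := Fin 2 ⊕ Fin 2 ⊕ (Fin (k + 1) × Fin (m + 1))

/-- the `i`-th point -/
def Z (v : PI m k → ℂ) (i : Fin (k + 1)) : Fin (m + 2) → ℂ :=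
  pt (fun j => v (Sum.inl j)) (fun j => v (Sum.inr (Sum.inl j)))
    (fun j => v (Sum.inr (Sum.inr (i, j))))

lemma cj_Z (v : PI m k → ℂ) (i : Fin (k + 1)) : cj (Z v i) = Z (cj v) i := by
  funext j
  refine Fin.cases ?_ (fun j => Fin.cases ?_ (fun j => ?_) j) j
  · simp [Z, pt]
  · simp [Z, pt]
  · simp [Z, pt]

lemma Z_zero (i : Fin (k + 1)) : Z (0 : PI m k → ℂ) i = 0 := by
  funext j
  refine Fin.cases ?_ (fun j => Fin.cases ?_ (fun j => ?_) j) j
  · simp [Z, pt]
  · simp [Z, pt]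
  · simp [Z, pt]

lemma analyticAt_Z (v : PI m k → ℂ) (i : Fin (k + 1)) : AnalyticAt ℂ (fun v => Z v i) v := by
  have hc : ∀ q : PI m k, AnalyticAt ℂ (fun v : PI m k → ℂ => v q) v := fun q =>
    (ContinuousLinearMap.proj (R := ℂ) (φ := fun _ : PI m k => ℂ) q).analyticAt v
  rw [analyticAt_pi_iff]
  intro j
  refine Fin.cases ?_ (fun j => Fin.cases ?_ (fun j => ?_) j) j
  · exact (hc _).add ((hc _).mul (hc _))
  · exact (hc _).add ((hc _).mul (hc _))
  · exact hc _

/-- points in a section `z 0 = const` or `z 1 = const` are parametrised by small parameters -/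
lemma exists_param {η : ℝ} (hη : 0 < η) (z : Fin (k + 1) → (Fin (m + 2) → ℂ))
    (hz : ∀ i, ‖z i‖ < min (η / 2) (η ^ 2 / 4))
    (hc : (∀ i, z i 0 = z 0 0) ∨ (∀ i, z i 1 = z 0 1)) :
    ∃ v : PI m k → ℂ, ‖v‖ < η ∧ ∀ i, Z v i = z i := by
  have hη2 : ((η / 2 : ℝ) : ℂ) ≠ 0 := by
    rw [Complex.ofReal_ne_zero]; positivity
  have hb1 : ∀ i j, ‖z i j‖ < η := by
    intro i j
    have h1 := (norm_le_pi_norm (z i) j).trans_lt (hz i)
    have h2 := h1.trans_le (min_le_left _ _)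
    linarith
  have hb2 : ∀ i j, ‖z i j / ((η / 2 : ℝ) : ℂ)‖ < η := by
    intro i j
    have h1 := (norm_le_pi_norm (z i) j).trans_lt (hz i)
    have h2 := h1.trans_le (min_le_right _ _)
    rw [norm_div, Complex.norm_real, Real.norm_of_nonneg (by positivity), div_lt_iff₀ (by positivity)]
    nlinarith
  have hb3 : ‖((η / 2 : ℝ) : ℂ)‖ < η := by
    rw [Complex.norm_real, Real.norm_of_nonneg (by positivity)]; linarith
  rcases hc with hc | hc
  · refine ⟨Sum.elim ![z 0 0, 0] (Sum.elim ![0, ((η / 2 : ℝ) : ℂ)]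
      (fun q => (Fin.cons (z q.1 1 / ((η / 2 : ℝ) : ℂ)) (fun j : Fin m => z q.1 j.succ.succ) :
        Fin (m + 1) → ℂ) q.2)), ?_, ?_⟩
    · rw [pi_norm_lt_iff hη]
      rintro (j | j | ⟨i, j⟩)
      · fin_cases j
        · simpa using hb1 0 0
        · simpa using hη
      · fin_cases j
        · simpa using hη
        · simpa using hb3
      · refine Fin.cases ?_ (fun j => ?_) j
        · simpa using hb2 i 1
        · simpa using hb1 i _
    · intro i
      funext j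
      refine Fin.cases ?_ (fun j => Fin.cases ?_ (fun j => ?_) j) j
      · simp [Z, pt, hc i]
      · simp only [Z, pt, Fin.cons_succ, Fin.cons_zero, Sum.elim_inl, Sum.elim_inr]
        simp
        field_simp
        exact mul_div_cancel_right₀ _ (by exact_mod_cast hη.ne')
      · simp [Z, pt]
  · refine ⟨Sum.elim ![0, z 0 1] (Sum.elim ![((η / 2 : ℝ) : ℂ), 0]
      (fun q => (Fin.cons (z q.1 0 / ((η / 2 : ℝ) : ℂ)) (fun j : Fin m => z q.1 j.succ.succ) :
        Fin (m + 1) → ℂ) q.2)), ?_, ?_⟩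
    · rw [pi_norm_lt_iff hη]
      rintro (j | j | ⟨i, j⟩)
      · fin_cases j
        · simpa using hη
        · simpa using hb1 0 1
      · fin_cases j
        · simpa using hb3
        · simpa using hη
      · refine Fin.cases ?_ (fun j => ?_) j
        · simpa using hb2 i 0
        · simpa using hb1 i _
    · intro i
      funext j
      refine Fin.cases ?_ (fun j => Fin.cases ?_ (fun j => ?_) j) j
      · simp only [Z, pt, Fin.cons_zero, Sum.elim_inl, Sum.elim_inr]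
        simp
        field_simp
        exact mul_div_cancel_right₀ _ (by exact_mod_cast hη.ne')
      · simp [Z, pt, ← hc i]
      · simp [Z, pt]

end param

/-- KEY: minors of the local kernel vanish on pairs of coordinate sections. -/
lemma key_minors {m k : ℕ} {p : (Fin (m + 2) → ℂ) → ℝ} (hyp : HypRank m k p) {ρ : ℝ} (hρ : 0 < ρ)
    {P : (Fin (m + 2) → ℂ) × (Fin (m + 2) → ℂ) → ℂ}
    (hP : ∀ x ∈ ball (0 : Fin (m + 2) → ℂ) ρ, ∀ y ∈ ball (0 : Fin (m + 2) → ℂ) ρ,
      AnalyticAt ℂ P (x, cj y))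
    (hPp : ∀ x ∈ ball (0 : Fin (m + 2) → ℂ) ρ, P (x, cj x) = (p x : ℂ)) :
    ∃ δ : ℝ, 0 < δ ∧ ∀ z w : Fin (k + 1) → (Fin (m + 2) → ℂ),
      (∀ i, ‖z i‖ < δ) → (∀ i, ‖w i‖ < δ) →
      ((∀ i, z i 0 = z 0 0) ∨ (∀ i, z i 1 = z 0 1)) →
      ((∀ i, w i 0 = w 0 0) ∨ (∀ i, w i 1 = w 0 1)) →
      (Matrix.of fun i j => P (z i, w j)).det = 0 := by
  let G : (PI m k → ℂ) × (PI m k → ℂ) × (Fin 0 → ℂ) → ℂ := fun x =>
    (Matrix.of fun i j => P (Z x.1 i, Z x.2.1 j)).det
  have h00 : AnalyticAt ℂ P (0, 0) := by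
    have := hP 0 (mem_ball_self hρ) 0 (mem_ball_self hρ)
    rwa [cj_zero] at this
  have hG : AnalyticAt ℂ G 0 := by
    have hent : ∀ i j, AnalyticAt ℂ (fun x : (PI m k → ℂ) × (PI m k → ℂ) × (Fin 0 → ℂ) =>
        P (Z x.1 i, Z x.2.1 j)) 0 := by
      intro i j
      have h1 : AnalyticAt ℂ (fun x : (PI m k → ℂ) × (PI m k → ℂ) × (Fin 0 → ℂ) =>
          (Z x.1 i, Z x.2.1 j)) 0 := by
        refine AnalyticAt.prod ?_ ?_
        · exact AnalyticAt.comp_of_eq (g := fun v => Z v i) (analyticAt_Z 0 i) analyticAt_fst rfl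
        · exact AnalyticAt.comp_of_eq (g := fun v => Z v j) (f := fun x :
            (PI m k → ℂ) × (PI m k → ℂ) × (Fin 0 → ℂ) => x.2.1) (analyticAt_Z 0 j)
            (analyticAt_fst.comp_of_eq analyticAt_snd rfl) rfl
      refine AnalyticAt.comp_of_eq (g := P) h00 h1 ?_
      show (Z 0 i, Z 0 j) = (0, 0)
      rw [Z_zero, Z_zero]
    simp only [G, Matrix.det_apply, Matrix.of_apply]
    refine Finset.analyticAt_fun_sum _ fun σ _ => ?_
    refine AnalyticAt.const_smul (Finset.analyticAt_fun_prod _ fun i _ => hent _ _)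
  have hreal : ∀ᶠ y : (PI m k → ℂ) × (Fin 0 → ℝ) in 𝓝 0,
      G (y.1, fun i => conj (y.1 i), fun k => (y.2 k : ℂ)) = 0 := by
    have hcont : ∀ i, ∀ᶠ y : (PI m k → ℂ) × (Fin 0 → ℝ) in 𝓝 0,
        Z y.1 i ∈ ball (0 : Fin (m + 2) → ℂ) ρ := by
      intro i
      have h1 : ContinuousAt (fun v : PI m k → ℂ => Z v i) 0 := (analyticAt_Z 0 i).continuousAt
      have h2 : Tendsto (fun v : PI m k → ℂ => Z v i) (𝓝 0) (𝓝 0) := by
        have := h1.tendsto; rwa [Z_zero] at this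
      have h3 : Tendsto (fun y : (PI m k → ℂ) × (Fin 0 → ℝ) => y.1) (𝓝 0) (𝓝 0) :=
        continuous_fst.tendsto' _ _ rfl
      exact (h2.comp h3).eventually (ball_mem_nhds _ hρ)
    filter_upwards [Filter.eventually_all.2 hcont] with y hy
    obtain ⟨a, L, hL, hpts⟩ := common_hyp (m := m) (fun j => y.1 (Sum.inl j))
      (fun j => y.1 (Sum.inr (Sum.inl j)))
    obtain ⟨ε, g, -, hg, hpg⟩ := hyp a L hL
    choose u hu using fun i => hpts (fun j => y.1 (Sum.inr (Sum.inr (i, j))))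
    have hZ : ∀ i, Z y.1 i = a + L (u i) := hu
    refine det_eq_zero_of_factor _ (fun i l => (ε l : ℂ) * g l (u i)) (fun l j => conj (g l (u j))) ?_
    intro i j
    have h1 : Z (fun i => conj (y.1 i)) j = cj (Z y.1 j) := (cj_Z _ _).symm
    simp only [Matrix.of_apply]
    rw [h1, hZ, hZ]
    exact kernel_on_hyp hP hPp a L hg hpg (by rw [← hZ]; exact hy i) (by rw [← hZ]; exact hy j)
  have hev := Pool.Agent.Results.MP_51bf1a_an.JetDet.eventually_eq_zero_of_real hG hreal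
  obtain ⟨η, hη, hball⟩ := Metric.eventually_nhds_iff_ball.1 hev
  refine ⟨min (η / 2) (η ^ 2 / 4), by positivity, ?_⟩
  intro z w hz hw hzc hwc
  obtain ⟨v, hv, hvz⟩ := exists_param hη z hz hzc
  obtain ⟨v', hv', hvw⟩ := exists_param hη w hw hwc
  have := hball (v, v', 0) (by
    rw [mem_ball_zero_iff, Prod.norm_def, Prod.norm_def]
    simp only [norm_zero]
    exact max_lt hv (max_lt hv' hη))
  simp only [G] at this
  simp_rw [hvz, hvw] at this
  exact this

end Pool.Agent.H326R3.HR
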