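import Mathlib
import Pool.Agent.H326R3.HR3

set_option autoImplicit false

/-! Local representation (for S04349), part 4. -/

open scoped Topology ComplexConjugate
open Set Filter Metric Module Submodule

namespace Pool.Agent.H326R3.HR

section

variable {m k : ℕ} {p : (Fin (m + 2) → ℂ) → ℝ} {ρ : ℝ}
  {P : (Fin (m + 2) → ℂ) × (Fin (m + 2) → ℂ) → ℂ}

lemma analyticAt_left (hP : ∀ x ∈ ball (0 : Fin (m + 2) → ℂ) ρ, ∀ y ∈ ball (0 : Fin (m + 2) → ℂ) ρ,
      AnalyticAt ℂ P (x, cj y)) {z w : Fin (m + 2) → ℂ} (hz : z ∈ ball (0 : Fin (m + 2) → ℂ) ρ)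
    (hw : w ∈ ball (0 : Fin (m + 2) → ℂ) ρ) : AnalyticAt ℂ (fun z => P (z, w)) z := by
  have h1 : cj w ∈ ball (0 : Fin (m + 2) → ℂ) ρ := by
    rw [mem_ball_zero_iff, norm_cj]; simpa using hw
  have h2 := hP z hz (cj w) h1
  rw [cj_cj] at h2
  exact AnalyticAt.comp_of_eq (g := P) h2 (analyticAt_id.prod analyticAt_const) rfl

lemma analyticAt_right (hP : ∀ x ∈ ball (0 : Fin (m + 2) → ℂ) ρ, ∀ y ∈ ball (0 : Fin (m + 2) → ℂ) ρ,
      AnalyticAt ℂ P (x, cj y)) {z w : Fin (m + 2) → ℂ} (hz : z ∈ ball (0 : Fin (m + 2) → ℂ) ρ)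
    (hw : w ∈ ball (0 : Fin (m + 2) → ℂ) ρ) : AnalyticAt ℂ (fun w => P (z, w)) w := by
  have h1 : cj w ∈ ball (0 : Fin (m + 2) → ℂ) ρ := by
    rw [mem_ball_zero_iff, norm_cj]; simpa using hw
  have h2 := hP z hz (cj w) h1
  rw [cj_cj] at h2
  exact AnalyticAt.comp_of_eq (g := P) h2 (analyticAt_const.prod analyticAt_id) rfl

/-- all large minors of the local kernel vanish -/
lemma local_rank (hyp : HypRank m k p) (hρ : 0 < ρ)
    (hP : ∀ x ∈ ball (0 : Fin (m + 2) → ℂ) ρ, ∀ y ∈ ball (0 : Fin (m + 2) → ℂ) ρ,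
      AnalyticAt ℂ P (x, cj y))
    (hPp : ∀ x ∈ ball (0 : Fin (m + 2) → ℂ) ρ, P (x, cj x) = (p x : ℂ)) :
    ∃ δ : ℝ, 0 < δ ∧ δ ≤ ρ ∧ ∀ z w : Fin (k * k * (k * k) + 1) → (Fin (m + 2) → ℂ),
      (∀ i, ‖z i‖ < δ) → (∀ i, ‖w i‖ < δ) → (Matrix.of fun i j => P (z i, w j)).det = 0 := by
  obtain ⟨δ₀, hδ₀, hkey⟩ := key_minors hyp hρ hP hPp
  set δ := min δ₀ ρ with hδ
  have hδ0 : 0 < δ := lt_min hδ₀ hρ
  have hδρ : δ ≤ ρ := min_le_right _ _
  have hδδ : δ ≤ δ₀ := min_le_left _ _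
  have hsub : ball (0 : Fin (m + 2) → ℂ) δ ⊆ ball (0 : Fin (m + 2) → ℂ) ρ := ball_subset_ball hδρ
  have h10 : (1 : Fin (m + 2)) ≠ 0 := by simp
  -- step B1
  have hB1 : ∀ z w : Fin (k * k + 1) → (Fin (m + 2) → ℂ), (∀ i, ‖z i‖ < δ) → (∀ i, ‖w i‖ < δ) →
      ((∀ i, w i 0 = w 0 0) ∨ (∀ i, w i 1 = w 0 1)) →
      (Matrix.of fun i j => P (z i, w j)).det = 0 := by
    intro z w hz hw hwc
    have hΦ : AnalyticOnNhd ℂ (fun z => fun j : Fin (k * k + 1) => P (z, w j))
        (ball (0 : Fin (m + 2) → ℂ) δ) := by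
      intro x hx
      rw [analyticAt_pi_iff]
      intro j
      exact analyticAt_left hP (hsub hx) (hsub (by simpa using hw j))
    have hsec : ∀ (e : Fin (m + 2)), (e = 0 ∨ e = 1) → ∀ t,
        finrank ℂ (span ℂ ((fun z => fun j : Fin (k * k + 1) => P (z, w j)) ''
          {z | z ∈ ball (0 : Fin (m + 2) → ℂ) δ ∧ z e = t})) ≤ k := by
      intro e he t
      refine finrank_le_of_minors _ _ fun z' c hz' => ?_
      refine hkey z' (fun j => w (c j)) (fun i => ?_) (fun i => (hw _).trans_le hδδ) ?_ ?_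
      · have := (hz' i).1
        rw [mem_ball_zero_iff] at this
        exact this.trans_le hδδ
      · rcases he with rfl | rfl
        · left; intro i; rw [(hz' i).2, (hz' 0).2]
        · right; intro i; rw [(hz' i).2, (hz' 0).2]
      · rcases hwc with h | h
        · left; intro i; show w (c i) 0 = w (c 0) 0; rw [h, h (c 0)]
        · right; intro i; show w (c i) 1 = w (c 0) 1; rw [h, h (c 0)]
    have hfin := finrank_span_le hδ0 0 1 h10 _ hΦ (hsec 0 (Or.inl rfl)) (hsec 1 (Or.inr rfl))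
    exact det_eq_zero_of_finrank (k := k * k) (fun z => fun j : Fin (k * k + 1) => P (z, w j)) _ hfin
      z (fun i => by simpa using hz i)
  refine ⟨δ, hδ0, hδρ, ?_⟩
  intro z w hz hw
  have hΨ : AnalyticOnNhd ℂ (fun w => fun j : Fin (k * k * (k * k) + 1) => P (z j, w))
      (ball (0 : Fin (m + 2) → ℂ) δ) := by
    intro x hx
    rw [analyticAt_pi_iff]
    intro j
    exact analyticAt_right hP (hsub (by simpa using hz j)) (hsub hx)
  have hsec : ∀ (e : Fin (m + 2)), (e = 0 ∨ e = 1) → ∀ t,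
      finrank ℂ (span ℂ ((fun w => fun j : Fin (k * k * (k * k) + 1) => P (z j, w)) ''
        {w | w ∈ ball (0 : Fin (m + 2) → ℂ) δ ∧ w e = t})) ≤ k * k := by
    intro e he t
    refine finrank_le_of_minors _ _ fun w' c hw' => ?_
    have := hB1 (fun j => z (c j)) w' (fun i => hz _) (fun i => ?_) ?_
    · rw [← Matrix.det_transpose] at this
      exact this
    · have := (hw' i).1
      rwa [mem_ball_zero_iff] at this
    · rcases he with rfl | rfl
      · left; intro i; rw [(hw' i).2, (hw' 0).2]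
      · right; intro i; rw [(hw' i).2, (hw' 0).2]
  have hfin := finrank_span_le hδ0 0 1 h10 _ hΨ (hsec 0 (Or.inl rfl)) (hsec 1 (Or.inr rfl))
  have := det_eq_zero_of_finrank (k := k * k * (k * k))
    (fun w => fun j : Fin (k * k * (k * k) + 1) => P (z j, w)) _ hfin w (fun i => by simpa using hw i)
  rw [← Matrix.det_transpose] at this
  exact this

/-- hermitian symmetry of the local kernel -/
lemma local_herm (hyp : HypRank m k p)
    (hP : ∀ x ∈ ball (0 : Fin (m + 2) → ℂ) ρ, ∀ y ∈ ball (0 : Fin (m + 2) → ℂ) ρ,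
      AnalyticAt ℂ P (x, cj y))
    (hPp : ∀ x ∈ ball (0 : Fin (m + 2) → ℂ) ρ, P (x, cj x) = (p x : ℂ))
    {z w : Fin (m + 2) → ℂ} (hz : z ∈ ball (0 : Fin (m + 2) → ℂ) ρ)
    (hw : w ∈ ball (0 : Fin (m + 2) → ℂ) ρ) : P (w, cj z) = conj (P (z, cj w)) := by
  obtain ⟨a, L, hL, hpts⟩ := common_hyp (m := m) ![z 0, z 1] ![w 0 - z 0, w 1 - z 1]
  obtain ⟨ε, g, -, hg, hpg⟩ := hyp a L hL
  obtain ⟨y, hy⟩ := hpts (Fin.cons 0 (fun j : Fin m => z j.succ.succ))
  obtain ⟨y', hy'⟩ := hpts (Fin.cons 1 (fun j : Fin m => w j.succ.succ))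
  have e1 : z = a + L y := by
    rw [← hy]
    funext j
    refine Fin.cases ?_ (fun j => Fin.cases ?_ (fun j => ?_) j) j
    · simp [pt]
    · simp [pt]
    · simp [pt]
  have e2 : w = a + L y' := by
    rw [← hy']
    funext j
    refine Fin.cases ?_ (fun j => Fin.cases ?_ (fun j => ?_) j) j
    · simp [pt]
    · simp [pt]
    · simp [pt]
  have h1 := kernel_on_hyp hP hPp a L hg hpg (y := y) (y' := y') (by rw [← e1]; exact hz)
    (by rw [← e2]; exact hw)
  have h2 := kernel_on_hyp hP hPp a L hg hpg (y := y') (y' := y) (by rw [← e2]; exact hw)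
    (by rw [← e1]; exact hz)
  rw [← e1, ← e2] at h1 h2
  rw [h1, h2, map_sum]
  refine Finset.sum_congr rfl fun l _ => ?_
  simp only [map_mul, Complex.conj_conj, Complex.conj_ofReal]
  ring

/-- Local representation by a nondegenerate hermitian form in holomorphic functions. -/
lemma local_rep (hyp : HypRank m k p) (hρ : 0 < ρ)
    (hP : ∀ x ∈ ball (0 : Fin (m + 2) → ℂ) ρ, ∀ y ∈ ball (0 : Fin (m + 2) → ℂ) ρ,
      AnalyticAt ℂ P (x, cj y))
    (hPp : ∀ x ∈ ball (0 : Fin (m + 2) → ℂ) ρ, P (x, cj x) = (p x : ℂ)) :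
    ∃ (r : ℕ) (δ : ℝ) (φ : Fin r → (Fin (m + 2) → ℂ) → ℂ) (B : Matrix (Fin r) (Fin r) ℂ)
      (x : Fin r → (Fin (m + 2) → ℂ)),
      r ≤ k * k * (k * k) ∧ 0 < δ ∧ (∀ j, AnalyticOnNhd ℂ (φ j) (ball 0 δ)) ∧
      B.IsHermitian ∧ B.det ≠ 0 ∧
      (∀ z ∈ ball (0 : Fin (m + 2) → ℂ) δ, (p z : ℂ) = ∑ q : Fin r × Fin r,
        (φ q.1 z * B q.1 q.2) * conj (φ q.2 z)) ∧
      (∀ i, x i ∈ ball (0 : Fin (m + 2) → ℂ) δ) ∧
      (Matrix.of fun i j => φ j (x i)).det ≠ 0 := by
  classical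
  obtain ⟨δ, hδ, hδρ, hmin⟩ := local_rank hyp hρ hP hPp
  have hsub : ball (0 : Fin (m + 2) → ℂ) δ ⊆ ball (0 : Fin (m + 2) → ℂ) ρ := ball_subset_ball hδρ
  let X := ball (0 : Fin (m + 2) → ℂ) δ
  let F : X → X → ℂ := fun w z => P (z.1, cj w.1)
  have hherm : ∀ z w : X, F z w = conj (F w z) := fun z w =>
    local_herm hyp hP hPp (hsub z.2) (hsub w.2)
  -- maximal independent family
  let Sr : Set ℕ := {r | ∃ w : Fin r → X, LinearIndependent ℂ (fun j => F (w j))}
  have hS0 : (0 : ℕ) ∈ Sr := ⟨fun i => i.elim0, linearIndependent_empty_type⟩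
  have hSb : ∀ r ∈ Sr, r ≤ k * k * (k * k) := by
    rintro r ⟨w, hw⟩
    by_contra hlt
    push Not at hlt
    have hle : k * k * (k * k) + 1 ≤ r := hlt
    have h1 : LinearIndependent ℂ (fun j : Fin (k * k * (k * k) + 1) => F (w (Fin.castLE hle j))) :=
      hw.comp _ (Fin.castLE_injective hle)
    obtain ⟨z, hz⟩ := exists_det_ne_zero _ h1
    apply hz
    exact hmin (fun i => (z i).1) (fun j => cj (w (Fin.castLE hle j)).1)
      (fun i => mem_ball_zero_iff.1 (z i).2) (fun i => by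
        rw [norm_cj]; exact mem_ball_zero_iff.1 (w (Fin.castLE hle i)).2)
  have hbdd : BddAbove Sr := ⟨_, fun r hr => hSb r hr⟩
  set r := sSup Sr with hr
  have hrS : r ∈ Sr := Nat.sSup_mem ⟨0, hS0⟩ hbdd
  obtain ⟨w, hw⟩ := hrS
  have hspan : ∀ v : X, ∃ c : Fin r → ℂ, ∑ j, c j • F (w j) = F v := by
    intro v
    have : F v ∈ span ℂ (range fun j => F (w j)) := by
      by_contra hnot
      have h1 : LinearIndependent ℂ (Fin.snoc (fun j => F (w j)) (F v) : Fin (r + 1) → X → ℂ) :=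
        linearIndependent_finSnoc.2 ⟨hw, hnot⟩
      have h2 : r + 1 ∈ Sr := by
        refine ⟨Fin.snoc w v, ?_⟩
        convert h1 using 1
        funext j
        refine Fin.lastCases ?_ (fun j => ?_) j
        · simp
        · simp
      have := le_csSup hbdd h2
      omega
    exact (Submodule.mem_span_range_iff_exists_fun ℂ).1 this
  choose c hc using hspan
  have hcv : ∀ v z : X, F v z = ∑ j, c v j * F (w j) z := by
    intro v z
    rw [← hc v]
    simp [Finset.sum_apply]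
  -- Gram matrix
  let Γ : Matrix (Fin r) (Fin r) ℂ := Matrix.of fun i j => F (w j) (w i)
  have hΓherm : Γ.IsHermitian := by
    ext i j
    simp only [Matrix.conjTranspose_apply, Γ, Matrix.of_apply]
    exact (hherm _ _).symm
  -- row expansion
  have hrow : ∀ (z : X) (j : Fin r), F (w j) z = ∑ i, conj (c z i) * Γ i j := by
    intro z j
    rw [hherm, hcv z (w j), map_sum]
    refine Finset.sum_congr rfl fun i _ => ?_
    rw [map_mul]
    congr 1
    exact (hherm _ _).symm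
  have hΓdet : Γ.det ≠ 0 := by
    intro h0
    obtain ⟨v, hv0, hv⟩ := Matrix.exists_mulVec_eq_zero_iff.2 h0
    apply hv0
    have h1 : ∑ j, v j • F (w j) = 0 := by
      funext z
      simp only [Finset.sum_apply, Pi.smul_apply, smul_eq_mul, Pi.zero_apply]
      calc ∑ j, v j * F (w j) z = ∑ j, v j * ∑ i, conj (c z i) * Γ i j := by
            simp_rw [hrow z]
        _ = ∑ i, conj (c z i) * (Γ.mulVec v) i := by
            simp only [Matrix.mulVec, dotProduct, Finset.mul_sum]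
            rw [Finset.sum_comm]
            refine Finset.sum_congr rfl fun i _ => Finset.sum_congr rfl fun j _ => by ring
        _ = 0 := by rw [hv]; simp
    funext j
    exact (Fintype.linearIndependent_iff.1 hw) v h1 j
  -- inverse
  have hΓinv : ∀ (z : X) (i : Fin r), conj (c z i) = ∑ j, F (w j) z * Γ⁻¹ j i := by
    intro z i
    have h1 : (fun j => F (w j) z) = Matrix.vecMul (fun i => conj (c z i)) Γ := by
      funext j; rw [hrow z j]; rfl
    have h2 : Matrix.vecMul (fun j => F (w j) z) Γ⁻¹ = fun i => conj (c z i) := by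
      rw [h1, Matrix.vecMul_vecMul, Matrix.mul_nonsing_inv _ (isUnit_iff_ne_zero.2 hΓdet),
        Matrix.vecMul_one]
    have h3 := congrFun h2 i
    rw [← h3]; rfl
  refine ⟨r, δ, fun j z => P (z, cj (w j).1), (Γ⁻¹).conjTranspose, fun i => (w i).1,
    hSb r ⟨w, hw⟩, hδ, ?_, ?_, ?_, ?_, fun i => (w i).2, ?_⟩
  · intro j z hz
    exact analyticAt_left hP (hsub hz) (by
      rw [mem_ball_zero_iff, norm_cj]
      have := hsub (w j).2
      rwa [mem_ball_zero_iff] at this)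
  · exact (hΓherm.inv).conjTranspose
  · rw [Matrix.det_conjTranspose, Matrix.det_nonsing_inv]
    simp [hΓdet]
  · intro z hz
    have h1 : (p z : ℂ) = F ⟨z, hz⟩ ⟨z, hz⟩ := (hPp z (hsub hz)).symm
    rw [h1, hcv ⟨z, hz⟩ ⟨z, hz⟩, Fintype.sum_prod_type]
    refine Finset.sum_congr rfl fun j _ => ?_
    have h2 : c ⟨z, hz⟩ j = ∑ i, conj (F (w i) ⟨z, hz⟩) * conj (Γ⁻¹ i j) := by
      have := congrArg conj (hΓinv ⟨z, hz⟩ j)
      rw [Complex.conj_conj, map_sum] at this
      rw [this]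
      refine Finset.sum_congr rfl fun i _ => by rw [map_mul]
    rw [h2, Finset.sum_mul]
    refine Finset.sum_congr rfl fun i _ => ?_
    simp only [Matrix.conjTranspose_apply, F, RCLike.star_def]
    ring
  · exact hΓdet

end

end Pool.Agent.H326R3.HR
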