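import Mathlib
import Pool.Agent.H326R3.HR4

set_option autoImplicit false

/-! Analytic continuation of the representation (for S04349), part 5. -/

open scoped Topology ComplexConjugate
open Set Filter Metric Module Submodule

namespace Pool.Agent.H326R3.HR

section ext

variable {n r : ℕ} {p : (Fin n → ℂ) → ℝ}

lemma analyticAt_conj_real {f : (Fin n → ℂ) → ℂ} {z : Fin n → ℂ} (hf : AnalyticAt ℂ f z) :
    AnalyticAt ℝ (fun z => conj (f z)) z := by
  have h1 : AnalyticAt ℝ f z := hf.restrictScalars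
  have h2 : AnalyticAt ℝ (fun w : ℂ => conj w) (f z) :=
    (Complex.conjCLE.toContinuousLinearMap).analyticAt _
  exact AnalyticAt.comp_of_eq (g := fun w : ℂ => conj w) h2 h1 rfl

/-- The representation persists on larger balls, by the real identity theorem. -/
lemma rep_ball (hp : AnalyticOnNhd ℝ p univ) {δ R : ℝ} (hδ : 0 < δ) (hδR : δ ≤ R)
    {φ : Fin r → (Fin n → ℂ) → ℂ} {B : Matrix (Fin r) (Fin r) ℂ}
    (hφ : ∀ j, AnalyticOnNhd ℂ (φ j) (ball 0 R))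
    (hrep : ∀ z ∈ ball (0 : Fin n → ℂ) δ, (p z : ℂ) = ∑ q : Fin r × Fin r,
      (φ q.1 z * B q.1 q.2) * conj (φ q.2 z)) :
    ∀ z ∈ ball (0 : Fin n → ℂ) R, (p z : ℂ) = ∑ q : Fin r × Fin r,
      (φ q.1 z * B q.1 q.2) * conj (φ q.2 z) := by
  have h1 : AnalyticOnNhd ℝ (fun z => (p z : ℂ)) (ball (0 : Fin n → ℂ) R) := by
    intro z _
    exact AnalyticAt.comp_of_eq (g := fun x : ℝ => (x : ℂ)) (Complex.ofRealCLM.analyticAt _)
      (hp z (mem_univ z)) rfl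
  have h2 : AnalyticOnNhd ℝ (fun z => ∑ q : Fin r × Fin r,
      (φ q.1 z * B q.1 q.2) * conj (φ q.2 z)) (ball (0 : Fin n → ℂ) R) := by
    intro z hz
    refine Finset.analyticAt_fun_sum _ fun q _ => ?_
    exact (((hφ q.1 z hz).restrictScalars).mul analyticAt_const).mul
      (analyticAt_conj_real (hφ q.2 z hz))
  have h3 : (fun z => (p z : ℂ)) =ᶠ[𝓝 (0 : Fin n → ℂ)] (fun z => ∑ q : Fin r × Fin r,
      (φ q.1 z * B q.1 q.2) * conj (φ q.2 z)) := by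
    filter_upwards [ball_mem_nhds (0 : Fin n → ℂ) hδ] with z hz using hrep z hz
  exact h1.eqOn_of_preconnected_of_eventuallyEq h2 (convex_ball _ _).isPreconnected
    (mem_ball_self (by linarith)) h3

/-- determinants of independent analytic functions do not vanish identically near any point -/
lemma exists_points {R : ℝ} {φ : Fin r → (Fin n → ℂ) → ℂ}
    (hφ : ∀ j, AnalyticOnNhd ℂ (φ j) (ball 0 R)) (hR : 0 < R) {x : Fin r → (Fin n → ℂ)}
    (hx : ∀ i, x i ∈ ball (0 : Fin n → ℂ) R)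
    (hdet : (Matrix.of fun i j => φ j (x i)).det ≠ 0) {O : Set (Fin n → ℂ)} (hO : IsOpen O)
    {b : Fin n → ℂ} (hbO : b ∈ O) (hb : b ∈ ball (0 : Fin n → ℂ) R) :
    ∃ y : Fin r → (Fin n → ℂ), (∀ i, y i ∈ O) ∧ (Matrix.of fun i j => φ j (y i)).det ≠ 0 := by
  by_contra hno
  push Not at hno
  apply hdet
  let D : (Fin r → Fin n → ℂ) → ℂ := fun y => (Matrix.of fun i j => φ j (y i)).det
  have hpi : ∀ y : Fin r → Fin n → ℂ, y ∈ ball (0 : Fin r → Fin n → ℂ) R ↔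
      ∀ i, y i ∈ ball (0 : Fin n → ℂ) R := by
    intro y
    rw [mem_ball_zero_iff, pi_norm_lt_iff hR]
    simp only [mem_ball_zero_iff]
  have hD : AnalyticOnNhd ℂ D (ball (0 : Fin r → Fin n → ℂ) R) := by
    intro y hy
    have hent : ∀ i j, AnalyticAt ℂ (fun y : Fin r → Fin n → ℂ => φ j (y i)) y := by
      intro i j
      exact AnalyticAt.comp_of_eq (g := φ j) (hφ j _ ((hpi y).1 hy i))
        ((ContinuousLinearMap.proj (R := ℂ) (φ := fun _ : Fin r => Fin n → ℂ) i).analyticAt y) rfl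
    simp only [D, Matrix.det_apply, Matrix.of_apply]
    refine Finset.analyticAt_fun_sum _ fun σ _ => ?_
    exact AnalyticAt.const_smul (Finset.analyticAt_fun_prod _ fun i _ => hent _ _)
  have hb' : (fun _ => b : Fin r → Fin n → ℂ) ∈ ball (0 : Fin r → Fin n → ℂ) R :=
    (hpi _).2 fun _ => hb
  have hev : D =ᶠ[𝓝 (fun _ => b : Fin r → Fin n → ℂ)] 0 := by
    have h1 : ∀ᶠ y : Fin r → Fin n → ℂ in 𝓝 (fun _ => b), ∀ i, y i ∈ O := by
      rw [Filter.eventually_all]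
      intro i
      have : Tendsto (fun y : Fin r → Fin n → ℂ => y i) (𝓝 (fun _ => b)) (𝓝 b) :=
        (continuous_apply i).tendsto' _ _ rfl
      exact this.eventually (hO.mem_nhds hbO)
    filter_upwards [h1] with y hy using hno y hy
  exact hD.eqOn_zero_of_preconnected_of_eventuallyEq_zero (convex_ball _ _).isPreconnected hb' hev
    ((hpi x).2 hx)

/-- local extension around a point of the ball -/
lemma exists_local_ext (hp : AnalyticOnNhd ℝ p univ) {δ R ρ : ℝ} (hδ : 0 < δ) (hδR : δ ≤ R)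
    (hρ : 0 < ρ)
    {φ : Fin r → (Fin n → ℂ) → ℂ} {B : Matrix (Fin r) (Fin r) ℂ} (hB : B.det ≠ 0)
    (hφ : ∀ j, AnalyticOnNhd ℂ (φ j) (ball 0 R))
    (hrep : ∀ z ∈ ball (0 : Fin n → ℂ) δ, (p z : ℂ) = ∑ q : Fin r × Fin r,
      (φ q.1 z * B q.1 q.2) * conj (φ q.2 z)) {x : Fin r → (Fin n → ℂ)}
    (hx : ∀ i, x i ∈ ball (0 : Fin n → ℂ) δ)
    (hdet : (Matrix.of fun i j => φ j (x i)).det ≠ 0)
    {b : Fin n → ℂ} (hb : b ∈ ball (0 : Fin n → ℂ) R)
    {P : (Fin n → ℂ) × (Fin n → ℂ) → ℂ}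
    (hP : ∀ x ∈ ball b ρ, ∀ y ∈ ball b ρ, AnalyticAt ℂ P (x, cj y))
    (hPp : ∀ x ∈ ball b ρ, P (x, cj x) = (p x : ℂ)) :
    ∃ g : Fin r → (Fin n → ℂ) → ℂ, (∀ j, AnalyticOnNhd ℂ (g j) (ball b ρ)) ∧
      ∀ j, ∀ z ∈ ball b ρ ∩ ball (0 : Fin n → ℂ) R, g j z = φ j z := by
  have hR : 0 < R := lt_of_lt_of_le hδ hδR
  have hrepR := rep_ball hp hδ hδR hφ hrep
  set O := ball b ρ ∩ ball (0 : Fin n → ℂ) R with hO
  have hOo : IsOpen O := isOpen_ball.inter isOpen_ball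
  have hOc : Convex ℝ O := (convex_ball _ _).inter (convex_ball _ _)
  have hbO : b ∈ O := ⟨mem_ball_self hρ, hb⟩
  have hpol := polar_sum (X := O) hOc hOo (P := P) (fun x hx y hy => hP x hx.1 y hy.1)
    (f := fun (q : Fin r × Fin r) z => φ q.1 z * B q.1 q.2) (h := fun q z => φ q.2 z)
    (fun q z hz => ((hφ q.1 z hz.2).differentiableAt).mul_const _)
    (fun q z hz => (hφ q.2 z hz.2).differentiableAt)
    (fun z hz => by rw [hPp z hz.1]; exact hrepR z hz.2)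
  obtain ⟨y, hyO, hydet⟩ := exists_points hφ hR (fun i => ball_subset_ball hδR (hx i)) hdet hOo hbO hb
  let Y : Matrix (Fin r) (Fin r) ℂ := Matrix.of fun i j => φ j (y i)
  let C : Matrix (Fin r) (Fin r) ℂ := B * Y.conjTranspose
  have hC : C.det ≠ 0 := by
    rw [Matrix.det_mul, Matrix.det_conjTranspose]
    exact mul_ne_zero hB (star_ne_zero.2 hydet)
  have hPC : ∀ z ∈ O, (fun l => P (z, cj (y l))) = Matrix.vecMul (fun j => φ j z) C := by
    intro z hz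
    funext l
    rw [hpol z hz (y l) (hyO l), Fintype.sum_prod_type]
    simp only [Matrix.vecMul, dotProduct, C, Matrix.mul_apply, Matrix.conjTranspose_apply, Y,
      Matrix.of_apply, Finset.mul_sum, RCLike.star_def]
    refine Finset.sum_congr rfl fun j _ => Finset.sum_congr rfl fun i _ => by ring
  refine ⟨fun j z => ∑ l, P (z, cj (y l)) * C⁻¹ l j, ?_, ?_⟩
  · intro j z hz
    refine Finset.analyticAt_fun_sum _ fun l _ => AnalyticAt.mul ?_ analyticAt_const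
    exact AnalyticAt.comp_of_eq (g := P) (hP z hz (y l) (hyO l).1)
      (analyticAt_id.prod analyticAt_const) rfl
  · intro j z hz
    have h1 : Matrix.vecMul (fun l => P (z, cj (y l))) C⁻¹ = fun j => φ j z := by
      rw [hPC z hz, Matrix.vecMul_vecMul, Matrix.mul_nonsing_inv _ (isUnit_iff_ne_zero.2 hC),
        Matrix.vecMul_one]
    exact congrFun h1 j

/-- extension to a larger ball -/
lemma extend_step (hp : AnalyticOnNhd ℝ p univ) {δ R T ρ : ℝ} (hδ : 0 < δ) (hδR : δ ≤ R)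
    (hRT : R ≤ T) (hρ : 0 < ρ)
    (hloc : ∀ b ∈ closedBall (0 : Fin n → ℂ) T, ∃ P : (Fin n → ℂ) × (Fin n → ℂ) → ℂ,
      (∀ x ∈ ball b ρ, ∀ y ∈ ball b ρ, AnalyticAt ℂ P (x, cj y)) ∧
      (∀ x ∈ ball b ρ, P (x, cj x) = (p x : ℂ)))
    {φ : Fin r → (Fin n → ℂ) → ℂ} {B : Matrix (Fin r) (Fin r) ℂ} (hB : B.det ≠ 0)
    (hφ : ∀ j, AnalyticOnNhd ℂ (φ j) (ball 0 R))
    (hrep : ∀ z ∈ ball (0 : Fin n → ℂ) δ, (p z : ℂ) = ∑ q : Fin r × Fin r,
      (φ q.1 z * B q.1 q.2) * conj (φ q.2 z)) {x : Fin r → (Fin n → ℂ)}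
    (hx : ∀ i, x i ∈ ball (0 : Fin n → ℂ) δ)
    (hdet : (Matrix.of fun i j => φ j (x i)).det ≠ 0) :
    ∃ φ' : Fin r → (Fin n → ℂ) → ℂ, (∀ j, AnalyticOnNhd ℂ (φ' j) (ball 0 (R + ρ / 2))) ∧
      ∀ j, ∀ z ∈ ball (0 : Fin n → ℂ) R, φ' j z = φ j z := by
  classical
  have hR : 0 < R := lt_of_lt_of_le hδ hδR
  have hex : ∀ b : Fin n → ℂ, ∃ g : Fin r → (Fin n → ℂ) → ℂ, b ∈ ball (0 : Fin n → ℂ) R →
      (∀ j, AnalyticOnNhd ℂ (g j) (ball b ρ)) ∧
      ∀ j, ∀ z ∈ ball b ρ ∩ ball (0 : Fin n → ℂ) R, g j z = φ j z := by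
    intro b
    by_cases hb : b ∈ ball (0 : Fin n → ℂ) R
    · obtain ⟨P, hP, hPp⟩ := hloc b (by
        rw [mem_closedBall_zero_iff]
        exact ((mem_ball_zero_iff.1 hb).le).trans hRT)
      obtain ⟨g, hg⟩ := exists_local_ext hp hδ hδR hρ hB hφ hrep hx hdet hb hP hPp
      exact ⟨g, fun _ => hg⟩
    · exact ⟨0, fun h => absurd h hb⟩
  choose g hg using hex
  set θ : ℝ := R / (R + ρ / 2) with hθ
  have hθ0 : 0 < θ := by positivity
  have hθ1 : θ < 1 := by rw [hθ, div_lt_one (by positivity)]; linarith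
  have hθR : θ * (R + ρ / 2) = R := by rw [hθ]; field_simp
  have hmemθ : ∀ z ∈ ball (0 : Fin n → ℂ) (R + ρ / 2), θ • z ∈ ball (0 : Fin n → ℂ) R := by
    intro z hz
    rw [mem_ball_zero_iff] at *
    rw [norm_smul, Real.norm_of_nonneg hθ0.le, ← hθR]
    gcongr
  have hdist : ∀ z ∈ ball (0 : Fin n → ℂ) (R + ρ / 2), ‖z - θ • z‖ < ρ / 2 := by
    intro z hz
    rw [mem_ball_zero_iff] at hz
    have e1 : z - θ • z = (1 - θ) • z := by rw [sub_smul, one_smul]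
    rw [e1, norm_smul, Real.norm_of_nonneg (by linarith)]
    calc (1 - θ) * ‖z‖ < (1 - θ) * (R + ρ / 2) := by
          apply mul_lt_mul_of_pos_left hz (by linarith)
      _ = ρ / 2 := by rw [sub_mul, hθR]; ring
  refine ⟨fun j z => g (θ • z) j z, ?_, ?_⟩
  · intro j z hz
    have hzθ := hmemθ z hz
    have hz2 := hdist z hz
    have hana : AnalyticAt ℂ (g (θ • z) j) z := (hg _ hzθ).1 j z (by
      rw [mem_ball_iff_norm]; linarith)
    refine hana.congr ?_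
    have hnear : ∀ᶠ z' in 𝓝 z, ‖z' - z‖ < ρ / 2 := by
      have := ball_mem_nhds z (show 0 < ρ / 2 by positivity)
      filter_upwards [this] with z' hz'
      rwa [mem_ball_iff_norm] at hz'
    filter_upwards [hnear, isOpen_ball.mem_nhds hz] with z' hz'1 hz'2
    have hz'θ := hmemθ z' hz'2
    have hz'd := hdist z' hz'2
    set b := θ • z with hb
    set b' := θ • z' with hb'
    have hbb' : ‖b - b'‖ < ρ := by
      have : b - b' = θ • (z - z') := by rw [hb, hb', smul_sub]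
      rw [this, norm_smul, Real.norm_of_nonneg hθ0.le, norm_sub_rev]
      nlinarith [norm_nonneg (z' - z)]
    set W := ball b ρ ∩ ball b' ρ with hW
    have hWc : Convex ℝ W := (convex_ball _ _).inter (convex_ball _ _)
    have hbW : b ∈ W := ⟨mem_ball_self hρ, by rw [mem_ball_iff_norm]; exact hbb'⟩
    have hz'W : z' ∈ W := by
      constructor
      · rw [mem_ball_iff_norm]
        calc ‖z' - b‖ = ‖(z' - z) + (z - b)‖ := by congr 1; abel
          _ ≤ ‖z' - z‖ + ‖z - b‖ := norm_add_le _ _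
          _ < ρ := by linarith
      · rw [mem_ball_iff_norm]; linarith
    have h1 : AnalyticOnNhd ℂ (g b j) W := fun w hw => (hg _ hzθ).1 j w hw.1
    have h2 : AnalyticOnNhd ℂ (g b' j) W := fun w hw => (hg _ hz'θ).1 j w hw.2
    have h3 : g b j =ᶠ[𝓝 b] g b' j := by
      have hWo : IsOpen (W ∩ ball (0 : Fin n → ℂ) R) :=
        (isOpen_ball.inter isOpen_ball).inter isOpen_ball
      filter_upwards [hWo.mem_nhds ⟨hbW, hzθ⟩] with w hw
      rw [(hg _ hzθ).2 j w ⟨hw.1.1, hw.2⟩, (hg _ hz'θ).2 j w ⟨hw.1.2, hw.2⟩]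
    exact h1.eqOn_of_preconnected_of_eventuallyEq h2 hWc.isPreconnected hbW h3 hz'W
  · intro j z hz
    have hz2 : z ∈ ball (0 : Fin n → ℂ) (R + ρ / 2) := ball_subset_ball (by linarith) hz
    have h1 := hdist z hz2
    exact (hg _ (hmemθ z hz2)).2 j z ⟨by rw [mem_ball_iff_norm]; linarith, hz⟩

/-- uniform local complexification on closed balls -/
lemma exists_uniform (hp : AnalyticOnNhd ℝ p univ) (T : ℝ) : ∃ ρ : ℝ, 0 < ρ ∧
    ∀ b ∈ closedBall (0 : Fin n → ℂ) T, ∃ P : (Fin n → ℂ) × (Fin n → ℂ) → ℂ,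
      (∀ x ∈ ball b ρ, ∀ y ∈ ball b ρ, AnalyticAt ℂ P (x, cj y)) ∧
      (∀ x ∈ ball b ρ, P (x, cj x) = (p x : ℂ)) := by
  have hloc : ∀ a : Fin n → ℂ, ∃ (ρ : ℝ) (P : (Fin n → ℂ) × (Fin n → ℂ) → ℂ), 0 < ρ ∧
      (∀ x ∈ ball a ρ, ∀ y ∈ ball a ρ, AnalyticAt ℂ P (x, cj y)) ∧
      (∀ x ∈ ball a ρ, P (x, cj x) = (p x : ℂ)) := by
    intro a
    have h1 : AnalyticAt ℝ (fun z => (p z : ℂ)) a :=
      AnalyticAt.comp_of_eq (g := fun x : ℝ => (x : ℂ)) (Complex.ofRealCLM.analyticAt _)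
        (hp a (mem_univ a)) rfl
    obtain ⟨P, hP1, hP2⟩ := Pool.Agent.Results.MP_51bf1a_an.JetDet.exists_complexification h1
    have h3 : ∀ᶠ q in 𝓝 (a, cj a), AnalyticAt ℂ P q := hP1.eventually_analyticAt
    have h4 : ∀ᶠ q : (Fin n → ℂ) × (Fin n → ℂ) in 𝓝 (a, a), AnalyticAt ℂ P (q.1, cj q.2) := by
      have hc : Continuous (fun q : (Fin n → ℂ) × (Fin n → ℂ) => (q.1, cj q.2)) :=
        continuous_fst.prodMk (continuous_cj.comp continuous_snd)
      exact (hc.tendsto (a, a)).eventually h3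
    obtain ⟨ρ₁, hρ₁, hb₁⟩ := Metric.eventually_nhds_iff_ball.1 h4
    obtain ⟨ρ₂, hρ₂, hb₂⟩ := Metric.eventually_nhds_iff_ball.1 hP2
    refine ⟨min ρ₁ ρ₂, P, lt_min hρ₁ hρ₂, ?_, ?_⟩
    · intro x hx y hy
      refine hb₁ (x, y) ?_
      rw [mem_ball, Prod.dist_eq]
      exact max_lt ((mem_ball.1 hx).trans_le (min_le_left _ _)) ((mem_ball.1 hy).trans_le (min_le_left _ _))
    · intro x hx
      exact hb₂ x ((mem_ball.1 hx).trans_le (min_le_right _ _))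
  choose ρa Pa hρa hPa1 hPa2 using hloc
  obtain ⟨ρ, hρ, hleb⟩ := lebesgue_number_lemma_of_metric (isCompact_closedBall (0 : Fin n → ℂ) T)
    (c := fun a : Fin n → ℂ => ball a (ρa a)) (fun a => isOpen_ball)
    (fun b _ => mem_iUnion.2 ⟨b, mem_ball_self (hρa b)⟩)
  refine ⟨ρ, hρ, fun b hb => ?_⟩
  obtain ⟨a, ha⟩ := hleb b hb
  exact ⟨Pa a, fun x hx y hy => hPa1 a x (ha hx) y (ha hy), fun x hx => hPa2 a x (ha hx)⟩

/-- extension to every ball -/
lemma extend_ball (hp : AnalyticOnNhd ℝ p univ) {δ : ℝ} (hδ : 0 < δ)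
    {φ : Fin r → (Fin n → ℂ) → ℂ} {B : Matrix (Fin r) (Fin r) ℂ} (hB : B.det ≠ 0)
    (hφ : ∀ j, AnalyticOnNhd ℂ (φ j) (ball 0 δ))
    (hrep : ∀ z ∈ ball (0 : Fin n → ℂ) δ, (p z : ℂ) = ∑ q : Fin r × Fin r,
      (φ q.1 z * B q.1 q.2) * conj (φ q.2 z)) {x : Fin r → (Fin n → ℂ)}
    (hx : ∀ i, x i ∈ ball (0 : Fin n → ℂ) δ)
    (hdet : (Matrix.of fun i j => φ j (x i)).det ≠ 0) (T : ℝ) (hT : δ ≤ T) :
    ∃ φ' : Fin r → (Fin n → ℂ) → ℂ, (∀ j, AnalyticOnNhd ℂ (φ' j) (ball 0 T)) ∧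
      ∀ j, ∀ z ∈ ball (0 : Fin n → ℂ) δ, φ' j z = φ j z := by
  obtain ⟨ρ, hρ, hloc⟩ := exists_uniform hp T
  have key : ∀ N : ℕ, ∃ φ' : Fin r → (Fin n → ℂ) → ℂ,
      (∀ j, AnalyticOnNhd ℂ (φ' j) (ball 0 (min (δ + N * (ρ / 2)) T))) ∧
      ∀ j, ∀ z ∈ ball (0 : Fin n → ℂ) δ, φ' j z = φ j z := by
    intro N
    induction N with
    | zero =>
      refine ⟨φ, ?_, fun _ _ _ => rfl⟩
      simp only [Nat.cast_zero, zero_mul, add_zero, min_eq_left hT]
      exact hφ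
    | succ N ih =>
      obtain ⟨ψ, hψ, hψφ⟩ := ih
      have hδR : δ ≤ min (δ + N * (ρ / 2)) T := le_min (by nlinarith [Nat.cast_nonneg (α := ℝ) N]) hT
      obtain ⟨φ', h1, h2⟩ := extend_step hp hδ hδR (min_le_right _ _) hρ hloc hB hψ
        (fun z hz => by
          rw [hrep z hz]
          refine Finset.sum_congr rfl fun q _ => ?_
          rw [hψφ _ z hz, hψφ _ z hz]) hx
        (by
          have : (Matrix.of fun i j => ψ j (x i)) = Matrix.of fun i j => φ j (x i) := by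
            ext i j; exact hψφ j _ (hx i)
          rw [this]; exact hdet)
      refine ⟨φ', fun j => (h1 j).mono (ball_subset_ball ?_), fun j z hz => ?_⟩
      · push_cast
        rcases le_total (δ + N * (ρ / 2)) T with h | h
        · rw [min_eq_left h]
          refine (min_le_left _ _).trans ?_
          linarith
        · rw [min_eq_right h]
          refine (min_le_right _ _).trans ?_
          linarith
      · rw [h2 j z (ball_subset_ball hδR hz), hψφ j z hz]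
  obtain ⟨N, hN⟩ := exists_nat_gt (T / (ρ / 2))
  obtain ⟨φ', h1, h2⟩ := key N
  have : min (δ + N * (ρ / 2)) T = T := by
    apply min_eq_right
    rw [div_lt_iff₀ (by positivity)] at hN
    linarith
  rw [this] at h1
  exact ⟨φ', h1, h2⟩

/-- extension to the whole space -/
lemma extend_all (hp : AnalyticOnNhd ℝ p univ) {δ : ℝ} (hδ : 0 < δ)
    {φ : Fin r → (Fin n → ℂ) → ℂ} {B : Matrix (Fin r) (Fin r) ℂ} (hB : B.det ≠ 0)
    (hφ : ∀ j, AnalyticOnNhd ℂ (φ j) (ball 0 δ))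
    (hrep : ∀ z ∈ ball (0 : Fin n → ℂ) δ, (p z : ℂ) = ∑ q : Fin r × Fin r,
      (φ q.1 z * B q.1 q.2) * conj (φ q.2 z)) {x : Fin r → (Fin n → ℂ)}
    (hx : ∀ i, x i ∈ ball (0 : Fin n → ℂ) δ)
    (hdet : (Matrix.of fun i j => φ j (x i)).det ≠ 0) :
    ∃ f : Fin r → (Fin n → ℂ) → ℂ, (∀ j, AnalyticOnNhd ℂ (f j) univ) ∧
      ∀ z, (p z : ℂ) = ∑ q : Fin r × Fin r, (f q.1 z * B q.1 q.2) * conj (f q.2 z) := by
  have hex : ∀ N : ℕ, ∃ φ' : Fin r → (Fin n → ℂ) → ℂ,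
      (∀ j, AnalyticOnNhd ℂ (φ' j) (ball 0 (δ + N))) ∧
      ∀ j, ∀ z ∈ ball (0 : Fin n → ℂ) δ, φ' j z = φ j z := fun N =>
    extend_ball hp hδ hB hφ hrep hx hdet _ (by linarith [Nat.cast_nonneg (α := ℝ) N])
  choose Φ hΦ1 hΦ2 using hex
  have hagree : ∀ N M : ℕ, ∀ j, ∀ z ∈ ball (0 : Fin n → ℂ) (δ + N), z ∈ ball (0 : Fin n → ℂ) (δ + M) →
      Φ N j z = Φ M j z := by
    intro N M j z hzN hzM
    have hzm : z ∈ ball (0 : Fin n → ℂ) (min (δ + N) (δ + M)) := by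
      rw [mem_ball_zero_iff] at *; exact lt_min hzN hzM
    have h1 : AnalyticOnNhd ℂ (Φ N j) (ball 0 (min (δ + N) (δ + M))) :=
      (hΦ1 N j).mono (ball_subset_ball (min_le_left _ _))
    have h2 : AnalyticOnNhd ℂ (Φ M j) (ball 0 (min (δ + N) (δ + M))) :=
      (hΦ1 M j).mono (ball_subset_ball (min_le_right _ _))
    have h3 : Φ N j =ᶠ[𝓝 0] Φ M j := by
      filter_upwards [ball_mem_nhds (0 : Fin n → ℂ) hδ] with w hw
      rw [hΦ2 N j w hw, hΦ2 M j w hw]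
    exact h1.eqOn_of_preconnected_of_eventuallyEq h2 (convex_ball _ _).isPreconnected
      (mem_ball_self (lt_min (by positivity) (by positivity))) h3 hzm
  let f : Fin r → (Fin n → ℂ) → ℂ := fun j z => Φ (⌈‖z‖⌉₊) j z
  have hfin : ∀ z : Fin n → ℂ, z ∈ ball (0 : Fin n → ℂ) (δ + (⌈‖z‖⌉₊ : ℕ)) := by
    intro z
    rw [mem_ball_zero_iff]
    have := Nat.le_ceil ‖z‖
    linarith
  have hfeq : ∀ N : ℕ, ∀ j, ∀ z ∈ ball (0 : Fin n → ℂ) (δ + N), f j z = Φ N j z :=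
    fun N j z hz => hagree _ _ j z (hfin z) hz
  have hfan : ∀ j, AnalyticOnNhd ℂ (f j) univ := by
    intro j z _
    refine (hΦ1 ⌈‖z‖⌉₊ j z (hfin z)).congr ?_
    filter_upwards [isOpen_ball.mem_nhds (hfin z)] with w hw using (hfeq _ j w hw).symm
  refine ⟨f, hfan, fun z => ?_⟩
  have hrepf : ∀ z ∈ ball (0 : Fin n → ℂ) δ, (p z : ℂ) = ∑ q : Fin r × Fin r,
      (f q.1 z * B q.1 q.2) * conj (f q.2 z) := by
    intro w hw
    have h0 : ∀ j, f j w = φ j w := by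
      intro j
      rw [hfeq 0 j w (by simpa using hw), hΦ2 0 j w hw]
    simp only [h0]
    exact hrep w hw
  exact rep_ball hp hδ (R := δ + ⌈‖z‖⌉₊) (by linarith [Nat.cast_nonneg (α := ℝ) ⌈‖z‖⌉₊])
    (fun j => (hfan j).mono (subset_univ _)) hrepf z (hfin z)

end ext

end Pool.Agent.H326R3.HR
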