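import Mathlib
import Pool.Agent.H326R3.HR5

set_option autoImplicit false

/-! Diagonalisation and the final statement (for S04349), part 6. -/

open scoped Topology ComplexConjugate
open Set Filter Metric Module Submodule

namespace Pool.Agent.H326R3.HR

/-- diagonalisation of a hermitian form in functions -/
lemma diagonalise {X : Type*} {r : ℕ} {B : Matrix (Fin r) (Fin r) ℂ} (hB : B.IsHermitian)
    (f : Fin r → X → ℂ) (p : X → ℝ)
    (hp : ∀ z, (p z : ℂ) = ∑ q : Fin r × Fin r, (f q.1 z * B q.1 q.2) * conj (f q.2 z)) :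
    ∃ (ε : Fin r → ℝ) (c : Fin r → Fin r → ℂ), (∀ j, ε j = 1 ∨ ε j = -1) ∧
      ∀ z, p z = ∑ l, ε l * Complex.normSq (∑ j, c l j * f j z) := by
  classical
  set U : Matrix (Fin r) (Fin r) ℂ := (hB.eigenvectorUnitary : Matrix (Fin r) (Fin r) ℂ) with hU
  set lam : Fin r → ℝ := hB.eigenvalues with hlam
  have hsp : ∀ j i, B j i = ∑ l, U j l * (lam l : ℂ) * conj (U i l) := by
    intro j i
    have h1 := hB.spectral_theorem
    rw [Unitary.conjStarAlgAut_apply] at h1
    have h2 := congrFun (congrFun h1 j) i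
    rw [h2, Matrix.mul_apply]
    refine Finset.sum_congr rfl fun l _ => ?_
    rw [Matrix.mul_diagonal]
    simp [hU, hlam, Matrix.star_apply]
  refine ⟨fun l => if 0 ≤ lam l then 1 else -1, fun l j => (Real.sqrt |lam l| : ℂ) * U j l, ?_, ?_⟩
  · intro l
    by_cases h : 0 ≤ lam l
    · left; simp [h]
    · right; simp [h]
  · intro z
    have hc : ((∑ l, (if 0 ≤ lam l then (1 : ℝ) else -1) *
        Complex.normSq (∑ j, ((Real.sqrt |lam l| : ℂ) * U j l) * f j z) : ℝ) : ℂ) = (p z : ℂ) := by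
      rw [hp z, Fintype.sum_prod_type]
      push_cast
      simp only [hsp, Finset.mul_sum, Finset.sum_mul]
      have hR : ∑ x, ∑ y, ∑ l, f x z * (U x l * (lam l : ℂ) * conj (U y l)) * conj (f y z) =
          ∑ l, (lam l : ℂ) * ((∑ x, U x l * f x z) * conj (∑ y, U y l * f y z)) := by
        have e1 : ∀ x, ∑ y, ∑ l, f x z * (U x l * (lam l : ℂ) * conj (U y l)) * conj (f y z) =
            ∑ l, ∑ y, f x z * (U x l * (lam l : ℂ) * conj (U y l)) * conj (f y z) :=
          fun x => Finset.sum_comm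
        simp_rw [e1]
        rw [Finset.sum_comm]
        refine Finset.sum_congr rfl fun l _ => ?_
        rw [map_sum, Finset.sum_mul_sum, Finset.mul_sum]
        refine Finset.sum_congr rfl fun x _ => ?_
        rw [Finset.mul_sum]
        refine Finset.sum_congr rfl fun y _ => ?_
        rw [map_mul]; ring
      rw [hR]
      refine Finset.sum_congr rfl fun l _ => ?_
      have e2 : ∑ j, ((Real.sqrt |lam l| : ℂ) * U j l) * f j z =
          (Real.sqrt |lam l| : ℂ) * ∑ x, U x l * f x z := by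
        rw [Finset.mul_sum]
        exact Finset.sum_congr rfl fun x _ => by ring
      rw [e2, Complex.normSq_mul, Complex.normSq_ofReal, Real.mul_self_sqrt (abs_nonneg _),
        Complex.mul_conj]
      by_cases h : 0 ≤ lam l
      · rw [if_pos h, abs_of_nonneg h]; push_cast; ring
      · rw [if_neg h, abs_of_neg (not_le.1 h)]; push_cast; ring
    exact_mod_cast hc.symm

/-- padding with zero functions -/
lemma pad {X : Type*} {c r : ℕ} (h : r ≤ c) (ε : Fin r → ℝ) (f : Fin r → X → ℂ)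
    (hε : ∀ j, ε j = 1 ∨ ε j = -1) :
    ∃ (ε' : Fin c → ℝ) (f' : Fin c → X → ℂ), (∀ j, ε' j = 1 ∨ ε' j = -1) ∧
      (∀ j, (∃ i, f' j = f i) ∨ f' j = 0) ∧
      ∀ z, ∑ j, ε' j * Complex.normSq (f' j z) = ∑ j, ε j * Complex.normSq (f j z) := by
  obtain ⟨s, rfl⟩ := Nat.exists_eq_add_of_le h
  refine ⟨Fin.append ε (fun _ => 1), Fin.append f (fun _ => 0), ?_, ?_, ?_⟩
  · intro j
    refine Fin.addCases (fun i => ?_) (fun i => ?_) j
    · rw [Fin.append_left]; exact hε i
    · rw [Fin.append_right]; left; rfl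
  · intro j
    refine Fin.addCases (fun i => ?_) (fun i => ?_) j
    · left; exact ⟨i, by rw [Fin.append_left]⟩
    · right; rw [Fin.append_right]
  · intro z
    rw [Fin.sum_univ_add]
    simp

/-- The main theorem in the form `n = m + 2`. -/
theorem main (m k : ℕ) (p : (Fin (m + 2) → ℂ) → ℝ) (hp : AnalyticOnNhd ℝ p univ)
    (hyp : HypRank m k p) :
    ∃ (ε : Fin (k * k * (k * k)) → ℝ) (f : Fin (k * k * (k * k)) → (Fin (m + 2) → ℂ) → ℂ),
      (∀ j, ε j = 1 ∨ ε j = -1) ∧ (∀ j, Differentiable ℂ (f j)) ∧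
      ∀ z, p z = ∑ j, ε j * Complex.normSq (f j z) := by
  obtain ⟨ρ, hρ, hloc⟩ := exists_uniform hp 1
  obtain ⟨P, hP, hPp⟩ := hloc 0 (by simp)
  obtain ⟨r, δ, φ, B, x, hr, hδ, hφ, hB, hBdet, hrep, hx, hdet⟩ := local_rep hyp hρ hP hPp
  obtain ⟨f, hf, hpf⟩ := extend_all hp hδ hBdet hφ hrep hx hdet
  obtain ⟨ε, c, hε, hpc⟩ := diagonalise hB f p hpf
  obtain ⟨ε', f', hε', hf', hsum⟩ := pad hr ε (fun l z => ∑ j, c l j * f j z) hε
  refine ⟨ε', f', hε', ?_, ?_⟩
  · intro j
    rcases hf' j with ⟨i, hi⟩ | hi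
    · rw [hi]
      intro z
      refine DifferentiableAt.fun_sum fun l _ => ?_
      exact ((hf l z (mem_univ z)).differentiableAt).const_mul _
    · rw [hi]
      intro z
      exact differentiableAt_const _
  · intro z
    rw [hsum, hpc]

end Pool.Agent.H326R3.HR
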