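import Mathlib

set_option autoImplicit false

/-! The quadric surface `xy = z^2 - 1`: coordinate ring, primeness, smoothness (for S03708). -/

open MvPolynomial

namespace Pool.Agent.H326R3.Quad

noncomputable section

/-- the polynomial ring -/
abbrev Pol := MvPolynomial (Fin 3) ℂ

/-- the equation `xy - z^2 + 1` -/
def eqn : Pol := X 1 * X 0 + (1 - X 2 ^ 2)

/-- the ideal -/
def I : Ideal Pol := Ideal.span {eqn}

/-- the coordinate ring -/
abbrev A := Pol ⧸ I

def x : A := Ideal.Quotient.mk I (X 0)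
def y : A := Ideal.Quotient.mk I (X 1)
def z : A := Ideal.Quotient.mk I (X 2)

lemma rel : x * y = z ^ 2 - 1 := by
  have h : Ideal.Quotient.mk I eqn = 0 :=
    Ideal.Quotient.eq_zero_iff_mem.2 (Ideal.mem_span_singleton_self _)
  have h2 : y * x + (1 - z ^ 2) = 0 := by
    rw [← h]; simp only [eqn, x, y, z, map_add, map_mul, map_sub, map_pow, map_one]
  linear_combination h2

lemma irreducible_eqn : Irreducible eqn := by
  unfold eqn
  apply MvPolynomial.irreducible_mul_X_add
  · exact X_ne_zero 1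
  · rw [vars_X]; simp
  · intro h
    have h1 : (1 - X 2 ^ 2 : Pol).vars ⊆ {2} := by
      refine (vars_sub_subset _ ).trans ?_
      rw [show (1 : Pol) = C 1 from rfl, vars_C]
      simp only [Finset.empty_union]
      exact (vars_pow _ _).trans (by rw [vars_X])
    have := h1 h
    simp at this
  · have hirr : Irreducible (X 1 : Pol) := (MvPolynomial.X_prime (i := 1)).irreducible
    rw [hirr.isRelPrime_iff_not_dvd]
    rintro ⟨q, hq⟩
    have := congrArg (eval (fun _ : Fin 3 => (0 : ℂ))) hq
    simp at this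

lemma isPrime_I : I.IsPrime := by
  unfold I
  rw [Ideal.span_singleton_prime irreducible_eqn.ne_zero]
  exact irreducible_eqn.prime

lemma eval_eqn (p : Fin 3 → ℂ) : eval p eqn = p 1 * p 0 + (1 - p 2 ^ 2) := by
  simp [eqn]

lemma mem_zero_iff (p : Fin 3 → ℂ) : (∀ f ∈ I, eval p f = 0) ↔ p 0 * p 1 = p 2 ^ 2 - 1 := by
  constructor
  · intro h
    have h1 := h eqn (Ideal.mem_span_singleton_self _)
    rw [eval_eqn] at h1
    linear_combination h1
  · intro h f hf
    obtain ⟨g, rfl⟩ := Ideal.mem_span_singleton'.1 hf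
    rw [map_mul, eval_eqn]
    have : p 1 * p 0 + (1 - p 2 ^ 2) = 0 := by linear_combination h
    rw [this, mul_zero]

lemma not_isMaximal_I : ¬ I.IsMaximal := by
  intro hmax
  let p1 : Fin 3 → ℂ := ![-1, 1, 0]
  let p2 : Fin 3 → ℂ := ![1, -1, 0]
  have h1 : ∀ f ∈ I, eval p1 f = 0 := (mem_zero_iff p1).2 (by simp [p1])
  have h2 : ∀ f ∈ I, eval p2 f = 0 := (mem_zero_iff p2).2 (by simp [p2])
  have hle : I ≤ RingHom.ker (eval p1) := fun f hf => h1 f hf
  have hne : RingHom.ker (eval p1 : Pol →+* ℂ) ≠ ⊤ := RingHom.ker_ne_top _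
  have heq := hmax.eq_of_le hne hle
  have h3 : (X 0 + 1 : Pol) ∈ I := by
    rw [heq, RingHom.mem_ker]
    simp [p1]
  have := h2 _ h3
  simp [p2] at this

/-- Algebra homs out of the coordinate ring. -/
def homOf {B : Type*} [CommRing B] [Algebra ℂ B] (v : Fin 3 → B)
    (h : v 1 * v 0 + (1 - v 2 ^ 2) = 0) : A →ₐ[ℂ] B :=
  Ideal.Quotient.liftₐ I (aeval v) (by
    intro f hf
    obtain ⟨g, rfl⟩ := Ideal.mem_span_singleton'.1 hf
    rw [map_mul]
    have : aeval v eqn = 0 := by simpa [eqn] using h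
    rw [this, mul_zero])

lemma homOf_mk {B : Type*} [CommRing B] [Algebra ℂ B] (v : Fin 3 → B)
    (h : v 1 * v 0 + (1 - v 2 ^ 2) = 0) (p : Pol) :
    homOf v h (Ideal.Quotient.mk I p) = aeval v p := rfl

instance smooth_A : Algebra.Smooth ℂ A where
  formallySmooth := by
    apply Algebra.FormallySmooth.of_comp_surjective
    intro B _ _ J hJ g
    obtain ⟨b0, hb0⟩ := Ideal.Quotient.mk_surjective (g x)
    obtain ⟨b1, hb1⟩ := Ideal.Quotient.mk_surjective (g y)
    obtain ⟨b2, hb2⟩ := Ideal.Quotient.mk_surjective (g z)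
    set e : B := b1 * b0 + (1 - b2 ^ 2) with he
    have heJ : e ∈ J := by
      rw [← Ideal.Quotient.eq_zero_iff_mem, he]
      simp only [map_add, map_mul, map_sub, map_pow, map_one]
      rw [hb0, hb1, hb2]
      have := congrArg g rel
      simp only [map_mul, map_sub, map_pow, map_one] at this
      linear_combination this
    have he2 : e * e = 0 := by
      have : e * e ∈ J ^ 2 := by rw [sq]; exact Ideal.mul_mem_mul heJ heJ
      rwa [hJ, Ideal.mem_bot] at this
    set c : B := algebraMap ℂ B (1 / 2) with hc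
    have hc2 : c + c = 1 := by
      rw [hc, ← map_add]; norm_num
    set u : B := 1 + c * e with hu
    have hcond : (![u * b0, u * b1, u * b2] : Fin 3 → B) 1 * (![u * b0, u * b1, u * b2] : Fin 3 → B) 0
        + (1 - (![u * b0, u * b1, u * b2] : Fin 3 → B) 2 ^ 2) = 0 := by
      simp only [Matrix.cons_val_zero, Matrix.cons_val_one, Matrix.cons_val]
      have h1 : b1 * b0 - b2 ^ 2 = e - 1 := by rw [he]; ring
      have h2 : u * b1 * (u * b0) + (1 - (u * b2) ^ 2) = u ^ 2 * (b1 * b0 - b2 ^ 2) + 1 := by ring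
      rw [h2, h1, hu]
      linear_combination (-e) * hc2 + (2 * c + c ^ 2 * e - c ^ 2) * he2
    have hmu : ∀ b : B, Ideal.Quotient.mk J (u * b) = Ideal.Quotient.mk J b := by
      intro b
      have : Ideal.Quotient.mk J e = 0 := Ideal.Quotient.eq_zero_iff_mem.2 heJ
      rw [hu, map_mul, map_add, map_mul, this, map_one, mul_zero, add_zero, one_mul]
    refine ⟨homOf ![u * b0, u * b1, u * b2] hcond, ?_⟩
    apply AlgHom.ext
    intro a
    obtain ⟨p, rfl⟩ := Ideal.Quotient.mk_surjective a
    have key : ((Ideal.Quotient.mkₐ ℂ J).comp (homOf ![u * b0, u * b1, u * b2] hcond)).comp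
        (Ideal.Quotient.mkₐ ℂ I) = g.comp (Ideal.Quotient.mkₐ ℂ I) := by
      apply MvPolynomial.algHom_ext
      intro i
      change Ideal.Quotient.mk J (homOf ![u * b0, u * b1, u * b2] hcond (Ideal.Quotient.mk I (X i)))
        = g (Ideal.Quotient.mk I (X i))
      rw [homOf_mk, aeval_X]
      fin_cases i
      · exact (hmu b0).trans hb0
      · exact (hmu b1).trans hb1
      · exact (hmu b2).trans hb2
    exact congrArg (fun k => k p) key
  finitePresentation := by
    apply Algebra.FinitePresentation.quotient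
    exact ⟨{eqn}, by simp [I]⟩

end

end Pool.Agent.H326R3.Quad
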