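import Mathlib
import Pool.Agent.H326R3.Q1

set_option autoImplicit false

/-! Derivations of the coordinate ring of `xy = z^2 - 1`. -/

open MvPolynomial

namespace Pool.Agent.H326R3.Quad

noncomputable section

abbrev DerA := Derivation ℂ A A

lemma der_vanish (d : Derivation ℂ Pol Pol)
    (h : y * Ideal.Quotient.mk I (d (X 0)) + x * Ideal.Quotient.mk I (d (X 1)) =
      2 * z * Ideal.Quotient.mk I (d (X 2))) :
    ∀ p : Pol, Ideal.Quotient.mkₐ ℂ I p = 0 → Ideal.Quotient.mkₐ ℂ I (d p) = 0 := by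
  intro p hp
  have hp1 : Ideal.Quotient.mk I p = 0 := hp
  change Ideal.Quotient.mk I (d p) = 0
  have hp2 : p ∈ I := Ideal.Quotient.eq_zero_iff_mem.1 hp1
  obtain ⟨g, rfl⟩ := Ideal.mem_span_singleton'.1 hp2
  have he : Ideal.Quotient.mk I eqn = 0 :=
    Ideal.Quotient.eq_zero_iff_mem.2 (Ideal.mem_span_singleton_self _)
  have hd : d eqn = X 1 * d (X 0) + X 0 * d (X 1) - 2 * X 2 * d (X 2) := by
    unfold eqn
    rw [map_add, map_sub, Derivation.leibniz, Derivation.leibniz_pow, Derivation.map_one_eq_zero]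
    simp only [smul_eq_mul, nsmul_eq_mul]
    push_cast
    ring
  rw [Derivation.leibniz, smul_eq_mul, smul_eq_mul, map_add, map_mul, map_mul, he, zero_mul,
    add_zero, hd]
  simp only [map_add, map_sub, map_mul, map_ofNat]
  change Ideal.Quotient.mk I g * (y * _ + x * _ - 2 * z * _) = 0
  rw [h, sub_self, mul_zero]

lemma exists_der (a b c : A) (h : y * a + x * b = 2 * z * c) :
    ∃ D : DerA, D x = a ∧ D y = b ∧ D z = c := by
  obtain ⟨a', rfl⟩ := Ideal.Quotient.mk_surjective a
  obtain ⟨b', rfl⟩ := Ideal.Quotient.mk_surjective b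
  obtain ⟨c', rfl⟩ := Ideal.Quotient.mk_surjective c
  set d : Derivation ℂ Pol Pol := mkDerivation ℂ ![a', b', c'] with hd
  have h0 : d (X 0) = a' := by rw [hd, mkDerivation_X]; rfl
  have h1 : d (X 1) = b' := by rw [hd, mkDerivation_X]; rfl
  have h2 : d (X 2) = c' := by rw [hd, mkDerivation_X]; rfl
  have hv := der_vanish d (by rw [h0, h1, h2]; exact h)
  have hs : Function.Surjective (Ideal.Quotient.mkₐ ℂ I) := Ideal.Quotient.mkₐ_surjective ℂ I
  refine ⟨Derivation.liftOfSurjective hs hv, ?_, ?_, ?_⟩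
  · have := Derivation.liftOfSurjective_apply hs hv (X 0)
    rw [h0] at this
    exact this
  · have := Derivation.liftOfSurjective_apply hs hv (X 1)
    rw [h1] at this
    exact this
  · have := Derivation.liftOfSurjective_apply hs hv (X 2)
    rw [h2] at this
    exact this

/-- the derivation with given values -/
def der (a b c : A) (h : y * a + x * b = 2 * z * c) : DerA := (exists_der a b c h).choose

lemma der_x (a b c : A) (h : y * a + x * b = 2 * z * c) : der a b c h x = a :=
  (exists_der a b c h).choose_spec.1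
lemma der_y (a b c : A) (h : y * a + x * b = 2 * z * c) : der a b c h y = b :=
  (exists_der a b c h).choose_spec.2.1
lemma der_z (a b c : A) (h : y * a + x * b = 2 * z * c) : der a b c h z = c :=
  (exists_der a b c h).choose_spec.2.2

lemma adjoin_eq_top : Algebra.adjoin ℂ ({x, y, z} : Set A) = ⊤ := by
  rw [eq_top_iff]
  intro a _
  obtain ⟨p, rfl⟩ := Ideal.Quotient.mk_surjective a
  have h1 : p ∈ Algebra.adjoin ℂ (Set.range (X : Fin 3 → Pol)) := by
    rw [MvPolynomial.adjoin_range_X]; trivial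
  have h2 : Ideal.Quotient.mkₐ ℂ I p ∈ (Algebra.adjoin ℂ (Set.range (X : Fin 3 → Pol))).map
      (Ideal.Quotient.mkₐ ℂ I) := ⟨p, h1, rfl⟩
  rw [AlgHom.map_adjoin] at h2
  refine Algebra.adjoin_mono ?_ h2
  rintro _ ⟨_, ⟨i, rfl⟩, rfl⟩
  fin_cases i
  · exact Or.inl rfl
  · exact Or.inr (Or.inl rfl)
  · exact Or.inr (Or.inr rfl)

lemma der_ext (D E : DerA) (hx : D x = E x) (hy : D y = E y) (hz : D z = E z) : D = E := by
  apply Derivation.ext_of_adjoin_eq_top _ adjoin_eq_top
  rintro _ (rfl | rfl | rfl)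
  · exact hx
  · exact hy
  · exact hz

lemma rel_der (D : DerA) : y * D x + x * D y = 2 * z * D z := by
  have h := congrArg D rel
  rw [Derivation.leibniz, map_sub, Derivation.leibniz_pow, Derivation.map_one_eq_zero] at h
  simp only [smul_eq_mul, nsmul_eq_mul] at h
  push_cast at h
  linear_combination h

/-- Hamiltonian derivation of `x` -/
def Dx : DerA := der 0 (-(2 * z)) (-x) (by ring)
/-- Hamiltonian derivation of `y` -/
def Dy : DerA := der (2 * z) 0 y (by ring)
/-- Hamiltonian derivation of `z` -/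
def Dz : DerA := der x (-y) 0 (by ring)

@[simp] lemma Dx_x : Dx x = 0 := der_x _ _ _ _
@[simp] lemma Dx_y : Dx y = -(2 * z) := der_y _ _ _ _
@[simp] lemma Dx_z : Dx z = -x := der_z _ _ _ _
@[simp] lemma Dy_x : Dy x = 2 * z := der_x _ _ _ _
@[simp] lemma Dy_y : Dy y = 0 := der_y _ _ _ _
@[simp] lemma Dy_z : Dy z = y := der_z _ _ _ _
@[simp] lemma Dz_x : Dz x = x := der_x _ _ _ _
@[simp] lemma Dz_y : Dz y = -y := der_y _ _ _ _
@[simp] lemma Dz_z : Dz z = 0 := der_z _ _ _ _

lemma rel_Ham (g : A) : y * Dx g + x * Dy g = 2 * z * Dz g := by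
  have h : y • Dx + x • Dy = (2 * z) • Dz := by
    apply der_ext
    · simp; ring
    · simp; ring
    · simp; ring
  have := congrArg (fun D : DerA => D g) h
  simpa using this

/-- The Hamiltonian derivation of `g`. -/
def Ham (g : A) : DerA := der (-(Dx g)) (-(Dy g)) (-(Dz g)) (by linear_combination -(rel_Ham g))

@[simp] lemma Ham_x (g : A) : Ham g x = -(Dx g) := der_x _ _ _ _
@[simp] lemma Ham_y (g : A) : Ham g y = -(Dy g) := der_y _ _ _ _
@[simp] lemma Ham_z (g : A) : Ham g z = -(Dz g) := der_z _ _ _ _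

lemma Ham_add (g h : A) : Ham (g + h) = Ham g + Ham h := by
  apply der_ext <;> simp <;> ring

lemma Ham_mul (g h : A) : Ham (g * h) = g • Ham h + h • Ham g := by
  apply der_ext <;> simp <;> ring

lemma Ham_smul (c : ℂ) (h : A) : Ham (c • h) = c • Ham h := by
  apply der_ext <;> simp

lemma Ham_one : Ham 1 = 0 := by
  apply der_ext <;> simp

lemma Ham_xx : Ham x = Dx := by
  apply der_ext <;> simp
lemma Ham_yy : Ham y = Dy := by
  apply der_ext <;> simp
lemma Ham_zz : Ham z = Dz := by
  apply der_ext <;> simp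

/-- Ham as a derivation with values in derivations -/
def HamD : Derivation ℂ A DerA where
  toFun := Ham
  map_add' := Ham_add
  map_smul' := Ham_smul
  map_one_eq_zero' := Ham_one
  leibniz' := Ham_mul

lemma Ham_pow (g : A) (n : ℕ) : Ham (g ^ (n + 1)) = ((n + 1 : ℕ) : A) • g ^ n • Ham g := by
  have h := HamD.leibniz_pow g (n + 1)
  simp only [Nat.add_sub_cancel] at h
  change Ham (g ^ (n + 1)) = (n + 1) • g ^ n • Ham g at h
  rw [h, Nat.cast_smul_eq_nsmul]

end

end Pool.Agent.H326R3.Quad
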