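import Mathlib
import Pool.Agent.H326R3.Q2

set_option autoImplicit false
set_option linter.unusedSimpArgs false

/-! The overshear fields of `xy = z^2 - 1` generate all algebraic vector fields. -/

open MvPolynomial

namespace Pool.Agent.H326R3.Quad

noncomputable section

lemma der_two (D : DerA) : D 2 = 0 := by
  have := D.map_natCast 2
  simpa using this

lemma mem_congr {L : LieSubalgebra ℂ DerA} {V W : DerA} (h : V ∈ L) (e : V = W) : W ∈ L := e ▸ h

lemma smulA (c : ℂ) (g : A) : c • g = algebraMap ℂ A c * g := Algebra.smul_def c g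

lemma comm_xy (h : A) : Dx (Dy h) - Dy (Dx h) = -(2 * Dz h) := by
  have e : ⁅Dx, Dy⁆ = -((2 : A) • Dz) := by
    apply der_ext <;> simp [Derivation.commutator_apply, der_two] <;> ring
  have := congrArg (fun D : DerA => D h) e
  simpa [Derivation.commutator_apply] using this

lemma comm_zx (h : A) : Dz (Dx h) - Dx (Dz h) = Dx h := by
  have e : ⁅Dz, Dx⁆ = Dx := by
    apply der_ext <;> simp [Derivation.commutator_apply, der_two]
  have := congrArg (fun D : DerA => D h) e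
  simpa [Derivation.commutator_apply] using this

lemma comm_zy (h : A) : Dz (Dy h) - Dy (Dz h) = -(Dy h) := by
  have e : ⁅Dz, Dy⁆ = -Dy := by
    apply der_ext <;> simp [Derivation.commutator_apply, der_two]
  have := congrArg (fun D : DerA => D h) e
  simpa [Derivation.commutator_apply] using this

lemma br_zx : ⁅Dz, Dx⁆ = Dx := by
  ext h; rw [Derivation.commutator_apply, comm_zx]
lemma br_zy : ⁅Dz, Dy⁆ = -Dy := by
  ext h; rw [Derivation.commutator_apply, comm_zy]; rfl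

lemma two_Der (D : DerA) (a : A) : D (2 * a) = 2 * D a := by
  rw [two_mul, map_add, ← two_mul]

lemma br_Ham_x (h : A) : ⁅Dx, Ham h⁆ = Ham (Dx h) := by
  apply der_ext
  · simp [Derivation.commutator_apply]
  · rw [Derivation.commutator_apply]
    simp only [Ham_y, Dx_y, map_neg, two_Der, Ham_z]
    linear_combination -(comm_xy h)
  · rw [Derivation.commutator_apply]
    simp only [Ham_z, Dx_z, map_neg, Ham_x]
    linear_combination comm_zx h

lemma br_Ham_y (h : A) : ⁅Dy, Ham h⁆ = Ham (Dy h) := by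
  apply der_ext
  · rw [Derivation.commutator_apply]
    simp only [Ham_x, Dy_x, map_neg, two_Der, Ham_z]
    linear_combination comm_xy h
  · simp [Derivation.commutator_apply]
  · rw [Derivation.commutator_apply]
    simp only [Ham_z, Dy_z, map_neg, Ham_y]
    linear_combination comm_zy h

lemma br_Ham_z (h : A) : ⁅Dz, Ham h⁆ = Ham (Dz h) := by
  apply der_ext
  · rw [Derivation.commutator_apply]
    simp only [Ham_x, Dz_x, map_neg]
    linear_combination -(comm_zx h)
  · rw [Derivation.commutator_apply]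
    simp only [Ham_y, Dz_y, map_neg]
    linear_combination -(comm_zy h)
  · simp [Derivation.commutator_apply]

/-! ### Local nilpotency -/

lemma nil_mul (D : DerA) : ∀ (n k l : ℕ), k + l = n → ∀ a b : A, (⇑D)^[k] a = 0 → (⇑D)^[l] b = 0 →
    (⇑D)^[k + l] (a * b) = 0 := by
  have it0 : ∀ n : ℕ, (⇑D)^[n] (0 : A) = 0 := fun n => by
    induction n with
    | zero => rfl
    | succ n ih => rw [Function.iterate_succ_apply, map_zero, ih]
  have itadd : ∀ (n : ℕ) (a b : A), (⇑D)^[n] (a + b) = (⇑D)^[n] a + (⇑D)^[n] b := fun n => by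
    induction n with
    | zero => intro a b; rfl
    | succ n ih => intro a b; rw [Function.iterate_succ_apply, map_add, ih]; rfl
  intro n
  induction n with
  | zero =>
    intro k l hkl a b ha hb
    have hk : k = 0 := by omega
    have hl : l = 0 := by omega
    subst hk; subst hl
    have : a = 0 := ha
    rw [this, zero_mul, it0]
  | succ n ih =>
    intro k l hkl a b ha hb
    rcases Nat.eq_zero_or_pos k with rfl | hk
    · have : a = 0 := ha
      rw [this, zero_mul, it0]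
    rcases Nat.eq_zero_or_pos l with rfl | hl
    · have : b = 0 := hb
      rw [this, mul_zero, it0]
    obtain ⟨k, rfl⟩ : ∃ k', k = k' + 1 := ⟨k - 1, by omega⟩
    obtain ⟨l, rfl⟩ : ∃ l', l = l' + 1 := ⟨l - 1, by omega⟩
    have e : k + 1 + (l + 1) = (k + 1 + l) + 1 := by ring
    rw [e, Function.iterate_succ_apply, Derivation.leibniz, itadd, smul_eq_mul, smul_eq_mul]
    have h1 := ih (k + 1) l (by omega) a (D b) ha hb
    have h2 := ih k (l + 1) (by omega) (D a) b ha hb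
    rw [h1, mul_comm b, show k + 1 + l = k + (l + 1) by ring, h2, add_zero]

lemma nil_of_gens (D : DerA) (hx : ∃ k : ℕ, (⇑D)^[k] x = 0) (hy : ∃ k : ℕ, (⇑D)^[k] y = 0)
    (hz : ∃ k : ℕ, (⇑D)^[k] z = 0) : ∀ g : A, ∃ k : ℕ, (⇑D)^[k] g = 0 := by
  have it0 : ∀ n : ℕ, (⇑D)^[n] (0 : A) = 0 := fun n => by
    induction n with
    | zero => rfl
    | succ n ih => rw [Function.iterate_succ_apply, map_zero, ih]
  have itadd : ∀ (n : ℕ) (a b : A), (⇑D)^[n] (a + b) = (⇑D)^[n] a + (⇑D)^[n] b := fun n => by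
    induction n with
    | zero => intro a b; rfl
    | succ n ih => intro a b; rw [Function.iterate_succ_apply, map_add, ih]; rfl
  intro g
  have hg : g ∈ Algebra.adjoin ℂ ({x, y, z} : Set A) := by rw [adjoin_eq_top]; trivial
  induction hg using Algebra.adjoin_induction with
  | mem a ha =>
    rcases ha with rfl | rfl | rfl
    · exact hx
    · exact hy
    · exact hz
  | algebraMap r => exact ⟨1, by simp⟩
  | add a b _ _ ha hb =>
    obtain ⟨k, hk⟩ := ha
    obtain ⟨l, hl⟩ := hb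
    refine ⟨k + l, ?_⟩
    rw [itadd]
    have h1 : (⇑D)^[k + l] a = 0 := by rw [add_comm, Function.iterate_add_apply, hk, it0]
    have h2 : (⇑D)^[k + l] b = 0 := by rw [Function.iterate_add_apply, hl, it0]
    rw [h1, h2, add_zero]
  | mul a b _ _ ha hb =>
    obtain ⟨k, hk⟩ := ha
    obtain ⟨l, hl⟩ := hb
    exact ⟨k + l, nil_mul D (k + l) k l rfl a b hk hl⟩

lemma nil_Dx : ∀ g : A, ∃ k : ℕ, (⇑Dx)^[k] g = 0 := by
  apply nil_of_gens
  · exact ⟨1, by simp⟩
  · exact ⟨3, by simp [der_two]⟩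
  · exact ⟨2, by simp⟩

lemma nil_Dy : ∀ g : A, ∃ k : ℕ, (⇑Dy)^[k] g = 0 := by
  apply nil_of_gens
  · exact ⟨3, by simp [der_two]⟩
  · exact ⟨1, by simp⟩
  · exact ⟨2, by simp⟩

/-- The Lie algebra generated by the overshear fields. -/
def L : LieSubalgebra ℂ DerA :=
  LieSubalgebra.lieSpan ℂ (Derivation ℂ (MvPolynomial (Fin 3) ℂ ⧸ I) (MvPolynomial (Fin 3) ℂ ⧸ I))
          {V | ∃ Θ : Derivation ℂ (MvPolynomial (Fin 3) ℂ ⧸ I) (MvPolynomial (Fin 3) ℂ ⧸ I),
              (∀ g : MvPolynomial (Fin 3) ℂ ⧸ I, ∃ k : ℕ, (⇑Θ)^[k] g = 0) ∧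
              ∃ f : MvPolynomial (Fin 3) ℂ ⧸ I, Θ (Θ f) = 0 ∧ V = f • Θ}

lemma memL_x (f : A) (hf : Dx (Dx f) = 0) : f • Dx ∈ L :=
  LieSubalgebra.subset_lieSpan ⟨Dx, nil_Dx, f, hf, rfl⟩

lemma memL_y (f : A) (hf : Dy (Dy f) = 0) : f • Dy ∈ L :=
  LieSubalgebra.subset_lieSpan ⟨Dy, nil_Dy, f, hf, rfl⟩

lemma Dx_mem : Dx ∈ L := by
  have := memL_x 1 (by simp)
  rwa [one_smul] at this
lemma Dy_mem : Dy ∈ L := by
  have := memL_y 1 (by simp)
  rwa [one_smul] at this

lemma Dx_pow (n : ℕ) : Dx (x ^ n) = 0 := by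
  rw [Derivation.leibniz_pow, Dx_x]; simp
lemma Dy_pow (n : ℕ) : Dy (y ^ n) = 0 := by
  rw [Derivation.leibniz_pow, Dy_y]; simp

lemma ham_mem_of_smul (c : ℂ) (hc : c ≠ 0) (g : A) (h : Ham (c • g) ∈ L) : Ham g ∈ L := by
  rw [Ham_smul] at h
  have := L.smul_mem c⁻¹ h
  rwa [smul_smul, inv_mul_cancel₀ hc, one_smul] at this

lemma Ham_add_mem (g h : A) (hg : Ham g ∈ L) (hh : Ham h ∈ L) : Ham (g + h) ∈ L := by
  rw [Ham_add]; exact L.add_mem hg hh

lemma Ham_smul_mem (c : ℂ) (h : A) (hh : Ham h ∈ L) : Ham (c • h) ∈ L := by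
  rw [Ham_smul]; exact L.smul_mem c hh

lemma id_y (n m : ℕ) : (-(2 * n + 3 + m : ℂ)) • (y ^ n * z ^ (m + 2)) =
    Dx (y ^ (n + 1) * z ^ (m + 1)) + (-(m + 1 : ℂ)) • (y ^ n * z ^ m) := by
  rw [Derivation.leibniz, Derivation.leibniz_pow, Derivation.leibniz_pow, Dx_y, Dx_z]
  rw [smulA]
  try rw [smulA]
  simp only [Nat.add_sub_cancel, smul_eq_mul, nsmul_eq_mul, map_neg, map_add,
    map_mul, map_natCast, map_one, map_ofNat]
  push_cast
  linear_combination ((m : A) + 1) * y ^ n * z ^ m * rel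

lemma id_x (n m : ℕ) : (2 * n + 3 + m : ℂ) • (x ^ n * z ^ (m + 2)) =
    Dy (x ^ (n + 1) * z ^ (m + 1)) + (m + 1 : ℂ) • (x ^ n * z ^ m) := by
  rw [Derivation.leibniz, Derivation.leibniz_pow, Derivation.leibniz_pow, Dy_x, Dy_z]
  rw [smulA]
  try rw [smulA]
  simp only [Nat.add_sub_cancel, smul_eq_mul, nsmul_eq_mul, map_neg, map_add,
    map_mul, map_natCast, map_one, map_ofNat]
  push_cast
  linear_combination (-((m : A) + 1)) * x ^ n * z ^ m * rel

lemma id_y0 (n : ℕ) : (-(2 * n + 2 : ℂ)) • (y ^ n * z ^ 1) = Dx (y ^ (n + 1)) := by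
  rw [Derivation.leibniz_pow, Dx_y]
  rw [smulA]
  try rw [smulA]
  simp only [Nat.add_sub_cancel, smul_eq_mul, nsmul_eq_mul, map_neg, map_add,
    map_mul, map_natCast, map_one, map_ofNat]
  push_cast
  ring

lemma id_x0 (n : ℕ) : (2 * n + 2 : ℂ) • (x ^ n * z ^ 1) = Dy (x ^ (n + 1)) := by
  rw [Derivation.leibniz_pow, Dy_x]
  rw [smulA]
  try rw [smulA]
  simp only [Nat.add_sub_cancel, smul_eq_mul, nsmul_eq_mul, map_neg, map_add,
    map_mul, map_natCast, map_one, map_ofNat]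
  push_cast
  ring

lemma natcast_smul_mem (n : ℕ) (V : DerA) (h : V ∈ L) : (n : A) • V ∈ L := by
  have : (n : A) • V = (n : ℂ) • V := by
    ext a
    simp [smulA]
  rw [this]
  exact L.smul_mem _ h

lemma Ham_ypow (n : ℕ) : Ham (y ^ n) ∈ L := by
  rcases n with _ | n
  · rw [pow_zero, Ham_one]; exact L.zero_mem
  · rw [Ham_pow, Ham_yy]
    apply natcast_smul_mem
    exact memL_y _ (by rw [Dy_pow, map_zero])

lemma Ham_xpow (n : ℕ) : Ham (x ^ n) ∈ L := by
  rcases n with _ | n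
  · rw [pow_zero, Ham_one]; exact L.zero_mem
  · rw [Ham_pow, Ham_xx]
    apply natcast_smul_mem
    exact memL_x _ (by rw [Dx_pow, map_zero])

lemma ham_Dx_mem (g : A) (h : Ham g ∈ L) : Ham (Dx g) ∈ L := by
  rw [← br_Ham_x]; exact L.lie_mem Dx_mem h
lemma ham_Dy_mem (g : A) (h : Ham g ∈ L) : Ham (Dy g) ∈ L := by
  rw [← br_Ham_y]; exact L.lie_mem Dy_mem h

lemma ne_aux (n m : ℕ) : (2 * n + 3 + m : ℂ) ≠ 0 := by
  have : ((2 * n + 3 + m : ℕ) : ℂ) ≠ 0 := by
    rw [Nat.cast_ne_zero]; omega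
  push_cast at this
  exact this
lemma ne_aux0 (n : ℕ) : (2 * n + 2 : ℂ) ≠ 0 := by
  have : ((2 * n + 2 : ℕ) : ℂ) ≠ 0 := by
    rw [Nat.cast_ne_zero]; omega
  push_cast at this
  exact this

lemma Ham_yz_aux : ∀ m : ℕ, ∀ n : ℕ, Ham (y ^ n * z ^ m) ∈ L ∧ Ham (y ^ n * z ^ (m + 1)) ∈ L := by
  intro m
  induction m with
  | zero =>
    intro n
    constructor
    · rw [pow_zero, mul_one]; exact Ham_ypow n
    · apply ham_mem_of_smul (-(2 * n + 2 : ℂ)) (neg_ne_zero.2 (ne_aux0 n))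
      rw [zero_add, id_y0]
      exact ham_Dx_mem _ (Ham_ypow _)
  | succ m ih =>
    intro n
    refine ⟨(ih n).2, ?_⟩
    apply ham_mem_of_smul (-(2 * n + 3 + m : ℂ)) (neg_ne_zero.2 (ne_aux n m))
    rw [id_y]
    exact Ham_add_mem _ _ (ham_Dx_mem _ (ih (n + 1)).2) (Ham_smul_mem _ _ (ih n).1)

lemma Ham_xz_aux : ∀ m : ℕ, ∀ n : ℕ, Ham (x ^ n * z ^ m) ∈ L ∧ Ham (x ^ n * z ^ (m + 1)) ∈ L := by
  intro m
  induction m with
  | zero =>
    intro n
    constructor
    · rw [pow_zero, mul_one]; exact Ham_xpow n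
    · apply ham_mem_of_smul (2 * n + 2 : ℂ) (ne_aux0 n)
      rw [zero_add, id_x0]
      exact ham_Dy_mem _ (Ham_xpow _)
  | succ m ih =>
    intro n
    refine ⟨(ih n).2, ?_⟩
    apply ham_mem_of_smul (2 * n + 3 + m : ℂ) (ne_aux n m)
    rw [id_x]
    exact Ham_add_mem _ _ (ham_Dy_mem _ (ih (n + 1)).2) (Ham_smul_mem _ _ (ih n).1)

/-- Linear span of the basic monomials -/
def S : Submodule ℂ A :=
  Submodule.span ℂ ({a | ∃ n m : ℕ, a = y ^ n * z ^ m} ∪ {a | ∃ n m : ℕ, a = x ^ n * z ^ m})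

lemma S_y (n m : ℕ) : y ^ n * z ^ m ∈ S := Submodule.subset_span (Or.inl ⟨n, m, rfl⟩)
lemma S_x (n m : ℕ) : x ^ n * z ^ m ∈ S := Submodule.subset_span (Or.inr ⟨n, m, rfl⟩)

lemma S_mul_gen (g : A) (hg : ∀ n m : ℕ, g * (y ^ n * z ^ m) ∈ S ∧ g * (x ^ n * z ^ m) ∈ S)
    (a : A) (ha : a ∈ S) : g * a ∈ S := by
  unfold S at ha
  induction ha using Submodule.span_induction with
  | mem a ha =>
    rcases ha with ⟨n, m, rfl⟩ | ⟨n, m, rfl⟩
    · exact (hg n m).1
    · exact (hg n m).2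
  | zero => rw [mul_zero]; exact S.zero_mem
  | add a b _ _ ha hb => rw [mul_add]; exact S.add_mem ha hb
  | smul c a _ ha => rw [mul_smul_comm]; exact S.smul_mem c ha

lemma S_top (a : A) : a ∈ S := by
  have hx : ∀ a ∈ S, x * a ∈ S := by
    intro a ha
    apply S_mul_gen x _ a ha
    intro n m
    constructor
    · rcases n with _ | n
      · have : x * (y ^ 0 * z ^ m) = x ^ 1 * z ^ m := by ring
        rw [this]; exact S_x _ _
      · have : x * (y ^ (n + 1) * z ^ m) = y ^ n * z ^ (m + 2) - y ^ n * z ^ m := by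
          linear_combination y ^ n * z ^ m * rel
        rw [this]; exact S.sub_mem (S_y _ _) (S_y _ _)
    · have : x * (x ^ n * z ^ m) = x ^ (n + 1) * z ^ m := by ring
      rw [this]; exact S_x _ _
  have hy : ∀ a ∈ S, y * a ∈ S := by
    intro a ha
    apply S_mul_gen y _ a ha
    intro n m
    constructor
    · have : y * (y ^ n * z ^ m) = y ^ (n + 1) * z ^ m := by ring
      rw [this]; exact S_y _ _
    · rcases n with _ | n
      · have : y * (x ^ 0 * z ^ m) = y ^ 1 * z ^ m := by ring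
        rw [this]; exact S_y _ _
      · have : y * (x ^ (n + 1) * z ^ m) = x ^ n * z ^ (m + 2) - x ^ n * z ^ m := by
          linear_combination x ^ n * z ^ m * rel
        rw [this]; exact S.sub_mem (S_x _ _) (S_x _ _)
  have hz : ∀ a ∈ S, z * a ∈ S := by
    intro a ha
    apply S_mul_gen z _ a ha
    intro n m
    constructor
    · have : z * (y ^ n * z ^ m) = y ^ n * z ^ (m + 1) := by ring
      rw [this]; exact S_y _ _
    · have : z * (x ^ n * z ^ m) = x ^ n * z ^ (m + 1) := by ring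
      rw [this]; exact S_x _ _
  obtain ⟨p, rfl⟩ := Ideal.Quotient.mk_surjective a
  induction p using MvPolynomial.induction_on with
  | C c =>
    have : Ideal.Quotient.mk I (C c) = c • (y ^ 0 * z ^ 0) := by
      rw [pow_zero, pow_zero, mul_one, smulA, mul_one]; rfl
    rw [this]
    exact S.smul_mem c (S_y 0 0)
  | add p q hp hq => rw [map_add]; exact S.add_mem hp hq
  | mul_X p i hp =>
    rw [map_mul, mul_comm]
    fin_cases i
    · exact hx _ hp
    · exact hy _ hp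
    · exact hz _ hp

lemma Ham_mem (a : A) : Ham a ∈ L := by
  have ha := S_top a
  unfold S at ha
  induction ha using Submodule.span_induction with
  | mem a ha =>
    rcases ha with ⟨n, m, rfl⟩ | ⟨n, m, rfl⟩
    · exact (Ham_yz_aux m n).1
    · exact (Ham_xz_aux m n).1
  | zero =>
    have : Ham 0 = 0 := by
      have := Ham_smul 0 0
      rwa [zero_smul, zero_smul] at this
    rw [this]; exact L.zero_mem
  | add a b _ _ ha hb => exact Ham_add_mem _ _ ha hb
  | smul c a _ ha => exact Ham_smul_mem _ _ ha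

lemma br_smul (f : A) (D E : DerA) : ⁅f • D, E⁆ = f • ⁅D, E⁆ - (E f) • D := by
  ext a
  simp only [Derivation.commutator_apply, Derivation.smul_apply, Derivation.sub_apply,
    Derivation.leibniz, smul_eq_mul]
  ring

lemma yDz_mem (n : ℕ) : y ^ (n + 1) • Dz ∈ L := by
  have h1 := Ham_mem (y ^ (n + 1) * z)
  rw [Ham_mul, Ham_zz, Ham_pow, Ham_yy] at h1
  have h2 : (z * y ^ n) • Dy ∈ L := memL_y _ (by
    have : Dy (z * y ^ n) = y ^ (n + 1) := by
      rw [Derivation.leibniz, Dy_pow, Dy_z, smul_zero, zero_add, smul_eq_mul]; ring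
    rw [this, Dy_pow])
  have h3 := natcast_smul_mem (n + 1) _ h2
  have h4 := L.sub_mem h1 h3
  have e : y ^ (n + 1) • Dz + z • ((n + 1 : ℕ) : A) • y ^ n • Dy - ((n + 1 : ℕ) : A) • (z * y ^ n) • Dy
      = y ^ (n + 1) • Dz := by
    ext a
    simp only [Derivation.add_apply, Derivation.sub_apply, Derivation.smul_apply, smul_eq_mul]
    ring
  rw [e] at h4
  exact h4

lemma xDz_mem (n : ℕ) : x ^ (n + 1) • Dz ∈ L := by
  have h1 := Ham_mem (x ^ (n + 1) * z)
  rw [Ham_mul, Ham_zz, Ham_pow, Ham_xx] at h1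
  have h2 : (z * x ^ n) • Dx ∈ L := memL_x _ (by
    have : Dx (z * x ^ n) = -(x ^ (n + 1)) := by
      rw [Derivation.leibniz, Dx_pow, Dx_z, smul_zero, zero_add, smul_eq_mul]; ring
    rw [this, map_neg, Dx_pow, neg_zero])
  have h3 := natcast_smul_mem (n + 1) _ h2
  have h4 := L.sub_mem h1 h3
  have e : x ^ (n + 1) • Dz + z • ((n + 1 : ℕ) : A) • x ^ n • Dx - ((n + 1 : ℕ) : A) • (z * x ^ n) • Dx
      = x ^ (n + 1) • Dz := by
    ext a
    simp only [Derivation.add_apply, Derivation.sub_apply, Derivation.smul_apply, smul_eq_mul]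
    ring
  rw [e] at h4
  exact h4

lemma mem_of_smul (c : ℂ) (hc : c ≠ 0) (V : DerA) (h : c • V ∈ L) : V ∈ L := by
  have := L.smul_mem c⁻¹ h
  rwa [smul_smul, inv_mul_cancel₀ hc, one_smul] at this

lemma zDz_mem (m : ℕ) : z ^ m • Dz ∈ L := by
  have h := Ham_mem (z ^ (m + 1))
  rw [Ham_pow, Ham_zz] at h
  apply mem_of_smul (((m + 1 : ℕ) : ℂ)) (by rw [Nat.cast_ne_zero]; omega)
  have e : (((m + 1 : ℕ) : ℂ)) • z ^ m • Dz = ((m + 1 : ℕ) : A) • z ^ m • Dz := by
    ext a
    simp [smulA]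
  rw [e]; exact h

lemma br_aux (w : A) (k : ℕ) (m : ℕ) (ε : ℤ) (hw : Dz w = (ε : A) * w) (hε : ε ≠ 0)
    (hmem : w ^ (k + 1) • Dz ∈ L) : (w ^ (k + 1) * z ^ m) • Dz ∈ L := by
  have hb := L.lie_mem hmem (Ham_mem (z ^ (m + 1)))
  have h0 : Dz (z ^ (m + 1)) = 0 := by rw [Derivation.leibniz_pow, Dz_z]; simp
  have hH0 : Ham (0 : A) = 0 := by
    have := Ham_smul 0 0
    rwa [zero_smul, zero_smul] at this
  rw [br_smul, br_Ham_z, h0, hH0, Ham_pow, Ham_zz] at hb
  have e : (((m + 1 : ℕ) : A) • z ^ m • Dz) (w ^ (k + 1)) =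
      ((((m + 1 : ℕ) : ℂ)) * ((k + 1 : ℕ) : ℂ) * (ε : ℂ)) • (w ^ (k + 1) * z ^ m) := by
    rw [Derivation.smul_apply, Derivation.smul_apply, Derivation.leibniz_pow, hw, smulA]
    simp only [Nat.add_sub_cancel, smul_eq_mul, nsmul_eq_mul, 
      map_mul, map_natCast, map_intCast]
    ring
  rw [e] at hb
  have hb2 := mem_congr (W := (-((((m + 1 : ℕ) : ℂ)) * ((k + 1 : ℕ) : ℂ) * (ε : ℂ))) •
    ((w ^ (k + 1) * z ^ m) • Dz)) hb (by
      ext a
      simp only [Derivation.sub_apply, Derivation.smul_apply, smul_eq_mul, Derivation.zero_apply,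
        smulA, map_neg]
      ring)
  refine mem_of_smul _ ?_ _ hb2
  apply neg_ne_zero.2
  have h1 : ((m + 1 : ℕ) : ℂ) ≠ 0 := by rw [Nat.cast_ne_zero]; omega
  have h2 : ((k + 1 : ℕ) : ℂ) ≠ 0 := by rw [Nat.cast_ne_zero]; omega
  have h3 : (ε : ℂ) ≠ 0 := by exact_mod_cast hε
  exact mul_ne_zero (mul_ne_zero h1 h2) h3

lemma fDz_mem (f : A) : f • Dz ∈ L := by
  have ha := S_top f
  unfold S at ha
  induction ha using Submodule.span_induction with
  | mem a ha =>
    rcases ha with ⟨n, m, rfl⟩ | ⟨n, m, rfl⟩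
    · rcases n with _ | n
      · rw [pow_zero, one_mul]; exact zDz_mem m
      · exact br_aux y n m (-1) (by rw [Dz_y]; push_cast; ring) (by norm_num) (yDz_mem n)
    · rcases n with _ | n
      · rw [pow_zero, one_mul]; exact zDz_mem m
      · exact br_aux x n m 1 (by simp) (by norm_num) (xDz_mem n)
  | zero => exact mem_congr L.zero_mem (by ext a; simp)
  | add a b _ _ ha hb => rw [add_smul]; exact L.add_mem ha hb
  | smul c a _ ha => rw [smul_assoc]; exact L.smul_mem c ha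

lemma fDy_mem (f : A) : f • Dy ∈ L := by
  have h := L.lie_mem (fDz_mem f) Dy_mem
  rw [br_smul, br_zy] at h
  have h2 := L.neg_mem (L.add_mem h (fDz_mem (Dy f)))
  refine mem_congr h2 ?_
  ext a
  simp only [Derivation.sub_apply, Derivation.add_apply, Derivation.neg_apply, 
    Derivation.smul_apply, smul_eq_mul]
  ring

lemma fDx_mem (f : A) : f • Dx ∈ L := by
  have h := L.lie_mem (fDz_mem f) Dx_mem
  rw [br_smul, br_zx] at h
  have h2 := L.add_mem h (fDz_mem (Dx f))
  refine mem_congr h2 ?_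
  ext a
  simp only [Derivation.sub_apply, Derivation.add_apply, 
    Derivation.smul_apply, smul_eq_mul]
  ring

lemma decomp (D : DerA) : D = (algebraMap ℂ A (1 / 2) * (x * D y - y * D x)) • Dz +
    (algebraMap ℂ A (1 / 2) * (z * D x - x * D z)) • Dy +
    (algebraMap ℂ A (1 / 2) * (y * D z - z * D y)) • Dx := by
  have hc : algebraMap ℂ A (1 / 2) * 2 = 1 := by
    rw [← map_ofNat (algebraMap ℂ A) 2, ← map_mul]; norm_num
  set c := algebraMap ℂ A (1 / 2) with hcdef
  have hr := rel_der D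
  have r := rel
  apply der_ext
  · simp only [Derivation.add_apply, Derivation.smul_apply, Dz_x, Dy_x, Dx_x, smul_eq_mul]
    linear_combination (-(D x)) * hc + (-(c * x)) * hr + (2 * c * D x) * r
  · simp only [Derivation.add_apply, Derivation.smul_apply, Dz_y, Dy_y, Dx_y, smul_eq_mul]
    linear_combination (-(D y)) * hc + (-(c * y)) * hr + (2 * c * D y) * r
  · simp only [Derivation.add_apply, Derivation.smul_apply, Dz_z, Dy_z, Dx_z, smul_eq_mul]
    linear_combination (-(D z)) * hc + (-(c * z)) * hr + (2 * c * D z) * r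

theorem L_top : L = ⊤ := by
  rw [eq_top_iff]
  intro D _
  rw [decomp D]
  exact L.add_mem (L.add_mem (fDz_mem _) (fDy_mem _)) (fDx_mem _)

end

end Pool.Agent.H326R3.Quad
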