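import Mathlib
import Pool.Agent.H326R3.Q3

set_option autoImplicit false
set_option linter.unusedSimpArgs false

/-! The product of the quadric surface `xy = z^2 - 1` with `ℂ^k`: coordinate ring, primeness,
smoothness. -/

open MvPolynomial

namespace Pool.Agent.H326R3.Prd

open Pool.Agent.H326R3.Quad

noncomputable section

variable (k : ℕ)

/-- the polynomial ring -/
abbrev Pk := MvPolynomial (Fin (3 + k)) ℂ

/-- the equation `xy - z^2 + 1` -/
def eqk : Pk k := X (Fin.castAdd k 1) * X (Fin.castAdd k 0) + (1 - X (Fin.castAdd k 2) ^ 2)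

/-- the ideal -/
def Ik : Ideal (Pk k) := Ideal.span {eqk k}

/-- the coordinate ring -/
abbrev R := Pk k ⧸ Ik k

variable {k}

/-- generators -/
def gen (i : Fin (3 + k)) : R k := Ideal.Quotient.mk (Ik k) (X i)

def xk : R k := gen (Fin.castAdd k 0)
def yk : R k := gen (Fin.castAdd k 1)
def zk : R k := gen (Fin.castAdd k 2)

lemma relk : (xk : R k) * yk = zk ^ 2 - 1 := by
  have h : Ideal.Quotient.mk (Ik k) (eqk k) = 0 :=
    Ideal.Quotient.eq_zero_iff_mem.2 (Ideal.mem_span_singleton_self _)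
  have h2 : (yk : R k) * xk + (1 - zk ^ 2) = 0 := by
    rw [← h]; simp only [eqk, xk, yk, zk, gen, map_add, map_mul, map_sub, map_pow, map_one]
  linear_combination h2

lemma irreducible_eqk : Irreducible (eqk k) := by
  unfold eqk
  have h01 : (Fin.castAdd k (0 : Fin 3)) ≠ Fin.castAdd k 1 := by
    intro h; simpa using congrArg Fin.val h
  have h02 : (Fin.castAdd k (0 : Fin 3)) ≠ Fin.castAdd k 2 := by
    intro h; simpa using congrArg Fin.val h
  apply MvPolynomial.irreducible_mul_X_add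
  · exact X_ne_zero _
  · rw [vars_X]; simp
  · intro h
    have h1 : (1 - X (Fin.castAdd k 2) ^ 2 : Pk k).vars ⊆ {Fin.castAdd k 2} := by
      refine (vars_sub_subset _ ).trans ?_
      rw [show (1 : Pk k) = C 1 from rfl, vars_C]
      simp only [Finset.empty_union]
      exact (vars_pow _ _).trans (by rw [vars_X])
    have := h1 h
    rw [Finset.mem_singleton] at this
    exact h02 this
  · have hirr : Irreducible (X (Fin.castAdd k 1) : Pk k) :=
      (MvPolynomial.X_prime (i := Fin.castAdd k 1)).irreducible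
    rw [hirr.isRelPrime_iff_not_dvd]
    rintro ⟨q, hq⟩
    have := congrArg (eval (fun _ : Fin (3 + k) => (0 : ℂ))) hq
    simp at this

lemma isPrime_Ik : (Ik k).IsPrime := by
  unfold Ik
  rw [Ideal.span_singleton_prime irreducible_eqk.ne_zero]
  exact irreducible_eqk.prime

lemma eval_eqk (p : Fin (3 + k) → ℂ) : eval p (eqk k) =
    p (Fin.castAdd k 1) * p (Fin.castAdd k 0) + (1 - p (Fin.castAdd k 2) ^ 2) := by
  simp [eqk]

lemma mem_zero_iff_k (p : Fin (3 + k) → ℂ) : (∀ f ∈ Ik k, eval p f = 0) ↔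
    p (Fin.castAdd k 0) * p (Fin.castAdd k 1) = p (Fin.castAdd k 2) ^ 2 - 1 := by
  constructor
  · intro h
    have h1 := h (eqk k) (Ideal.mem_span_singleton_self _)
    rw [eval_eqk] at h1
    linear_combination h1
  · intro h f hf
    obtain ⟨g, rfl⟩ := Ideal.mem_span_singleton'.1 hf
    rw [map_mul, eval_eqk]
    have : p (Fin.castAdd k 1) * p (Fin.castAdd k 0) + (1 - p (Fin.castAdd k 2) ^ 2) = 0 := by
      linear_combination h
    rw [this, mul_zero]

/-- Algebra homs out of the coordinate ring. -/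
def homK {B : Type*} [CommRing B] [Algebra ℂ B] (v : Fin (3 + k) → B)
    (h : v (Fin.castAdd k 1) * v (Fin.castAdd k 0) + (1 - v (Fin.castAdd k 2) ^ 2) = 0) :
    R k →ₐ[ℂ] B :=
  Ideal.Quotient.liftₐ (Ik k) (aeval v) (by
    intro f hf
    obtain ⟨g, rfl⟩ := Ideal.mem_span_singleton'.1 hf
    rw [map_mul]
    have : aeval v (eqk k) = 0 := by simpa [eqk] using h
    rw [this, mul_zero])

lemma homK_mk {B : Type*} [CommRing B] [Algebra ℂ B] (v : Fin (3 + k) → B)
    (h : v (Fin.castAdd k 1) * v (Fin.castAdd k 0) + (1 - v (Fin.castAdd k 2) ^ 2) = 0)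
    (p : Pk k) : homK v h (Ideal.Quotient.mk (Ik k) p) = aeval v p := rfl

instance smooth_R : Algebra.Smooth ℂ (R k) where
  formallySmooth := by
    apply Algebra.FormallySmooth.of_comp_surjective
    intro B _ _ J hJ g
    have hb : ∀ i : Fin (3 + k), ∃ b : B, Ideal.Quotient.mk J b = g (gen i) := fun i =>
      Ideal.Quotient.mk_surjective _
    choose b hb using hb
    set b0 := b (Fin.castAdd k 0) with hb0
    set b1 := b (Fin.castAdd k 1) with hb1
    set b2 := b (Fin.castAdd k 2) with hb2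
    set e : B := b1 * b0 + (1 - b2 ^ 2) with he
    have heJ : e ∈ J := by
      rw [← Ideal.Quotient.eq_zero_iff_mem, he]
      simp only [map_add, map_mul, map_sub, map_pow, map_one]
      rw [hb0, hb1, hb2, hb, hb, hb]
      have := congrArg g relk
      simp only [map_mul, map_sub, map_pow, map_one, xk, yk, zk] at this
      linear_combination this
    have he2 : e * e = 0 := by
      have : e * e ∈ J ^ 2 := by rw [sq]; exact Ideal.mul_mem_mul heJ heJ
      rwa [hJ, Ideal.mem_bot] at this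
    set c : B := algebraMap ℂ B (1 / 2) with hc
    have hc2 : c + c = 1 := by
      rw [hc, ← map_add]; norm_num
    set u : B := 1 + c * e with hu
    let v : Fin (3 + k) → B := Fin.addCases (fun i => u * b (Fin.castAdd k i))
      (fun j => b (Fin.natAdd 3 j))
    have hv : ∀ i : Fin 3, v (Fin.castAdd k i) = u * b (Fin.castAdd k i) := fun i =>
      Fin.addCases_left i
    have hv' : ∀ j : Fin k, v (Fin.natAdd 3 j) = b (Fin.natAdd 3 j) := fun j =>
      Fin.addCases_right j
    have hcond : v (Fin.castAdd k 1) * v (Fin.castAdd k 0)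
        + (1 - v (Fin.castAdd k 2) ^ 2) = 0 := by
      rw [hv, hv, hv, ← hb0, ← hb1, ← hb2]
      have h1 : b1 * b0 - b2 ^ 2 = e - 1 := by rw [he]; ring
      have h2 : u * b1 * (u * b0) + (1 - (u * b2) ^ 2) = u ^ 2 * (b1 * b0 - b2 ^ 2) + 1 := by ring
      rw [h2, h1, hu]
      linear_combination (-e) * hc2 + (2 * c + c ^ 2 * e - c ^ 2) * he2
    have hmu : ∀ b : B, Ideal.Quotient.mk J (u * b) = Ideal.Quotient.mk J b := by
      intro b
      have : Ideal.Quotient.mk J e = 0 := Ideal.Quotient.eq_zero_iff_mem.2 heJ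
      rw [hu, map_mul, map_add, map_mul, this, map_one, mul_zero, add_zero, one_mul]
    refine ⟨homK v hcond, ?_⟩
    apply AlgHom.ext
    intro a
    obtain ⟨p, rfl⟩ := Ideal.Quotient.mk_surjective a
    have key : ((Ideal.Quotient.mkₐ ℂ J).comp (homK v hcond)).comp
        (Ideal.Quotient.mkₐ ℂ (Ik k)) = g.comp (Ideal.Quotient.mkₐ ℂ (Ik k)) := by
      apply MvPolynomial.algHom_ext
      intro i
      change Ideal.Quotient.mk J (homK v hcond (Ideal.Quotient.mk (Ik k) (X i)))
        = g (Ideal.Quotient.mk (Ik k) (X i))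
      rw [homK_mk, aeval_X]
      refine Fin.addCases (fun i => ?_) (fun j => ?_) i
      · rw [hv, hmu]; exact hb _
      · rw [hv']; exact hb _
    exact congrArg (fun k => k p) key
  finitePresentation := by
    apply Algebra.FinitePresentation.quotient
    exact ⟨{eqk k}, by simp [Ik]⟩

/-! ### Derivations -/

abbrev DerR (k : ℕ) := Derivation ℂ (R k) (R k)

lemma der_vanish_k (d : Derivation ℂ (Pk k) (Pk k))
    (h : yk * Ideal.Quotient.mk (Ik k) (d (X (Fin.castAdd k 0))) +
      xk * Ideal.Quotient.mk (Ik k) (d (X (Fin.castAdd k 1))) =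
      2 * zk * Ideal.Quotient.mk (Ik k) (d (X (Fin.castAdd k 2)))) :
    ∀ p : Pk k, Ideal.Quotient.mkₐ ℂ (Ik k) p = 0 → Ideal.Quotient.mkₐ ℂ (Ik k) (d p) = 0 := by
  intro p hp
  have hp1 : Ideal.Quotient.mk (Ik k) p = 0 := hp
  change Ideal.Quotient.mk (Ik k) (d p) = 0
  have hp2 : p ∈ Ik k := Ideal.Quotient.eq_zero_iff_mem.1 hp1
  obtain ⟨g, rfl⟩ := Ideal.mem_span_singleton'.1 hp2
  have he : Ideal.Quotient.mk (Ik k) (eqk k) = 0 :=
    Ideal.Quotient.eq_zero_iff_mem.2 (Ideal.mem_span_singleton_self _)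
  have hd : d (eqk k) = X (Fin.castAdd k 1) * d (X (Fin.castAdd k 0)) +
      X (Fin.castAdd k 0) * d (X (Fin.castAdd k 1)) -
      2 * X (Fin.castAdd k 2) * d (X (Fin.castAdd k 2)) := by
    unfold eqk
    rw [map_add, map_sub, Derivation.leibniz, Derivation.leibniz_pow, Derivation.map_one_eq_zero]
    simp only [smul_eq_mul, nsmul_eq_mul]
    push_cast
    ring
  rw [Derivation.leibniz, smul_eq_mul, smul_eq_mul, map_add, map_mul, map_mul, he, zero_mul,
    add_zero, hd]
  simp only [map_add, map_sub, map_mul, map_ofNat]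
  change Ideal.Quotient.mk (Ik k) g * (yk * _ + xk * _ - 2 * zk * _) = 0
  rw [h, sub_self, mul_zero]

lemma exists_derk (d : Fin (3 + k) → R k) (h : yk * d (Fin.castAdd k 0) + xk * d (Fin.castAdd k 1)
    = 2 * zk * d (Fin.castAdd k 2)) : ∃ D : DerR k, ∀ i, D (gen i) = d i := by
  have hd : ∀ i, ∃ a : Pk k, Ideal.Quotient.mk (Ik k) a = d i := fun i =>
    Ideal.Quotient.mk_surjective _
  choose a ha using hd
  set D : Derivation ℂ (Pk k) (Pk k) := mkDerivation ℂ a with hD
  have h0 : ∀ i, D (X i) = a i := fun i => by rw [hD, mkDerivation_X]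
  have hv := der_vanish_k D (by rw [h0, h0, h0, ha, ha, ha]; exact h)
  have hs : Function.Surjective (Ideal.Quotient.mkₐ ℂ (Ik k)) :=
    Ideal.Quotient.mkₐ_surjective ℂ (Ik k)
  refine ⟨Derivation.liftOfSurjective hs hv, fun i => ?_⟩
  have := Derivation.liftOfSurjective_apply hs hv (X i)
  rw [h0] at this
  exact this.trans (ha i)

/-- the derivation with given values -/
def derk (d : Fin (3 + k) → R k) (h : yk * d (Fin.castAdd k 0) + xk * d (Fin.castAdd k 1)
    = 2 * zk * d (Fin.castAdd k 2)) : DerR k := (exists_derk d h).choose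

lemma derk_gen (d : Fin (3 + k) → R k) (h : yk * d (Fin.castAdd k 0) + xk * d (Fin.castAdd k 1)
    = 2 * zk * d (Fin.castAdd k 2)) (i : Fin (3 + k)) : derk d h (gen i) = d i :=
  (exists_derk d h).choose_spec i

lemma adjoin_eq_top_k : Algebra.adjoin ℂ (Set.range (gen : Fin (3 + k) → R k)) = ⊤ := by
  rw [eq_top_iff]
  intro a _
  obtain ⟨p, rfl⟩ := Ideal.Quotient.mk_surjective a
  have h1 : p ∈ Algebra.adjoin ℂ (Set.range (X : Fin (3 + k) → Pk k)) := by
    rw [MvPolynomial.adjoin_range_X]; trivial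
  have h2 : Ideal.Quotient.mkₐ ℂ (Ik k) p ∈
      (Algebra.adjoin ℂ (Set.range (X : Fin (3 + k) → Pk k))).map
      (Ideal.Quotient.mkₐ ℂ (Ik k)) := ⟨p, h1, rfl⟩
  rw [AlgHom.map_adjoin] at h2
  refine Algebra.adjoin_mono ?_ h2
  rintro _ ⟨_, ⟨i, rfl⟩, rfl⟩
  exact ⟨i, rfl⟩

lemma derk_ext (D E : DerR k) (h : ∀ i, D (gen i) = E (gen i)) : D = E := by
  apply Derivation.ext_of_adjoin_eq_top _ adjoin_eq_top_k
  rintro _ ⟨i, rfl⟩
  exact h i

lemma rel_derk (D : DerR k) : yk * D xk + xk * D yk = 2 * zk * D zk := by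
  have h := congrArg D relk
  rw [Derivation.leibniz, map_sub, Derivation.leibniz_pow, Derivation.map_one_eq_zero] at h
  simp only [smul_eq_mul, nsmul_eq_mul] at h
  push_cast at h
  linear_combination h

end

/-! ### Local nilpotency in general -/

section nil

variable {S : Type*} [CommRing S] [Algebra ℂ S]

lemma nilG_mul (D : Derivation ℂ S S) : ∀ (n k l : ℕ), k + l = n → ∀ a b : S, (⇑D)^[k] a = 0 →
    (⇑D)^[l] b = 0 → (⇑D)^[k + l] (a * b) = 0 := by
  have it0 : ∀ n : ℕ, (⇑D)^[n] (0 : S) = 0 := fun n => by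
    induction n with
    | zero => rfl
    | succ n ih => rw [Function.iterate_succ_apply, map_zero, ih]
  have itadd : ∀ (n : ℕ) (a b : S), (⇑D)^[n] (a + b) = (⇑D)^[n] a + (⇑D)^[n] b := fun n => by
    induction n with
    | zero => intro a b; rfl
    | succ n ih => intro a b; rw [Function.iterate_succ_apply, map_add, ih]; rfl
  intro n
  induction n with
  | zero =>
    intro k l hkl a b ha hb
    have hk : k = 0 := by omega
    have hl : l = 0 := by omega
    subst hk; subst hl
    have : a = 0 := ha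
    rw [this, zero_mul, it0]
  | succ n ih =>
    intro k l hkl a b ha hb
    rcases Nat.eq_zero_or_pos k with rfl | hk
    · have : a = 0 := ha
      rw [this, zero_mul, it0]
    rcases Nat.eq_zero_or_pos l with rfl | hl
    · have : b = 0 := hb
      rw [this, mul_zero, it0]
    obtain ⟨k, rfl⟩ : ∃ k', k = k' + 1 := ⟨k - 1, by omega⟩
    obtain ⟨l, rfl⟩ : ∃ l', l = l' + 1 := ⟨l - 1, by omega⟩
    have e : k + 1 + (l + 1) = (k + 1 + l) + 1 := by ring
    rw [e, Function.iterate_succ_apply, Derivation.leibniz, itadd, smul_eq_mul, smul_eq_mul]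
    have h1 := ih (k + 1) l (by omega) a (D b) ha hb
    have h2 := ih k (l + 1) (by omega) (D a) b ha hb
    rw [h1, mul_comm b, show k + 1 + l = k + (l + 1) by ring, h2, add_zero]

lemma nilG_of_gens (D : Derivation ℂ S S) (s : Set S) (hs : Algebra.adjoin ℂ s = ⊤)
    (h : ∀ a ∈ s, ∃ k : ℕ, (⇑D)^[k] a = 0) : ∀ g : S, ∃ k : ℕ, (⇑D)^[k] g = 0 := by
  have it0 : ∀ n : ℕ, (⇑D)^[n] (0 : S) = 0 := fun n => by
    induction n with
    | zero => rfl
    | succ n ih => rw [Function.iterate_succ_apply, map_zero, ih]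
  have itadd : ∀ (n : ℕ) (a b : S), (⇑D)^[n] (a + b) = (⇑D)^[n] a + (⇑D)^[n] b := fun n => by
    induction n with
    | zero => intro a b; rfl
    | succ n ih => intro a b; rw [Function.iterate_succ_apply, map_add, ih]; rfl
  intro g
  have hg : g ∈ Algebra.adjoin ℂ s := by rw [hs]; trivial
  induction hg using Algebra.adjoin_induction with
  | mem a ha => exact h a ha
  | algebraMap r => exact ⟨1, by simp⟩
  | add a b _ _ ha hb =>
    obtain ⟨k, hk⟩ := ha
    obtain ⟨l, hl⟩ := hb
    refine ⟨k + l, ?_⟩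
    rw [itadd]
    have h1 : (⇑D)^[k + l] a = 0 := by rw [add_comm, Function.iterate_add_apply, hk, it0]
    have h2 : (⇑D)^[k + l] b = 0 := by rw [Function.iterate_add_apply, hl, it0]
    rw [h1, h2, add_zero]
  | mul a b _ _ ha hb =>
    obtain ⟨k, hk⟩ := ha
    obtain ⟨l, hl⟩ := hb
    exact ⟨k + l, nilG_mul D (k + l) k l rfl a b hk hl⟩

end nil

end Pool.Agent.H326R3.Prd
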