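import Mathlib
import Pool.Agent.H326R3.P1

set_option autoImplicit false
set_option linter.unusedSimpArgs false

/-! The product of the quadric surface with `ℂ^k` has the algebraic overshear density property. -/

open MvPolynomial

namespace Pool.Agent.H326R3.Prd

open Pool.Agent.H326R3.Quad

noncomputable section

variable {k : ℕ}

/-- pullback of functions from the quadric -/
def io : A →ₐ[ℂ] R k := homOf ![xk, yk, zk] (by
  simp only [Matrix.cons_val_zero, Matrix.cons_val_one, Matrix.cons_val]
  linear_combination (relk : (xk : R k) * yk = zk ^ 2 - 1))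

lemma io_x : (io x : R k) = xk := by
  change io (Ideal.Quotient.mk I (X 0)) = _
  rw [io, homOf_mk, aeval_X]; rfl
lemma io_y : (io y : R k) = yk := by
  change io (Ideal.Quotient.mk I (X 1)) = _
  rw [io, homOf_mk, aeval_X]; rfl
lemma io_z : (io z : R k) = zk := by
  change io (Ideal.Quotient.mk I (X 2)) = _
  rw [io, homOf_mk, aeval_X]; rfl

/-- pullback of functions from the affine space -/
def tt : MvPolynomial (Fin k) ℂ →ₐ[ℂ] R k := aeval (fun j => gen (Fin.natAdd 3 j))

lemma tt_X (j : Fin k) : tt (X j) = (gen (Fin.natAdd 3 j) : R k) := by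
  unfold tt; rw [aeval_X]

/-- values on the quadric coordinates -/
def qv (V : DerA) : Fin 3 → A := ![V x, V y, V z]

/-- Extension of a derivation of the quadric, killing the additional coordinates. -/
def ex (V : DerA) : DerR k := derk (Fin.addCases (fun i => io (qv V i)) (fun _ => 0)) (by
  rw [Fin.addCases_left, Fin.addCases_left, Fin.addCases_left, ← io_x, ← io_y, ← io_z]
  change io y * io (V x) + io x * io (V y) = 2 * io z * io (V z)
  rw [← map_mul, ← map_mul, ← map_add, rel_der]
  simp only [map_mul, map_ofNat])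

lemma ex_left (V : DerA) (i : Fin 3) : ex V (gen (Fin.castAdd k i)) = io (qv V i) := by
  rw [ex, derk_gen, Fin.addCases_left]
lemma ex_right (V : DerA) (j : Fin k) : ex V (gen (Fin.natAdd 3 j)) = 0 := by
  rw [ex, derk_gen, Fin.addCases_right]

lemma ex_io (V : DerA) (a : A) : (ex V (io a) : R k) = io (V a) := by
  have ha : a ∈ Algebra.adjoin ℂ ({x, y, z} : Set A) := by rw [adjoin_eq_top]; trivial
  induction ha using Algebra.adjoin_induction with
  | mem a ha =>
    rcases ha with rfl | rfl | rfl
    · rw [io_x]; exact ex_left V 0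
    · rw [io_y]; exact ex_left V 1
    · rw [io_z]; exact ex_left V 2
  | algebraMap r => rw [AlgHom.commutes, Derivation.map_algebraMap, Derivation.map_algebraMap,
      map_zero]
  | add a b _ _ ha hb => simp only [map_add, ha, hb]
  | mul a b _ _ ha hb =>
    simp only [map_mul, Derivation.leibniz, smul_eq_mul, map_add, ha, hb]

lemma ex_tt (V : DerA) (p : MvPolynomial (Fin k) ℂ) : (ex V (tt p) : R k) = 0 := by
  induction p using MvPolynomial.induction_on with
  | C c =>
    have : (tt (C c) : R k) = algebraMap ℂ (R k) c := by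
      rw [← MvPolynomial.algebraMap_eq, AlgHom.commutes]
    rw [this, Derivation.map_algebraMap]
  | add p q hp hq => rw [map_add, map_add, hp, hq, add_zero]
  | mul_X p j hp => rw [map_mul, Derivation.leibniz, hp, tt_X, ex_right]; simp

/-- partial derivative in an additional coordinate -/
def pd (j : Fin k) : DerR k := derk (Pi.single (Fin.natAdd 3 j) 1) (by
  have h : ∀ i : Fin 3, Fin.castAdd k i ≠ Fin.natAdd 3 j := by
    intro i h
    have := congrArg Fin.val h
    simp at this
    omega
  simp [Pi.single_eq_of_ne (h _)])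

lemma pd_left (j : Fin k) (i : Fin 3) : pd j (gen (Fin.castAdd k i)) = 0 := by
  rw [pd, derk_gen, Pi.single_eq_of_ne]
  intro h
  have := congrArg Fin.val h
  simp at this
  omega

lemma pd_right (j i : Fin k) : pd j (gen (Fin.natAdd 3 i)) = if i = j then 1 else 0 := by
  rw [pd, derk_gen]
  by_cases h : i = j
  · subst h; simp
  · rw [if_neg h, Pi.single_eq_of_ne]
    intro h2
    exact h (Fin.natAdd_injective _ _ h2)

lemma pd_io (j : Fin k) (a : A) : pd j (io a : R k) = 0 := by
  have ha : a ∈ Algebra.adjoin ℂ ({x, y, z} : Set A) := by rw [adjoin_eq_top]; trivial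
  induction ha using Algebra.adjoin_induction with
  | mem a ha =>
    rcases ha with rfl | rfl | rfl
    · rw [io_x]; exact pd_left j 0
    · rw [io_y]; exact pd_left j 1
    · rw [io_z]; exact pd_left j 2
  | algebraMap r => rw [AlgHom.commutes, Derivation.map_algebraMap]
  | add a b _ _ ha hb => simp only [map_add, ha, hb, add_zero]
  | mul a b _ _ ha hb => simp [map_mul, Derivation.leibniz, ha, hb]

/-- commutation of the two kinds of fields -/
lemma ex_pd (V : DerA) (j : Fin k) (a : R k) : ex V (pd j a) = pd j (ex V a) := by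
  have e : ⁅(ex V : DerR k), pd j⁆ = 0 := by
    apply derk_ext
    intro i
    rw [Derivation.commutator_apply]
    refine Fin.addCases (fun i => ?_) (fun i => ?_) i
    · rw [pd_left, ex_left, pd_io]; simp
    · rw [pd_right, ex_right]
      split_ifs <;> simp
  have := congrArg (fun D : DerR k => D a) e
  rw [Derivation.commutator_apply] at this
  simpa [sub_eq_zero] using this

/-! ### The Lie algebra generated by the overshear fields -/

/-- overshear fields -/
def osh (S : Type*) [CommRing S] [Algebra ℂ S] : Set (Derivation ℂ S S) :=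
  {V | ∃ Θ : Derivation ℂ S S, (∀ g : S, ∃ k : ℕ, (⇑Θ)^[k] g = 0) ∧
    ∃ f : S, Θ (Θ f) = 0 ∧ V = f • Θ}

/-- the generated Lie algebra -/
def Lk (k : ℕ) : LieSubalgebra ℂ (DerR k) := LieSubalgebra.lieSpan ℂ (DerR k) (osh (R k))

lemma ex_nil (Θ : DerA) (h : ∀ g : A, ∃ k : ℕ, (⇑Θ)^[k] g = 0) :
    ∀ g : R k, ∃ n : ℕ, (⇑(ex Θ : DerR k))^[n] g = 0 := by
  have hit : ∀ (n : ℕ) (a : A), (⇑(ex Θ : DerR k))^[n] (io a) = io ((⇑Θ)^[n] a) := by
    intro n
    induction n with
    | zero => intro a; rfl
    | succ n ih => intro a; rw [Function.iterate_succ_apply, ex_io, ih]; rfl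
  apply nilG_of_gens _ _ adjoin_eq_top_k
  rintro _ ⟨i, rfl⟩
  refine Fin.addCases (fun i => ?_) (fun i => ?_) i
  · have hg : ∃ a : A, (gen (Fin.castAdd k i) : R k) = io a := by
      fin_cases i
      · exact ⟨x, io_x.symm⟩
      · exact ⟨y, io_y.symm⟩
      · exact ⟨z, io_z.symm⟩
    obtain ⟨a, ha⟩ := hg
    obtain ⟨n, hn⟩ := h a
    refine ⟨n, ?_⟩
    rw [ha, hit, hn, map_zero]
  · exact ⟨1, ex_right Θ i⟩

lemma mem_congrR {V W : DerR k} (h : V ∈ Lk k) (e : V = W) : W ∈ Lk k := e ▸ h

lemma smulR (c : ℂ) (g : R k) : c • g = algebraMap ℂ (R k) c * g := Algebra.smul_def c g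

lemma ex_add (V W : DerA) : (ex (V + W) : DerR k) = ex V + ex W := by
  apply derk_ext
  intro i
  rw [Derivation.add_apply]
  refine Fin.addCases (fun i => ?_) (fun i => ?_) i
  · rw [ex_left, ex_left, ex_left, ← map_add]
    congr 1
    fin_cases i <;> rfl
  · rw [ex_right, ex_right, ex_right, add_zero]

lemma ex_smulA (a : A) (V : DerA) : (ex (a • V) : DerR k) = (io a : R k) • (ex V : DerR k) := by
  apply derk_ext
  intro i
  rw [Derivation.smul_apply]
  refine Fin.addCases (fun i => ?_) (fun i => ?_) i
  · rw [ex_left, ex_left, smul_eq_mul, ← map_mul]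
    congr 1
    fin_cases i <;> rfl
  · rw [ex_right, ex_right, smul_zero]

lemma ex_smul (c : ℂ) (V : DerA) : (ex (c • V) : DerR k) = c • ex V := by
  have h : c • V = (algebraMap ℂ A c) • V := by
    ext a
    simp [smulA]
  rw [h, ex_smulA, AlgHom.commutes]
  ext a
  simp [smulR]

lemma ex_lie (V W : DerA) : (ex ⁅V, W⁆ : DerR k) = ⁅(ex V : DerR k), (ex W : DerR k)⁆ := by
  apply derk_ext
  intro i
  rw [Derivation.commutator_apply]
  refine Fin.addCases (fun i => ?_) (fun i => ?_) i
  · rw [ex_left, ex_left, ex_left, ex_io, ex_io, ← map_sub]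
    congr 1
    fin_cases i <;> rfl
  · rw [ex_right, ex_right, ex_right]; simp

/-- Fields of the quadric all of whose polynomial multiples are generated. -/
def Nk (k : ℕ) : LieSubalgebra ℂ DerA where
  carrier := {V | ∀ p : MvPolynomial (Fin k) ℂ, (tt p : R k) • (ex V : DerR k) ∈ Lk k}
  add_mem' := by
    intro V W hV hW p
    rw [ex_add]
    exact mem_congrR ((Lk k).add_mem (hV p) (hW p)) (by
      ext a
      simp only [Derivation.add_apply, Derivation.smul_apply, smul_eq_mul]
      ring)
  zero_mem' := by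
    intro p
    refine mem_congrR (Lk k).zero_mem ?_
    apply derk_ext
    intro i
    rw [Derivation.smul_apply]
    refine Fin.addCases (fun i => ?_) (fun i => ?_) i
    · rw [ex_left]
      have : qv 0 i = 0 := by fin_cases i <;> rfl
      rw [this]; simp
    · rw [ex_right]; simp
  smul_mem' := by
    intro c V hV p
    rw [ex_smul]
    exact mem_congrR ((Lk k).smul_mem c (hV p)) (by
      ext a
      simp only [Derivation.smul_apply, smul_eq_mul, smulR]
      ring)
  lie_mem' := by
    intro V W hV hW p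
    have h := (Lk k).lie_mem (hV p) (hW 1)
    rw [ex_lie]
    refine mem_congrR h ?_
    ext a
    simp only [Derivation.commutator_apply, Derivation.smul_apply, smul_eq_mul, map_one, one_mul,
      Derivation.leibniz, ex_tt]
    ring

lemma Nk_top (V : DerA) : V ∈ Nk k := by
  have h : L ≤ Nk k := by
    unfold L
    rw [LieSubalgebra.lieSpan_le]
    rintro _ ⟨Θ, hΘ, f, hf, rfl⟩ p
    refine LieSubalgebra.subset_lieSpan ⟨ex Θ, ex_nil Θ hΘ, tt p * io f, ?_, ?_⟩
    · simp only [Derivation.leibniz, ex_tt, ex_io, smul_eq_mul, mul_zero, add_zero, zero_mul,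
        hf, map_zero]
    · rw [ex_smulA]
      ext a
      simp only [Derivation.smul_apply, smul_eq_mul]
      ring
  apply h
  rw [L_top]
  trivial

/-- all multiples of extended fields are generated -/
lemma all_ex (f : R k) : ∀ (p : MvPolynomial (Fin k) ℂ) (V : DerA),
    (f * tt p) • (ex V : DerR k) ∈ Lk k := by
  obtain ⟨q, rfl⟩ := Ideal.Quotient.mk_surjective f
  induction q using MvPolynomial.induction_on with
  | C c =>
    intro p V
    refine mem_congrR ((Lk k).smul_mem c (Nk_top V p)) ?_
    ext a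
    simp only [Derivation.smul_apply, smul_eq_mul, smulR]
    rw [mul_assoc]; rfl
  | add q r hq hr =>
    intro p V
    refine mem_congrR ((Lk k).add_mem (hq p V) (hr p V)) ?_
    ext a
    simp only [Derivation.add_apply, Derivation.smul_apply, smul_eq_mul, map_add]
    ring
  | mul_X q i hq =>
    intro p V
    revert hq
    refine Fin.addCases (fun i => ?_) (fun i => ?_) i
    · intro hq
      have hg : ∃ a : A, (Ideal.Quotient.mk (Ik k) (X (Fin.castAdd k i)) : R k) = io a := by
        fin_cases i
        · exact ⟨x, io_x.symm⟩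
        · exact ⟨y, io_y.symm⟩
        · exact ⟨z, io_z.symm⟩
      obtain ⟨a, ha⟩ := hg
      refine mem_congrR (hq p (a • V)) ?_
      rw [ex_smulA, map_mul, ha]
      ext b
      simp only [Derivation.smul_apply, smul_eq_mul]
      ring
    · intro hq
      refine mem_congrR (hq (p * X i) V) ?_
      rw [map_mul, map_mul, tt_X]
      ext b
      simp only [Derivation.smul_apply, smul_eq_mul, gen]
      ring

lemma all_ex' (f : R k) (V : DerA) : f • (ex V : DerR k) ∈ Lk k := by
  have := all_ex f 1 V
  rwa [map_one, mul_one] at this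

lemma pd_nil (j : Fin k) : ∀ g : R k, ∃ n : ℕ, (⇑(pd j))^[n] g = 0 := by
  apply nilG_of_gens _ _ adjoin_eq_top_k
  rintro _ ⟨i, rfl⟩
  refine Fin.addCases (fun i => ?_) (fun i => ?_) i
  · exact ⟨1, pd_left j i⟩
  · refine ⟨2, ?_⟩
    change pd j (pd j (gen _)) = 0
    rw [pd_right]
    split_ifs <;> simp

lemma io_pd_mem (a : A) (j : Fin k) : (io a : R k) • pd j ∈ Lk k :=
  LieSubalgebra.subset_lieSpan ⟨pd j, pd_nil j, io a, by rw [pd_io, map_zero], rfl⟩

lemma step_pd (g : R k) (V : DerA) (a : A) (j : Fin k) : (g * io (V a)) • pd j ∈ Lk k := by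
  have h1 := (Lk k).lie_mem (all_ex' g V) (io_pd_mem a j)
  have h2 := all_ex' (io a * pd j g) V
  refine mem_congrR ((Lk k).add_mem h1 h2) ?_
  ext b
  simp only [Derivation.add_apply, Derivation.commutator_apply, Derivation.smul_apply, smul_eq_mul,
    Derivation.leibniz, ex_io, ex_pd]
  ring

lemma all_pd (g : R k) (j : Fin k) : g • pd j ∈ Lk k := by
  have h1 : ∀ g : R k, (g * xk) • pd j ∈ Lk k := by
    intro g
    have := step_pd g Dz x j
    rwa [Dz_x, io_x] at this
  have h2 : ∀ g : R k, (g * zk) • pd j ∈ Lk k := by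
    intro g
    have := step_pd (algebraMap ℂ (R k) (1 / 2) * g) Dy x j
    refine mem_congrR this ?_
    rw [Dy_x, map_mul, io_z, map_ofNat]
    have hc : algebraMap ℂ (R k) (1 / 2) * 2 = 1 := by
      rw [← map_ofNat (algebraMap ℂ (R k)) 2, ← map_mul]; norm_num
    congr 1
    linear_combination g * zk * hc
  have h3 := (Lk k).sub_mem (h2 (g * zk)) (h1 (g * yk))
  refine mem_congrR h3 ?_
  ext b
  simp only [Derivation.sub_apply, Derivation.smul_apply, smul_eq_mul]
  have := (relk : (xk : R k) * yk = zk ^ 2 - 1)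
  linear_combination (-(g * pd j b)) * this

lemma sum_apply {ι : Type*} (s : Finset ι) (F : ι → DerR k) (a : R k) :
    (∑ j ∈ s, F j) a = ∑ j ∈ s, F j a := by
  classical
  induction s using Finset.induction_on with
  | empty => simp
  | insert i s hi ih => rw [Finset.sum_insert hi, Finset.sum_insert hi, Derivation.add_apply, ih]

lemma decompR (D : DerR k) :
    D = (algebraMap ℂ (R k) (1 / 2) * (xk * D yk - yk * D xk) : R k) • (ex Dz : DerR k) +
    (algebraMap ℂ (R k) (1 / 2) * (zk * D xk - xk * D zk) : R k) • (ex Dy : DerR k) +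
    (algebraMap ℂ (R k) (1 / 2) * (yk * D zk - zk * D yk) : R k) • (ex Dx : DerR k) +
    ∑ j : Fin k, (D (gen (Fin.natAdd 3 j)) : R k) • (pd j : DerR k) := by
  have hc : algebraMap ℂ (R k) (1 / 2) * 2 = 1 := by
    rw [← map_ofNat (algebraMap ℂ (R k)) 2, ← map_mul]; norm_num
  set c := algebraMap ℂ (R k) (1 / 2) with hcdef
  have hr := rel_derk D
  have r := (relk : (xk : R k) * yk = zk ^ 2 - 1)
  apply derk_ext
  intro i
  rw [Derivation.add_apply, Derivation.add_apply, Derivation.add_apply, sum_apply]
  simp only [Derivation.smul_apply, smul_eq_mul]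
  refine Fin.addCases (fun i => ?_) (fun i => ?_) i
  · have hs : ∑ j : Fin k, D (gen (Fin.natAdd 3 j)) * pd j (gen (Fin.castAdd k i)) = 0 := by
      apply Finset.sum_eq_zero
      intro j _
      rw [pd_left, mul_zero]
    rw [hs, add_zero, ex_left, ex_left, ex_left]
    fin_cases i
    · change D xk = c * (xk * D yk - yk * D xk) * io (Dz x) + c * (zk * D xk - xk * D zk) * io (Dy x)
        + c * (yk * D zk - zk * D yk) * io (Dx x)
      rw [Dz_x, Dy_x, Dx_x, map_mul, map_ofNat, io_x, io_z, map_zero]
      linear_combination (-(D xk)) * hc + (-(c * xk)) * hr + (2 * c * D xk) * r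
    · change D yk = c * (xk * D yk - yk * D xk) * io (Dz y) + c * (zk * D xk - xk * D zk) * io (Dy y)
        + c * (yk * D zk - zk * D yk) * io (Dx y)
      rw [Dz_y, Dy_y, Dx_y, map_neg, map_neg, map_mul, map_ofNat, io_y, io_z, map_zero]
      linear_combination (-(D yk)) * hc + (-(c * yk)) * hr + (2 * c * D yk) * r
    · change D zk = c * (xk * D yk - yk * D xk) * io (Dz z) + c * (zk * D xk - xk * D zk) * io (Dy z)
        + c * (yk * D zk - zk * D yk) * io (Dx z)
      rw [Dz_z, Dy_z, Dx_z, map_neg, io_y, io_x, map_zero]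
      linear_combination (-(D zk)) * hc + (-(c * zk)) * hr + (2 * c * D zk) * r
  · rw [ex_right, ex_right, ex_right]
    rw [Finset.sum_eq_single i]
    · rw [pd_right, if_pos rfl]; ring
    · intro j _ hj
      rw [pd_right, if_neg (Ne.symm hj), mul_zero]
    · intro h; exact absurd (Finset.mem_univ i) h

lemma sum_mem_L {ι : Type*} (s : Finset ι) (F : ι → DerR k) (h : ∀ j, F j ∈ Lk k) :
    (∑ j ∈ s, F j) ∈ Lk k := by
  classical
  induction s using Finset.induction_on with
  | empty => simp only [Finset.sum_empty]; exact (Lk k).zero_mem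
  | insert i s hi ih => rw [Finset.sum_insert hi]; exact (Lk k).add_mem (h i) ih

theorem Lk_top : Lk k = ⊤ := by
  rw [eq_top_iff]
  intro D _
  rw [decompR D]
  exact (Lk k).add_mem ((Lk k).add_mem ((Lk k).add_mem (all_ex' _ _) (all_ex' _ _)) (all_ex' _ _))
    (sum_mem_L _ _ fun j => all_pd _ j)

end

end Pool.Agent.H326R3.Prd
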