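import Mathlib
import Pool.Agent.H472R3.Fib

set_option autoImplicit false
set_option linter.unusedSimpArgs false

/-! Maps of the two-sphere into the unit sphere of a space of dimension at least four are
null-homotopic; the double cover of the cone `αγ = β^2`. -/

open Set Metric Module
open scoped unitInterval

namespace Pool.Agent.H326R3.Topo

open Pool.Agent.H472R3

noncomputable section

/-- the two-sphere -/
abbrev S2 := sphere (0 : EuclideanSpace ℝ (Fin 3)) 1

/-- polar coordinates -/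
def pol (q : ℝ × ℝ) : EuclideanSpace ℝ (Fin 3) :=
  (EuclideanSpace.equiv (Fin 3) ℝ).symm
    ![Real.sin q.2 * Real.cos q.1, Real.sin q.2 * Real.sin q.1, Real.cos q.2]

lemma contDiff_pol : ContDiff ℝ 1 pol := by
  unfold pol
  apply (EuclideanSpace.equiv (Fin 3) ℝ).symm.contDiff.comp
  rw [contDiff_pi]
  intro i
  fin_cases i
  · exact (Real.contDiff_sin.comp contDiff_snd).mul (Real.contDiff_cos.comp contDiff_fst)
  · exact (Real.contDiff_sin.comp contDiff_snd).mul (Real.contDiff_sin.comp contDiff_fst)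
  · exact (Real.contDiff_cos.comp contDiff_snd)

lemma sq_sum (s : S2) : (s : EuclideanSpace ℝ (Fin 3)) 0 ^ 2 + (s : EuclideanSpace ℝ (Fin 3)) 1 ^ 2
    + (s : EuclideanSpace ℝ (Fin 3)) 2 ^ 2 = 1 := by
  have h : ‖(s : EuclideanSpace ℝ (Fin 3))‖ = 1 := mem_sphere_zero_iff_norm.1 s.2
  have h2 := EuclideanSpace.norm_sq_eq (s : EuclideanSpace ℝ (Fin 3))
  rw [h, Fin.sum_univ_three] at h2
  simp only [Real.norm_eq_abs, sq_abs] at h2
  linarith

lemma pol_surj (s : S2) : ∃ q : ℝ × ℝ, pol q = s := by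
  have h := sq_sum s
  set a := (s : EuclideanSpace ℝ (Fin 3)) 0
  set b := (s : EuclideanSpace ℝ (Fin 3)) 1
  set c := (s : EuclideanSpace ℝ (Fin 3)) 2
  have hc : c ^ 2 ≤ 1 := by nlinarith [sq_nonneg a, sq_nonneg b]
  have hc1 : -1 ≤ c ∧ c ≤ 1 := abs_le.1 ((sq_le_one_iff_abs_le_one c).1 hc)
  have hn : ‖(⟨a, b⟩ : ℂ)‖ = Real.sqrt (1 - c ^ 2) := by
    rw [Complex.norm_def, Complex.normSq_mk]
    congr 1
    linarith
  refine ⟨(Complex.arg ⟨a, b⟩, Real.arccos c), ?_⟩
  have e0 : Real.sin (Real.arccos c) * Real.cos (Complex.arg ⟨a, b⟩) = a := by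
    rw [Real.sin_arccos, ← hn, Complex.norm_mul_cos_arg]
  have e1 : Real.sin (Real.arccos c) * Real.sin (Complex.arg ⟨a, b⟩) = b := by
    rw [Real.sin_arccos, ← hn, Complex.norm_mul_sin_arg]
  have e2 : Real.cos (Real.arccos c) = c := Real.cos_arccos hc1.1 hc1.2
  ext i
  fin_cases i
  · exact e0
  · exact e1
  · exact e2

theorem null_S2 {V : Type*} [NormedAddCommGroup V] [NormedSpace ℝ V] [FiniteDimensional ℝ V]
    (h : 3 < finrank ℝ V) (f : C(S2, sphere (0 : V) 1)) :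
    f.Nullhomotopic := by
  have : TietzeExtension V := TietzeExtension.of_tvs ℝ
  obtain ⟨g, hg⟩ := ContinuousMap.exists_restrict_eq
    (isClosed_sphere (x := (0 : EuclideanSpace ℝ (Fin 3))) (ε := 1))
    (⟨fun v => (f v : V), by fun_prop⟩ : C(S2, V))
  have hg' : ∀ v : S2, g v = f v := fun v => congrArg (fun k => k v) hg
  obtain ⟨F, hF, hFg, -⟩ := g.continuous.exists_contDiff_approx 1 (ε := fun _ => 1)
    continuous_const (fun _ => one_pos)
  let G : ℝ × (ℝ × ℝ) → V := fun q => q.1 • F (pol q.2)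
  have hG : ContDiff ℝ 1 G := contDiff_fst.smul (hF.comp (contDiff_pol.comp contDiff_snd))
  have hd : Dense (Set.range G)ᶜ := hG.dense_compl_range_of_finrank_lt_finrank (by
    rw [Module.finrank_prod, Module.finrank_prod, Module.finrank_self]
    omega)
  obtain ⟨v, hv⟩ := hd.nonempty
  have hv0 : v ≠ 0 := by
    rintro rfl
    exact hv ⟨(0, (0, 0)), by simp [G]⟩
  have hFv : ∀ (s : ℝ) (x : S2), s • F x ≠ v := by
    intro s x hx
    obtain ⟨q, hq⟩ := pol_surj x
    exact hv ⟨(s, q), by simp only [G]; rw [hq]; exact hx⟩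
  have hclose : ∀ x : S2, ‖F x - f x‖ < 1 := by
    intro x
    have := hFg x
    rw [hg', dist_eq_norm] at this
    exact this
  have hfn : ∀ x, ‖(f x : V)‖ = 1 := fun x => mem_sphere_zero_iff_norm.1 (f x).2
  -- first homotopy
  let H1 : C(I × S2, V) :=
    ⟨fun q => (f q.2 : V) + (q.1 : ℝ) • (F q.2 - f q.2), by
      have := hF.continuous
      fun_prop⟩
  have hH1 : ∀ q, H1 q ≠ 0 := by
    rintro ⟨s, t⟩ h0
    have h1 : (f t : V) = -((s : ℝ) • (F t - f t)) := eq_neg_of_add_eq_zero_left h0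
    have h2 : ‖(f t : V)‖ = |(s : ℝ)| * ‖F t - f t‖ := by
      rw [← Real.norm_eq_abs, ← norm_smul, ← norm_neg ((s : ℝ) • (F t - f t)), ← h1]
    rw [hfn] at h2
    have h3 : |(s : ℝ)| ≤ 1 := by rw [abs_of_nonneg s.2.1]; exact s.2.2
    have h4 := hclose t
    nlinarith [norm_nonneg (F t - f t), abs_nonneg (s : ℝ)]
  have hFne : ∀ x : S2, F x ≠ 0 := by
    intro x h0
    apply hH1 (1, x)
    change (f x : V) + ((1 : I) : ℝ) • (F x - f x) = 0
    rw [h0]
    simp
  -- second homotopy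
  let H2 : C(I × S2, V) :=
    ⟨fun q => (1 - (q.1 : ℝ)) • F q.2 - (q.1 : ℝ) • v, by
      have := hF.continuous
      fun_prop⟩
  have hH2 : ∀ q, H2 q ≠ 0 := by
    rintro ⟨t, x⟩ h0
    have h1 : (1 - (t : ℝ)) • F x = (t : ℝ) • v := sub_eq_zero.1 h0
    by_cases ht : (t : ℝ) = 0
    · rw [ht, zero_smul, sub_zero, one_smul] at h1
      exact hFne x h1
    · apply hFv ((t : ℝ)⁻¹ * (1 - t)) x
      rw [mul_smul, h1, smul_smul, inv_mul_cancel₀ ht, one_smul]
  let F0 : C(S2, V) := ⟨fun x => F x, by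
      have := hF.continuous
      fun_prop⟩
  have k1 : f.Homotopic (nm F0 hFne) := by
    refine ⟨⟨nm H1 hH1, fun x => ?_, fun x => ?_⟩⟩
    · apply Subtype.ext
      change (nm H1 hH1 (0, x) : V) = f x
      rw [nm_coe]
      have : H1 (0, x) = f x := by
        change (f x : V) + ((0 : I) : ℝ) • (F x - f x) = f x
        simp
      rw [this, hfn]
      simp
    · apply Subtype.ext
      change (nm H1 hH1 (1, x) : V) = nm F0 hFne x
      rw [nm_coe, nm_coe]
      have : H1 (1, x) = F0 x := by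
        change (f x : V) + ((1 : I) : ℝ) • (F x - f x) = F x
        simp
      rw [this]
  have hvn : ‖-v‖ ≠ 0 := by simpa using hv0
  let w : sphere (0 : V) 1 := ⟨‖-v‖⁻¹ • (-v), by
    rw [mem_sphere_zero_iff_norm, norm_smul, norm_inv, norm_norm, inv_mul_cancel₀ hvn]⟩
  have k2 : (nm F0 hFne).Homotopic (ContinuousMap.const _ w) := by
    refine ⟨⟨nm H2 hH2, fun x => ?_, fun x => ?_⟩⟩
    · apply Subtype.ext
      change (nm H2 hH2 (0, x) : V) = nm F0 hFne x
      rw [nm_coe, nm_coe]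
      have : H2 (0, x) = F0 x := by
        change (1 - ((0 : I) : ℝ)) • F x - ((0 : I) : ℝ) • v = F x
        simp
      rw [this]
    · apply Subtype.ext
      change (nm H2 hH2 (1, x) : V) = ‖-v‖⁻¹ • (-v)
      rw [nm_coe]
      have : H2 (1, x) = -v := by
        change (1 - ((1 : I) : ℝ)) • F x - ((1 : I) : ℝ) • v = -v
        simp
      rw [this]
  exact ⟨w, k1.trans k2⟩

/-! ### The double cover -/

/-- unit sphere of `ℂ × ℂ` for the sup norm -/
abbrev E := sphere (0 : ℂ × ℂ) 1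

/-- normalized cone -/
abbrev B := {w : ℂ × ℂ × ℂ // w.1 * w.2.2 = w.2.1 ^ 2 ∧ max ‖w.1‖ ‖w.2.2‖ = 1}

lemma normE (v : E) : max ‖(v : ℂ × ℂ).1‖ ‖(v : ℂ × ℂ).2‖ = 1 := by
  have := mem_sphere_zero_iff_norm.1 v.2
  rwa [Prod.norm_def] at this

/-- the squaring map -/
def sq (v : E) : B :=
  ⟨((v : ℂ × ℂ).1 ^ 2, (v : ℂ × ℂ).1 * (v : ℂ × ℂ).2, (v : ℂ × ℂ).2 ^ 2), by
    constructor
    · simp only; ring
    · simp only [norm_pow]
      have h := normE v
      rcases le_total ‖(v : ℂ × ℂ).1‖ ‖(v : ℂ × ℂ).2‖ with h1 | h1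
      · rw [max_eq_right h1] at h
        rw [max_eq_right (pow_le_pow_left₀ (norm_nonneg _) h1 2), h]; norm_num
      · rw [max_eq_left h1] at h
        rw [max_eq_left (pow_le_pow_left₀ (norm_nonneg _) h1 2), h]; norm_num⟩

lemma continuous_sq : Continuous sq := by
  unfold sq
  refine Continuous.subtype_mk ?_ _
  fun_prop

lemma sq_surj : Function.Surjective sq := by
  rintro ⟨⟨α, β, γ⟩, h1, h2⟩
  simp only at h1 h2
  have key : ∃ a b : ℂ, a ^ 2 = α ∧ a * b = β ∧ b ^ 2 = γ := by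
    obtain ⟨a, ha⟩ := IsAlgClosed.exists_pow_nat_eq α (n := 2) (by norm_num)
    by_cases hα : α = 0
    · obtain ⟨b, hb⟩ := IsAlgClosed.exists_pow_nat_eq γ (n := 2) (by norm_num)
      refine ⟨0, b, by rw [hα]; norm_num, ?_, hb⟩
      rw [hα, zero_mul] at h1
      rw [zero_mul]
      exact (pow_eq_zero_iff (by norm_num)).1 h1.symm |>.symm
    · have ha0 : a ≠ 0 := by
        rintro rfl
        apply hα; rw [← ha]; norm_num
      refine ⟨a, β / a, ha, by field_simp, ?_⟩
      rw [div_pow, ha, ← h1]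
      field_simp
  obtain ⟨a, b, ha, hab, hb⟩ := key
  have hmax : max ‖a‖ ‖b‖ = 1 := by
    rw [← ha, ← hb, norm_pow, norm_pow] at h2
    rcases le_total ‖a‖ ‖b‖ with h | h
    · rw [max_eq_right (pow_le_pow_left₀ (norm_nonneg _) h 2)] at h2
      rw [max_eq_right h]
      nlinarith [norm_nonneg b]
    · rw [max_eq_left (pow_le_pow_left₀ (norm_nonneg _) h 2)] at h2
      rw [max_eq_left h]
      nlinarith [norm_nonneg a]
  refine ⟨⟨(a, b), by rw [mem_sphere_zero_iff_norm, Prod.norm_def]; exact hmax⟩, ?_⟩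
  apply Subtype.ext
  simp only [sq]
  rw [ha, hab, hb]

lemma sq_eq {u v : E} (h : sq u = sq v) : (u : ℂ × ℂ) = v ∨ (u : ℂ × ℂ) = -v := by
  have h0 := congrArg (fun w : B => (w : ℂ × ℂ × ℂ)) h
  simp only [sq, Prod.mk.injEq] at h0
  obtain ⟨h1, h2, h3⟩ := h0
  set a := (u : ℂ × ℂ).1
  set b := (u : ℂ × ℂ).2
  set c := (v : ℂ × ℂ).1
  set d := (v : ℂ × ℂ).2
  have hu := normE u
  rcases sq_eq_sq_iff_eq_or_eq_neg.1 h1 with e | e
  · by_cases hc : c = 0
    · rcases sq_eq_sq_iff_eq_or_eq_neg.1 h3 with e' | e'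
      · exact Or.inl (Prod.ext e e')
      · refine Or.inr (Prod.ext ?_ e')
        change a = -c
        rw [e, hc, neg_zero]
    · left
      refine Prod.ext e ?_
      rw [e] at h2
      exact mul_left_cancel₀ hc h2
  · by_cases hc : c = 0
    · rcases sq_eq_sq_iff_eq_or_eq_neg.1 h3 with e' | e'
      · refine Or.inl (Prod.ext ?_ e')
        change a = c
        rw [e, hc, neg_zero]
      · exact Or.inr (Prod.ext e e')
    · right
      refine Prod.ext e ?_
      rw [e] at h2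
      have : c * (-b) = c * d := by linear_combination h2
      have := mul_left_cancel₀ hc this
      change b = -d
      rw [← this, neg_neg]

lemma isQuotientCovering_sq : IsQuotientCoveringMap sq (sphere (0 : ℝ) 1) where
  toIsQuotientMap := (continuous_sq.isClosedMap).isQuotientMap continuous_sq sq_surj
  continuous_const_smul := fun g => by
    exact continuous_const_smul g
  apply_eq_iff_mem_orbit := by
    intro e₁ e₂
    constructor
    · intro h
      rcases sq_eq h with h | h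
      · exact ⟨1, (one_smul _ e₂).trans (Subtype.ext h).symm⟩
      · refine ⟨⟨-1, by simp⟩, ?_⟩
        apply Subtype.ext
        change (-1 : ℝ) • (e₂ : ℂ × ℂ) = e₁
        rw [h, neg_one_smul]
    · rintro ⟨g, rfl⟩
      have hg : (g : ℝ) = 1 ∨ (g : ℝ) = -1 := by
        have := mem_sphere_zero_iff_norm.1 g.2
        rw [Real.norm_eq_abs] at this
        exact eq_or_eq_neg_of_abs_eq this
      apply Subtype.ext
      change (((g : ℝ) • (e₂ : ℂ × ℂ)).1 ^ 2, ((g : ℝ) • (e₂ : ℂ × ℂ)).1 * ((g : ℝ) • (e₂ : ℂ × ℂ)).2,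
        ((g : ℝ) • (e₂ : ℂ × ℂ)).2 ^ 2) = _
      rcases hg with hg | hg <;> rw [hg] <;> simp [sq]
  disjoint := by
    intro e
    refine ⟨ball e 1, ball_mem_nhds e one_pos, ?_⟩
    rintro g ⟨_, ⟨e', he', rfl⟩, h2⟩
    have hg : (g : ℝ) = 1 ∨ (g : ℝ) = -1 := by
      have := mem_sphere_zero_iff_norm.1 g.2
      rw [Real.norm_eq_abs] at this
      exact eq_or_eq_neg_of_abs_eq this
    rcases hg with hg | hg
    · exact Subtype.ext hg
    · exfalso
      rw [mem_ball, Subtype.dist_eq, dist_eq_norm] at he' h2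
      change ‖(g : ℝ) • (e' : ℂ × ℂ) - (e : ℂ × ℂ)‖ < 1 at h2
      rw [hg, neg_one_smul] at h2
      have h3 : ‖(2 : ℝ) • (e : ℂ × ℂ)‖ < 2 := by
        have : (2 : ℝ) • (e : ℂ × ℂ) = -((-(e' : ℂ × ℂ) - e) + ((e' : ℂ × ℂ) - e)) := by
          rw [two_smul]; abel
        rw [this, norm_neg]
        exact lt_of_le_of_lt (norm_add_le _ _) (by linarith)
      rw [norm_smul, mem_sphere_zero_iff_norm.1 e.2] at h3
      norm_num at h3

instance : LocallyPathConnectedSpace S2 := by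
  have hfact : Fact (finrank ℝ (EuclideanSpace ℝ (Fin 3)) = 2 + 1) := ⟨by simp⟩
  exact ChartedSpace.locallyPathConnectedSpace (EuclideanSpace ℝ (Fin 2)) _

instance : SimplyConnectedSpace S2 := simplyConnected_sph 2 le_rfl

theorem lift_sq (b : C(S2, B)) : ∃ ψ : C(S2, E), ∀ s, sq (ψ s) = b s := by
  obtain ⟨a0⟩ : Nonempty S2 := inferInstance
  obtain ⟨e0, he0⟩ := sq_surj (b a0)
  obtain ⟨F, ⟨-, hF⟩, -⟩ := isQuotientCovering_sq.isCoveringMap.existsUnique_continuousMap_lifts b a0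
    e0 he0
  exact ⟨F, fun x => congrFun hF x⟩

theorem lift_null (b : C(S2, B)) : ∃ ψ : C(S2, E), (∀ s, sq (ψ s) = b s) ∧ ψ.Nullhomotopic := by
  obtain ⟨ψ, hψ⟩ := lift_sq b
  refine ⟨ψ, hψ, null_S2 ?_ ψ⟩
  rw [Module.finrank_prod, Complex.finrank_real_complex]
  norm_num

end

end Pool.Agent.H326R3.Topo
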