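import Mathlib
import Pool.Agent.H326R3.T1

set_option autoImplicit false
set_option linter.unusedSimpArgs false

/-! Maps of the two-sphere into the complement of the real sphere in the affine quadric are
null-homotopic in the quadric. -/

open Set Metric Module
open scoped unitInterval

namespace Pool.Agent.H326R3.Topo

open Pool.Agent.H472R3

noncomputable section


/-- The affine quadric. -/
abbrev XQ := {p : Fin 3 → ℂ // p 0 * p 1 = p 2 ^ 2 - 1}

/-- membership in the real sphere -/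
def inK (p : Fin 3 → ℂ) : Prop := p 1 = -(starRingEnd ℂ (p 0)) ∧ starRingEnd ℂ (p 2) = p 2

lemma n_ne (a b : ℂ) (h0 : ¬ (a = 0 ∧ b = 0)) :
    a * starRingEnd ℂ a + b * starRingEnd ℂ b ≠ 0 := by
  rw [Complex.mul_conj, Complex.mul_conj]
  intro h
  have h1 : Complex.normSq a + Complex.normSq b = 0 := by exact_mod_cast h
  have ha : Complex.normSq a = 0 := by
    nlinarith [Complex.normSq_nonneg a, Complex.normSq_nonneg b]
  have hb : Complex.normSq b = 0 := by
    nlinarith [Complex.normSq_nonneg a, Complex.normSq_nonneg b]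
  exact h0 ⟨Complex.normSq_eq_zero.1 ha, Complex.normSq_eq_zero.1 hb⟩

lemma inK_of_q (x y z a b : ℂ) (h0 : ¬ (a = 0 ∧ b = 0)) (E1 : (z - 1) * a + x * b = 0)
    (E2 : y * a + (1 + z) * b = 0)
    (Q : x * (starRingEnd ℂ a) ^ 2 - 2 * z * starRingEnd ℂ a * starRingEnd ℂ b
      + y * (starRingEnd ℂ b) ^ 2 = 0) :
    y = -(starRingEnd ℂ x) ∧ starRingEnd ℂ z = z := by
  have hn := n_ne a b h0
  have hnc : starRingEnd ℂ (a * starRingEnd ℂ a + b * starRingEnd ℂ b) =
      a * starRingEnd ℂ a + b * starRingEnd ℂ b := by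
    rw [map_add, map_mul, map_mul, Complex.conj_conj, Complex.conj_conj]; ring
  set a' := starRingEnd ℂ a with ha'
  set b' := starRingEnd ℂ b with hb'
  have haa : starRingEnd ℂ a' = a := Complex.conj_conj a
  have hbb : starRingEnd ℂ b' = b := Complex.conj_conj b
  have hU : x * a' - z * b' - b' = 0 := by
    apply (mul_eq_zero_iff_left hn).1
    linear_combination a * Q - b' * b' * E2 + (b' * a') * E1
  have hW : y * b' - z * a' + a' = 0 := by
    apply (mul_eq_zero_iff_left hn).1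
    linear_combination b * Q - a' * b' * E2 * (-1) + (-(a' * a')) * E1
  have hx : (a * a' + b * b') * x = 2 * a * b' := by
    linear_combination a * hU + b' * E1
  have hy : (a * a' + b * b') * y = -(2 * a' * b) := by
    linear_combination b * hW + a' * E2
  have hz : (a * a' + b * b') * z = a * a' - b * b' := by
    linear_combination a' * E1 - b * hU
  have hx2 := congrArg (starRingEnd ℂ) hx
  have hz2 := congrArg (starRingEnd ℂ) hz
  rw [map_mul, hnc, map_mul, map_mul, hbb, map_ofNat] at hx2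
  rw [map_mul, hnc, map_sub, map_mul, map_mul, haa, hbb] at hz2
  constructor
  · apply mul_left_cancel₀ hn
    linear_combination hy + hx2
  · apply mul_left_cancel₀ hn
    linear_combination hz2 - hz

lemma mem_of_eig (x y z a b : ℂ) (h0 : ¬ (a = 0 ∧ b = 0)) (E1 : (z - 1) * a + x * b = 0)
    (E2 : y * a + (1 + z) * b = 0) : x * y = z ^ 2 - 1 := by
  by_cases ha : a = 0
  · have hb : b ≠ 0 := fun h => h0 ⟨ha, h⟩
    apply mul_right_cancel₀ hb
    linear_combination y * E1 - (z - 1) * E2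
  · apply mul_right_cancel₀ ha
    linear_combination x * E2 - (1 + z) * E1

/-- the quadratic expression -/
def qq (x y z a b : ℂ) : ℂ :=
  x * (starRingEnd ℂ a) ^ 2 - 2 * z * starRingEnd ℂ a * starRingEnd ℂ b
      + y * (starRingEnd ℂ b) ^ 2

def al (x y z : ℂ) : ℂ := qq x y z (z + 1) (-y) * (z + 1) ^ 2 + qq x y z x (1 - z) * x ^ 2
def be (x y z : ℂ) : ℂ := qq x y z (z + 1) (-y) * (z + 1) * (-y) + qq x y z x (1 - z) * x * (1 - z)
def ga (x y z : ℂ) : ℂ := qq x y z (z + 1) (-y) * y ^ 2 + qq x y z x (1 - z) * (1 - z) ^ 2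

lemma al_ga (x y z : ℂ) (h : x * y = z ^ 2 - 1) : al x y z * ga x y z = be x y z ^ 2 := by
  unfold al be ga
  linear_combination (qq x y z (z + 1) (-y) * qq x y z x (1 - z)) * (x * y + 1 - z ^ 2) * h

lemma eig1 (x y z : ℂ) (h : x * y = z ^ 2 - 1) : (z - 1) * al x y z + x * be x y z = 0 := by
  unfold al be
  linear_combination (-(qq x y z (z + 1) (-y) * (z + 1))) * h

lemma eig2 (x y z : ℂ) (h : x * y = z ^ 2 - 1) : (z - 1) * be x y z + x * ga x y z = 0 := by
  unfold ga be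
  linear_combination (qq x y z (z + 1) (-y) * y) * h

lemma eig3 (x y z : ℂ) (h : x * y = z ^ 2 - 1) : y * al x y z + (1 + z) * be x y z = 0 := by
  unfold al be
  linear_combination (qq x y z x (1 - z) * x) * h

lemma eig4 (x y z : ℂ) (h : x * y = z ^ 2 - 1) : y * be x y z + (1 + z) * ga x y z = 0 := by
  unfold ga be
  linear_combination (qq x y z x (1 - z) * (1 - z)) * h

lemma qq_smul (x y z c a b : ℂ) : qq x y z (c * a) (c * b) = (starRingEnd ℂ c) ^ 2 * qq x y z a b := by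
  unfold qq
  simp only [map_mul]
  ring

lemma one_add_ne (c : ℂ) : 1 + (starRingEnd ℂ c) ^ 2 * c ^ 2 ≠ 0 := by
  have h : 1 + (starRingEnd ℂ c) ^ 2 * c ^ 2 = ((1 + Complex.normSq c ^ 2 : ℝ) : ℂ) := by
    push_cast
    rw [← Complex.mul_conj]
    ring
  rw [h]
  have : (1 + Complex.normSq c ^ 2 : ℝ) ≠ 0 := by positivity
  exact_mod_cast this

lemma nonvanish (x y z : ℂ) (h : x * y = z ^ 2 - 1) (ha : al x y z = 0) (hg : ga x y z = 0) :
    y = -(starRingEnd ℂ x) ∧ starRingEnd ℂ z = z := by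
  by_cases hz : z + 1 = 0
  · -- use the second column
    have hz' : z = -1 := by linear_combination hz
    have hxy : x * y = 0 := by rw [h, hz']; ring
    have h1 : qq x y z (z + 1) (-y) = (starRingEnd ℂ (-y / 2)) ^ 2 * qq x y z x (1 - z) := by
      rw [← qq_smul]
      congr 1
      · rw [hz]; linear_combination (1 / 2 : ℂ) * hxy
      · rw [hz']; ring
    have h2 : ga x y z = 4 * qq x y z x (1 - z) * (1 + (starRingEnd ℂ (-y / 2)) ^ 2 * (-y / 2) ^ 2) := by
      unfold ga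
      rw [h1, hz']
      ring
    rw [hg] at h2
    have h3 : qq x y z x (1 - z) = 0 := by
      have h4 := mul_eq_zero.1 h2.symm
      rcases h4 with h4 | h4
      · exact (mul_eq_zero.1 h4).resolve_left (by norm_num)
      · exact absurd h4 (one_add_ne _)
    refine inK_of_q x y z x (1 - z) ?_ (by ring) (by linear_combination h) h3
    rintro ⟨-, h5⟩
    rw [hz'] at h5
    norm_num at h5
  · have h1 : qq x y z x (1 - z) = (starRingEnd ℂ (x / (z + 1))) ^ 2 * qq x y z (z + 1) (-y) := by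
      rw [← qq_smul]
      congr 1
      · field_simp
      · field_simp
        linear_combination h
    have h2 : al x y z = qq x y z (z + 1) (-y) * (z + 1) ^ 2 *
        (1 + (starRingEnd ℂ (x / (z + 1))) ^ 2 * (x / (z + 1)) ^ 2) := by
      unfold al
      rw [h1]
      field_simp
    rw [ha] at h2
    have h3 : qq x y z (z + 1) (-y) = 0 := by
      rcases mul_eq_zero.1 h2.symm with h4 | h4
      · exact (mul_eq_zero.1 h4).resolve_right (pow_ne_zero 2 hz)
      · exact absurd h4 (one_add_ne _)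
    refine inK_of_q x y z (z + 1) (-y) ?_ (by linear_combination -h) (by ring) h3
    rintro ⟨h5, -⟩
    exact hz h5

/-- the normalisation factor -/
def nrm (p : Fin 3 → ℂ) : ℝ := max ‖al (p 0) (p 1) (p 2)‖ ‖ga (p 0) (p 1) (p 2)‖

lemma nrm_pos (p : XQ) (hp : ¬ inK p) : 0 < nrm p := by
  unfold nrm
  rw [lt_max_iff]
  by_contra hc
  push Not at hc
  apply hp
  exact nonvanish _ _ _ p.2 (norm_le_zero_iff.1 hc.1) (norm_le_zero_iff.1 hc.2)

lemma cont_al : Continuous fun p : Fin 3 → ℂ => al (p 0) (p 1) (p 2) := by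
  unfold al qq; fun_prop
lemma cont_be : Continuous fun p : Fin 3 → ℂ => be (p 0) (p 1) (p 2) := by
  unfold be qq; fun_prop
lemma cont_ga : Continuous fun p : Fin 3 → ℂ => ga (p 0) (p 1) (p 2) := by
  unfold ga qq; fun_prop
lemma cont_nrm : Continuous nrm := by
  unfold nrm
  exact cont_al.norm.max cont_ga.norm

/-- the map to the cone -/
def toB (M : C(S2, XQ)) (hM : ∀ s, ¬ inK (M s)) : C(S2, B) where
  toFun s := ⟨(((nrm (M s) : ℝ) : ℂ)⁻¹ * al ((M s : Fin 3 → ℂ) 0) ((M s : Fin 3 → ℂ) 1) ((M s : Fin 3 → ℂ) 2),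
    ((nrm (M s) : ℝ) : ℂ)⁻¹ * be ((M s : Fin 3 → ℂ) 0) ((M s : Fin 3 → ℂ) 1) ((M s : Fin 3 → ℂ) 2),
    ((nrm (M s) : ℝ) : ℂ)⁻¹ * ga ((M s : Fin 3 → ℂ) 0) ((M s : Fin 3 → ℂ) 1) ((M s : Fin 3 → ℂ) 2)), by
      have hpos := nrm_pos (M s) (hM s)
      constructor
      · have := al_ga _ _ _ (M s).2
        simp only
        linear_combination (((nrm (M s) : ℝ) : ℂ)⁻¹) ^ 2 * this
      · simp only [norm_mul, norm_inv, Complex.norm_real, Real.norm_eq_abs, abs_of_pos hpos]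
        rw [← mul_max_of_nonneg _ _ (inv_nonneg.2 hpos.le)]
        exact inv_mul_cancel₀ hpos.ne'⟩
  continuous_toFun := by
    have hc : Continuous fun s : S2 => (M s : Fin 3 → ℂ) := continuous_subtype_val.comp M.continuous
    have hi : Continuous fun s : S2 => ((nrm (M s) : ℝ) : ℂ)⁻¹ := by
      apply Continuous.inv₀
      · exact Complex.continuous_ofReal.comp (cont_nrm.comp hc)
      · intro s
        have := (nrm_pos (M s) (hM s)).ne'
        exact_mod_cast this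
    refine Continuous.subtype_mk ?_ _
    exact (hi.mul (cont_al.comp hc)).prodMk ((hi.mul (cont_be.comp hc)).prodMk
      (hi.mul (cont_ga.comp hc)))

/-- Hermitian reflection attached to a vector -/
def herm (a b : ℂ) : Fin 3 → ℂ :=
  ![2 * a * starRingEnd ℂ b / (a * starRingEnd ℂ a + b * starRingEnd ℂ b),
    -(2 * starRingEnd ℂ a * b) / (a * starRingEnd ℂ a + b * starRingEnd ℂ b),
    (a * starRingEnd ℂ a - b * starRingEnd ℂ b) / (a * starRingEnd ℂ a + b * starRingEnd ℂ b)]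

lemma herm_eig1 (a b : ℂ) (h0 : ¬ (a = 0 ∧ b = 0)) :
    (herm a b 2 - 1) * a + herm a b 0 * b = 0 := by
  have hn := n_ne a b h0
  simp only [herm, Matrix.cons_val_zero, Matrix.cons_val_one, Matrix.cons_val]
  field_simp
  ring

lemma herm_eig2 (a b : ℂ) (h0 : ¬ (a = 0 ∧ b = 0)) :
    herm a b 1 * a + (1 + herm a b 2) * b = 0 := by
  have hn := n_ne a b h0
  simp only [herm, Matrix.cons_val_zero, Matrix.cons_val_one, Matrix.cons_val]
  rw [div_mul_eq_mul_div, one_add_div hn, div_mul_eq_mul_div, ← add_div, div_eq_zero_iff]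
  left
  ring

lemma E_ne (v : E) : ¬ ((v : ℂ × ℂ).1 = 0 ∧ (v : ℂ × ℂ).2 = 0) := by
  rintro ⟨h1, h2⟩
  have := normE v
  rw [h1, h2] at this
  norm_num at this

/-- as a map into the quadric -/
def hermC : C(E, XQ) where
  toFun v := ⟨herm (v : ℂ × ℂ).1 (v : ℂ × ℂ).2,
    mem_of_eig _ _ _ _ _ (E_ne v) (herm_eig1 _ _ (E_ne v)) (herm_eig2 _ _ (E_ne v))⟩
  continuous_toFun := by
    refine Continuous.subtype_mk ?_ _
    have hn : ∀ v : E, (v : ℂ × ℂ).1 * starRingEnd ℂ (v : ℂ × ℂ).1 +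
      (v : ℂ × ℂ).2 * starRingEnd ℂ (v : ℂ × ℂ).2 ≠ 0 := fun v => n_ne _ _ (E_ne v)
    rw [continuous_pi_iff]
    intro i
    fin_cases i
    · exact Continuous.div (by fun_prop) (by fun_prop) hn
    · exact Continuous.div (by fun_prop) (by fun_prop) hn
    · exact Continuous.div (by fun_prop) (by fun_prop) hn

theorem null_of_avoid (M : C(S2, XQ)) (hM : ∀ s, ¬ inK (M s)) : M.Nullhomotopic := by
  obtain ⟨ψ, hψ, hnull⟩ := lift_null (toB M hM)
  have hsq : ∀ s, ((ψ s : E) : ℂ × ℂ).1 ^ 2 = ((nrm (M s) : ℝ) : ℂ)⁻¹ * al ((M s : Fin 3 → ℂ) 0) ((M s : Fin 3 → ℂ) 1) ((M s : Fin 3 → ℂ) 2) ∧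
      ((ψ s : E) : ℂ × ℂ).1 * ((ψ s : E) : ℂ × ℂ).2 = ((nrm (M s) : ℝ) : ℂ)⁻¹ * be ((M s : Fin 3 → ℂ) 0) ((M s : Fin 3 → ℂ) 1) ((M s : Fin 3 → ℂ) 2) ∧
      ((ψ s : E) : ℂ × ℂ).2 ^ 2 = ((nrm (M s) : ℝ) : ℂ)⁻¹ * ga ((M s : Fin 3 → ℂ) 0) ((M s : Fin 3 → ℂ) 1) ((M s : Fin 3 → ℂ) 2) := by
    intro s
    have h := congrArg (fun w : B => (w : ℂ × ℂ × ℂ)) (hψ s)
    simp only [sq, toB, ContinuousMap.coe_mk, Prod.mk.injEq] at h
    exact h
  have hE1 : ∀ s, ((M s : Fin 3 → ℂ) 2 - 1) * ((ψ s : E) : ℂ × ℂ).1 +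
      (M s : Fin 3 → ℂ) 0 * ((ψ s : E) : ℂ × ℂ).2 = 0 := by
    intro s
    obtain ⟨h1, h2, h3⟩ := hsq s
    by_cases ha : ((ψ s : E) : ℂ × ℂ).1 = 0
    · have hb : ((ψ s : E) : ℂ × ℂ).2 ≠ 0 := fun h => E_ne (ψ s) ⟨ha, h⟩
      apply (mul_eq_zero_iff_left hb).1
      linear_combination ((M s : Fin 3 → ℂ) 2 - 1) * h2 + (M s : Fin 3 → ℂ) 0 * h3 +
        ((nrm (M s) : ℝ) : ℂ)⁻¹ * eig2 _ _ _ (M s).2
    · apply (mul_eq_zero_iff_left ha).1
      linear_combination ((M s : Fin 3 → ℂ) 2 - 1) * h1 + (M s : Fin 3 → ℂ) 0 * h2 +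
        ((nrm (M s) : ℝ) : ℂ)⁻¹ * eig1 _ _ _ (M s).2
  have hE2 : ∀ s, (M s : Fin 3 → ℂ) 1 * ((ψ s : E) : ℂ × ℂ).1 +
      (1 + (M s : Fin 3 → ℂ) 2) * ((ψ s : E) : ℂ × ℂ).2 = 0 := by
    intro s
    obtain ⟨h1, h2, h3⟩ := hsq s
    by_cases ha : ((ψ s : E) : ℂ × ℂ).1 = 0
    · have hb : ((ψ s : E) : ℂ × ℂ).2 ≠ 0 := fun h => E_ne (ψ s) ⟨ha, h⟩
      apply (mul_eq_zero_iff_left hb).1
      linear_combination ((M s : Fin 3 → ℂ) 1) * h2 + (1 + (M s : Fin 3 → ℂ) 2) * h3 +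
        ((nrm (M s) : ℝ) : ℂ)⁻¹ * eig4 _ _ _ (M s).2
    · apply (mul_eq_zero_iff_left ha).1
      linear_combination ((M s : Fin 3 → ℂ) 1) * h1 + (1 + (M s : Fin 3 → ℂ) 2) * h2 +
        ((nrm (M s) : ℝ) : ℂ)⁻¹ * eig3 _ _ _ (M s).2
  let H : C(I × S2, XQ) := ⟨fun q => ⟨fun i => (1 - ((q.1 : ℝ) : ℂ)) * (M q.2 : Fin 3 → ℂ) i +
      ((q.1 : ℝ) : ℂ) * (hermC (ψ q.2) : Fin 3 → ℂ) i, by
        have h1 := hE1 q.2
        have h2 := hE2 q.2
        have h3 := herm_eig1 _ _ (E_ne (ψ q.2))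
        have h4 := herm_eig2 _ _ (E_ne (ψ q.2))
        refine mem_of_eig _ _ _ _ _ (E_ne (ψ q.2)) ?_ ?_
        · simp only [hermC, ContinuousMap.coe_mk]
          linear_combination (1 - ((q.1 : ℝ) : ℂ)) * h1 + ((q.1 : ℝ) : ℂ) * h3
        · simp only [hermC, ContinuousMap.coe_mk]
          linear_combination (1 - ((q.1 : ℝ) : ℂ)) * h2 + ((q.1 : ℝ) : ℂ) * h4⟩, by
      refine Continuous.subtype_mk ?_ _
      rw [continuous_pi_iff]
      intro i
      have c1 : Continuous fun q : I × S2 => (M q.2 : Fin 3 → ℂ) i :=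
        (continuous_apply i).comp (continuous_subtype_val.comp (M.continuous.comp continuous_snd))
      have c2 : Continuous fun q : I × S2 => (hermC (ψ q.2) : Fin 3 → ℂ) i :=
        (continuous_apply i).comp (continuous_subtype_val.comp
          (hermC.continuous.comp (ψ.continuous.comp continuous_snd)))
      have c3 : Continuous fun q : I × S2 => (((q.1 : ℝ)) : ℂ) :=
        Complex.continuous_ofReal.comp (continuous_subtype_val.comp continuous_fst)
      exact ((continuous_const.sub c3).mul c1).add (c3.mul c2)⟩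
  have k1 : M.Homotopic (hermC.comp ψ) := by
    refine ⟨⟨H, fun s => ?_, fun s => ?_⟩⟩
    · apply Subtype.ext
      funext i
      change (1 - (((0 : I) : ℝ) : ℂ)) * (M s : Fin 3 → ℂ) i +
        (((0 : I) : ℝ) : ℂ) * (hermC (ψ s) : Fin 3 → ℂ) i = (M s : Fin 3 → ℂ) i
      simp
    · apply Subtype.ext
      funext i
      change (1 - (((1 : I) : ℝ) : ℂ)) * (M s : Fin 3 → ℂ) i +
        (((1 : I) : ℝ) : ℂ) * (hermC (ψ s) : Fin 3 → ℂ) i = (hermC (ψ s) : Fin 3 → ℂ) i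
      simp
  obtain ⟨w, hw⟩ := hnull.comp_right hermC
  exact ⟨w, k1.trans hw⟩

end

end Pool.Agent.H326R3.Topo
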