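import Mathlib
import Pool.Agent.H326R3.T2
import Pool.Agent.H326R3.Q3

set_option autoImplicit false
set_option linter.unusedSimpArgs false

/-! The real sphere in the affine quadric: no homeomorphism moves it off itself. -/

open Set Metric Module MvPolynomial
open scoped unitInterval

namespace Pool.Agent.H326R3.Topo

open Pool.Agent.H472R3

noncomputable section

/-- inclusion of the real sphere -/
def io (s : S2) : Fin 3 → ℂ :=
  ![⟨(s : EuclideanSpace ℝ (Fin 3)) 1, (s : EuclideanSpace ℝ (Fin 3)) 2⟩,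
    ⟨-(s : EuclideanSpace ℝ (Fin 3)) 1, (s : EuclideanSpace ℝ (Fin 3)) 2⟩,
    ⟨(s : EuclideanSpace ℝ (Fin 3)) 0, 0⟩]

lemma io_eq (s : S2) : io s 0 * io s 1 = io s 2 ^ 2 - 1 := by
  have h := sq_sum s
  simp only [io, Matrix.cons_val_zero, Matrix.cons_val_one, Matrix.cons_val]
  apply Complex.ext
  · simp [pow_two]
    nlinarith
  · simp [pow_two]
    ring

lemma cont_io : Continuous io := by
  have hc : ∀ i : Fin 3, Continuous fun s : S2 => (s : EuclideanSpace ℝ (Fin 3)) i := by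
    intro i; fun_prop
  have hm : ∀ f g : S2 → ℝ, Continuous f → Continuous g → Continuous fun s => (⟨f s, g s⟩ : ℂ) := by
    intro f g hf hg
    have : (fun s => (⟨f s, g s⟩ : ℂ)) = fun s => (f s : ℂ) + (g s : ℂ) * Complex.I := by
      funext s; exact (Complex.mk_eq_add_mul_I _ _)
    rw [this]
    exact (Complex.continuous_ofReal.comp hf).add ((Complex.continuous_ofReal.comp hg).mul
      continuous_const)
  unfold io
  rw [continuous_pi_iff]
  intro i
  fin_cases i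
  · exact hm _ _ (hc 1) (hc 2)
  · exact hm _ _ (hc 1).neg (hc 2)
  · exact hm _ _ (hc 0) continuous_const

lemma mem_range_io (p : Fin 3 → ℂ) (hp : p 0 * p 1 = p 2 ^ 2 - 1) (hK : inK p) :
    p ∈ Set.range io := by
  obtain ⟨h1, h2⟩ := hK
  have him : (p 2).im = 0 := Complex.conj_eq_iff_im.1 h2
  have hre := congrArg Complex.re hp
  rw [h1] at hre
  simp [pow_two, him] at hre
  let v : EuclideanSpace ℝ (Fin 3) := (EuclideanSpace.equiv (Fin 3) ℝ).symm
    ![(p 2).re, (p 0).re, (p 0).im]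
  have hv0 : v 0 = (p 2).re := rfl
  have hv1 : v 1 = (p 0).re := rfl
  have hv2 : v 2 = (p 0).im := rfl
  have hv : v ∈ sphere (0 : EuclideanSpace ℝ (Fin 3)) 1 := by
    rw [mem_sphere_zero_iff_norm]
    have h3 := EuclideanSpace.norm_sq_eq v
    rw [Fin.sum_univ_three, hv0, hv1, hv2] at h3
    simp only [Real.norm_eq_abs, sq_abs] at h3
    have h4 : ‖v‖ ^ 2 = 1 := by rw [h3]; nlinarith
    nlinarith [norm_nonneg v]
  refine ⟨⟨v, hv⟩, ?_⟩
  funext i
  fin_cases i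
  · apply Complex.ext
    · change v 1 = _; rw [hv1]; rfl
    · change v 2 = _; rw [hv2]; rfl
  · change (⟨-v 1, v 2⟩ : ℂ) = p 1
    rw [h1, hv1, hv2]
    apply Complex.ext <;> simp
  · change (⟨v 0, 0⟩ : ℂ) = p 2
    rw [hv0]
    apply Complex.ext
    · rfl
    · simp [him]

/-- the retraction, before normalisation -/
def ka (p : Fin 3 → ℂ) : EuclideanSpace ℝ (Fin 3) :=
  (EuclideanSpace.equiv (Fin 3) ℝ).symm
    ![(p 2).re, ((p 0).re - (p 1).re) / 2, ((p 0).im + (p 1).im) / 2]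

lemma cont_ka : Continuous ka := by
  unfold ka
  refine (EuclideanSpace.equiv (Fin 3) ℝ).symm.continuous.comp ?_
  rw [continuous_pi_iff]
  intro i
  have c0 : ∀ j : Fin 3, Continuous fun p : Fin 3 → ℂ => (p j).re := fun j =>
    Complex.continuous_re.comp (continuous_apply j)
  have c1 : ∀ j : Fin 3, Continuous fun p : Fin 3 → ℂ => (p j).im := fun j =>
    Complex.continuous_im.comp (continuous_apply j)
  fin_cases i
  · exact c0 2
  · exact ((c0 0).sub (c0 1)).div_const 2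
  · exact ((c1 0).add (c1 1)).div_const 2

lemma ka_ne (p : Fin 3 → ℂ) (hp : p 0 * p 1 = p 2 ^ 2 - 1) : ka p ≠ 0 := by
  intro h
  have h0 : (p 2).re = 0 := congrArg (fun v : EuclideanSpace ℝ (Fin 3) => v 0) h
  have h1 : ((p 0).re - (p 1).re) / 2 = 0 :=
    congrArg (fun v : EuclideanSpace ℝ (Fin 3) => v 1) h
  have h2 : ((p 0).im + (p 1).im) / 2 = 0 :=
    congrArg (fun v : EuclideanSpace ℝ (Fin 3) => v 2) h
  have hre := congrArg Complex.re hp
  simp [pow_two, h0] at hre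
  have e1 : (p 1).re = (p 0).re := by linarith
  have e2 : (p 1).im = -(p 0).im := by linarith
  rw [e1, e2] at hre
  nlinarith [mul_self_nonneg (p 0).re, mul_self_nonneg (p 0).im, mul_self_nonneg (p 2).im]

lemma ka_io (s : S2) : ka (io s) = s := by
  ext i
  fin_cases i
  · rfl
  · change ((s : EuclideanSpace ℝ (Fin 3)) 1 - (-(s : EuclideanSpace ℝ (Fin 3)) 1)) / 2 = (s : EuclideanSpace ℝ (Fin 3)) 1
    ring
  · change ((s : EuclideanSpace ℝ (Fin 3)) 2 + ((s : EuclideanSpace ℝ (Fin 3)) 2)) / 2 = (s : EuclideanSpace ℝ (Fin 3)) 2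
    ring

theorem no_move (M : S2 → Fin 3 → ℂ) (R : (Fin 3 → ℂ) → Fin 3 → ℂ) (hMc : Continuous M)
    (hRc : Continuous R)
    (hM : ∀ s, M s 0 * M s 1 = M s 2 ^ 2 - 1)
    (hR : ∀ p : Fin 3 → ℂ, p 0 * p 1 = p 2 ^ 2 - 1 → R p 0 * R p 1 = R p 2 ^ 2 - 1)
    (hRM : ∀ s, R (M s) = io s) : ∃ s, M s ∈ Set.range io := by
  by_contra hcon
  push Not at hcon
  let M' : C(S2, XQ) := ⟨fun s => ⟨M s, hM s⟩, by fun_prop⟩
  have hav : ∀ s, ¬ inK (M' s) := fun s hs => hcon s (mem_range_io _ (hM s) hs)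
  have hnull := null_of_avoid M' hav
  let κ : C(XQ, EuclideanSpace ℝ (Fin 3)) := ⟨fun p => ka (R p), cont_ka.comp
    (hRc.comp continuous_subtype_val)⟩
  have hκ : ∀ p, κ p ≠ 0 := fun p => ka_ne _ (hR _ p.2)
  have h2 := hnull.comp_right (nm κ hκ)
  apply sphere_not_null 3
  have h3 : (nm κ hκ).comp M' = ContinuousMap.id _ := by
    ext1 s
    apply Subtype.ext
    change ‖ka (R (M s))‖⁻¹ • ka (R (M s)) = s
    rw [hRM, ka_io, mem_sphere_zero_iff_norm.1 s.2, inv_one, one_smul]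
  rw [← h3]
  exact h2

/-! ### Holomorphic convexity -/

/-- separating function -/
def sep (c : Fin 3 → ℝ) (p : Fin 3 → ℂ) : ℂ :=
  Complex.exp (-(((p 0 - p 1) / 2 - c 0) ^ 2 + ((p 0 + p 1) / (2 * Complex.I) - c 1) ^ 2 +
    (p 2 - c 2) ^ 2))

lemma diff_sep (c : Fin 3 → ℝ) : Differentiable ℂ (sep c) := by
  unfold sep
  have h : ∀ i : Fin 3, Differentiable ℂ fun p : Fin 3 → ℂ => p i := fun i =>
    differentiable_apply i
  apply Differentiable.cexp
  apply Differentiable.neg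
  have a0 : Differentiable ℂ fun p : Fin 3 → ℂ => (p 0 - p 1) / 2 :=
    by
      simp only [div_eq_mul_inv]
      exact ((h 0).sub (h 1)).mul_const (2 : ℂ)⁻¹
  have a1 : Differentiable ℂ fun p : Fin 3 → ℂ => (p 0 + p 1) / (2 * Complex.I) :=
    by
      simp only [div_eq_mul_inv]
      exact ((h 0).add (h 1)).mul_const (2 * Complex.I)⁻¹
  exact (((a0.sub_const _).pow 2).add ((a1.sub_const _).pow 2)).add (((h 2).sub_const _).pow 2)

lemma sep_le (c : Fin 3 → ℝ) (s : S2) : ‖sep c (io s)‖ ≤ 1 := by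
  have e0 : (io s 0 - io s 1) / 2 = (((s : EuclideanSpace ℝ (Fin 3)) 1 : ℝ) : ℂ) := by
    simp only [io, Matrix.cons_val_zero, Matrix.cons_val_one, Matrix.cons_val]
    apply Complex.ext
    · simp
    · simp
  have e1 : (io s 0 + io s 1) / (2 * Complex.I) = (((s : EuclideanSpace ℝ (Fin 3)) 2 : ℝ) : ℂ) := by
    simp only [io, Matrix.cons_val_zero, Matrix.cons_val_one, Matrix.cons_val]
    rw [div_eq_iff (by simp)]
    apply Complex.ext
    · simp
    · simp; ring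
  have e2 : io s 2 = (((s : EuclideanSpace ℝ (Fin 3)) 0 : ℝ) : ℂ) := by
    simp only [io, Matrix.cons_val_zero, Matrix.cons_val_one, Matrix.cons_val]
    rfl
  unfold sep
  rw [e0, e1, e2, Complex.norm_exp]
  rw [Real.exp_le_one_iff]
  have : (-((((s : EuclideanSpace ℝ (Fin 3)) 1 : ℝ) - (c 0 : ℂ)) ^ 2 +
      (((s : EuclideanSpace ℝ (Fin 3)) 2 : ℝ) - (c 1 : ℂ)) ^ 2 +
      (((s : EuclideanSpace ℝ (Fin 3)) 0 : ℝ) - (c 2 : ℂ)) ^ 2) : ℂ) =
      ((-(((s : EuclideanSpace ℝ (Fin 3)) 1 - c 0) ^ 2 +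
      ((s : EuclideanSpace ℝ (Fin 3)) 2 - c 1) ^ 2 +
      ((s : EuclideanSpace ℝ (Fin 3)) 0 - c 2) ^ 2) : ℝ) : ℂ) := by push_cast; ring
  rw [this, Complex.ofReal_re]
  nlinarith [sq_nonneg ((s : EuclideanSpace ℝ (Fin 3)) 1 - c 0),
    sq_nonneg ((s : EuclideanSpace ℝ (Fin 3)) 2 - c 1),
    sq_nonneg ((s : EuclideanSpace ℝ (Fin 3)) 0 - c 2)]

lemma convex_io (p : Fin 3 → ℂ) (hp : p 0 * p 1 = p 2 ^ 2 - 1)
    (hf : ∀ f : (Fin 3 → ℂ) → ℂ, Differentiable ℂ f → ∀ c : ℝ,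
      (∀ y ∈ Set.range io, ‖f y‖ ≤ c) → ‖f p‖ ≤ c) : p ∈ Set.range io := by
  set w0 := (p 0 - p 1) / 2 with hw0
  set w1 := (p 0 + p 1) / (2 * Complex.I) with hw1
  have h := hf (sep ![w0.re, w1.re, (p 2).re]) (diff_sep _) 1 (by
    rintro _ ⟨s, rfl⟩; exact sep_le _ s)
  unfold sep at h
  rw [← hw0, ← hw1, Complex.norm_exp, Real.exp_le_one_iff] at h
  simp only [Matrix.cons_val_zero, Matrix.cons_val_one, Matrix.cons_val] at h
  have key : ∀ w : ℂ, (w - (w.re : ℂ)) ^ 2 = ((-(w.im ^ 2) : ℝ) : ℂ) := by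
    intro w
    have : w - (w.re : ℂ) = (w.im : ℂ) * Complex.I := by
      apply Complex.ext <;> simp
    rw [this, mul_pow, Complex.I_sq]
    push_cast
    ring
  rw [key, key, key, ← Complex.ofReal_add, ← Complex.ofReal_add, ← Complex.ofReal_neg,
    Complex.ofReal_re] at h
  have i0 : w0.im = 0 := by
    nlinarith [sq_nonneg w0.im, sq_nonneg w1.im, sq_nonneg (p 2).im]
  have i1 : w1.im = 0 := by
    nlinarith [sq_nonneg w0.im, sq_nonneg w1.im, sq_nonneg (p 2).im]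
  have i2 : (p 2).im = 0 := by
    nlinarith [sq_nonneg w0.im, sq_nonneg w1.im, sq_nonneg (p 2).im]
  have c0 : starRingEnd ℂ w0 = w0 := Complex.conj_eq_iff_im.2 i0
  have c1 : starRingEnd ℂ w1 = w1 := Complex.conj_eq_iff_im.2 i1
  have hI : Complex.I ≠ 0 := Complex.I_ne_zero
  have e0 : p 0 = w0 + w1 * Complex.I := by
    rw [hw0, hw1]; field_simp; ring
  have e1 : p 1 = -w0 + w1 * Complex.I := by
    rw [hw0, hw1]; field_simp; ring
  apply mem_range_io p hp
  refine ⟨?_, Complex.conj_eq_iff_im.2 i2⟩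
  rw [e0, e1, map_add, map_mul, c0, c1, Complex.conj_I]
  ring

end

end Pool.Agent.H326R3.Topo
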