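import Mathlib
import Pool.Agent.H326R3.P2
import Pool.Agent.H326R3.D1
import Pool.Agent.H326R3.T3

set_option autoImplicit false
set_option linter.unusedSimpArgs false

/-! Two isomorphic surfaces in the product of the quadric surface with an affine space which are
not equivalent under homeomorphisms. -/

open MvPolynomial

namespace Pool.Agent.H326R3.Sur

open Pool.Agent.H326R3.Quad Pool.Agent.H326R3.Prd Pool.Agent.H326R3.Dim

noncomputable section

lemma eval_eqn0 : eval (![0, 0, 1] : Fin 3 → ℂ) eqn = 0 := by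
  rw [eval_eqn]; simp

lemma dim_A : ringKrullDim A = (2 : ℕ) :=
  dim_hyp' (n := 2) eqn irreducible_eqn.ne_zero _ eval_eqn0

lemma dim_gen {n d : ℕ} (hn : n = d + 1) (f : MvPolynomial (Fin n) ℂ) (hf : f ≠ 0)
    (a : Fin n → ℂ) (ha : eval a f = 0) :
    ringKrullDim (MvPolynomial (Fin n) ℂ ⧸ Ideal.span {f}) = d := by
  subst hn
  exact dim_hyp' f hf a ha

/-- concatenation -/
def mk2 {k : ℕ} (q : Fin 3 → ℂ) (w : Fin k → ℂ) : Fin (3 + k) → ℂ := Fin.addCases q w

lemma mk2_l {k : ℕ} (q : Fin 3 → ℂ) (w : Fin k → ℂ) (i : Fin 3) :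
    mk2 q w (Fin.castAdd k i) = q i := Fin.addCases_left i
lemma mk2_r {k : ℕ} (q : Fin 3 → ℂ) (w : Fin k → ℂ) (l : Fin k) :
    mk2 q w (Fin.natAdd 3 l) = w l := Fin.addCases_right l

/-- a point of the product -/
def pt0 (k : ℕ) : Fin (3 + k) → ℂ := mk2 ![0, 0, 1] (fun _ => 0)

lemma dim_R (m : ℕ) : ringKrullDim (R (3 + m)) = ((m + 5 : ℕ) : WithBot ℕ∞) := by
  apply dim_gen (by omega) (eqk (3 + m)) irreducible_eqk.ne_zero (pt0 (3 + m))
  rw [eval_eqk, pt0, mk2_l, mk2_l, mk2_l]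
  simp

instance : I.IsPrime := isPrime_I
instance : IsDomain A := Ideal.Quotient.isDomain I

/-- generators of the coordinate ring -/
def gA : Fin 3 → A := ![x, y, z]

/-- evaluation at a point of the quadric -/
def evq (q : Fin 3 → ℂ) (h : q 0 * q 1 = q 2 ^ 2 - 1) : A →ₐ[ℂ] ℂ := homOf q (by
  linear_combination h)

lemma evq_gA (q : Fin 3 → ℂ) (h : q 0 * q 1 = q 2 ^ 2 - 1) (i : Fin 3) :
    evq q h (gA i) = q i := by
  fin_cases i
  · change homOf q _ (Ideal.Quotient.mk I (X 0)) = _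
    rw [homOf_mk, aeval_X]; rfl
  · change homOf q _ (Ideal.Quotient.mk I (X 1)) = _
    rw [homOf_mk, aeval_X]; rfl
  · change homOf q _ (Ideal.Quotient.mk I (X 2)) = _
    rw [homOf_mk, aeval_X]; rfl

/-- the kernel ideal -/
def J {n : ℕ} (v : Fin n → A) : Ideal (MvPolynomial (Fin n) ℂ) :=
  RingHom.ker (aeval v : MvPolynomial (Fin n) ℂ →ₐ[ℂ] A)

lemma J_surj {n : ℕ} (v : Fin n → A) (c : Fin 3 → Fin n) (hc : ∀ i, v (c i) = gA i) :
    Function.Surjective (aeval v : MvPolynomial (Fin n) ℂ →ₐ[ℂ] A) := by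
  intro a
  obtain ⟨q, rfl⟩ := Ideal.Quotient.mk_surjective a
  refine ⟨rename c q, ?_⟩
  rw [aeval_rename]
  have h : (aeval (v ∘ c) : Pol →ₐ[ℂ] A) = Ideal.Quotient.mkₐ ℂ I := by
    apply MvPolynomial.algHom_ext
    intro i
    rw [aeval_X, Function.comp_apply, hc]
    fin_cases i <;> rfl
  rw [h]; rfl

lemma J_prime {n : ℕ} (v : Fin n → A) : (J v).IsPrime := RingHom.ker_isPrime _

/-- isomorphism of coordinate rings -/
def J_equiv {n : ℕ} (v : Fin n → A) (c : Fin 3 → Fin n) (hc : ∀ i, v (c i) = gA i) :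
    (MvPolynomial (Fin n) ℂ ⧸ J v) ≃ₐ[ℂ] A :=
  Ideal.quotientKerAlgEquivOfSurjective (J_surj v c hc)

lemma J_smooth {n : ℕ} (v : Fin n → A) (c : Fin 3 → Fin n) (hc : ∀ i, v (c i) = gA i) :
    Algebra.Smooth ℂ (MvPolynomial (Fin n) ℂ ⧸ J v) :=
  Algebra.Smooth.of_equiv (J_equiv v c hc).symm

lemma J_dim {n : ℕ} (v : Fin n → A) (c : Fin 3 → Fin n) (hc : ∀ i, v (c i) = gA i) :
    ringKrullDim (MvPolynomial (Fin n) ℂ ⧸ J v) = (2 : ℕ) := by
  rw [ringKrullDim_eq_of_ringEquiv (J_equiv v c hc).toRingEquiv, dim_A]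

lemma J_zero {n : ℕ} (v : Fin n → A) (p : Fin n → ℂ) (q : Fin 3 → ℂ)
    (h : q 0 * q 1 = q 2 ^ 2 - 1) (hv : ∀ i, evq q h (v i) = p i) :
    ∀ f ∈ J v, eval p f = 0 := by
  intro f hf
  have hf' : aeval v f = 0 := hf
  have h2 : (evq q h).comp (aeval v : MvPolynomial (Fin n) ℂ →ₐ[ℂ] A) = aeval p := by
    apply MvPolynomial.algHom_ext
    intro i
    rw [AlgHom.comp_apply, aeval_X, aeval_X, hv]
  have h3 := congrArg (fun φ => φ f) h2
  simp only [AlgHom.comp_apply, hf', map_zero] at h3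
  rw [← coe_aeval_eq_eval]
  exact h3.symm

/-- base point -/
def p0 : Fin 3 → ℂ := ![0, 0, 1]

/-- parametrisation of the first surface -/
def vX (k : ℕ) : Fin (3 + k) → A := Fin.addCases gA (fun _ => 0)

/-- parametrisation of the second surface -/
def vY (m : ℕ) : Fin (3 + (3 + m)) → A :=
  Fin.addCases (fun i => algebraMap ℂ A (p0 i)) (Fin.addCases gA (fun _ => 0))

lemma vX_l (k : ℕ) (i : Fin 3) : vX k (Fin.castAdd k i) = gA i := Fin.addCases_left i
lemma vX_r (k : ℕ) (j : Fin k) : vX k (Fin.natAdd 3 j) = 0 := Fin.addCases_right j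
lemma vY_l (m : ℕ) (i : Fin 3) : vY m (Fin.castAdd (3 + m) i) = algebraMap ℂ A (p0 i) :=
  Fin.addCases_left i
lemma vY_rl (m : ℕ) (i : Fin 3) : vY m (Fin.natAdd 3 (Fin.castAdd m i)) = gA i := by
  rw [vY, Fin.addCases_right, Fin.addCases_left]
lemma vY_rr (m : ℕ) (j : Fin m) : vY m (Fin.natAdd 3 (Fin.natAdd 3 j)) = 0 := by
  rw [vY, Fin.addCases_right, Fin.addCases_right]

lemma zX (k : ℕ) (p : Fin (3 + k) → ℂ) : (∀ f ∈ J (vX k), eval p f = 0) ↔
    (p (Fin.castAdd k 0) * p (Fin.castAdd k 1) = p (Fin.castAdd k 2) ^ 2 - 1 ∧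
      ∀ l : Fin k, p (Fin.natAdd 3 l) = 0) := by
  constructor
  · intro h
    constructor
    · have h1 := h (eqk k) (by
        change aeval (vX k) (eqk k) = 0
        simp only [eqk, map_add, map_mul, map_sub, map_pow, map_one, aeval_X, vX_l]
        change y * x + (1 - z ^ 2) = 0
        linear_combination rel)
      rw [eval_eqk] at h1
      linear_combination h1
    · intro l
      have h1 := h (X (Fin.natAdd 3 l)) (by
        change aeval (vX k) (X _) = 0
        rw [aeval_X, vX_r])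
      rwa [eval_X] at h1
  · rintro ⟨h1, h2⟩
    apply J_zero (vX k) p (fun i => p (Fin.castAdd k i)) h1
    intro i
    refine Fin.addCases (fun i => ?_) (fun l => ?_) i
    · rw [vX_l, evq_gA]
    · rw [vX_r, map_zero, h2]

lemma zY (m : ℕ) (p : Fin (3 + (3 + m)) → ℂ) : (∀ f ∈ J (vY m), eval p f = 0) ↔
    ((∀ i : Fin 3, p (Fin.castAdd (3 + m) i) = p0 i) ∧
      (p (Fin.natAdd 3 (Fin.castAdd m 0)) * p (Fin.natAdd 3 (Fin.castAdd m 1)) =
        p (Fin.natAdd 3 (Fin.castAdd m 2)) ^ 2 - 1) ∧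
      ∀ j : Fin m, p (Fin.natAdd 3 (Fin.natAdd 3 j)) = 0) := by
  constructor
  · intro h
    refine ⟨fun i => ?_, ?_, fun j => ?_⟩
    · have h1 := h (X (Fin.castAdd (3 + m) i) - C (p0 i)) (by
        change aeval (vY m) (X (Fin.castAdd (3 + m) i) - C (p0 i)) = 0
        rw [map_sub, aeval_X, aeval_C, vY_l, sub_self])
      rw [map_sub, eval_X, eval_C] at h1
      linear_combination h1
    · have h1 := h (X (Fin.natAdd 3 (Fin.castAdd m 1)) * X (Fin.natAdd 3 (Fin.castAdd m 0)) +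
        (1 - X (Fin.natAdd 3 (Fin.castAdd m 2)) ^ 2)) (by
        change aeval (vY m) (X (Fin.natAdd 3 (Fin.castAdd m 1)) *
          X (Fin.natAdd 3 (Fin.castAdd m 0)) + (1 - X (Fin.natAdd 3 (Fin.castAdd m 2)) ^ 2)) = 0
        simp only [map_add, map_mul, map_sub, map_pow, map_one, aeval_X, vY_rl]
        change y * x + (1 - z ^ 2) = 0
        linear_combination rel)
      simp only [map_add, map_mul, map_sub, map_pow, map_one, eval_X] at h1
      linear_combination h1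
    · have h1 := h (X (Fin.natAdd 3 (Fin.natAdd 3 j))) (by
        change aeval (vY m) (X _) = 0
        rw [aeval_X, vY_rr])
      rwa [eval_X] at h1
  · rintro ⟨h1, h2, h3⟩
    apply J_zero (vY m) p (fun i => p (Fin.natAdd 3 (Fin.castAdd m i))) h2
    intro i
    refine Fin.addCases (fun i => ?_) (fun l => ?_) i
    · rw [vY_l, AlgHom.commutes, h1]; rfl
    · refine Fin.addCases (fun i => ?_) (fun j => ?_) l
      · rw [vY_rl, evq_gA]
      · rw [vY_rr, map_zero, h3]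

lemma Ik_le_X (k : ℕ) : Ik k ≤ J (vX k) := by
  rw [Ik, Ideal.span_le, Set.singleton_subset_iff]
  change aeval (vX k) (eqk k) = 0
  simp only [eqk, map_add, map_mul, map_sub, map_pow, map_one, aeval_X, vX_l]
  change y * x + (1 - z ^ 2) = 0
  linear_combination rel

lemma Ik_le_Y (m : ℕ) : Ik (3 + m) ≤ J (vY m) := by
  rw [Ik, Ideal.span_le, Set.singleton_subset_iff]
  change aeval (vY m) (eqk (3 + m)) = 0
  simp only [eqk, map_add, map_mul, map_sub, map_pow, map_one, aeval_X, vY_l]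
  rw [← map_mul, ← map_pow, ← map_one (algebraMap ℂ A), ← map_sub, ← map_add]
  simp [p0]

/-- the isomorphism -/
def PP (m : ℕ) : Fin (3 + (3 + m)) → MvPolynomial (Fin (3 + (3 + m))) ℂ :=
  Fin.addCases (fun i => C (p0 i))
    (Fin.addCases (fun i => X (Fin.castAdd (3 + m) i)) (fun _ => 0))

/-- its inverse -/
def QQ (m : ℕ) : Fin (3 + (3 + m)) → MvPolynomial (Fin (3 + (3 + m))) ℂ :=
  Fin.addCases (fun i => X (Fin.natAdd 3 (Fin.castAdd m i))) (fun _ => 0)

lemma PP_l (m : ℕ) (p : Fin (3 + (3 + m)) → ℂ) (i : Fin 3) :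
    eval p (PP m (Fin.castAdd (3 + m) i)) = p0 i := by
  rw [PP, Fin.addCases_left, eval_C]
lemma PP_rl (m : ℕ) (p : Fin (3 + (3 + m)) → ℂ) (i : Fin 3) :
    eval p (PP m (Fin.natAdd 3 (Fin.castAdd m i))) = p (Fin.castAdd (3 + m) i) := by
  rw [PP, Fin.addCases_right, Fin.addCases_left, eval_X]
lemma PP_rr (m : ℕ) (p : Fin (3 + (3 + m)) → ℂ) (j : Fin m) :
    eval p (PP m (Fin.natAdd 3 (Fin.natAdd 3 j))) = 0 := by
  rw [PP, Fin.addCases_right, Fin.addCases_right, map_zero]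
lemma QQ_l (m : ℕ) (p : Fin (3 + (3 + m)) → ℂ) (i : Fin 3) :
    eval p (QQ m (Fin.castAdd (3 + m) i)) = p (Fin.natAdd 3 (Fin.castAdd m i)) := by
  rw [QQ, Fin.addCases_left, eval_X]
lemma QQ_r (m : ℕ) (p : Fin (3 + (3 + m)) → ℂ) (l : Fin (3 + m)) :
    eval p (QQ m (Fin.natAdd 3 l)) = 0 := by
  rw [QQ, Fin.addCases_right, map_zero]

lemma iso1 (m : ℕ) (p : Fin (3 + (3 + m)) → ℂ) (hp : ∀ f ∈ J (vX (3 + m)), eval p f = 0) :
    (∀ f ∈ J (vY m), eval (fun i => eval p (PP m i)) f = 0) ∧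
      (fun i => eval (fun i => eval p (PP m i)) (QQ m i)) = p := by
  rw [zX] at hp
  obtain ⟨h1, h2⟩ := hp
  constructor
  · rw [zY]
    refine ⟨fun i => PP_l m p i, ?_, fun j => PP_rr m p j⟩
    simp only [PP_rl]
    exact h1
  · funext i
    refine Fin.addCases (fun i => ?_) (fun l => ?_) i
    · rw [QQ_l, PP_rl]
    · rw [QQ_r, h2]

lemma iso2 (m : ℕ) (p : Fin (3 + (3 + m)) → ℂ) (hp : ∀ f ∈ J (vY m), eval p f = 0) :
    (∀ f ∈ J (vX (3 + m)), eval (fun i => eval p (QQ m i)) f = 0) ∧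
      (fun i => eval (fun i => eval p (QQ m i)) (PP m i)) = p := by
  rw [zY] at hp
  obtain ⟨h1, h2, h3⟩ := hp
  constructor
  · rw [zX]
    refine ⟨?_, fun l => QQ_r m p l⟩
    simp only [QQ_l]
    exact h2
  · funext i
    refine Fin.addCases (fun i => ?_) (fun l => ?_) i
    · rw [PP_l, h1]
    · refine Fin.addCases (fun i => ?_) (fun j => ?_) l
      · rw [PP_rl, QQ_l]
      · rw [PP_rr, h3]

/-! ### Topology -/

open Pool.Agent.H326R3.Topo Pool.Agent.H472R3
open scoped unitInterval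

/-- the product as a space -/
abbrev ZZ (k : ℕ) := {p : Fin (3 + k) → ℂ // p (Fin.castAdd k 0) * p (Fin.castAdd k 1) =
  p (Fin.castAdd k 2) ^ 2 - 1}

/-- inclusion of the sphere in the first surface -/
def jj (k : ℕ) : C(S2, ZZ k) where
  toFun s := ⟨mk2 (Topo.io s) (fun _ => 0), by
    rw [mk2_l, mk2_l, mk2_l]
    exact io_eq s⟩
  continuous_toFun := by
    refine Continuous.subtype_mk ?_ _
    rw [continuous_pi_iff]
    intro i
    refine Fin.addCases (fun i => ?_) (fun l => ?_) i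
    · simp only [mk2_l]
      exact (continuous_apply i).comp cont_io
    · simp only [mk2_r]
      exact continuous_const

lemma jj_coe (k : ℕ) (s : S2) : (jj k s : Fin (3 + k) → ℂ) = mk2 (Topo.io s) (fun _ => 0) := rfl

/-- projection to the quadric followed by the retraction -/
def rr (k : ℕ) : C(ZZ k, EuclideanSpace ℝ (Fin 3)) where
  toFun p := ka (fun i => (p : Fin (3 + k) → ℂ) (Fin.castAdd k i))
  continuous_toFun := by
    refine cont_ka.comp ?_
    rw [continuous_pi_iff]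
    intro i
    exact (continuous_apply _).comp continuous_subtype_val

lemma rr_ne (k : ℕ) (p : ZZ k) : rr k p ≠ 0 :=
  ka_ne (fun i => (p : Fin (3 + k) → ℂ) (Fin.castAdd k i)) p.2

lemma hp0 : (p0 0 : ℂ) * p0 1 = p0 2 ^ 2 - 1 := by simp [p0]

/-- the contraction -/
def HH (k : ℕ) (F : C(ZZ k, ZZ k)) : C(I × S2, ZZ k) where
  toFun q := ⟨mk2 p0
      (fun l => (1 - ((q.1 : ℝ) : ℂ)) * (F (jj k q.2) : Fin (3 + k) → ℂ) (Fin.natAdd 3 l)), by
        rw [mk2_l, mk2_l, mk2_l]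
        exact hp0⟩
  continuous_toFun := by
    refine Continuous.subtype_mk ?_ _
    rw [continuous_pi_iff]
    intro i
    refine Fin.addCases (fun i => ?_) (fun l => ?_) i
    · simp only [mk2_l]
      exact continuous_const
    · simp only [mk2_r]
      have c1 : Continuous fun q : I × S2 => (F (jj k q.2) : Fin (3 + k) → ℂ) (Fin.natAdd 3 l) :=
        (continuous_apply _).comp (continuous_subtype_val.comp
          (F.continuous.comp ((jj k).continuous.comp continuous_snd)))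
      have c3 : Continuous fun q : I × S2 => (((q.1 : ℝ)) : ℂ) :=
        Complex.continuous_ofReal.comp (continuous_subtype_val.comp continuous_fst)
      exact (continuous_const.sub c3).mul c1

lemma HH_coe (k : ℕ) (F : C(ZZ k, ZZ k)) (t : I) (s : S2) : (HH k F (t, s) : Fin (3 + k) → ℂ) =
    mk2 p0 (fun l => (1 - ((t : ℝ) : ℂ)) * (F (jj k s) : Fin (3 + k) → ℂ) (Fin.natAdd 3 l)) := rfl

theorem no_homeo (k : ℕ) (F G : C(ZZ k, ZZ k)) (hGF : ∀ p, G (F p) = p)
    (hF : ∀ p : ZZ k, (∀ l : Fin k, (p : Fin (3 + k) → ℂ) (Fin.natAdd 3 l) = 0) →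
      ∀ i : Fin 3, (F p : Fin (3 + k) → ℂ) (Fin.castAdd k i) = p0 i) : False := by
  let w : ZZ k := ⟨mk2 p0 (fun _ => 0), by
    rw [mk2_l, mk2_l, mk2_l]
    exact hp0⟩
  have hj : ∀ (s : S2) (l : Fin k), (jj k s : Fin (3 + k) → ℂ) (Fin.natAdd 3 l) = 0 := by
    intro s l
    rw [jj_coe, mk2_r]
  have hnull : (F.comp (jj k)).Nullhomotopic := by
    refine ⟨w, ⟨⟨HH k F, fun s => ?_, fun s => ?_⟩⟩⟩
    · apply Subtype.ext
      change (HH k F (0, s) : Fin (3 + k) → ℂ) = (F (jj k s) : Fin (3 + k) → ℂ)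
      rw [HH_coe]
      funext i
      refine Fin.addCases (fun i => ?_) (fun l => ?_) i
      · rw [mk2_l]
        exact (hF _ (hj s) i).symm
      · rw [mk2_r]
        simp
    · apply Subtype.ext
      change (HH k F (1, s) : Fin (3 + k) → ℂ) = mk2 p0 (fun _ => 0)
      rw [HH_coe]
      funext i
      refine Fin.addCases (fun i => ?_) (fun l => ?_) i
      · rw [mk2_l, mk2_l]
      · rw [mk2_r, mk2_r]
        simp
  have h2 := hnull.comp_right ((nm (rr k) (rr_ne k)).comp G)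
  apply sphere_not_null 3
  have h3 : ((nm (rr k) (rr_ne k)).comp G).comp (F.comp (jj k)) = ContinuousMap.id _ := by
    ext1 s
    apply Subtype.ext
    change ‖rr k (G (F (jj k s)))‖⁻¹ • rr k (G (F (jj k s))) = s
    rw [hGF]
    have h4 : rr k (jj k s) = s := by
      change ka (fun i => (mk2 (Topo.io s) (fun _ => 0) (Fin.castAdd k i) : ℂ)) = s
      simp only [mk2_l]
      exact ka_io s
    rw [h4, mem_sphere_zero_iff_norm.1 s.2, inv_one, one_smul]
  rw [← h3]
  exact h2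

end

end Pool.Agent.H326R3.Sur
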